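import Pool.Agent.helper616_TS.Defs

/-!
# Project TS (helper616): Plancherel for sums of translates
-/

set_option autoImplicit false
set_option maxHeartbeats 4000000

open Finset MeasureTheory Filter Topology

namespace Pool.Agent.helper616_TS

namespace TS5


theorem ts5_norm (v ξ : ℝ) :
    ‖Complex.exp (↑(-2 * Real.pi * v * ξ) * Complex.I)‖ = 1 := by
  rw [Complex.norm_exp_ofReal_mul_I]

theorem ts5_int (f : ℝ → ℂ) (hf : Integrable f) (ξ : ℝ) :
    Integrable (fun v : ℝ => Complex.exp (↑(-2 * Real.pi * v * ξ) * Complex.I) * f v) := by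
  refine hf.norm.mono' ?_ ?_
  · apply AEStronglyMeasurable.mul _ hf.aestronglyMeasurable
    apply Continuous.aestronglyMeasurable
    fun_prop
  · filter_upwards with v
    rw [norm_mul, ts5_norm, one_mul]

open FourierTransform in
theorem ts5_tr (g : ℝ → ℂ) (a ξ : ℝ) :
    𝓕 (fun v => g (v + a)) ξ = e (ξ * a) * 𝓕 g ξ := by
  rw [Real.fourier_real_eq_integral_exp_smul, Real.fourier_real_eq_integral_exp_smul]
  have h := integral_add_right_eq_self (μ := (volume : Measure ℝ))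
    (fun v : ℝ => Complex.exp (↑(-2 * Real.pi * (v - a) * ξ) * Complex.I) • g v) a
  simp only [add_sub_cancel_right] at h
  rw [h, ← integral_const_mul]
  congr 1
  funext v
  unfold e
  rw [smul_eq_mul, smul_eq_mul, ← mul_assoc, ← Complex.exp_add]
  congr 2
  push_cast
  ring

open FourierTransform in
theorem ts5_sum (g : ℝ → ℂ) (hg : Integrable g) (L : ℕ) (w ℓ : ℕ → ℝ) (ξ : ℝ) :
    𝓕 (fun u => ∑ n ∈ range L, (w n : ℂ) * g (u + ℓ n)) ξ =
      𝓕 g ξ * ∑ n ∈ range L, (w n : ℂ) * e (ξ * ℓ n) := by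
  rw [Real.fourier_real_eq_integral_exp_smul]
  simp only [smul_eq_mul, Finset.mul_sum]
  rw [integral_finsetSum]
  · apply Finset.sum_congr rfl
    intro n _
    have h1 : ∫ v : ℝ, Complex.exp (↑(-2 * Real.pi * v * ξ) * Complex.I) * ((w n : ℂ) * g (v + ℓ n)) =
        (w n : ℂ) * 𝓕 (fun v => g (v + ℓ n)) ξ := by
      rw [Real.fourier_real_eq_integral_exp_smul, ← integral_const_mul]
      congr 1
      funext v
      rw [smul_eq_mul]
      ring
    rw [h1, ts5_tr]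
    ring
  · intro n _
    exact ts5_int _ ((hg.comp_add_right (ℓ n)).const_mul _) ξ

open FourierTransform in
theorem plancherel_sum (hPl : ∀ (g : ℝ → ℂ), Integrable g → MemLp g 2 →
      ∫⁻ ξ : ℝ, ‖𝓕 g ξ‖ₑ ^ 2 = ∫⁻ z : ℝ, ‖g z‖ₑ ^ 2)
    (g : ℝ → ℂ) (hg : Integrable g) (hg2 : MemLp g 2) (L : ℕ) (w ℓ : ℕ → ℝ) :
    ∫⁻ u : ℝ, ‖∑ n ∈ range L, (w n : ℂ) * g (u + ℓ n)‖ₑ ^ 2 =
      ∫⁻ ξ : ℝ, ‖𝓕 g ξ‖ₑ ^ 2 * ‖∑ n ∈ range L, (w n : ℂ) * e (ξ * ℓ n)‖ₑ ^ 2 := by
  have hi : Integrable (fun u => ∑ n ∈ range L, (w n : ℂ) * g (u + ℓ n)) := by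
    apply integrable_finsetSum
    intro n _
    exact (hg.comp_add_right (ℓ n)).const_mul _
  have hm : MemLp (fun u => ∑ n ∈ range L, (w n : ℂ) * g (u + ℓ n)) 2 := by
    apply memLp_finsetSum
    intro n _
    exact (hg2.comp_measurePreserving (measurePreserving_add_right volume (ℓ n))).const_mul _
  rw [← hPl _ hi hm]
  congr 1
  funext ξ
  rw [ts5_sum g hg L w ℓ ξ, enorm_mul, mul_pow]

end TS5

end Pool.Agent.helper616_TS
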