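import Pool.Agent.helper616_TS.Defs

/-!
# Project TS (helper616): high frequencies in several variables
-/

set_option autoImplicit false
set_option maxHeartbeats 4000000

open Finset MeasureTheory Filter Topology

namespace Pool.Agent.helper616_TS

namespace TU5


theorem lint_prod (n : ℕ) (f : Fin n → ℝ → ENNReal) (hf : ∀ j, Measurable (f j)) :
    ∫⁻ ξ : Fin n → ℝ, ∏ j, f j (ξ j) = ∏ j, ∫⁻ x, f j x := by
  induction n with
  | zero =>
    simp only [Finset.univ_eq_empty, Finset.prod_empty, lintegral_const, one_mul]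
    rw [volume_pi, ← Set.pi_univ Set.univ, Measure.pi_pi]
    simp
  | succ n ih =>
    have h1 := (volume_preserving_piFinSuccAbove (fun _ : Fin (n + 1) => ℝ) 0).symm
    have hm : Measurable fun ξ : Fin (n + 1) → ℝ => ∏ j, f j (ξ j) :=
      Finset.measurable_prod _ fun j _ => (hf j).comp (measurable_pi_apply j)
    rw [← h1.lintegral_comp hm, Fin.prod_univ_succ, ← ih (fun j => f j.succ) (fun j => hf _)]
    have hm2 : Measurable fun ξ : Fin n → ℝ => ∏ j, f (Fin.succ j) (ξ j) :=
      Finset.measurable_prod _ fun j _ => (hf j.succ).comp (measurable_pi_apply j)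
    rw [← lintegral_prod_mul (hf 0).aemeasurable hm2.aemeasurable]
    refine lintegral_congr fun x => ?_
    simp only [MeasurableEquiv.piFinSuccAbove_symm_apply, Fin.insertNthEquiv,
      Fin.prod_univ_succ, Fin.insertNth_zero, Equiv.coe_fn_mk, Fin.cons_succ, Fin.cons_zero]
    rfl

theorem tail (k : ℕ) (F : Fin k → ℝ → ENNReal) (hF : ∀ j, Measurable (F j)) (I : Fin k → ENNReal)
    (hI : ∀ j, ∫⁻ x : ℝ, F j x ≤ I j) (c : Fin k → ℝ) (hc : ∀ j, 0 < c j) (Y : ℝ) (T : ENNReal)
    (hT : ∀ j, ∫⁻ x in {x : ℝ | Y < |x|}, F j x ≤ T) :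
    ∫⁻ ξ in {ξ : Fin k → ℝ | Y * ∑ j, c j < |∑ j, c j * ξ j|}, ∏ j, F j (ξ j) ≤
      ∑ i, T * ∏ j ∈ univ.erase i, I j := by
  classical
  have hsub : {ξ : Fin k → ℝ | Y * ∑ j, c j < |∑ j, c j * ξ j|} ⊆
      ⋃ i : Fin k, {ξ : Fin k → ℝ | Y < |ξ i|} := by
    intro ξ hξ
    rw [Set.mem_setOf_eq] at hξ
    rw [Set.mem_iUnion]
    by_contra hcon
    push Not at hcon
    have h1 : ∀ i, |ξ i| ≤ Y := fun i => not_lt.1 (hcon i)
    have h2 : |∑ j, c j * ξ j| ≤ ∑ j, c j * Y := by
      refine (Finset.abs_sum_le_sum_abs _ _).trans (Finset.sum_le_sum fun j _ => ?_)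
      rw [abs_mul, abs_of_pos (hc j)]
      exact mul_le_mul_of_nonneg_left (h1 j) (hc j).le
    rw [← Finset.sum_mul, mul_comm] at h2
    linarith
  have hA : ∀ i : Fin k, MeasurableSet {ξ : Fin k → ℝ | Y < |ξ i|} := fun i =>
    measurableSet_lt measurable_const (measurable_pi_apply i).abs
  have hB : MeasurableSet {x : ℝ | Y < |x|} := measurableSet_lt measurable_const measurable_id.abs
  refine (lintegral_mono_set hsub).trans ((lintegral_iUnion_le _ _).trans ?_)
  rw [tsum_fintype]
  refine Finset.sum_le_sum fun i _ => ?_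
  obtain ⟨G, hG⟩ : ∃ G : Fin k → ℝ → ENNReal, G = fun j => if j = i then
    Set.indicator {x : ℝ | Y < |x|} (F i) else F j := ⟨_, rfl⟩
  have hGm : ∀ j, Measurable (G j) := by
    intro j
    rw [hG]
    by_cases hj : j = i
    · simp only [hj, if_true]
      exact (hF i).indicator hB
    · simp only [hj, if_false]
      exact hF j
  have h1 : ∫⁻ ξ in {ξ : Fin k → ℝ | Y < |ξ i|}, ∏ j, F j (ξ j) =
      ∫⁻ ξ : Fin k → ℝ, ∏ j, G j (ξ j) := by
    rw [← lintegral_indicator (hA i)]
    refine lintegral_congr fun ξ => ?_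
    rw [← Finset.mul_prod_erase univ (fun j => G j (ξ j)) (Finset.mem_univ i)]
    have h2 : ∏ j ∈ univ.erase i, G j (ξ j) = ∏ j ∈ univ.erase i, F j (ξ j) := by
      refine Finset.prod_congr rfl fun j hj => ?_
      rw [hG]
      simp only [Finset.ne_of_mem_erase hj, if_false]
    rw [h2, hG]
    simp only [if_true]
    by_cases hξ : Y < |ξ i|
    · rw [Set.indicator_of_mem (by exact hξ), Set.indicator_of_mem (by exact hξ),
        Finset.mul_prod_erase univ (fun j => F j (ξ j)) (Finset.mem_univ i)]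
    · rw [Set.indicator_of_notMem (by exact hξ), Set.indicator_of_notMem (by exact hξ), zero_mul]
  rw [h1, lint_prod k G hGm, ← Finset.mul_prod_erase univ (fun j => ∫⁻ x, G j x)
    (Finset.mem_univ i)]
  refine mul_le_mul' ?_ (Finset.prod_le_prod' fun j hj => ?_)
  · rw [hG]
    simp only [if_true]
    rw [lintegral_indicator hB]
    exact hT i
  · rw [hG]
    simp only [Finset.ne_of_mem_erase hj, if_false]
    exact hI j

end TU5

end Pool.Agent.helper616_TS
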