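import Pool.Agent.helper616_TS.Defs

/-!
# Project TS (helper616): from weighted sums to numbers of primes
-/

set_option autoImplicit false
set_option maxHeartbeats 4000000

open Finset MeasureTheory Filter Topology

namespace Pool.Agent.helper616_TS

namespace TS15


/-- logarithm of the floor -/
theorem cg_log_floor (y : ℕ → ℝ) (d : ℝ) (hd : 0 < d)
    (hx : Tendsto (fun n : ℕ => Real.log (y n) / Real.log n) atTop (𝓝 d))
    (hx0 : ∀ᶠ n : ℕ in atTop, 0 < y n) :
    Tendsto (fun n : ℕ => Real.log (⌊y n⌋₊ : ℝ) / Real.log n) atTop (𝓝 d) := by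
  have hlogn : Tendsto (fun n : ℕ => Real.log (n : ℝ)) atTop atTop :=
    Real.tendsto_log_atTop.comp tendsto_natCast_atTop_atTop
  have hlogy : Tendsto (fun n : ℕ => Real.log (y n)) atTop atTop := by
    have h1 : Tendsto (fun n : ℕ => (Real.log (y n) / Real.log n) * Real.log (n : ℝ)) atTop atTop :=
      Filter.Tendsto.pos_mul_atTop hd hx hlogn
    refine h1.congr' ?_
    filter_upwards [hlogn.eventually_gt_atTop 0] with n hn
    field_simp
  have hy : Tendsto y atTop atTop := by
    have h1 : Tendsto (fun n : ℕ => Real.exp (Real.log (y n))) atTop atTop :=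
      Real.tendsto_exp_atTop.comp hlogy
    refine h1.congr' ?_
    filter_upwards [hx0] with n hn
    exact Real.exp_log hn
  have hlow : Tendsto (fun n : ℕ => Real.log (y n) / Real.log n - Real.log 2 / Real.log n) atTop (𝓝 d) := by
    have h2 : Tendsto (fun n : ℕ => Real.log 2 / Real.log (n : ℝ)) atTop (𝓝 0) :=
      Tendsto.const_div_atTop hlogn _
    simpa using hx.sub h2
  refine tendsto_of_tendsto_of_tendsto_of_le_of_le' hlow hx ?_ ?_
  · filter_upwards [hlogn.eventually_gt_atTop 0, hy.eventually_ge_atTop 2] with n hn hyn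
    rw [← sub_div]
    apply div_le_div_of_nonneg_right _ hn.le
    rw [← Real.log_div (by linarith) (by norm_num)]
    apply Real.log_le_log (by linarith)
    have := Nat.lt_floor_add_one (y n)
    linarith
  · filter_upwards [hlogn.eventually_gt_atTop 0, hy.eventually_ge_atTop 2] with n hn hyn
    apply div_le_div_of_nonneg_right _ hn.le
    apply Real.log_le_log
    · have := Nat.lt_floor_add_one (y n)
      linarith
    · exact Nat.floor_le (by linarith)

theorem count_gen (th : ℕ → ℝ) (hth : ∀ n : ℕ, th n = if n.Prime then Real.log n else 0) (k : ℕ) (x : Fin k → ℕ → ℝ) (d : Fin k → ℝ) (hd : ∀ i, 0 < d i)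
    (hx : ∀ i, Tendsto (fun n : ℕ => Real.log (x i n) / Real.log n) atTop (𝓝 (d i)))
    (hx0 : ∀ i, ∀ᶠ n : ℕ in atTop, 0 < x i n)
    (hs : Tendsto (fun N : ℕ => (∑ n ∈ range N, ∏ i, th ⌊x i n⌋₊) / N) atTop (𝓝 1)) :
    Tendsto (fun N : ℕ => (((range N).filter (fun n => ∀ i, (⌊x i n⌋₊).Prime)).card : ℝ) / (N / ((∏ i, d i) * (Real.log N) ^ k))) atTop (𝓝 1) := by
  classical
  set D : ℝ := ∏ i, d i with hD
  have hDpos : 0 < D := Finset.prod_pos (fun i _ => hd i)
  have hlogn : Tendsto (fun n : ℕ => Real.log (n : ℝ)) atTop atTop :=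
    Real.tendsto_log_atTop.comp tendsto_natCast_atTop_atTop
  set a : ℕ → ℝ := fun n => if ∀ i, (⌊x i n⌋₊).Prime then 1 else 0 with ha
  have ha0 : ∀ n, 0 ≤ a n := by intro n; simp only [ha]; split_ifs <;> norm_num
  have ha1 : ∀ n, a n ≤ 1 := by intro n; simp only [ha]; split_ifs <;> norm_num
  have hcard : ∀ N : ℕ, (((range N).filter (fun n => ∀ i, (⌊x i n⌋₊).Prime)).card : ℝ) = ∑ n ∈ range N, a n := by
    intro N
    rw [Finset.card_filter]
    push_cast
    rfl
  set R : ℕ → ℝ := fun n => ∏ i, Real.log (⌊x i n⌋₊ : ℝ) with hR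
  set E : ℕ → ℝ := fun n => ∏ i, th ⌊x i n⌋₊ with hE
  have hEa : ∀ n, E n = a n * R n := by
    intro n
    simp only [hE, ha, hR]
    split_ifs with h
    · rw [one_mul]
      apply Finset.prod_congr rfl
      intro i _
      rw [hth, if_pos (h i)]
    · push Not at h
      obtain ⟨i, hi⟩ := h
      rw [zero_mul]
      apply Finset.prod_eq_zero (Finset.mem_univ i)
      rw [hth, if_neg hi]
  have hth0 : ∀ n, 0 ≤ th n := by
    intro n
    rw [hth]
    split_ifs
    · exact Real.log_natCast_nonneg n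
    · exact le_rfl
  have hE0 : ∀ n, 0 ≤ E n := fun n => Finset.prod_nonneg (fun i _ => hth0 _)
  -- R n / (log n)^k → D
  have hRlim : Tendsto (fun n : ℕ => R n / (Real.log n) ^ k) atTop (𝓝 D) := by
    have h1 : Tendsto (fun n : ℕ => ∏ i, (Real.log (⌊x i n⌋₊ : ℝ) / Real.log n)) atTop (𝓝 (∏ i, d i)) :=
      tendsto_finsetProd _ (fun i _ => cg_log_floor (x i) (d i) (hd i) (hx i) (hx0 i))
    refine h1.congr ?_
    intro n
    rw [Finset.prod_div_distrib]
    simp [hR]
  -- rewrite the ratio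
  have hratio : ∀ N : ℕ, (((range N).filter (fun n => ∀ i, (⌊x i n⌋₊).Prime)).card : ℝ) / (N / (D * (Real.log N) ^ k))
      = (∑ n ∈ range N, a n) * (D * (Real.log N) ^ k) / N := by
    intro N
    rw [hcard]
    rw [div_div_eq_mul_div]
  simp only [hratio]
  rw [tendsto_order]
  constructor
  · -- lower bound
    intro c hc
    obtain ⟨c', hc1, hc2⟩ := exists_between (max_lt hc (by norm_num : (0:ℝ) < 1))
    have hcc' : c < c' := lt_of_le_of_lt (le_max_left _ _) hc1
    have hc'0 : 0 < c' := lt_of_le_of_lt (le_max_right _ _) hc1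
    have hDc : D < D / c' := by
      rw [lt_div_iff₀ hc'0]; nlinarith
    have hev : ∀ᶠ n : ℕ in atTop, R n / (Real.log n) ^ k ≤ D / c' ∧ 1 < Real.log (n : ℝ) := by
      filter_upwards [hRlim.eventually (gt_mem_nhds hDc), hlogn.eventually_gt_atTop 1] with n h1 h2
      exact ⟨h1.le, h2⟩
    obtain ⟨n0, hn0⟩ := eventually_atTop.1 hev
    have hlim : Tendsto (fun N : ℕ => c' * ((∑ n ∈ range N, E n) / N - (∑ n ∈ range n0, E n) / N)) atTop (𝓝 (c' * (1 - 0))) := by
      apply Tendsto.const_mul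
      apply hs.sub
      exact Tendsto.const_div_atTop tendsto_natCast_atTop_atTop _
    have hlim' := hlim.eventually (lt_mem_nhds (by linarith : c < c' * (1 - 0)))
    filter_upwards [hlim', eventually_ge_atTop (n0 + 1)] with N hN1 hN2
    refine lt_of_lt_of_le hN1 ?_
    have hNpos : (0:ℝ) < N := by exact_mod_cast (by omega : 0 < N)
    rw [← sub_div, mul_div_assoc']
    apply div_le_div_of_nonneg_right _ hNpos.le
    -- c' (E(N) − E(n0)) ≤ A(N) D (log N)^k
    have hsplit : ∑ n ∈ range N, E n - ∑ n ∈ range n0, E n = ∑ n ∈ Finset.Ico n0 N, E n := by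
      rw [Finset.sum_Ico_eq_sub _ (by omega)]
    rw [hsplit]
    have hb : ∑ n ∈ Finset.Ico n0 N, E n ≤ ∑ n ∈ Finset.Ico n0 N, a n * ((D / c') * (Real.log N) ^ k) := by
      apply Finset.sum_le_sum
      intro n hn
      rw [Finset.mem_Ico] at hn
      obtain ⟨h1, h2⟩ := hn0 n hn.1
      rw [hEa]
      apply mul_le_mul_of_nonneg_left _ (ha0 n)
      have hp : 0 < (Real.log (n:ℝ)) ^ k := by positivity
      rw [div_le_iff₀ hp] at h1
      refine h1.trans ?_
      apply mul_le_mul_of_nonneg_left _ (by positivity)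
      apply pow_le_pow_left₀ (by linarith)
      apply Real.log_le_log
      · have : n ≠ 0 := by
          rintro rfl
          simp at h2
          linarith
        exact_mod_cast Nat.pos_of_ne_zero this
      · exact_mod_cast hn.2.le
    have hb2 : ∑ n ∈ Finset.Ico n0 N, a n ≤ ∑ n ∈ range N, a n := by
      apply Finset.sum_le_sum_of_subset_of_nonneg
      · intro n hn
        rw [Finset.mem_Ico] at hn
        exact Finset.mem_range.2 hn.2
      · intro n _ _; exact ha0 n
    rw [← Finset.sum_mul] at hb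
    have hlogN : 0 ≤ Real.log (N:ℝ) := Real.log_natCast_nonneg N
    calc c' * ∑ n ∈ Finset.Ico n0 N, E n ≤ c' * ((∑ n ∈ Finset.Ico n0 N, a n) * ((D / c') * (Real.log N) ^ k)) := by
          apply mul_le_mul_of_nonneg_left hb hc'0.le
      _ = (∑ n ∈ Finset.Ico n0 N, a n) * (D * (Real.log N) ^ k) := by
          field_simp
      _ ≤ (∑ n ∈ range N, a n) * (D * (Real.log N) ^ k) := by
          apply mul_le_mul_of_nonneg_right hb2 (by positivity)
  · -- upper bound
    intro c hc
    -- c1 > 1 with c1^2 < c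
    obtain ⟨c1, hc11, hc12⟩ : ∃ c1 : ℝ, 1 < c1 ∧ c1 ^ 2 < c := by
      have h1 : 1 < Real.sqrt c := by
        rw [Real.lt_sqrt (by norm_num)]; simpa using hc
      obtain ⟨c1, h2, h3⟩ := exists_between h1
      refine ⟨c1, h2, ?_⟩
      rw [← Real.lt_sqrt (by linarith)]
      exact h3
    have hc10 : 0 < c1 := by linarith
    -- δ with (1-δ)^k ≥ 1/c1
    obtain ⟨δ, hδ0, hδ1, hδ2⟩ : ∃ δ : ℝ, 0 < δ ∧ δ < 1 ∧ 1 / c1 ≤ (1 - δ) ^ k := by
      have hcont : Tendsto (fun δ : ℝ => (1 - δ) ^ k) (𝓝[>] 0) (𝓝 1) := by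
        have : Tendsto (fun δ : ℝ => (1 - δ) ^ k) (𝓝 0) (𝓝 ((1 - 0) ^ k)) := by
          apply Continuous.tendsto
          fun_prop
        rw [sub_zero, one_pow] at this
        exact this.mono_left nhdsWithin_le_nhds
      have h1 : 1 / c1 < 1 := by
        rw [div_lt_one hc10]; exact hc11
      have hev := hcont.eventually (lt_mem_nhds h1)
      have hev2 : ∀ᶠ δ : ℝ in 𝓝[>] 0, δ < 1 := by
        apply Filter.Eventually.filter_mono nhdsWithin_le_nhds
        exact gt_mem_nhds (by norm_num)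
      obtain ⟨δ, h3, h4, h5⟩ := (hev.and (hev2.and self_mem_nhdsWithin)).exists
      exact ⟨δ, h5, h4, h3.le⟩
    have hDc : D / c1 < D := by
      rw [div_lt_iff₀ hc10]; nlinarith
    have hev : ∀ᶠ n : ℕ in atTop, D / c1 ≤ R n / (Real.log n) ^ k ∧ 1 < Real.log (n : ℝ) := by
      filter_upwards [hRlim.eventually (lt_mem_nhds hDc), hlogn.eventually_gt_atTop 1] with n h1 h2
      exact ⟨h1.le, h2⟩
    obtain ⟨n0, hn0⟩ := eventually_atTop.1 hev
    -- error term
    have herr : Tendsto (fun N : ℕ => (((n0 : ℝ) + 1) + (N:ℝ) ^ (1 - δ)) * (D * (Real.log N) ^ k) / N) atTop (𝓝 0) := by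
      have h1 : Tendsto (fun t : ℝ => (Real.log t) ^ k / t ^ δ) atTop (𝓝 0) := by
        have := isLittleO_log_rpow_rpow_atTop (k : ℝ) hδ0
        have h2 := this.tendsto_div_nhds_zero
        refine h2.congr ?_
        intro t
        rw [Real.rpow_natCast]
      have h2 : Tendsto (fun t : ℝ => (Real.log t) ^ k / t) atTop (𝓝 0) := by
        have := isLittleO_log_rpow_rpow_atTop (k : ℝ) (zero_lt_one)
        have h2 := this.tendsto_div_nhds_zero
        refine h2.congr ?_
        intro t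
        rw [Real.rpow_natCast, Real.rpow_one]
      have h3 : Tendsto (fun t : ℝ => ((n0:ℝ) + 1) * D * ((Real.log t) ^ k / t) + D * ((Real.log t) ^ k / t ^ δ)) atTop (𝓝 0) := by
        simpa using (h2.const_mul (((n0:ℝ) + 1) * D)).add (h1.const_mul D)
      have h4 := h3.comp tendsto_natCast_atTop_atTop (α := ℕ)
      refine h4.congr' ?_
      filter_upwards [eventually_gt_atTop 0] with N hN
      have hNpos : (0:ℝ) < N := by exact_mod_cast hN
      simp only [Function.comp]
      rw [Real.rpow_sub hNpos, Real.rpow_one]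
      have : (0:ℝ) < (N:ℝ) ^ δ := Real.rpow_pos_of_pos hNpos _
      field_simp
    have hlim : Tendsto (fun N : ℕ => (((n0 : ℝ) + 1) + (N:ℝ) ^ (1 - δ)) * (D * (Real.log N) ^ k) / N + c1 ^ 2 * ((∑ n ∈ range N, E n) / N)) atTop (𝓝 (0 + c1 ^ 2 * 1)) :=
      herr.add (hs.const_mul _)
    have hlim' := hlim.eventually (gt_mem_nhds (by linarith : 0 + c1 ^ 2 * 1 < c))
    filter_upwards [hlim', eventually_ge_atTop (n0 + 1)] with N hN1 hN2
    refine lt_of_le_of_lt ?_ hN1
    have hNpos : (0:ℝ) < N := by exact_mod_cast (by omega : 0 < N)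
    rw [mul_div_assoc', ← add_div]
    apply div_le_div_of_nonneg_right _ hNpos.le
    have hlogN : 0 ≤ Real.log (N:ℝ) := Real.log_natCast_nonneg N
    have hLk : 0 ≤ D * (Real.log (N:ℝ)) ^ k := by positivity
    -- pointwise bound
    have hpt : ∀ n ∈ range N, a n * (D * (Real.log N) ^ k) ≤
        (if (n : ℝ) < ((n0 : ℝ) + (N:ℝ) ^ (1 - δ)) then (D * (Real.log N) ^ k) else 0) + c1 ^ 2 * E n := by
      intro n hn
      rw [Finset.mem_range] at hn
      split_ifs with h
      · have h1 : a n * (D * (Real.log N) ^ k) ≤ 1 * (D * (Real.log N) ^ k) :=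
          mul_le_mul_of_nonneg_right (ha1 n) hLk
        have h2 : 0 ≤ c1 ^ 2 * E n := mul_nonneg (by positivity) (hE0 n)
        linarith
      · push Not at h
        have hNr : 0 ≤ (N:ℝ) ^ (1 - δ) := by positivity
        have hnn0 : n0 ≤ n := by
          have : (n0:ℝ) ≤ n := by linarith
          exact_mod_cast this
        obtain ⟨h1, h2⟩ := hn0 n hnn0
        have hnN : (N:ℝ) ^ (1 - δ) ≤ n := by
          have : (0:ℝ) ≤ n0 := by positivity
          linarith
        have hlog : (1 - δ) * Real.log N ≤ Real.log n := by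
          rw [← Real.log_rpow hNpos]
          apply Real.log_le_log (by positivity) hnN
        have hp : 0 < (Real.log (n:ℝ)) ^ k := by positivity
        rw [le_div_iff₀ hp] at h1
        have h3 : (1 / c1) * (Real.log (N:ℝ)) ^ k ≤ (Real.log (n:ℝ)) ^ k := by
          calc (1 / c1) * (Real.log (N:ℝ)) ^ k ≤ (1 - δ) ^ k * (Real.log (N:ℝ)) ^ k := by
                apply mul_le_mul_of_nonneg_right hδ2 (by positivity)
            _ = ((1 - δ) * Real.log (N:ℝ)) ^ k := by rw [mul_pow]
            _ ≤ _ := pow_le_pow_left₀ (mul_nonneg (by linarith) hlogN) hlog k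
        rw [zero_add, hEa]
        have h4 : D * (Real.log N) ^ k ≤ c1 ^ 2 * R n := by
          calc D * (Real.log N) ^ k = c1 ^ 2 * (D / c1 * ((1 / c1) * (Real.log (N:ℝ)) ^ k)) := by
                field_simp
            _ ≤ c1 ^ 2 * (D / c1 * (Real.log (n:ℝ)) ^ k) := by
                apply mul_le_mul_of_nonneg_left _ (by positivity)
                apply mul_le_mul_of_nonneg_left h3 (by positivity)
            _ ≤ c1 ^ 2 * R n := by
                apply mul_le_mul_of_nonneg_left h1 (by positivity)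
        calc a n * (D * (Real.log N) ^ k) ≤ a n * (c1 ^ 2 * R n) := mul_le_mul_of_nonneg_left h4 (ha0 n)
          _ = c1 ^ 2 * (a n * R n) := by ring
    have hsum := Finset.sum_le_sum hpt
    rw [← Finset.sum_mul, Finset.sum_add_distrib, ← Finset.mul_sum] at hsum
    refine hsum.trans ?_
    apply add_le_add _ le_rfl
    rw [← Finset.sum_filter, Finset.sum_const, nsmul_eq_mul]
    apply mul_le_mul_of_nonneg_right _ hLk
    -- card of filter
    have hsub : (range N).filter (fun n : ℕ => (n : ℝ) < ((n0 : ℝ) + (N:ℝ) ^ (1 - δ))) ⊆ range (⌈(n0 : ℝ) + (N:ℝ) ^ (1 - δ)⌉₊) := by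
      intro n hn
      rw [Finset.mem_filter] at hn
      rw [Finset.mem_range]
      exact Nat.lt_ceil.2 hn.2
    have hcardle := Finset.card_le_card hsub
    rw [Finset.card_range] at hcardle
    have hceil : ((⌈(n0 : ℝ) + (N:ℝ) ^ (1 - δ)⌉₊ : ℕ) : ℝ) < (n0 : ℝ) + (N:ℝ) ^ (1 - δ) + 1 :=
      Nat.ceil_lt_add_one (by positivity)
    have h5 : ((((range N).filter (fun n : ℕ => (n : ℝ) < ((n0 : ℝ) + (N:ℝ) ^ (1 - δ)))).card : ℕ) : ℝ) ≤ ((⌈(n0 : ℝ) + (N:ℝ) ^ (1 - δ)⌉₊ : ℕ) : ℝ) := by
      exact_mod_cast hcardle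
    linarith

end TS15

end Pool.Agent.helper616_TS
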