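import Pool.Agent.helper616_TS.Defs

/-!
# Project TS (helper616): null sets under the exponential
-/

set_option autoImplicit false
set_option maxHeartbeats 4000000

open Finset MeasureTheory Filter Topology

namespace Pool.Agent.helper616_TS

namespace TS12


theorem ae_exp (P : ℝ → Prop) (h : ∀ a b : ℝ, a ≤ b → ∀ᵐ u ∂(volume.restrict (Set.Icc a b)), P (Real.exp u)) :
    ∀ᵐ α : ℝ, 0 < α → P α := by
  have h1 : ∀ᵐ u : ℝ, P (Real.exp u) := by
    have h2 : ∀ n : ℕ, ∀ᵐ u : ℝ, u ∈ Set.Icc (-(n : ℝ)) n → P (Real.exp u) := by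
      intro n
      have hn : (-(n : ℝ)) ≤ n := by
        have : (0 : ℝ) ≤ n := Nat.cast_nonneg n
        linarith
      exact (ae_restrict_iff' measurableSet_Icc).1 (h _ _ hn)
    filter_upwards [ae_all_iff.2 h2] with u hu
    obtain ⟨n, hn⟩ := exists_nat_ge |u|
    exact hu n (abs_le.1 hn)
  have h3 : volume {u : ℝ | ¬ P (Real.exp u)} = 0 := ae_iff.1 h1
  have h4 : volume (Real.exp '' {u : ℝ | ¬ P (Real.exp u)}) = 0 :=
    addHaar_image_eq_zero_of_differentiableOn_of_addHaar_eq_zero volume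
      Real.differentiable_exp.differentiableOn h3
  rw [ae_iff]
  refine measure_mono_null ?_ h4
  intro α hα
  have hα' : ¬ (0 < α → P α) := hα
  rw [Classical.not_imp] at hα'
  obtain ⟨h5, h6⟩ := hα'
  refine ⟨Real.log α, ?_, Real.exp_log h5⟩
  show ¬ P (Real.exp (Real.log α))
  rw [Real.exp_log h5]
  exact h6

end TS12

end Pool.Agent.helper616_TS
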