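import Mathlib

/-!
# Project TS (helper616): definitions
-/

set_option autoImplicit false

open Finset MeasureTheory Filter Topology

namespace Pool.Agent.helper616_TS

noncomputable def e (x : ℝ) : ℂ := Complex.exp (((2 * Real.pi * x : ℝ) : ℂ) * Complex.I)

/-- at most a power of the logarithm -/
def LogBdd (w : ℕ → ℝ) : Prop := ∃ C : ℝ, ∃ k : ℕ, ∀ n : ℕ, |w n| ≤ C * (Real.log (n + 2)) ^ k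

/-- mean value zero, with any power of the logarithm to spare -/
def MeanZero (h : ℕ → ℝ) : Prop := ∀ A : ℕ, ∃ C : ℝ, ∀ N : ℕ, 2 ≤ N → |∑ m ∈ range N, h m| ≤ C * N / (Real.log N) ^ A

/-- growth -/
def Gro (f : ℕ → ℝ) : Prop := ∃ c C : ℝ, 0 < c ∧ 0 < C ∧ ∀ᶠ J : ℕ in atTop, ∀ n : ℕ, J ≤ n → n ≤ 2 * J →
  0 < f n ∧ c * Real.log J ≤ Real.log (f n) ∧ Real.log (f n) ≤ C * Real.log J ∧ |Real.log (f n) - Real.log (f J)| ≤ C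

/-- bound for the exponential sums with phase `log f` and weight `w` -/
def ExpB (w f : ℕ → ℝ) : Prop := ∀ M A : ℕ, ∃ T : ℕ, ∃ C : ℝ, ∀ᶠ J : ℕ in atTop, ∀ L ≤ J, ∀ ξ : ℝ,
  (Real.log J) ^ T ≤ |ξ| → |ξ| ≤ (J : ℝ) ^ M →
    ‖∑ n ∈ range L, (w (J + n) : ℂ) * e (ξ * Real.log (f (J + n)))‖ ≤ C * J / (Real.log J) ^ A

/-- regularly varying smooth function: `log f` has derivatives of the size and sign of those of `log` -/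
def Adm (f : ℝ → ℝ) : Prop := ∃ φ : ℕ → ℝ → ℝ, (∀ᶠ t in atTop, 0 < f t ∧ φ 0 t = Real.log (f t)) ∧
  (∀ m, ∀ᶠ t in atTop, HasDerivAt (φ m) (φ (m + 1) t) t) ∧
  ∀ m, 1 ≤ m → ∃ c C : ℝ, 0 < c ∧ ∀ᶠ t in atTop, c ≤ (-1) ^ (m + 1) * φ m t * t ^ m ∧ (-1) ^ (m + 1) * φ m t * t ^ m ≤ C

/-- van der Corput -/
def S_VDC : Prop := ∀ (M : ℕ) (c0 C0 : ℝ) (_ : 0 < c0), ∃ η : ℝ, 0 < η ∧ η ≤ 1 ∧ ∃ C : ℝ, 0 < C ∧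
    ∀ (J L : ℕ) (u ξ : ℝ) (φ : ℕ → ℝ → ℝ), 1 ≤ J → (J : ℝ) ≤ u → L ≤ J → u + L ≤ 3 * J →
    (∀ m ≤ M + 4, ∀ t ∈ Set.Icc (J : ℝ) (3 * J), HasDerivAt (φ m) (φ (m + 1) t) t) →
    (∀ m, 1 ≤ m → m ≤ M + 4 → ∀ t ∈ Set.Icc (J : ℝ) (3 * J),
      c0 ≤ (-1) ^ (m + 1) * φ m t * (J : ℝ) ^ m ∧ (-1) ^ (m + 1) * φ m t * (J : ℝ) ^ m ≤ C0) →
    1 ≤ |ξ| → |ξ| ≤ (J : ℝ) ^ M →
    ‖∑ n ∈ range L, e (ξ * φ 0 (u + n))‖ ≤ C * ((J : ℝ) ^ (1 - η) + J / |ξ|)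

/-- the function of the logarithmic variable -/
noncomputable def Psi (h : ℕ → ℝ) (v0 v1 : ℝ) : ℝ → ℂ :=
  Set.indicator (Set.Ioc v0 v1) (fun v => (h ⌊Real.exp v⌋₊ : ℂ))

/-- the same with a twist by `m ^ (i t)` -/
def TwistSmall (h : ℕ → ℝ) : Prop := ∀ M A : ℕ, ∃ T : ℕ, ∃ C : ℝ, ∀ᶠ N : ℕ in atTop, ∀ t : ℝ,
  (Real.log N) ^ T ≤ |t| → |t| ≤ (N : ℝ) ^ M →
    ‖∑ m ∈ range N, (h m : ℂ) * Complex.exp (((t * Real.log m : ℝ) : ℂ) * Complex.I)‖ ≤ C * N / (Real.log N) ^ A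

end Pool.Agent.helper616_TS
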