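import Pool.Agent.helper616_TS.Defs
import Pool.Agent.H221R2.FB_VdcGen
import Pool.Agent.CG3.Planch

/-!
# Project TS (helper616): the inputs of van der Corput and Plancherel
-/

set_option autoImplicit false

open Finset MeasureTheory Filter Topology

namespace Pool.Agent.helper616_TS

theorem t_VDC : S_VDC := fun M c0 C0 hc0 => Pool.Agent.H221R2.FB.vdc_gen M c0 C0 hc0

open FourierTransform in
theorem t_Pl (g : ℝ → ℂ) (hg : Integrable g) (hg2 : MemLp g 2) :
    ∫⁻ ξ : ℝ, ‖𝓕 g ξ‖ₑ ^ 2 = ∫⁻ z : ℝ, ‖g z‖ₑ ^ 2 := CG3.aux_plancherel g hg hg2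

end Pool.Agent.helper616_TS
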