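import Pool.Agent.helper616_TS.Defs

/-!
# Project TS (helper616): exponential sums, from the theorem of van der Corput
-/

set_option autoImplicit false
set_option maxHeartbeats 4000000

open Finset MeasureTheory Filter Topology

namespace Pool.Agent.helper616_TS

namespace TS1


lemma ev_deriv (φ : ℕ → ℝ → ℝ) (h : ∀ m, ∀ᶠ t in atTop, HasDerivAt (φ m) (φ (m + 1) t) t) (K : ℕ) :
    ∃ T1 : ℝ, ∀ m ≤ K, ∀ t, T1 ≤ t → HasDerivAt (φ m) (φ (m + 1) t) t := by
  induction K with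
  | zero =>
    obtain ⟨T, hT⟩ := (h 0).exists_forall_of_atTop
    exact ⟨T, fun m hm t ht => by obtain rfl : m = 0 := by omega
                                  exact hT t ht⟩
  | succ K ih =>
    obtain ⟨T1, h1⟩ := ih
    obtain ⟨T, hT⟩ := (h (K + 1)).exists_forall_of_atTop
    refine ⟨max T1 T, fun m hm t ht => ?_⟩
    rcases Nat.lt_or_ge K m with hm' | hm'
    · obtain rfl : m = K + 1 := by omega
      exact hT t (le_trans (le_max_right _ _) ht)
    · exact h1 m hm' t (le_trans (le_max_left _ _) ht)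

lemma ev_bound (φ : ℕ → ℝ → ℝ) (h : ∀ m, 1 ≤ m → ∃ c C : ℝ, 0 < c ∧ ∀ᶠ t in atTop,
      c ≤ (-1) ^ (m + 1) * φ m t * t ^ m ∧ (-1) ^ (m + 1) * φ m t * t ^ m ≤ C) (K : ℕ) :
    ∃ c0 C0 T1 : ℝ, 0 < c0 ∧ ∀ m, 1 ≤ m → m ≤ K → ∀ t, T1 ≤ t →
      c0 ≤ (-1) ^ (m + 1) * φ m t * t ^ m ∧ (-1) ^ (m + 1) * φ m t * t ^ m ≤ C0 := by
  induction K with
  | zero =>
    exact ⟨1, 0, 0, one_pos, fun m h1 h2 => by omega⟩
  | succ K ih =>
    obtain ⟨c1, C1, T1, hc1, h1⟩ := ih
    obtain ⟨c, C, hc, hcC⟩ := h (K + 1) (by omega)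
    obtain ⟨T, hT⟩ := hcC.exists_forall_of_atTop
    refine ⟨min c1 c, max C1 C, max T1 T, lt_min hc1 hc, fun m hm1 hm t ht => ?_⟩
    rcases Nat.lt_or_ge K m with hm' | hm'
    · obtain rfl : m = K + 1 := by omega
      obtain ⟨ha, hb⟩ := hT t (le_trans (le_max_right _ _) ht)
      exact ⟨le_trans (min_le_right _ _) ha, le_trans hb (le_max_right _ _)⟩
    · obtain ⟨ha, hb⟩ := h1 m hm1 hm' t (le_trans (le_max_left _ _) ht)
      exact ⟨le_trans (min_le_left _ _) ha, le_trans hb (le_max_left _ _)⟩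

lemma ev_logpow (A : ℕ) (η : ℝ) (hη : 0 < η) :
    ∀ᶠ J : ℕ in atTop, (J : ℝ) ^ (1 - η) ≤ J / (Real.log J) ^ A := by
  have h := (isLittleO_log_rpow_rpow_atTop (A : ℝ) hη).bound (one_pos)
  have h2 := tendsto_natCast_atTop_atTop (R := ℝ) |>.eventually h
  filter_upwards [h2, eventually_ge_atTop 3] with J hJ hJ3
  have hJ0 : (0 : ℝ) < J := by
    have : 0 < J := by omega
    exact_mod_cast this
  have hlog : 0 < Real.log J := Real.log_pos (by
    have : 1 < J := by omega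
    exact_mod_cast this)
  rw [Real.rpow_natCast, one_mul, Real.norm_of_nonneg (by positivity), Real.norm_of_nonneg (by positivity)] at hJ
  rw [Real.rpow_sub hJ0, Real.rpow_one]
  exact div_le_div_of_nonneg_left hJ0.le (by positivity) hJ

theorem expB_of_adm (hV : S_VDC) (f : ℝ → ℝ) (hf : Adm f) : ExpB (fun _ => 1) (fun n => f n) := by
  obtain ⟨φ, h0, h1, h2⟩ := hf
  intro M A
  obtain ⟨T1, hT1⟩ := ev_deriv φ h1 (M + 4)
  obtain ⟨c, C, T2, hc, hT2⟩ := ev_bound φ h2 (M + 4)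
  obtain ⟨T3, hT3⟩ := h0.exists_forall_of_atTop
  have hc3 : 0 < c / 3 ^ (M + 4) := by positivity
  obtain ⟨η, hη, hη1, D, hD, hVD⟩ := hV M (c / 3 ^ (M + 4)) C hc3
  refine ⟨A, 2 * D, ?_⟩
  have e1 : ∀ᶠ J : ℕ in atTop, max (max T1 T2) T3 ≤ (J : ℝ) :=
    tendsto_natCast_atTop_atTop.eventually_ge_atTop _
  filter_upwards [e1, ev_logpow A η hη, eventually_ge_atTop 3] with J hJ hJl hJ3 L hL ξ hξ1 hξ2
  have hJT1 : T1 ≤ (J : ℝ) := le_trans (le_trans (le_max_left _ _) (le_max_left _ _)) hJ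
  have hJT2 : T2 ≤ (J : ℝ) := le_trans (le_trans (le_max_right _ _) (le_max_left _ _)) hJ
  have hJT3 : T3 ≤ (J : ℝ) := le_trans (le_max_right _ _) hJ
  have hJ0 : (0 : ℝ) < J := by
    have : 0 < J := by omega
    exact_mod_cast this
  have hlog1 : 1 ≤ Real.log J := by
    rw [Real.le_log_iff_exp_le hJ0]
    have h3 : (3 : ℝ) ≤ J := by exact_mod_cast hJ3
    exact le_trans Real.exp_one_lt_d9.le (by linarith)
  have hlogA : 1 ≤ (Real.log J) ^ A := one_le_pow₀ hlog1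
  have hL' : (L : ℝ) ≤ J := by exact_mod_cast hL
  have key := hVD J L J ξ φ (by omega) le_rfl hL (by linarith) (fun m hm t ht => hT1 m hm t (le_trans hJT1 ht.1)) ?_
    (le_trans hlogA hξ1) hξ2
  · have hsum : ∑ n ∈ range L, (((fun _ => 1 : ℕ → ℝ) (J + n) : ℝ) : ℂ) * e (ξ * Real.log ((fun n : ℕ => f n) (J + n)))
        = ∑ n ∈ range L, e (ξ * φ 0 ((J : ℝ) + n)) := by
      apply Finset.sum_congr rfl
      intro n _
      have hn : T3 ≤ ((J + n : ℕ) : ℝ) := by
        push_cast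
        have : (0 : ℝ) ≤ n := Nat.cast_nonneg n
        linarith
      have := (hT3 _ hn).2
      simp only [Complex.ofReal_one, one_mul]
      rw [← this]
      push_cast
      rfl
    rw [hsum]
    refine le_trans key ?_
    have hx : (J : ℝ) / |ξ| ≤ J / (Real.log J) ^ A :=
      div_le_div_of_nonneg_left hJ0.le (by positivity) hξ1
    calc D * ((J : ℝ) ^ (1 - η) + J / |ξ|) ≤ D * (J / (Real.log J) ^ A + J / (Real.log J) ^ A) := by
          apply mul_le_mul_of_nonneg_left (add_le_add hJl hx) hD.le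
      _ = 2 * D * J / (Real.log J) ^ A := by ring
  · intro m hm1 hm t ht
    obtain ⟨ha, hb⟩ := hT2 m hm1 hm t (le_trans hJT2 ht.1)
    have ht0 : 0 < t := lt_of_lt_of_le hJ0 ht.1
    set y := (-1 : ℝ) ^ (m + 1) * φ m t with hy
    have hypos : 0 < y := by
      by_contra hneg
      push Not at hneg
      have : y * t ^ m ≤ 0 := mul_nonpos_of_nonpos_of_nonneg hneg (by positivity)
      linarith
    have hJm : (J : ℝ) ^ m ≤ t ^ m := pow_le_pow_left₀ hJ0.le ht.1 m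
    have htm : t ^ m ≤ 3 ^ (M + 4) * (J : ℝ) ^ m := by
      calc t ^ m ≤ (3 * (J : ℝ)) ^ m := pow_le_pow_left₀ ht0.le ht.2 m
        _ = 3 ^ m * (J : ℝ) ^ m := by rw [mul_pow]
        _ ≤ 3 ^ (M + 4) * (J : ℝ) ^ m := by
            apply mul_le_mul_of_nonneg_right _ (by positivity)
            exact pow_le_pow_right₀ (by norm_num) hm
    constructor
    · rw [div_le_iff₀ (by positivity)]
      calc c ≤ y * t ^ m := ha
        _ ≤ y * (3 ^ (M + 4) * (J : ℝ) ^ m) := mul_le_mul_of_nonneg_left htm hypos.le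
        _ = y * (J : ℝ) ^ m * 3 ^ (M + 4) := by ring
    · exact le_trans (mul_le_mul_of_nonneg_left hJm hypos.le) hb

end TS1

end Pool.Agent.helper616_TS
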