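import Pool.Agent.helper616_TS.Defs

/-!
# Project TS (helper616): the function of the logarithmic variable
-/

set_option autoImplicit false
set_option maxHeartbeats 4000000

open Finset MeasureTheory Filter Topology

namespace Pool.Agent.helper616_TS

namespace TS6


theorem psi_props (h : ℕ → ℝ) (v0 v1 K : ℝ) (hv : v0 ≤ v1) (hK : 0 ≤ K)
    (hb : ∀ m : ℕ, (m : ℝ) ≤ Real.exp v1 → |h m| ≤ K) :
    Integrable (Psi h v0 v1) ∧ MemLp (Psi h v0 v1) 2 ∧
      ∫⁻ v : ℝ, ‖Psi h v0 v1 v‖ₑ ^ 2 ≤ ENNReal.ofReal (K ^ 2 * (v1 - v0)) := by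
  have hmeas : Measurable (fun v : ℝ => (h ⌊Real.exp v⌋₊ : ℂ)) := by
    have h1 : Measurable (fun v : ℝ => ⌊Real.exp v⌋₊) := Real.measurable_exp.nat_floor
    have h2 : Measurable h := measurable_from_top
    exact Complex.measurable_ofReal.comp (h2.comp h1)
  have hbd : ∀ v ∈ Set.Ioc v0 v1, ‖(h ⌊Real.exp v⌋₊ : ℂ)‖ ≤ K := by
    intro v hv'
    rw [Complex.norm_real, Real.norm_eq_abs]
    exact hb _ ((Nat.floor_le (Real.exp_pos v).le).trans (Real.exp_le_exp.2 hv'.2))
  have hae : ∀ᵐ v ∂(volume.restrict (Set.Ioc v0 v1)), ‖(h ⌊Real.exp v⌋₊ : ℂ)‖ ≤ K := by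
    rw [ae_restrict_iff' measurableSet_Ioc]
    exact Filter.Eventually.of_forall hbd
  refine ⟨?_, ?_, ?_⟩
  · unfold Psi
    rw [integrable_indicator_iff measurableSet_Ioc]
    exact Integrable.of_bound hmeas.aestronglyMeasurable K hae
  · unfold Psi
    rw [memLp_indicator_iff_restrict measurableSet_Ioc]
    exact MemLp.of_bound hmeas.aestronglyMeasurable K hae
  · have h1 : ∀ v, ‖Psi h v0 v1 v‖ₑ ^ 2 ≤
        Set.indicator (Set.Ioc v0 v1) (fun _ => ENNReal.ofReal (K ^ 2)) v := by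
      intro v
      by_cases hv' : v ∈ Set.Ioc v0 v1
      · rw [Psi, Set.indicator_of_mem hv', Set.indicator_of_mem hv', ← ofReal_norm,
          ← ENNReal.ofReal_pow (norm_nonneg _)]
        exact ENNReal.ofReal_le_ofReal (pow_le_pow_left₀ (norm_nonneg _) (hbd v hv') 2)
      · rw [Psi, Set.indicator_of_notMem hv', Set.indicator_of_notMem hv']
        simp
    refine (lintegral_mono h1).trans (le_of_eq ?_)
    rw [lintegral_indicator_const measurableSet_Ioc, Real.volume_Ioc,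
      ← ENNReal.ofReal_mul (by positivity)]

end TS6

end Pool.Agent.helper616_TS
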