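import Pool.Agent.helper616_TS.Defs

/-!
# Project TS (helper616): high frequencies
-/

set_option autoImplicit false
set_option maxHeartbeats 4000000

open Finset MeasureTheory Filter Topology

namespace Pool.Agent.helper616_TS

namespace TS7


/-- the integral of the character over an interval -/
theorem ph_int (s t ξ : ℝ) (hξ : ξ ≠ 0) :
    ‖∫ v in Set.Ioc s t, Complex.exp ((-2 * Real.pi * ξ * Complex.I : ℂ) * (v : ℂ))‖ ≤ 1 / |ξ| := by
  have hx : 0 < |ξ| := abs_pos.mpr hξ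
  rcases le_or_gt s t with h | h
  · rw [← intervalIntegral.integral_of_le h]
    have hc : (-2 * Real.pi * ξ * Complex.I : ℂ) ≠ 0 := by
      simp [Real.pi_ne_zero, hξ]
    rw [integral_exp_mul_complex hc, norm_div]
    have hn : ‖(-2 * Real.pi * ξ * Complex.I : ℂ)‖ = 2 * Real.pi * |ξ| := by
      simp [abs_of_pos Real.pi_pos]
    have h1 : ∀ v : ℝ, ‖Complex.exp ((-2 * Real.pi * ξ * Complex.I : ℂ) * (v : ℂ))‖ = 1 := by
      intro v
      have : (-2 * Real.pi * ξ * Complex.I : ℂ) * (v : ℂ) = ((-2 * Real.pi * ξ * v : ℝ) : ℂ) * Complex.I := by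
        push_cast; ring
      rw [this, Complex.norm_exp_ofReal_mul_I]
    rw [hn]
    have h2 : ‖Complex.exp ((-2 * Real.pi * ξ * Complex.I : ℂ) * (t : ℂ)) -
        Complex.exp ((-2 * Real.pi * ξ * Complex.I : ℂ) * (s : ℂ))‖ ≤ 2 := by
      refine (norm_sub_le _ _).trans ?_
      rw [h1, h1]; norm_num
    rw [div_le_div_iff₀ (by positivity) hx]
    have hpi : 3 < Real.pi := Real.pi_gt_three
    nlinarith [mul_le_mul_of_nonneg_right h2 hx.le]
  · rw [Set.Ioc_eq_empty (not_lt.mpr h.le)]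
    simp

/-- the level set -/
def phS (v0 v1 : ℝ) (m : ℕ) : Set ℝ := {v | v ∈ Set.Ioc v0 v1 ∧ ⌊Real.exp v⌋₊ = m}

theorem ph_ae (v0 v1 : ℝ) (m : ℕ) : ∃ s t : ℝ, phS v0 v1 m =ᵐ[volume] Set.Ioc s t := by
  rcases Nat.eq_zero_or_pos m with h | h
  · subst h
    refine ⟨v0, min v1 0, ?_⟩
    have hsub : phS v0 v1 0 = Set.Ioc v0 v1 ∩ Set.Iio 0 := by
      ext v
      simp only [phS, Set.mem_setOf_eq, Set.mem_inter_iff, Set.mem_Iio, Nat.floor_eq_zero, Real.exp_lt_one_iff]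
    rw [hsub]
    have h2 : (Set.Ioc v0 v1 ∩ Set.Iio 0 : Set ℝ) =ᵐ[volume] (Set.Ioc v0 v1 ∩ Set.Iic 0 : Set ℝ) :=
      Filter.EventuallyEq.inter (Filter.EventuallyEq.refl _ _) Iio_ae_eq_Iic
    refine h2.trans ?_
    have h3 : (Set.Ioc v0 v1 ∩ Set.Iic 0 : Set ℝ) = Set.Ioc v0 (min v1 0) := by
      ext v; simp only [Set.mem_inter_iff, Set.mem_Ioc, Set.mem_Iic, le_min_iff]; tauto
    rw [h3]
  · refine ⟨max v0 (Real.log m), min v1 (Real.log (m + 1)), ?_⟩
    have hm : (0 : ℝ) < m := by exact_mod_cast h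
    have hsub : phS v0 v1 m = Set.Ioc v0 v1 ∩ Set.Ico (Real.log m) (Real.log (m + 1)) := by
      ext v
      simp only [phS, Set.mem_setOf_eq, Set.mem_inter_iff, Set.mem_Ico]
      rw [Nat.floor_eq_iff (Real.exp_pos v).le, Real.log_le_iff_le_exp hm, Real.lt_log_iff_exp_lt (by positivity)]
    rw [hsub]
    have h2 : (Set.Ioc v0 v1 ∩ Set.Ico (Real.log m) (Real.log (m + 1)) : Set ℝ) =ᵐ[volume]
        (Set.Ioc v0 v1 ∩ Set.Ioc (Real.log m) (Real.log (m + 1)) : Set ℝ) :=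
      Filter.EventuallyEq.inter (Filter.EventuallyEq.refl _ _) Ico_ae_eq_Ioc
    refine h2.trans ?_
    rw [Set.Ioc_inter_Ioc]

theorem ph_meas (v0 v1 : ℝ) (m : ℕ) : MeasurableSet (phS v0 v1 m) := by
  have h1 : Measurable (fun v : ℝ => ⌊Real.exp v⌋₊) := Nat.measurable_floor.comp Real.measurable_exp
  exact measurableSet_Ioc.inter (h1 (measurableSet_singleton m))

open FourierTransform in
theorem psi_high (h : ℕ → ℝ) (v0 v1 K : ℝ) (hv : v0 ≤ v1) (hK : 0 ≤ K)
    (hb : ∀ m : ℕ, (m : ℝ) ≤ Real.exp v1 → |h m| ≤ K) (ξ : ℝ) (hξ : ξ ≠ 0) :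
    ‖𝓕 (Psi h v0 v1) ξ‖ ≤ K * (Real.exp v1 + 2) / |ξ| := by
  have hx : 0 < |ξ| := abs_pos.mpr hξ
  rw [Real.fourier_eq']
  set c : ℂ := (-2 * Real.pi * ξ * Complex.I : ℂ) with hc
  set E : ℝ → ℂ := fun v => Complex.exp (c * (v : ℂ)) with hE
  have hEc : Continuous E := by
    rw [hE]; fun_prop
  have hpt : ∀ v : ℝ, Complex.exp (((-2 * Real.pi * inner ℝ v ξ : ℝ) : ℂ) * Complex.I) • Psi h v0 v1 v =
      ∑ m ∈ range (⌊Real.exp v1⌋₊ + 1), (phS v0 v1 m).indicator (fun v => (h m : ℂ) * E v) v := by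
    intro v
    have hexp : Complex.exp (((-2 * Real.pi * inner ℝ v ξ : ℝ) : ℂ) * Complex.I) = E v := by
      rw [hE, hc]
      simp only
      congr 1
      simp only [RCLike.inner_apply, conj_trivial]
      push_cast; ring
    rw [hexp]
    by_cases hvI : v ∈ Set.Ioc v0 v1
    · rw [Psi, Set.indicator_of_mem hvI, Finset.sum_eq_single ⌊Real.exp v⌋₊]
      · rw [Set.indicator_of_mem (show v ∈ phS v0 v1 ⌊Real.exp v⌋₊ from ⟨hvI, rfl⟩), smul_eq_mul, mul_comm]
      · intro b _ hb'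
        rw [Set.indicator_of_notMem]
        rintro ⟨_, h2⟩
        exact hb' h2.symm
      · intro hn
        exfalso
        apply hn
        rw [Finset.mem_range, Nat.lt_succ_iff]
        exact Nat.floor_le_floor (Real.exp_le_exp.mpr hvI.2)
    · rw [Psi, Set.indicator_of_notMem hvI, smul_zero]
      symm
      apply Finset.sum_eq_zero
      intro m _
      rw [Set.indicator_of_notMem]
      rintro ⟨h1, _⟩
      exact hvI h1
  simp_rw [hpt]
  have hint : ∀ m ∈ range (⌊Real.exp v1⌋₊ + 1), Integrable ((phS v0 v1 m).indicator (fun v => (h m : ℂ) * E v)) volume := by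
    intro m _
    rw [integrable_indicator_iff (ph_meas v0 v1 m)]
    have h1 : IntegrableOn (fun v => (h m : ℂ) * E v) (Set.Icc v0 v1) volume :=
      (continuous_const.mul hEc).continuousOn.integrableOn_compact isCompact_Icc
    exact h1.mono_set (fun v hv' => ⟨hv'.1.1.le, hv'.1.2⟩)
  rw [integral_finset_sum _ hint]
  have hone : ∀ m ∈ range (⌊Real.exp v1⌋₊ + 1), ‖∫ v, (phS v0 v1 m).indicator (fun v => (h m : ℂ) * E v) v‖ ≤ K * (1 / |ξ|) := by
    intro m hm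
    rw [integral_indicator (ph_meas v0 v1 m), integral_const_mul, norm_mul]
    obtain ⟨s, t, hst⟩ := ph_ae v0 v1 m
    rw [setIntegral_congr_set hst]
    have h1 : ‖(h m : ℂ)‖ ≤ K := by
      rw [Complex.norm_real, Real.norm_eq_abs]
      apply hb
      rw [Finset.mem_range, Nat.lt_succ_iff] at hm
      exact (Nat.cast_le.mpr hm).trans (Nat.floor_le (Real.exp_pos v1).le)
    exact mul_le_mul h1 (ph_int s t ξ hξ) (norm_nonneg _) hK
  calc ‖∑ m ∈ range (⌊Real.exp v1⌋₊ + 1), ∫ v, (phS v0 v1 m).indicator (fun v => (h m : ℂ) * E v) v‖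
      ≤ ∑ m ∈ range (⌊Real.exp v1⌋₊ + 1), ‖∫ v, (phS v0 v1 m).indicator (fun v => (h m : ℂ) * E v) v‖ := norm_sum_le _ _
    _ ≤ ∑ _m ∈ range (⌊Real.exp v1⌋₊ + 1), K * (1 / |ξ|) := Finset.sum_le_sum hone
    _ = (⌊Real.exp v1⌋₊ + 1 : ℝ) * (K * (1 / |ξ|)) := by
        rw [Finset.sum_const, Finset.card_range, nsmul_eq_mul]; push_cast; ring
    _ ≤ (Real.exp v1 + 2) * (K * (1 / |ξ|)) := by
        apply mul_le_mul_of_nonneg_right _ (by positivity)
        have := Nat.floor_le (Real.exp_pos v1).le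
        linarith
    _ = K * (Real.exp v1 + 2) / |ξ| := by ring

end TS7

end Pool.Agent.helper616_TS
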