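import Pool.Agent.helper616_TS.Defs

/-!
# Project TS (helper616): low frequencies
-/

set_option autoImplicit false
set_option maxHeartbeats 4000000

open Finset MeasureTheory Filter Topology

namespace Pool.Agent.helper616_TS

namespace TS8


/-- the step function in the logarithmic variable -/
noncomputable def gg (h : ℕ → ℝ) (w : ℝ) : ℝ := h ⌊Real.exp w⌋₊

theorem gg_meas (h : ℕ → ℝ) : Measurable (gg h) :=
  (measurable_from_top (f := h)).comp (Nat.measurable_floor.comp Real.measurable_exp)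

theorem gg_bdd (h : ℕ → ℝ) (b : ℝ) : ∃ B : ℝ, ∀ w ≤ b, |gg h w| ≤ B := by
  refine ⟨∑ m ∈ Finset.range (⌊Real.exp b⌋₊ + 1), |h m|, fun w hw => ?_⟩
  have h1 : ⌊Real.exp w⌋₊ ≤ ⌊Real.exp b⌋₊ := Nat.floor_le_floor (Real.exp_le_exp.2 hw)
  exact Finset.single_le_sum (f := fun m => |h m|) (fun m _ => abs_nonneg _)
    (Finset.mem_range.2 (by omega))

theorem gg_int (h : ℕ → ℝ) (a b : ℝ) : IntervalIntegrable (gg h) volume a b := by
  obtain ⟨B, hB⟩ := gg_bdd h (max a b)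
  rw [intervalIntegrable_iff]
  refine IntegrableOn.of_bound (C := B) (by rw [Set.uIoc]; exact measure_Ioc_lt_top)
    (gg_meas h).aestronglyMeasurable ?_
  rw [ae_restrict_iff' measurableSet_uIoc]
  refine Filter.Eventually.of_forall fun w hw => ?_
  rw [Set.uIoc, Set.mem_Ioc] at hw
  exact hB w hw.2

theorem gg_right (h : ℕ → ℝ) (x : ℝ) : ContinuousWithinAt (gg h) (Set.Ici x) x := by
  have h1 : ∀ᶠ v in 𝓝[Set.Ici x] x, gg h v = gg h x := by
    have h2 : ∀ᶠ v in 𝓝[Set.Ici x] x, Real.exp v < (⌊Real.exp x⌋₊ : ℝ) + 1 := by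
      have h3 : ∀ᶠ v in 𝓝 x, Real.exp v < (⌊Real.exp x⌋₊ : ℝ) + 1 :=
        Real.continuous_exp.continuousAt.eventually_lt continuousAt_const
          (Nat.lt_floor_add_one _)
      exact h3.filter_mono nhdsWithin_le_nhds
    filter_upwards [h2, self_mem_nhdsWithin] with v hv1 hv2
    unfold gg
    congr 1
    rw [Nat.floor_eq_iff (Real.exp_pos v).le]
    exact ⟨(Nat.floor_le (Real.exp_pos x).le).trans (Real.exp_le_exp.2 hv2), hv1⟩
  exact continuousWithinAt_const.congr_of_eventuallyEq h1 rfl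

open FourierTransform in
theorem psi_low (h : ℕ → ℝ) (v0 v1 K : ℝ) (hv : v0 ≤ v1) (hK : 0 ≤ K)
    (hb : ∀ v, v0 ≤ v → v ≤ v1 → |∫ w in v0..v, h ⌊Real.exp w⌋₊| ≤ K) (ξ : ℝ) :
    ‖𝓕 (Psi h v0 v1) ξ‖ ≤ K * (1 + 2 * Real.pi * |ξ| * (v1 - v0)) := by
  obtain ⟨H, hH⟩ : ∃ H : ℝ → ℝ, H = fun v => ∫ w in v0..v, gg h w := ⟨_, rfl⟩
  have hHb : ∀ v, v0 ≤ v → v ≤ v1 → |H v| ≤ K := by
    intro v h1 h2
    rw [hH]
    exact hb v h1 h2
  obtain ⟨E, hE⟩ : ∃ E : ℝ → ℂ, E = fun v => Complex.exp (((-2 * Real.pi * v * ξ : ℝ) : ℂ) *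
    Complex.I) := ⟨_, rfl⟩
  obtain ⟨E', hE'⟩ : ∃ E' : ℝ → ℂ, E' = fun v => E v * (((-2 * Real.pi * ξ : ℝ) : ℂ) * Complex.I) :=
    ⟨_, rfl⟩
  have hEn : ∀ v, ‖E v‖ = 1 := by
    intro v
    rw [hE]
    exact Complex.norm_exp_ofReal_mul_I _
  have hEd : ∀ v, HasDerivAt E (E' v) v := by
    intro v
    rw [hE', hE]
    have h1 : HasDerivAt (fun v : ℝ => ((-2 * Real.pi * v * ξ : ℝ) : ℂ) * Complex.I)
        (((-2 * Real.pi * ξ : ℝ) : ℂ) * Complex.I) v := by
      have h2 : HasDerivAt (fun v : ℝ => -2 * Real.pi * v * ξ) (-2 * Real.pi * ξ) v := by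
        have h3 := ((hasDerivAt_id v).const_mul (-2 * Real.pi)).mul_const ξ
        simpa using h3
      exact h2.ofReal_comp.mul_const _
    exact h1.cexp
  have hEc : Continuous E := continuous_iff_continuousAt.2 fun v => (hEd v).continuousAt
  have hE'c : Continuous E' := by
    rw [hE']
    exact hEc.mul continuous_const
  have hE'n : ∀ v, ‖E' v‖ = 2 * Real.pi * |ξ| := by
    intro v
    rw [hE']
    simp only [norm_mul, hEn, one_mul, Complex.norm_I, mul_one]
    rw [Complex.norm_real, Real.norm_eq_abs, abs_mul, abs_mul, abs_neg, abs_two,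
      abs_of_pos Real.pi_pos]
  -- the primitive
  have hHd : ∀ x ∈ Set.Ioo (min v0 v1) (max v0 v1),
      HasDerivWithinAt (fun v => (H v : ℂ)) ((gg h x : ℝ) : ℂ) (Set.Ioi x) x := by
    intro x _
    have h1 : HasDerivWithinAt H (gg h x) (Set.Ici x) x := by
      rw [hH]
      exact intervalIntegral.integral_hasDerivWithinAt_right (gg_int h v0 x)
        ((gg_meas h).stronglyMeasurable.stronglyMeasurableAtFilter)
        ((gg_right h x).mono Set.Ioi_subset_Ici_self)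
    have h2 := h1.mono (Set.Ioi_subset_Ici_self (a := x))
    exact h2.ofReal_comp
  have hHc : Continuous H := by
    rw [hH]
    exact intervalIntegral.continuous_primitive (fun a b => gg_int h a b) v0
  have key := intervalIntegral.integral_mul_deriv_eq_deriv_mul_of_hasDeriv_right
    (a := v0) (b := v1) (u := fun v => (H v : ℂ)) (v := E) (u' := fun v => ((gg h v : ℝ) : ℂ))
    (v' := E') (Complex.continuous_ofReal.comp hHc).continuousOn hEc.continuousOn hHd
    (fun x _ => (hEd x).hasDerivWithinAt) ⟨(gg_int h v0 v1).1.ofReal, (gg_int h v0 v1).2.ofReal⟩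
    (hE'c.intervalIntegrable _ _)
  have hH0 : H v0 = 0 := by rw [hH]; simp
  have hfour : 𝓕 (Psi h v0 v1) ξ = ∫ v in v0..v1, ((gg h v : ℝ) : ℂ) * E v := by
    rw [Real.fourier_real_eq_integral_exp_smul, intervalIntegral.integral_of_le hv,
      ← integral_indicator measurableSet_Ioc]
    congr 1
    funext v
    unfold Psi
    by_cases hvv : v ∈ Set.Ioc v0 v1
    · rw [Set.indicator_of_mem hvv, Set.indicator_of_mem hvv, hE, smul_eq_mul, mul_comm]
      rfl
    · rw [Set.indicator_of_notMem hvv, Set.indicator_of_notMem hvv, smul_zero]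
  have h3 : ∫ v in v0..v1, ((gg h v : ℝ) : ℂ) * E v =
      (H v1 : ℂ) * E v1 - ∫ v in v0..v1, (H v : ℂ) * E' v := by
    rw [key, hH0]
    simp
  rw [hfour, h3]
  have h4 : ‖(H v1 : ℂ) * E v1‖ ≤ K := by
    rw [norm_mul, hEn, mul_one, Complex.norm_real]
    exact hHb v1 hv le_rfl
  have h5 : ‖∫ v in v0..v1, (H v : ℂ) * E' v‖ ≤ K * (2 * Real.pi * |ξ|) * |v1 - v0| := by
    apply intervalIntegral.norm_integral_le_of_norm_le_const
    intro v hv'
    rw [Set.uIoc_of_le hv] at hv'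
    rw [norm_mul, hE'n, Complex.norm_real]
    exact mul_le_mul_of_nonneg_right (hHb v hv'.1.le hv'.2) (by positivity)
  rw [abs_of_nonneg (sub_nonneg.2 hv)] at h5
  calc ‖(H v1 : ℂ) * E v1 - ∫ v in v0..v1, (H v : ℂ) * E' v‖
      ≤ ‖(H v1 : ℂ) * E v1‖ + ‖∫ v in v0..v1, (H v : ℂ) * E' v‖ := norm_sub_le _ _
    _ ≤ K + K * (2 * Real.pi * |ξ|) * (v1 - v0) := add_le_add h4 h5
    _ = K * (1 + 2 * Real.pi * |ξ| * (v1 - v0)) := by ring

end TS8

end Pool.Agent.helper616_TS
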