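import Pool.Agent.helper616_TS.Defs

/-!
# Project TS (helper616): mean values on the logarithmic scale
-/

set_option autoImplicit false
set_option maxHeartbeats 4000000

open Finset MeasureTheory Filter Topology

namespace Pool.Agent.helper616_TS

namespace TS9


theorem ts9_measurable (h : ℕ → ℝ) : Measurable (fun t : ℝ => h ⌊t⌋₊) :=
  (measurable_from_top (f := h)).comp Nat.measurable_floor

theorem ts9_bound (h : ℕ → ℝ) (b t : ℝ) (ht : t ≤ b) :
    |h ⌊t⌋₊| ≤ ∑ m ∈ range (⌊b⌋₊ + 1), |h m| := by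
  have h1 : ⌊t⌋₊ ∈ range (⌊b⌋₊ + 1) := by
    rw [mem_range]
    have := Nat.floor_le_floor ht
    omega
  exact single_le_sum (f := fun m => |h m|) (fun _ _ => abs_nonneg _) h1

theorem ts9_int (h : ℕ → ℝ) (a b : ℝ) : IntervalIntegrable (fun t : ℝ => h ⌊t⌋₊) volume a b := by
  rw [intervalIntegrable_iff]
  refine Measure.integrableOn_of_bounded (M := ∑ m ∈ range (⌊max a b⌋₊ + 1), |h m|) ?_ ?_ ?_
  · rw [Set.uIoc, Real.volume_Ioc]
    exact ENNReal.ofReal_ne_top
  · exact (ts9_measurable h).aestronglyMeasurable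
  · filter_upwards [ae_restrict_mem measurableSet_uIoc] with t ht
    rw [Real.norm_eq_abs]
    exact ts9_bound h _ t ht.2

theorem ts9_int2 (h : ℕ → ℝ) (a b : ℝ) :
    IntervalIntegrable (fun w : ℝ => h ⌊Real.exp w⌋₊) volume a b := by
  rw [intervalIntegrable_iff]
  refine Measure.integrableOn_of_bounded
    (M := ∑ m ∈ range (⌊Real.exp (max a b)⌋₊ + 1), |h m|) ?_ ?_ ?_
  · rw [Set.uIoc, Real.volume_Ioc]
    exact ENNReal.ofReal_ne_top
  · exact ((ts9_measurable h).comp Real.measurable_exp).aestronglyMeasurable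
  · filter_upwards [ae_restrict_mem measurableSet_uIoc] with t ht
    rw [Real.norm_eq_abs]
    exact ts9_bound h _ _ (Real.exp_le_exp.2 ht.2)

theorem ts9_unit (h : ℕ → ℝ) (m : ℕ) : ∫ t in (m : ℝ)..((m + 1 : ℕ) : ℝ), h ⌊t⌋₊ = h m := by
  have h1 : ∫ t in (m : ℝ)..((m + 1 : ℕ) : ℝ), h ⌊t⌋₊ = ∫ t in (m : ℝ)..((m + 1 : ℕ) : ℝ), h m := by
    apply intervalIntegral.integral_congr_ae
    have hne : ∀ᵐ t : ℝ ∂volume, t ≠ ((m + 1 : ℕ) : ℝ) := by
      rw [ae_iff]
      simp
    filter_upwards [hne] with t ht ht2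
    rw [Set.uIoc_of_le (by push_cast; linarith)] at ht2
    have h3 : ⌊t⌋₊ = m := by
      have h0 : (0 : ℝ) ≤ t := le_trans (Nat.cast_nonneg m) ht2.1.le
      rw [Nat.floor_eq_iff h0]
      refine ⟨ht2.1.le, ?_⟩
      have := lt_of_le_of_ne ht2.2 ht
      push_cast at this
      exact this
    rw [h3]
  rw [h1, intervalIntegral.integral_const]
  push_cast
  simp

theorem ts9_H (h : ℕ → ℝ) (y : ℝ) (hy : 0 ≤ y) :
    ∫ t in (0 : ℝ)..y, h ⌊t⌋₊ = ∑ m ∈ range ⌊y⌋₊, h m + (y - ⌊y⌋₊) * h ⌊y⌋₊ := by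
  have h1 : ∀ N : ℕ, ∫ t in (0 : ℝ)..(N : ℝ), h ⌊t⌋₊ = ∑ m ∈ range N, h m := by
    intro N
    induction N with
    | zero => simp
    | succ N ih =>
      rw [sum_range_succ, ← ih, ← ts9_unit h N]
      exact (intervalIntegral.integral_add_adjacent_intervals (ts9_int h _ _) (ts9_int h _ _)).symm
  rw [← intervalIntegral.integral_add_adjacent_intervals (ts9_int h 0 ⌊y⌋₊) (ts9_int h ⌊y⌋₊ y), h1]
  congr 1
  have h2 : ∫ t in (⌊y⌋₊ : ℝ)..y, h ⌊t⌋₊ = ∫ t in (⌊y⌋₊ : ℝ)..y, h ⌊y⌋₊ := by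
    apply intervalIntegral.integral_congr_ae
    filter_upwards with t ht
    rw [Set.uIoc_of_le (Nat.floor_le hy)] at ht
    have h3 : ⌊t⌋₊ = ⌊y⌋₊ := by
      have h0 : (0 : ℝ) ≤ t := le_trans (Nat.cast_nonneg _) ht.1.le
      rw [Nat.floor_eq_iff h0]
      exact ⟨ht.1.le, lt_of_le_of_lt ht.2 (Nat.lt_floor_add_one y)⟩
    rw [h3]
  rw [h2, intervalIntegral.integral_const, smul_eq_mul]

theorem ts9_deriv (h : ℕ → ℝ) (y : ℝ) (hy : 0 ≤ y) :
    HasDerivWithinAt (fun u => ∫ t in (0 : ℝ)..u, h ⌊t⌋₊) (h ⌊y⌋₊) (Set.Ioi y) y := by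
  have h1 : HasDerivWithinAt (fun u => ∫ t in (0 : ℝ)..u, h ⌊t⌋₊) (h ⌊y⌋₊) (Set.Ici y) y := by
    apply intervalIntegral.integral_hasDerivWithinAt_right (t := Set.Ioi y) (ts9_int h 0 y)
    · exact (ts9_measurable h).stronglyMeasurable.stronglyMeasurableAtFilter
    · have h2 : Set.Ioo y (⌊y⌋₊ + 1 : ℝ) ∈ 𝓝[>] y := Ioo_mem_nhdsGT (Nat.lt_floor_add_one y)
      have h3 : (fun t : ℝ => h ⌊t⌋₊) =ᶠ[𝓝[>] y] (fun _ => h ⌊y⌋₊) := by
        filter_upwards [h2] with t ht
        have h4 : ⌊t⌋₊ = ⌊y⌋₊ := by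
          have h0 : (0 : ℝ) ≤ t := le_trans hy ht.1.le
          rw [Nat.floor_eq_iff h0]
          exact ⟨le_trans (Nat.floor_le hy) ht.1.le, ht.2⟩
        rw [h4]
      exact (continuousWithinAt_const (b := h ⌊y⌋₊)).congr_of_eventuallyEq h3 rfl
  exact h1.mono Set.Ioi_subset_Ici_self

theorem ts9_cont (h : ℕ → ℝ) : Continuous (fun u => ∫ t in (0 : ℝ)..u, h ⌊t⌋₊) :=
  intervalIntegral.continuous_primitive (fun a b => ts9_int h a b) 0

theorem log_mean (h : ℕ → ℝ) (hb : LogBdd h) (hm : MeanZero h) (A : ℕ) (R : ℝ) : ∃ C : ℝ, ∀ v v' : ℝ, 1 ≤ v → v ≤ v' →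
    v' ≤ v + R → |∫ w in v..v', h ⌊Real.exp w⌋₊| ≤ C / v ^ A := by
  obtain ⟨C', k, hC'⟩ := hb
  obtain ⟨C, hC⟩ := hm A
  set G : ℝ → ℝ := fun w => Real.exp (-w) * ∫ t in (0 : ℝ)..(Real.exp w), h ⌊t⌋₊ with hG
  set C1 : ℝ := |C| * 2 ^ A + |C'| * 2 ^ k * ((A + k).factorial : ℝ) with hC1
  have hC1n : 0 ≤ C1 := by positivity
  -- bound for `G`
  have hGb : ∀ w : ℝ, 1 ≤ w → |G w| ≤ C1 / w ^ A := by
    intro w hw
    have hw0 : 0 < w := by linarith
    set y := Real.exp w with hy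
    have hy0 : 0 < y := Real.exp_pos w
    have hy2 : 2 < y := by
      have h1 : Real.exp 1 ≤ Real.exp w := Real.exp_le_exp.2 hw
      have h2 := Real.exp_one_gt_d9
      linarith
    set N := ⌊y⌋₊ with hN
    have hN2 : 2 ≤ N := Nat.le_floor (by push_cast; exact hy2.le)
    have hNy : (N : ℝ) ≤ y := Nat.floor_le hy0.le
    have hyN : y < (N : ℝ) + 1 := Nat.lt_floor_add_one y
    have hN2r : (2 : ℝ) ≤ N := by exact_mod_cast hN2
    have hlogN : w / 2 ≤ Real.log N := by
      have h1 : y ≤ (N : ℝ) ^ 2 := by nlinarith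
      have h2 : Real.log y ≤ Real.log ((N : ℝ) ^ 2) := Real.log_le_log hy0 h1
      rw [Real.log_pow, hy, Real.log_exp] at h2
      push_cast at h2
      linarith
    have hlogN2 : Real.log ((N : ℝ) + 2) ≤ 2 * w := by
      have h1 : (N : ℝ) + 2 ≤ y ^ 2 := by nlinarith
      have h2 : Real.log ((N : ℝ) + 2) ≤ Real.log (y ^ 2) := Real.log_le_log (by positivity) h1
      rw [Real.log_pow, hy, Real.log_exp] at h2
      push_cast at h2
      exact h2
    have hS : |∑ m ∈ range N, h m| ≤ |C| * 2 ^ A / w ^ A * y := by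
      have h1 := hC N hN2
      have h2 : (w / 2) ^ A ≤ (Real.log N) ^ A := pow_le_pow_left₀ (by positivity) hlogN A
      have h3 : 0 < (w / 2) ^ A := by positivity
      calc |∑ m ∈ range N, h m| ≤ C * N / (Real.log N) ^ A := h1
        _ ≤ |C| * N / (Real.log N) ^ A := by
            apply div_le_div_of_nonneg_right _ (le_trans h3.le h2)
            exact mul_le_mul_of_nonneg_right (le_abs_self C) (by positivity)
        _ ≤ |C| * N / (w / 2) ^ A := by
            apply div_le_div_of_nonneg_left (by positivity) h3 h2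
        _ ≤ |C| * y / (w / 2) ^ A := by
            apply div_le_div_of_nonneg_right _ h3.le
            exact mul_le_mul_of_nonneg_left hNy (abs_nonneg _)
        _ = |C| * 2 ^ A / w ^ A * y := by
            rw [div_pow]
            field_simp
    have hh : |h N| ≤ |C'| * (2 * w) ^ k := by
      have h1 := hC' N
      have h0 : 0 ≤ Real.log ((N : ℝ) + 2) := Real.log_nonneg (by linarith)
      calc |h N| ≤ C' * (Real.log (N + 2)) ^ k := h1
        _ ≤ |C'| * (Real.log (N + 2)) ^ k := mul_le_mul_of_nonneg_right (le_abs_self C') (by positivity)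
        _ ≤ |C'| * (2 * w) ^ k :=
            mul_le_mul_of_nonneg_left (pow_le_pow_left₀ h0 hlogN2 k) (abs_nonneg _)
    have hexp : w ^ (A + k) ≤ ((A + k).factorial : ℝ) * y := by
      have h1 := Real.pow_div_factorial_le_exp w hw0.le (A + k)
      rw [div_le_iff₀ (by positivity)] at h1
      rw [hy]
      linarith
    have hH : |∫ t in (0 : ℝ)..y, h ⌊t⌋₊| ≤ C1 / w ^ A * y := by
      rw [ts9_H h y hy0.le]
      have h1 : |(y - N) * h N| ≤ |C'| * 2 ^ k * ((A + k).factorial : ℝ) / w ^ A * y := by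
        rw [abs_mul, abs_of_nonneg (by linarith)]
        have h2 : (y - N) * |h N| ≤ 1 * |h N| :=
          mul_le_mul_of_nonneg_right (by linarith) (abs_nonneg _)
        have h3 : |C'| * (2 * w) ^ k ≤ |C'| * 2 ^ k * ((A + k).factorial : ℝ) / w ^ A * y := by
          rw [div_mul_eq_mul_div, le_div_iff₀ (by positivity)]
          have h4 : |C'| * (2 * w) ^ k * w ^ A = |C'| * 2 ^ k * w ^ (A + k) := by
            rw [mul_pow, pow_add]; ring
          rw [h4]
          calc |C'| * 2 ^ k * w ^ (A + k) ≤ |C'| * 2 ^ k * (((A + k).factorial : ℝ) * y) :=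
                mul_le_mul_of_nonneg_left hexp (by positivity)
            _ = _ := by ring
        linarith
      have h5 := abs_add_le (∑ m ∈ range N, h m) ((y - N) * h N)
      have h6 : C1 / w ^ A * y = |C| * 2 ^ A / w ^ A * y +
          |C'| * 2 ^ k * ((A + k).factorial : ℝ) / w ^ A * y := by
        rw [hC1]; ring
      rw [h6]
      linarith
    have h7 : |G w| = Real.exp (-w) * |∫ t in (0 : ℝ)..y, h ⌊t⌋₊| := by
      rw [hG]
      simp only [abs_mul, abs_of_pos (Real.exp_pos (-w))]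
      rfl
    rw [h7, Real.exp_neg]
    calc (Real.exp w)⁻¹ * |∫ t in (0 : ℝ)..y, h ⌊t⌋₊| ≤ (Real.exp w)⁻¹ * (C1 / w ^ A * y) :=
          mul_le_mul_of_nonneg_left hH (by positivity)
      _ = C1 / w ^ A := by
          rw [← hy]
          field_simp
  have hGc : Continuous G := by
    rw [hG]
    exact (Real.continuous_exp.comp continuous_neg).mul ((ts9_cont h).comp Real.continuous_exp)
  have hGd : ∀ w : ℝ, HasDerivWithinAt G (h ⌊Real.exp w⌋₊ - G w) (Set.Ioi w) w := by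
    intro w
    have h1 := ts9_deriv h (Real.exp w) (Real.exp_pos w).le
    have h2 : HasDerivWithinAt Real.exp (Real.exp w) (Set.Ioi w) w :=
      (Real.hasDerivAt_exp w).hasDerivWithinAt
    have h3 := HasDerivWithinAt.comp w h1 h2 (fun x hx => Real.exp_lt_exp.2 hx)
    have h4 : HasDerivWithinAt (fun w : ℝ => Real.exp (-w)) (-Real.exp (-w)) (Set.Ioi w) w := by
      have h5 := ((Real.hasDerivAt_exp (-w)).comp w (hasDerivAt_neg w)).hasDerivWithinAt (s := Set.Ioi w)
      have h6 : Real.exp (-w) * -1 = -Real.exp (-w) := by ring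
      rw [h6] at h5
      exact h5
    have h7 := h4.mul h3
    have h8 : -Real.exp (-w) * ((fun u => ∫ t in (0 : ℝ)..u, h ⌊t⌋₊) ∘ Real.exp) w +
        Real.exp (-w) * (h ⌊Real.exp w⌋₊ * Real.exp w) = h ⌊Real.exp w⌋₊ - G w := by
      have h9 : Real.exp (-w) * Real.exp w = 1 := by
        rw [← Real.exp_add]; simp
      have h10 : G w = Real.exp (-w) * ((fun u => ∫ t in (0 : ℝ)..u, h ⌊t⌋₊) ∘ Real.exp) w := rfl
      rw [h10]
      linear_combination (h ⌊Real.exp w⌋₊) * h9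
    rw [h8] at h7
    exact h7
  refine ⟨C1 * (2 + |R|), ?_⟩
  intro v v' hv hvv hR
  have hv0 : 0 < v := by linarith
  have hFTC : ∫ w in v..v', (h ⌊Real.exp w⌋₊ - G w) = G v' - G v := by
    apply intervalIntegral.integral_eq_sub_of_hasDeriv_right hGc.continuousOn
    · intro x _
      exact hGd x
    · exact (ts9_int2 h v v').sub (hGc.intervalIntegrable v v')
  rw [intervalIntegral.integral_sub (ts9_int2 h v v') (hGc.intervalIntegrable v v')] at hFTC
  have hI : |∫ w in v..v', G w| ≤ C1 / v ^ A * |R| := by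
    have h1 : ‖∫ w in v..v', G w‖ ≤ C1 / v ^ A * |v' - v| := by
      apply intervalIntegral.norm_integral_le_of_norm_le_const
      intro w hw
      rw [Set.uIoc_of_le hvv] at hw
      rw [Real.norm_eq_abs]
      refine (hGb w (by linarith [hw.1])).trans ?_
      apply div_le_div_of_nonneg_left hC1n (by positivity)
      exact pow_le_pow_left₀ hv0.le hw.1.le A
    rw [Real.norm_eq_abs] at h1
    refine h1.trans ?_
    apply mul_le_mul_of_nonneg_left _ (by positivity)
    rw [abs_of_nonneg (by linarith)]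
    exact (by linarith : v' - v ≤ R).trans (le_abs_self R)
  have hG1 := hGb v hv
  have hG2 : |G v'| ≤ C1 / v ^ A := by
    refine (hGb v' (by linarith)).trans ?_
    apply div_le_div_of_nonneg_left hC1n (by positivity)
    exact pow_le_pow_left₀ hv0.le hvv A
  have hfin : ∫ w in v..v', h ⌊Real.exp w⌋₊ = G v' - G v + ∫ w in v..v', G w := by linarith
  rw [hfin]
  have e1 := abs_add_le (G v' - G v) (∫ w in v..v', G w)
  have e2 := abs_sub (G v') (G v)
  have e3 : C1 * (2 + |R|) / v ^ A = C1 / v ^ A + C1 / v ^ A + C1 / v ^ A * |R| := by ring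
  rw [e3]
  linarith

end TS9

end Pool.Agent.helper616_TS
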