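import Pool.Agent.helper616_TS.Defs
import Pool.Agent.helper616_TS.TS5
import Pool.Agent.helper616_TS.TS6
import Pool.Agent.helper616_TS.TS7
import Pool.Agent.helper616_TS.TS8
import Pool.Agent.helper616_TS.TS9

/-!
# Project TS (helper616): the mean square over the dilations
-/

set_option autoImplicit false
set_option maxHeartbeats 4000000

open Finset MeasureTheory Filter Topology

namespace Pool.Agent.helper616_TS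

open TS5 (plancherel_sum)
open TS6 (psi_props)
open TS7 (psi_high)
open TS8 (psi_low)
open TS9 (log_mean)

namespace TS10


theorem tail_pos (Y : ℝ) (hY : 0 < Y) : ∫⁻ ξ in Set.Ioi Y, ENNReal.ofReal (ξ ^ (-2 : ℝ)) ≤ ENNReal.ofReal (1 / Y) := by
  rw [← ofReal_integral_eq_lintegral_ofReal]
  · rw [integral_Ioi_rpow_of_lt (by norm_num) hY]
    apply ENNReal.ofReal_le_ofReal
    have : (-2 : ℝ) + 1 = -1 := by norm_num
    rw [this, Real.rpow_neg_one]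
    simp
  · exact integrableOn_Ioi_rpow_of_lt (by norm_num) hY
  · filter_upwards [ae_restrict_mem measurableSet_Ioi] with x hx
    have : (0 : ℝ) < x := lt_trans hY hx
    positivity

theorem tail_neg (Y : ℝ) (hY : 0 < Y) : ∫⁻ ξ in Set.Iio (-Y), ENNReal.ofReal ((-ξ) ^ (-2 : ℝ)) ≤ ENNReal.ofReal (1 / Y) := by
  have h := (Measure.measurePreserving_neg (volume : Measure ℝ)).setLIntegral_comp_preimage
    (measurableSet_Ioi (a := Y)) (f := fun ξ => ENNReal.ofReal (ξ ^ (-2 : ℝ))) (by fun_prop)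
  have h2 : (Neg.neg ⁻¹' Set.Ioi Y : Set ℝ) = Set.Iio (-Y) := by
    ext x; simp [lt_neg]
  rw [h2] at h
  rw [h]
  exact tail_pos Y hY

theorem core (F E : ℝ → ℂ) (X Y P Q G H S : ℝ) (hX : 0 ≤ X) (hY : 0 < Y) (hP : 0 ≤ P) (hQ : 0 ≤ Q)
    (hG : 0 ≤ G) (hH : 0 ≤ H) (hS : 0 ≤ S)
    (hE1 : ∀ ξ, ‖E ξ‖ ≤ P) (hE2 : ∀ ξ, X ≤ |ξ| → |ξ| ≤ Y → ‖E ξ‖ ≤ Q)
    (hF1 : ∀ ξ, |ξ| ≤ X → ‖F ξ‖ ≤ G) (hF2 : ∀ ξ, ξ ≠ 0 → ‖F ξ‖ ≤ H / |ξ|)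
    (hF : ∫⁻ ξ : ℝ, ‖F ξ‖ₑ ^ 2 ≤ ENNReal.ofReal S) :
    ∫⁻ ξ : ℝ, ‖F ξ‖ₑ ^ 2 * ‖E ξ‖ₑ ^ 2 ≤ ENNReal.ofReal (2 * X * (G ^ 2 * P ^ 2) + Q ^ 2 * S + 2 * (H ^ 2 * P ^ 2) / Y) := by
  have hen : ∀ (z : ℂ) (B : ℝ), ‖z‖ ≤ B → ‖z‖ₑ ^ 2 ≤ ENNReal.ofReal (B ^ 2) := by
    intro z B hB
    have hB0 : 0 ≤ B := le_trans (norm_nonneg _) hB
    rw [ENNReal.ofReal_pow hB0]
    gcongr
    rw [← ofReal_norm]
    exact ENNReal.ofReal_le_ofReal hB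
  have hcov : (Set.univ : Set ℝ) ⊆ Set.Icc (-X) X ∪ ({ξ | X ≤ |ξ| ∧ |ξ| ≤ Y} ∪ (Set.Ioi Y ∪ Set.Iio (-Y))) := by
    intro ξ _
    simp only [Set.mem_union, Set.mem_Icc, Set.mem_setOf_eq, Set.mem_Ioi, Set.mem_Iio]
    by_cases h1 : |ξ| ≤ X
    · left; exact abs_le.mp h1
    · right
      by_cases h2 : |ξ| ≤ Y
      · left; exact ⟨le_of_not_ge h1, h2⟩
      · right
        rcases lt_abs.mp (not_le.mp h2) with h | h
        · left; exact h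
        · right; linarith
  have h0 : ∫⁻ ξ : ℝ, ‖F ξ‖ₑ ^ 2 * ‖E ξ‖ₑ ^ 2 ≤
      (∫⁻ ξ in Set.Icc (-X) X, ‖F ξ‖ₑ ^ 2 * ‖E ξ‖ₑ ^ 2) + ((∫⁻ ξ in {ξ | X ≤ |ξ| ∧ |ξ| ≤ Y}, ‖F ξ‖ₑ ^ 2 * ‖E ξ‖ₑ ^ 2)
        + ((∫⁻ ξ in Set.Ioi Y, ‖F ξ‖ₑ ^ 2 * ‖E ξ‖ₑ ^ 2) + ∫⁻ ξ in Set.Iio (-Y), ‖F ξ‖ₑ ^ 2 * ‖E ξ‖ₑ ^ 2)) := by
    rw [← setLIntegral_univ]
    refine (lintegral_mono_set hcov).trans ?_
    refine (lintegral_union_le _ _ _).trans ?_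
    refine add_le_add le_rfl ?_
    refine (lintegral_union_le _ _ _).trans ?_
    refine add_le_add le_rfl ?_
    exact lintegral_union_le _ _ _
  have h1 : ∫⁻ ξ in Set.Icc (-X) X, ‖F ξ‖ₑ ^ 2 * ‖E ξ‖ₑ ^ 2 ≤ ENNReal.ofReal (2 * X * (G ^ 2 * P ^ 2)) := by
    calc ∫⁻ ξ in Set.Icc (-X) X, ‖F ξ‖ₑ ^ 2 * ‖E ξ‖ₑ ^ 2
        ≤ ∫⁻ ξ in Set.Icc (-X) X, ENNReal.ofReal (G ^ 2 * P ^ 2) := by
          apply setLIntegral_mono' measurableSet_Icc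
          intro ξ hξ
          rw [ENNReal.ofReal_mul (by positivity)]
          exact mul_le_mul' (hen _ _ (hF1 ξ (abs_le.mpr hξ))) (hen _ _ (hE1 ξ))
      _ = ENNReal.ofReal (2 * X * (G ^ 2 * P ^ 2)) := by
          rw [setLIntegral_const, Real.volume_Icc, ← ENNReal.ofReal_mul (by positivity)]
          congr 1; ring
  have hmeasB : MeasurableSet {ξ : ℝ | X ≤ |ξ| ∧ |ξ| ≤ Y} := by
    have h1 : MeasurableSet {ξ : ℝ | X ≤ |ξ|} := measurableSet_le measurable_const measurable_abs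
    have h2 : MeasurableSet {ξ : ℝ | |ξ| ≤ Y} := measurableSet_le measurable_abs measurable_const
    exact h1.inter h2
  have h2 : ∫⁻ ξ in {ξ | X ≤ |ξ| ∧ |ξ| ≤ Y}, ‖F ξ‖ₑ ^ 2 * ‖E ξ‖ₑ ^ 2 ≤ ENNReal.ofReal (Q ^ 2 * S) := by
    calc ∫⁻ ξ in {ξ | X ≤ |ξ| ∧ |ξ| ≤ Y}, ‖F ξ‖ₑ ^ 2 * ‖E ξ‖ₑ ^ 2
        ≤ ∫⁻ ξ in {ξ | X ≤ |ξ| ∧ |ξ| ≤ Y}, ENNReal.ofReal (Q ^ 2) * ‖F ξ‖ₑ ^ 2 := by
          apply setLIntegral_mono' hmeasB
          intro ξ hξ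
          rw [mul_comm]
          exact mul_le_mul' (hen _ _ (hE2 ξ hξ.1 hξ.2)) le_rfl
      _ = ENNReal.ofReal (Q ^ 2) * ∫⁻ ξ in {ξ | X ≤ |ξ| ∧ |ξ| ≤ Y}, ‖F ξ‖ₑ ^ 2 :=
          lintegral_const_mul' _ _ ENNReal.ofReal_ne_top
      _ ≤ ENNReal.ofReal (Q ^ 2) * ENNReal.ofReal S := by
          gcongr
          exact (setLIntegral_le_lintegral _ _).trans hF
      _ = ENNReal.ofReal (Q ^ 2 * S) := by rw [← ENNReal.ofReal_mul (by positivity)]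
  have h3 : ∫⁻ ξ in Set.Ioi Y, ‖F ξ‖ₑ ^ 2 * ‖E ξ‖ₑ ^ 2 ≤ ENNReal.ofReal ((H ^ 2 * P ^ 2) / Y) := by
    calc ∫⁻ ξ in Set.Ioi Y, ‖F ξ‖ₑ ^ 2 * ‖E ξ‖ₑ ^ 2
        ≤ ∫⁻ ξ in Set.Ioi Y, ENNReal.ofReal (H ^ 2 * P ^ 2) * ENNReal.ofReal (ξ ^ (-2 : ℝ)) := by
          apply setLIntegral_mono' measurableSet_Ioi
          intro ξ hξ
          have hξ0 : 0 < ξ := lt_trans hY hξ
          rw [← ENNReal.ofReal_mul (by positivity)]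
          have h1 := hen _ _ (hF2 ξ hξ0.ne')
          have h2 := hen _ _ (hE1 ξ)
          refine (mul_le_mul' h1 h2).trans ?_
          rw [← ENNReal.ofReal_mul (by positivity)]
          apply ENNReal.ofReal_le_ofReal
          apply le_of_eq
          rw [abs_of_pos hξ0, Real.rpow_neg hξ0.le, show (2 : ℝ) = ((2 : ℕ) : ℝ) by norm_num, Real.rpow_natCast]
          field_simp
      _ = ENNReal.ofReal (H ^ 2 * P ^ 2) * ∫⁻ ξ in Set.Ioi Y, ENNReal.ofReal (ξ ^ (-2 : ℝ)) :=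
          lintegral_const_mul' _ _ ENNReal.ofReal_ne_top
      _ ≤ ENNReal.ofReal (H ^ 2 * P ^ 2) * ENNReal.ofReal (1 / Y) := by
          gcongr
          exact tail_pos Y hY
      _ = ENNReal.ofReal ((H ^ 2 * P ^ 2) / Y) := by
          rw [← ENNReal.ofReal_mul (by positivity)]
          congr 1; ring
  have h4 : ∫⁻ ξ in Set.Iio (-Y), ‖F ξ‖ₑ ^ 2 * ‖E ξ‖ₑ ^ 2 ≤ ENNReal.ofReal ((H ^ 2 * P ^ 2) / Y) := by
    calc ∫⁻ ξ in Set.Iio (-Y), ‖F ξ‖ₑ ^ 2 * ‖E ξ‖ₑ ^ 2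
        ≤ ∫⁻ ξ in Set.Iio (-Y), ENNReal.ofReal (H ^ 2 * P ^ 2) * ENNReal.ofReal ((-ξ) ^ (-2 : ℝ)) := by
          apply setLIntegral_mono' measurableSet_Iio
          intro ξ hξ
          have hξ0 : ξ < 0 := by
            have : ξ < -Y := hξ
            linarith
          have hξ1 : 0 < -ξ := by linarith
          rw [← ENNReal.ofReal_mul (by positivity)]
          have h1 := hen _ _ (hF2 ξ hξ0.ne)
          have h2 := hen _ _ (hE1 ξ)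
          refine (mul_le_mul' h1 h2).trans ?_
          rw [← ENNReal.ofReal_mul (by positivity)]
          apply ENNReal.ofReal_le_ofReal
          apply le_of_eq
          rw [abs_of_neg hξ0, Real.rpow_neg hξ1.le, show (2 : ℝ) = ((2 : ℕ) : ℝ) by norm_num, Real.rpow_natCast]
          field_simp
      _ = ENNReal.ofReal (H ^ 2 * P ^ 2) * ∫⁻ ξ in Set.Iio (-Y), ENNReal.ofReal ((-ξ) ^ (-2 : ℝ)) :=
          lintegral_const_mul' _ _ ENNReal.ofReal_ne_top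
      _ ≤ ENNReal.ofReal (H ^ 2 * P ^ 2) * ENNReal.ofReal (1 / Y) := by
          gcongr
          exact tail_neg Y hY
      _ = ENNReal.ofReal ((H ^ 2 * P ^ 2) / Y) := by
          rw [← ENNReal.ofReal_mul (by positivity)]
          congr 1; ring
  refine h0.trans ?_
  refine (add_le_add h1 (add_le_add h2 (add_le_add h3 h4))).trans ?_
  rw [← ENNReal.ofReal_add (by positivity) (by positivity), ← ENNReal.ofReal_add (by positivity) (by positivity),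
    ← ENNReal.ofReal_add (by positivity) (by positivity)]
  apply ENNReal.ofReal_le_ofReal
  apply le_of_eq
  ring

theorem pass (s : ℝ → ℝ) (Z : ℝ → ℂ) (a b V : ℝ) (hV : 0 ≤ V) (hs : ∀ u ∈ Set.Icc a b, (s u : ℂ) = Z u)
    (hZ : ∫⁻ u : ℝ, ‖Z u‖ₑ ^ 2 ≤ ENNReal.ofReal V) : ∫ u in Set.Icc a b, (s u) ^ 2 ≤ V := by
  by_cases hi : IntegrableOn (fun u => (s u) ^ 2) (Set.Icc a b)
  · rw [integral_eq_lintegral_of_nonneg_ae (ae_of_all _ fun u => sq_nonneg _) hi.1]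
    apply ENNReal.toReal_le_of_le_ofReal hV
    refine le_trans ?_ hZ
    refine le_trans ?_ (setLIntegral_le_lintegral (Set.Icc a b) _)
    apply setLIntegral_mono' measurableSet_Icc
    intro u hu
    rw [← hs u hu, ← ofReal_norm, Complex.norm_real, ← ENNReal.ofReal_pow (norm_nonneg _),
      Real.norm_eq_abs, sq_abs]
  · rw [integral_undef hi]; exact hV

theorem norm_e (x : ℝ) : ‖e x‖ = 1 := by
  unfold e
  exact Complex.norm_exp_ofReal_mul_I _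

open FourierTransform in
theorem meanSquare (hPl : ∀ (g : ℝ → ℂ), Integrable g → MemLp g 2 →
      ∫⁻ ξ : ℝ, ‖𝓕 g ξ‖ₑ ^ 2 = ∫⁻ z : ℝ, ‖g z‖ₑ ^ 2)
    (w f h : ℕ → ℝ) (hw : LogBdd w) (hE : ExpB w f) (hG : Gro f) (hb : LogBdd h) (hm : MeanZero h)
    (a b : ℝ) (hab : a ≤ b) (A : ℕ) :
    ∃ C : ℝ, ∀ᶠ J : ℕ in atTop, ∀ L ≤ J,
      ∫ u in Set.Icc a b, (∑ n ∈ range L, w (J + n) * h ⌊Real.exp u * f (J + n)⌋₊) ^ 2 ≤ C * (J : ℝ) ^ 2 / (Real.log J) ^ A := by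
  obtain ⟨Cw, kw, hw⟩ := hw
  have hb2 := hb
  obtain ⟨Ch, kh, hb'⟩ := hb2
  obtain ⟨c, Cg, hc, hCg, hG⟩ := hG
  obtain ⟨D, hD⟩ := exists_nat_ge (2 * Cg)
  obtain ⟨R, hR⟩ : ∃ R, R = b - a + 2 * Cg + 1 := ⟨_, rfl⟩
  have hR0 : 0 < R := by rw [hR]; linarith
  obtain ⟨T, C', hE⟩ := hE (2 * D + 1) (A + kh)
  obtain ⟨B, hB⟩ : ∃ B, B = 3 * T + 2 * kw + A := ⟨_, rfl⟩
  obtain ⟨CB, hCB⟩ := log_mean h hb hm B R
  obtain ⟨W, hW⟩ : ∃ W, W = |Cw| * 2 ^ kw := ⟨_, rfl⟩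
  have hW0 : 0 ≤ W := by rw [hW]; positivity
  obtain ⟨K0, hK0⟩ : ∃ K0, K0 = |Ch| * ((D : ℝ) + 1) ^ kh := ⟨_, rfl⟩
  have hK00 : 0 ≤ K0 := by rw [hK0]; positivity
  obtain ⟨G0, hG0⟩ : ∃ G0, G0 = |CB| * (2 / c) ^ B * (1 + 2 * Real.pi * R) := ⟨_, rfl⟩
  have hG00 : 0 ≤ G0 := by rw [hG0]; positivity
  refine ⟨2 * G0 ^ 2 * W ^ 2 + C' ^ 2 * K0 ^ 2 * R + 18 * K0 ^ 2 * W ^ 2, ?_⟩
  have hlog : Tendsto (fun J : ℕ => Real.log (J : ℝ)) atTop atTop :=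
    Real.tendsto_log_atTop.comp tendsto_natCast_atTop_atTop
  have ev1 : ∀ᶠ J : ℕ in atTop, 1 ≤ Real.log (J : ℝ) := hlog.eventually_ge_atTop 1
  have ev2 : ∀ᶠ J : ℕ in atTop, (Real.log (J : ℝ)) ^ (2 * kh + 2 * kw + A) ≤ (J : ℝ) := by
    have h1 := (Real.isLittleO_pow_log_id_atTop (n := 2 * kh + 2 * kw + A)).bound (c := 1) one_pos
    have h2 := tendsto_natCast_atTop_atTop.eventually h1
    filter_upwards [h2, ev1] with J hJ hJ1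
    simp only [id_eq, one_mul, Real.norm_eq_abs] at hJ
    rwa [abs_of_nonneg (by positivity), abs_of_nonneg (by positivity)] at hJ
  have ev3 : ∀ᶠ J : ℕ in atTop, (2 / c) * (Cg + 1 + |a|) ≤ Real.log (J : ℝ) := hlog.eventually_ge_atTop _
  have ev4 : ∀ᶠ J : ℕ in atTop, (1 / Cg) * (|b| + Cg) ≤ Real.log (J : ℝ) := hlog.eventually_ge_atTop _
  have ev5 : ∀ᶠ J : ℕ in atTop, 3 ≤ J := eventually_ge_atTop 3
  filter_upwards [ev1, ev2, ev3, ev4, ev5, hG, hE] with J h1 h2 h3 h4 h5 hG hE L hL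
  obtain ⟨Λ, hΛ⟩ : ∃ Λ, Λ = Real.log (J : ℝ) := ⟨_, rfl⟩
  rw [← hΛ] at h1 h2 h3 h4 hE ⊢
  have hJ3 : (3 : ℝ) ≤ (J : ℝ) := by exact_mod_cast h5
  have hJ0 : (0 : ℝ) < (J : ℝ) := by linarith
  have hΛ0 : 0 < Λ := by linarith
  have hc3 : Cg + 1 + |a| ≤ (c / 2) * Λ := by
    have : (c / 2) * ((2 / c) * (Cg + 1 + |a|)) ≤ (c / 2) * Λ := mul_le_mul_of_nonneg_left h3 (by positivity)
    have h' : (c / 2) * ((2 / c) * (Cg + 1 + |a|)) = Cg + 1 + |a| := by field_simp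
    linarith
  have hc4 : |b| + Cg ≤ Cg * Λ := by
    have : Cg * ((1 / Cg) * (|b| + Cg)) ≤ Cg * Λ := mul_le_mul_of_nonneg_left h4 (by positivity)
    have h' : Cg * ((1 / Cg) * (|b| + Cg)) = |b| + Cg := by field_simp
    linarith
  obtain ⟨F0, hF0⟩ : ∃ F0, F0 = Real.log (f J) := ⟨_, rfl⟩
  have hGJ := hG J le_rfl (by omega)
  rw [← hF0, ← hΛ] at hGJ
  obtain ⟨v0, hv0⟩ : ∃ v0, v0 = a + F0 - Cg - 1 := ⟨_, rfl⟩
  obtain ⟨v1, hv1⟩ : ∃ v1, v1 = b + F0 + Cg := ⟨_, rfl⟩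
  have hv01 : v1 - v0 = R := by rw [hv0, hv1, hR]; ring
  have hvle : v0 ≤ v1 := by linarith
  have hv0c : (c / 2) * Λ ≤ v0 := by
    have := neg_abs_le a
    rw [hv0]; nlinarith [hGJ.2.1]
  have hv0one : 1 ≤ v0 := by
    have : 0 ≤ |a| := abs_nonneg a
    linarith
  have hv1le : v1 ≤ 2 * Cg * Λ := by
    have := le_abs_self b
    rw [hv1]; nlinarith [hGJ.2.2.1]
  have hexp : Real.exp v1 ≤ (J : ℝ) ^ D := by
    have e1 : v1 ≤ (D : ℝ) * Λ := hv1le.trans (mul_le_mul_of_nonneg_right hD hΛ0.le)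
    calc Real.exp v1 ≤ Real.exp ((D : ℝ) * Λ) := Real.exp_le_exp.mpr e1
      _ = (J : ℝ) ^ D := by rw [Real.exp_nat_mul, hΛ, Real.exp_log hJ0]
  -- bound for h
  have hK : ∀ m : ℕ, (m : ℝ) ≤ Real.exp v1 → |h m| ≤ K0 * Λ ^ kh := by
    intro m hm
    have hm2 : (m : ℝ) + 2 ≤ (J : ℝ) ^ (D + 1) := by
      have : (1 : ℝ) ≤ (J : ℝ) ^ D := one_le_pow₀ (by linarith)
      rw [pow_succ]
      nlinarith [hm.trans hexp]
    have hlog2 : Real.log ((m : ℝ) + 2) ≤ ((D : ℝ) + 1) * Λ := by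
      have := Real.log_le_log (by positivity) hm2
      rw [Real.log_pow, ← hΛ] at this
      push_cast at this
      exact this
    have hlog0 : 0 ≤ Real.log ((m : ℝ) + 2) := Real.log_nonneg (by linarith [(Nat.cast_nonneg m : (0 : ℝ) ≤ m)])
    calc |h m| ≤ Ch * (Real.log ((m : ℝ) + 2)) ^ kh := hb' m
      _ ≤ |Ch| * (Real.log ((m : ℝ) + 2)) ^ kh := mul_le_mul_of_nonneg_right (le_abs_self _) (by positivity)
      _ ≤ |Ch| * (((D : ℝ) + 1) * Λ) ^ kh := by gcongr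
      _ = K0 * Λ ^ kh := by rw [hK0, mul_pow]; ring
  -- bound for w
  have hWb : ∀ n, n < L → |w (J + n)| ≤ W * Λ ^ kw := by
    intro n hn
    have hn2 : ((J + n : ℕ) : ℝ) + 2 ≤ (J : ℝ) ^ 2 := by
      have : ((J + n : ℕ) : ℝ) ≤ 2 * J := by
        have : J + n ≤ 2 * J := by omega
        exact_mod_cast this
      nlinarith
    have hlog2 : Real.log (((J + n : ℕ) : ℝ) + 2) ≤ 2 * Λ := by
      have := Real.log_le_log (by positivity) hn2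
      rw [Real.log_pow, ← hΛ] at this
      push_cast at this ⊢
      exact this
    have hlog0 : 0 ≤ Real.log (((J + n : ℕ) : ℝ) + 2) :=
      Real.log_nonneg (by linarith [(Nat.cast_nonneg (J + n) : (0 : ℝ) ≤ ((J + n : ℕ) : ℝ))])
    calc |w (J + n)| ≤ Cw * (Real.log (((J + n : ℕ) : ℝ) + 2)) ^ kw := hw (J + n)
      _ ≤ |Cw| * (Real.log (((J + n : ℕ) : ℝ) + 2)) ^ kw := mul_le_mul_of_nonneg_right (le_abs_self _) (by positivity)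
      _ ≤ |Cw| * (2 * Λ) ^ kw := by gcongr
      _ = W * Λ ^ kw := by rw [hW, mul_pow]; ring
  obtain ⟨E, hEdef⟩ : ∃ E : ℝ → ℂ, E = fun ξ => ∑ n ∈ range L, (w (J + n) : ℂ) * e (ξ * Real.log (f (J + n))) := ⟨_, rfl⟩
  have hE1 : ∀ ξ, ‖E ξ‖ ≤ W * J * Λ ^ kw := by
    intro ξ
    rw [hEdef]
    calc ‖∑ n ∈ range L, (w (J + n) : ℂ) * e (ξ * Real.log (f (J + n)))‖
        ≤ ∑ n ∈ range L, ‖(w (J + n) : ℂ) * e (ξ * Real.log (f (J + n)))‖ := norm_sum_le _ _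
      _ ≤ ∑ n ∈ range L, W * Λ ^ kw := by
          apply sum_le_sum
          intro n hn
          rw [norm_mul, norm_e, mul_one, Complex.norm_real, Real.norm_eq_abs]
          exact hWb n (mem_range.mp hn)
      _ = (L : ℝ) * (W * Λ ^ kw) := by rw [sum_const, card_range, nsmul_eq_mul]
      _ ≤ (J : ℝ) * (W * Λ ^ kw) := by
          have : (L : ℝ) ≤ J := by exact_mod_cast hL
          gcongr
      _ = W * J * Λ ^ kw := by ring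
  have hE2 : ∀ ξ, Λ ^ T ≤ |ξ| → |ξ| ≤ (J : ℝ) ^ (2 * D + 1) → ‖E ξ‖ ≤ |C'| * J / Λ ^ (A + kh) := by
    intro ξ hξ1 hξ2
    rw [hEdef]
    refine (hE L hL ξ hξ1 hξ2).trans ?_
    have := le_abs_self C'
    gcongr
  have hpr := psi_props h v0 v1 (K0 * Λ ^ kh) hvle (by positivity) hK
  have hF2 : ∀ ξ, ξ ≠ 0 → ‖𝓕 (Psi h v0 v1) ξ‖ ≤ (K0 * Λ ^ kh * ((J : ℝ) ^ D + 2)) / |ξ| := by
    intro ξ hξ
    refine (psi_high h v0 v1 (K0 * Λ ^ kh) hvle (by positivity) hK ξ hξ).trans ?_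
    gcongr
  have hF1 : ∀ ξ, |ξ| ≤ Λ ^ T → ‖𝓕 (Psi h v0 v1) ξ‖ ≤ G0 * Λ ^ T / Λ ^ B := by
    intro ξ hξ
    have hlo := psi_low h v0 v1 (|CB| * (2 / c) ^ B / Λ ^ B) hvle (by positivity) (by
      intro v hv hv'
      refine (hCB v0 v hv0one hv (by linarith)).trans ?_
      calc CB / v0 ^ B ≤ |CB| / v0 ^ B := by gcongr; exact le_abs_self _
        _ ≤ |CB| / ((c / 2) * Λ) ^ B := by gcongr
        _ = |CB| * (2 / c) ^ B / Λ ^ B := by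
            rw [mul_pow, div_pow, div_pow]; field_simp) ξ
    refine hlo.trans ?_
    rw [hv01]
    have hΛT : 1 ≤ Λ ^ T := one_le_pow₀ h1
    have : 1 + 2 * Real.pi * |ξ| * R ≤ (1 + 2 * Real.pi * R) * Λ ^ T := by
      have e1 : 2 * Real.pi * |ξ| * R ≤ 2 * Real.pi * Λ ^ T * R := by gcongr
      nlinarith
    calc |CB| * (2 / c) ^ B / Λ ^ B * (1 + 2 * Real.pi * |ξ| * R)
        ≤ |CB| * (2 / c) ^ B / Λ ^ B * ((1 + 2 * Real.pi * R) * Λ ^ T) := by gcongr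
      _ = G0 * Λ ^ T / Λ ^ B := by rw [hG0]; ring
  have hF : ∫⁻ ξ : ℝ, ‖𝓕 (Psi h v0 v1) ξ‖ₑ ^ 2 ≤ ENNReal.ofReal ((K0 * Λ ^ kh) ^ 2 * R) := by
    rw [hPl _ hpr.1 hpr.2.1, ← hv01]
    exact hpr.2.2
  have hcore := core (𝓕 (Psi h v0 v1)) E (Λ ^ T) ((J : ℝ) ^ (2 * D + 1)) (W * J * Λ ^ kw) (|C'| * J / Λ ^ (A + kh))
    (G0 * Λ ^ T / Λ ^ B) (K0 * Λ ^ kh * ((J : ℝ) ^ D + 2)) ((K0 * Λ ^ kh) ^ 2 * R)
    (by positivity) (by positivity) (by positivity) (by positivity) (by positivity) (by positivity) (by positivity)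
    hE1 hE2 hF1 hF2 hF
  have hpl := plancherel_sum hPl (Psi h v0 v1) hpr.1 hpr.2.1 L (fun n => w (J + n)) (fun n => Real.log (f (J + n)))
  rw [hEdef] at hcore
  rw [← hpl] at hcore
  refine (pass _ (fun u => ∑ n ∈ range L, (w (J + n) : ℂ) * Psi h v0 v1 (u + Real.log (f (J + n)))) a b _ (by positivity) ?_ hcore).trans ?_
  · intro u hu
    push_cast
    apply sum_congr rfl
    intro n hn
    have hn' := mem_range.mp hn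
    have hg := hG (J + n) (by omega) (by omega)
    rw [← hF0] at hg
    have habs := abs_le.mp hg.2.2.2
    have hmem : u + Real.log (f (J + n)) ∈ Set.Ioc v0 v1 := by
      constructor
      · rw [hv0]; linarith [hu.1, habs.1]
      · rw [hv1]; linarith [hu.2, habs.2]
    unfold Psi
    rw [Set.indicator_of_mem hmem, Real.exp_add, Real.exp_log hg.1]
  · have hΛk : ∀ k : ℕ, 0 < Λ ^ k := fun k => by positivity
    have t1 : 2 * Λ ^ T * ((G0 * Λ ^ T / Λ ^ B) ^ 2 * (W * J * Λ ^ kw) ^ 2) ≤ 2 * G0 ^ 2 * W ^ 2 * (J : ℝ) ^ 2 / Λ ^ A := by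
      have e1 : 2 * Λ ^ T * ((G0 * Λ ^ T / Λ ^ B) ^ 2 * (W * J * Λ ^ kw) ^ 2)
          = 2 * G0 ^ 2 * W ^ 2 * (J : ℝ) ^ 2 * (Λ ^ (3 * T + 2 * kw) / Λ ^ (2 * B)) := by
        rw [div_pow, mul_pow, mul_pow, mul_pow, ← pow_mul, ← pow_mul, ← pow_mul]
        rw [show 3 * T + 2 * kw = T + T * 2 + kw * 2 by ring, pow_add, pow_add, show B * 2 = 2 * B by ring]
        ring
      have e2 : Λ ^ (3 * T + 2 * kw) / Λ ^ (2 * B) ≤ 1 / Λ ^ A := by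
        rw [div_le_div_iff₀ (hΛk _) (hΛk _), one_mul, ← pow_add]
        exact pow_le_pow_right₀ h1 (by omega)
      rw [e1]
      calc 2 * G0 ^ 2 * W ^ 2 * (J : ℝ) ^ 2 * (Λ ^ (3 * T + 2 * kw) / Λ ^ (2 * B))
          ≤ 2 * G0 ^ 2 * W ^ 2 * (J : ℝ) ^ 2 * (1 / Λ ^ A) := by gcongr
        _ = 2 * G0 ^ 2 * W ^ 2 * (J : ℝ) ^ 2 / Λ ^ A := by ring
    have t2 : (|C'| * J / Λ ^ (A + kh)) ^ 2 * ((K0 * Λ ^ kh) ^ 2 * R) ≤ C' ^ 2 * K0 ^ 2 * R * (J : ℝ) ^ 2 / Λ ^ A := by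
      have e1 : (|C'| * J / Λ ^ (A + kh)) ^ 2 * ((K0 * Λ ^ kh) ^ 2 * R)
          = C' ^ 2 * K0 ^ 2 * R * (J : ℝ) ^ 2 * (1 / (Λ ^ A) ^ 2) := by
        have h0 : Λ ^ kh ≠ 0 := (hΛk _).ne'
        have h0' : Λ ^ A ≠ 0 := (hΛk _).ne'
        rw [pow_add, div_pow, mul_pow, mul_pow, mul_pow, sq_abs]
        field_simp
      have e2 : 1 / (Λ ^ A) ^ 2 ≤ 1 / Λ ^ A := by
        rw [div_le_div_iff₀ (by positivity) (hΛk _), one_mul, one_mul]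
        have : 1 ≤ Λ ^ A := one_le_pow₀ h1
        nlinarith
      rw [e1]
      calc C' ^ 2 * K0 ^ 2 * R * (J : ℝ) ^ 2 * (1 / (Λ ^ A) ^ 2)
          ≤ C' ^ 2 * K0 ^ 2 * R * (J : ℝ) ^ 2 * (1 / Λ ^ A) := by gcongr
        _ = C' ^ 2 * K0 ^ 2 * R * (J : ℝ) ^ 2 / Λ ^ A := by ring
    have t3 : 2 * ((K0 * Λ ^ kh * ((J : ℝ) ^ D + 2)) ^ 2 * (W * J * Λ ^ kw) ^ 2) / (J : ℝ) ^ (2 * D + 1) ≤
        18 * K0 ^ 2 * W ^ 2 * (J : ℝ) ^ 2 / Λ ^ A := by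
      have hJD : (1 : ℝ) ≤ (J : ℝ) ^ D := one_le_pow₀ (by linarith)
      have e0 : ((J : ℝ) ^ D + 2) ^ 2 ≤ 9 * ((J : ℝ) ^ D) ^ 2 := by nlinarith
      have e1 : 2 * ((K0 * Λ ^ kh * ((J : ℝ) ^ D + 2)) ^ 2 * (W * J * Λ ^ kw) ^ 2) / (J : ℝ) ^ (2 * D + 1)
          = 2 * K0 ^ 2 * W ^ 2 * (J : ℝ) ^ 2 * (((J : ℝ) ^ D + 2) ^ 2 * Λ ^ (2 * kh + 2 * kw) / (J : ℝ) ^ (2 * D + 1)) := by
        rw [mul_pow, mul_pow, mul_pow, mul_pow, ← pow_mul, ← pow_mul, pow_add Λ, mul_comm kh 2, mul_comm kw 2]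
        ring
      have e2 : ((J : ℝ) ^ D + 2) ^ 2 * Λ ^ (2 * kh + 2 * kw) / (J : ℝ) ^ (2 * D + 1) ≤ 9 * (1 / Λ ^ A) := by
        have e3 : ((J : ℝ) ^ D + 2) ^ 2 * Λ ^ (2 * kh + 2 * kw) / (J : ℝ) ^ (2 * D + 1)
            ≤ (9 * ((J : ℝ) ^ D) ^ 2) * Λ ^ (2 * kh + 2 * kw) / (J : ℝ) ^ (2 * D + 1) := by gcongr
        refine e3.trans ?_
        have e4 : (9 * ((J : ℝ) ^ D) ^ 2) * Λ ^ (2 * kh + 2 * kw) / (J : ℝ) ^ (2 * D + 1) = 9 * (Λ ^ (2 * kh + 2 * kw) / J) := by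
          have hne : (J : ℝ) ≠ 0 := hJ0.ne'
          have e5 : (J : ℝ) ^ (2 * D + 1) = ((J : ℝ) ^ D) ^ 2 * J := by ring
          have hne2 : ((J : ℝ) ^ D) ^ 2 ≠ 0 := by positivity
          rw [e5]
          field_simp
        rw [e4]
        apply mul_le_mul_of_nonneg_left _ (by norm_num)
        rw [div_le_div_iff₀ hJ0 (hΛk _), one_mul, ← pow_add]
        exact h2
      rw [e1]
      calc 2 * K0 ^ 2 * W ^ 2 * (J : ℝ) ^ 2 * (((J : ℝ) ^ D + 2) ^ 2 * Λ ^ (2 * kh + 2 * kw) / (J : ℝ) ^ (2 * D + 1))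
          ≤ 2 * K0 ^ 2 * W ^ 2 * (J : ℝ) ^ 2 * (9 * (1 / Λ ^ A)) := mul_le_mul_of_nonneg_left e2 (by positivity)
        _ = 18 * K0 ^ 2 * W ^ 2 * (J : ℝ) ^ 2 / Λ ^ A := by ring
    calc _ ≤ 2 * G0 ^ 2 * W ^ 2 * (J : ℝ) ^ 2 / Λ ^ A + C' ^ 2 * K0 ^ 2 * R * (J : ℝ) ^ 2 / Λ ^ A +
          18 * K0 ^ 2 * W ^ 2 * (J : ℝ) ^ 2 / Λ ^ A := add_le_add (add_le_add t1 t2) t3
      _ = _ := by ring

end TS10

end Pool.Agent.helper616_TS
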