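import Pool.Agent.helper616_TS.Defs

/-!
# Project TS (helper616): from mean squares to almost all parameters
-/

set_option autoImplicit false
set_option maxHeartbeats 4000000

open Finset MeasureTheory Filter Topology

namespace Pool.Agent.helper616_TS

namespace TS11


lemma summ_aux : Summable (fun n : ℕ => 1 / ((n : ℝ) * (Real.log ((n : ℝ) + 1)) ^ 2)) := by
  rw [← summable_condensed_iff_of_nonneg]
  · have h1 : Summable (fun k : ℕ => (1 / (Real.log 2) ^ 2) * (1 / ((k : ℝ)) ^ 2)) :=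
      (Real.summable_one_div_nat_pow.2 (by norm_num)).mul_left _
    rw [← summable_nat_add_iff 1] at h1 ⊢
    refine Summable.of_nonneg_of_le (fun k => by positivity) (fun k => ?_) h1
    have hl2 : 0 < Real.log 2 := Real.log_pos (by norm_num)
    have h2 : ((k + 1 : ℕ) : ℝ) * Real.log 2 ≤ Real.log (((2 ^ (k + 1) : ℕ) : ℝ) + 1) := by
      have : ((k + 1 : ℕ) : ℝ) * Real.log 2 = Real.log (((2 ^ (k + 1) : ℕ) : ℝ)) := by
        push_cast
        rw [Real.log_pow]
        push_cast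
        ring
      rw [this]
      exact Real.log_le_log (by positivity) (by linarith)
    have h3 : 0 < ((k + 1 : ℕ) : ℝ) * Real.log 2 := by positivity
    have h4 : (2 : ℝ) ^ (k + 1) * (1 / (((2 ^ (k + 1) : ℕ) : ℝ) * (Real.log (((2 ^ (k + 1) : ℕ) : ℝ) + 1)) ^ 2)) =
        1 / (Real.log (((2 ^ (k + 1) : ℕ) : ℝ) + 1)) ^ 2 := by
      push_cast
      have : (0 : ℝ) < 2 ^ (k + 1) := by positivity
      field_simp
    rw [h4]
    have h5 : 1 / Real.log 2 ^ 2 * (1 / (((k + 1 : ℕ) : ℝ)) ^ 2) = 1 / (((k + 1 : ℕ) : ℝ) * Real.log 2) ^ 2 := by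
      rw [mul_pow]
      field_simp
    rw [h5]
    exact one_div_le_one_div_of_le (by positivity) (pow_le_pow_left₀ h3.le h2 2)
  · intro n
    positivity
  · intro m n hm hmn
    have hm' : (1 : ℝ) ≤ m := by exact_mod_cast hm
    have hmn' : (m : ℝ) ≤ n := by exact_mod_cast hmn
    have h1 : 0 < Real.log ((m : ℝ) + 1) := Real.log_pos (by linarith)
    have h2 : Real.log ((m : ℝ) + 1) ≤ Real.log ((n : ℝ) + 1) := Real.log_le_log (by linarith) (by linarith)
    apply one_div_le_one_div_of_le (by positivity)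
    gcongr

/-- the upper half block -/
noncomputable def XX (b : ℕ → ℝ) (N : ℕ) : ℝ := ∑ n ∈ range (N / 2), b ((N + 1) / 2 + n)

lemma sum_split (b : ℕ → ℝ) (N : ℕ) : ∑ n ∈ range N, b n = ∑ n ∈ range ((N + 1) / 2), b n + XX b N := by
  unfold XX
  rw [← Finset.sum_range_add]
  congr 2
  omega

lemma sum_diff (b : ℕ → ℝ) (B : ℝ) (N M : ℕ) (h : N ≤ M) (hB : ∀ n, n < M → |b n| ≤ B) :
    |∑ n ∈ range M, b n - ∑ n ∈ range N, b n| ≤ ((M : ℝ) - N) * B := by
  rw [← Finset.sum_Ico_eq_sub _ h]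
  refine (Finset.abs_sum_le_sum_abs _ _).trans ?_
  refine (Finset.sum_le_card_nsmul _ _ B (fun n hn => hB n (Finset.mem_Ico.1 hn).2)).trans ?_
  rw [nsmul_eq_mul, Nat.card_Ico, Nat.cast_sub h]

lemma pointwise (b : ℕ → ℝ) (C : ℝ) (k A : ℕ) (hb : ∀ n : ℕ, |b n| ≤ C * (Real.log (n + 2)) ^ k) (V : ℝ) (N1 : ℕ)
    (hV : ∀ N : ℕ, N1 ≤ N → ∀ K : ℕ,
      ∑ M ∈ Finset.Icc N (N + K), (XX b M) ^ 2 * (Real.log M) ^ (3 * A + k + 2) / (M : ℝ) ^ 3 ≤ V) :
    ∃ N2 : ℕ, ∀ N : ℕ, N2 ≤ N → |XX b N| ≤ N / (Real.log N) ^ A := by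
  have hl2 : 0 < Real.log 2 := Real.log_pos (by norm_num)
  have hC : 0 ≤ C := by
    have h1 := (abs_nonneg _).trans (hb 0)
    have h2 : 0 < (Real.log ((0 : ℕ) + 2)) ^ k := by
      have : ((0 : ℕ) : ℝ) + 2 = 2 := by norm_num
      rw [this]; positivity
    by_contra h3
    push Not at h3
    have := mul_neg_of_neg_of_pos h3 h2
    linarith
  have hlim : Tendsto (fun N : ℕ => Real.log (N : ℝ)) atTop atTop :=
    Real.tendsto_log_atTop.comp tendsto_natCast_atTop_atTop
  have hev : ∀ᶠ N : ℕ in atTop, N1 ≤ N ∧ 4 ≤ N ∧ 1 ≤ Real.log (N : ℝ) ∧ C * 2 ^ (k + 2) ≤ Real.log (N : ℝ) ∧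
      32 * V < Real.log (N : ℝ) := by
    filter_upwards [eventually_ge_atTop N1, eventually_ge_atTop 4, hlim.eventually_ge_atTop 1,
      hlim.eventually_ge_atTop (C * 2 ^ (k + 2)), hlim.eventually_gt_atTop (32 * V)] with N h1 h2 h3 h4 h5
    exact ⟨h1, h2, h3, h4, h5⟩
  obtain ⟨N2, hN2⟩ := eventually_atTop.1 hev
  refine ⟨N2, fun N hN => ?_⟩
  obtain ⟨h1, h2, h3, h4, h5⟩ := hN2 N hN
  by_contra hcon
  push Not at hcon
  set l : ℝ := Real.log (N : ℝ) with hl
  have hl0 : 0 < l := by linarith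
  have hN0 : (0 : ℝ) < N := by exact_mod_cast (by omega : 0 < N)
  have hN4 : (4 : ℝ) ≤ N := by exact_mod_cast h2
  set K : ℕ := ⌊(N : ℝ) / l ^ (A + k + 1)⌋₊ with hK
  have hK1 : (K : ℝ) ≤ (N : ℝ) / l ^ (A + k + 1) := Nat.floor_le (by positivity)
  have hK2 : (N : ℝ) / l ^ (A + k + 1) < K + 1 := Nat.lt_floor_add_one _
  have hKN : (K : ℝ) ≤ N := by
    refine hK1.trans (div_le_self hN0.le ?_)
    exact one_le_pow₀ h3
  have hKN' : K ≤ N := by exact_mod_cast hKN
  have hlog2 : Real.log (2 * (N : ℝ) + 2) ≤ 2 * l := by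
    have : 2 * l = Real.log ((N : ℝ) ^ 2) := by rw [Real.log_pow]; push_cast; ring
    rw [this]
    apply Real.log_le_log (by positivity)
    nlinarith
  set B : ℝ := C * (2 * l) ^ k with hB
  have hB0 : 0 ≤ B := by positivity
  have hbB : ∀ M : ℕ, M ≤ 2 * N → ∀ n, n < M → |b n| ≤ B := by
    intro M hM n hn
    refine (hb n).trans ?_
    apply mul_le_mul_of_nonneg_left _ hC
    have hn' : (n : ℝ) ≤ 2 * N := by exact_mod_cast (by omega : n ≤ 2 * N)
    apply pow_le_pow_left₀ (Real.log_nonneg (by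
      have : (0 : ℝ) ≤ n := Nat.cast_nonneg n
      linarith))
    refine le_trans (Real.log_le_log (by positivity) (by linarith)) hlog2
  have hdiff : ∀ M ∈ Finset.Icc N (N + K), |XX b M - XX b N| ≤ N / l ^ A / 2 := by
    intro M hM
    rw [Finset.mem_Icc] at hM
    have e1 : XX b M - XX b N = (∑ n ∈ range M, b n - ∑ n ∈ range N, b n) -
        (∑ n ∈ range ((M + 1) / 2), b n - ∑ n ∈ range ((N + 1) / 2), b n) := by
      rw [sum_split b M, sum_split b N]; ring
    have hM2 : M ≤ 2 * N := by omega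
    have e2 := sum_diff b B N M hM.1 (hbB M hM2)
    have e3 := sum_diff b B ((N + 1) / 2) ((M + 1) / 2) (by omega) (hbB ((M + 1) / 2) (by omega))
    have e4 : (((M + 1) / 2 : ℕ) : ℝ) - (((N + 1) / 2 : ℕ) : ℝ) ≤ (M : ℝ) - N := by
      have : (M + 1) / 2 + N ≤ M + (N + 1) / 2 := by omega
      have h' : (((M + 1) / 2 : ℕ) : ℝ) + N ≤ M + (((N + 1) / 2 : ℕ) : ℝ) := by exact_mod_cast this
      linarith
    have e5 : (M : ℝ) - N ≤ K := by
      have : (M : ℝ) ≤ N + K := by exact_mod_cast hM.2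
      linarith
    have e6 : |XX b M - XX b N| ≤ 2 * K * B := by
      rw [e1]
      refine (abs_sub _ _).trans ?_
      have f1 : ((M : ℝ) - N) * B ≤ K * B := mul_le_mul_of_nonneg_right e5 hB0
      have f2 : ((((M + 1) / 2 : ℕ) : ℝ) - (((N + 1) / 2 : ℕ) : ℝ)) * B ≤ K * B :=
        mul_le_mul_of_nonneg_right (e4.trans e5) hB0
      linarith
    refine e6.trans ?_
    have e7 : 2 * (K : ℝ) * B ≤ 2 * ((N : ℝ) / l ^ (A + k + 1)) * B := by gcongr
    refine e7.trans ?_
    have e8 : 2 * ((N : ℝ) / l ^ (A + k + 1)) * B = (C * 2 ^ (k + 2)) / l * (N / l ^ A / 2) := by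
      rw [hB, mul_pow, pow_add, pow_add, pow_add]
      field_simp
    rw [e8]
    have e9 : (C * 2 ^ (k + 2)) / l ≤ 1 := by rw [div_le_one hl0]; exact h4
    have e10 : 0 ≤ (N : ℝ) / l ^ A / 2 := by positivity
    calc (C * 2 ^ (k + 2)) / l * (N / l ^ A / 2) ≤ 1 * (N / l ^ A / 2) := mul_le_mul_of_nonneg_right e9 e10
      _ = N / l ^ A / 2 := one_mul _
  have hterm : ∀ M ∈ Finset.Icc N (N + K), l ^ (A + k + 2) / (32 * N) ≤
      (XX b M) ^ 2 * (Real.log M) ^ (3 * A + k + 2) / (M : ℝ) ^ 3 := by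
    intro M hM
    have g1 := hdiff M hM
    rw [Finset.mem_Icc] at hM
    have g2 : N / l ^ A / 2 ≤ |XX b M| := by
      have := abs_sub_abs_le_abs_sub (XX b N) (XX b M)
      rw [abs_sub_comm] at this
      linarith
    have g3 : (N / l ^ A / 2) ^ 2 ≤ (XX b M) ^ 2 := by
      rw [← sq_abs (XX b M)]
      exact pow_le_pow_left₀ (by positivity) g2 2
    have hM0 : (N : ℝ) ≤ M := by exact_mod_cast hM.1
    have hM1 : (M : ℝ) ≤ 2 * N := by
      have : (M : ℝ) ≤ N + K := by exact_mod_cast hM.2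
      linarith
    have g4 : l ^ (3 * A + k + 2) ≤ (Real.log M) ^ (3 * A + k + 2) :=
      pow_le_pow_left₀ hl0.le (Real.log_le_log hN0 hM0) _
    have g5 : (M : ℝ) ^ 3 ≤ (2 * N) ^ 3 := pow_le_pow_left₀ (by linarith) hM1 3
    have hMpos : (0 : ℝ) < M := by linarith
    calc l ^ (A + k + 2) / (32 * N) = (N / l ^ A / 2) ^ 2 * l ^ (3 * A + k + 2) / (2 * N) ^ 3 := by
          have : l ^ (3 * A + k + 2) = l ^ (A + k + 2) * (l ^ A) ^ 2 := by
            rw [← pow_mul, ← pow_add]; congr 1; ring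
          rw [this]
          field_simp
          ring
      _ ≤ (XX b M) ^ 2 * (Real.log M) ^ (3 * A + k + 2) / (M : ℝ) ^ 3 := by
          gcongr
  have hsum := Finset.sum_le_sum hterm
  rw [Finset.sum_const, Nat.card_Icc, nsmul_eq_mul] at hsum
  have hcard : ((N + K + 1 - N : ℕ) : ℝ) = K + 1 := by
    have : N + K + 1 - N = K + 1 := by omega
    rw [this]; push_cast; ring
  rw [hcard] at hsum
  have hfin := hsum.trans (hV N h1 K)
  have hlow : l / 32 ≤ ((K : ℝ) + 1) * (l ^ (A + k + 2) / (32 * N)) := by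
    calc l / 32 = ((N : ℝ) / l ^ (A + k + 1)) * (l ^ (A + k + 2) / (32 * N)) := by
          have : l ^ (A + k + 2) = l ^ (A + k + 1) * l := by rw [← pow_succ]
          rw [this]
          field_simp
      _ ≤ ((K : ℝ) + 1) * (l ^ (A + k + 2) / (32 * N)) := by
          apply mul_le_mul_of_nonneg_right hK2.le
          positivity
  linarith

lemma assembly (b : ℕ → ℝ) (A N2 : ℕ) (h : ∀ N : ℕ, N2 ≤ N → |XX b N| ≤ N / (Real.log N) ^ A) :
    ∃ C' : ℝ, ∀ N : ℕ, 2 ≤ N → |∑ n ∈ range N, b n| ≤ C' * N / (Real.log N) ^ A := by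
  have hlim : Tendsto (fun N : ℕ => Real.log (N : ℝ)) atTop atTop :=
    Real.tendsto_log_atTop.comp tendsto_natCast_atTop_atTop
  have hl2 : 0 < Real.log 2 := Real.log_pos (by norm_num)
  obtain ⟨N3, hN3⟩ := eventually_atTop.1 ((eventually_ge_atTop N2).and
    ((eventually_ge_atTop 4).and (hlim.eventually_ge_atTop (10 * (A + 1) * Real.log 2))))
  set C' : ℝ := 4 + ∑ M ∈ range N3, |∑ n ∈ range M, b n| * |(Real.log M) ^ A| with hC'
  have hC4 : 4 ≤ C' := by
    have : 0 ≤ ∑ M ∈ range N3, |∑ n ∈ range M, b n| * |(Real.log M) ^ A| :=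
      Finset.sum_nonneg fun M _ => by positivity
    linarith
  refine ⟨C', fun N => ?_⟩
  induction N using Nat.strong_induction_on with
  | _ N ih =>
    intro hN
    have hN2' : (2 : ℝ) ≤ N := by exact_mod_cast hN
    have hlN : 0 < Real.log (N : ℝ) := Real.log_pos (by linarith)
    have hlA : 0 < (Real.log (N : ℝ)) ^ A := by positivity
    rcases lt_or_ge N N3 with hlt | hge
    · rw [le_div_iff₀ hlA]
      have h1 : |∑ n ∈ range N, b n| * |(Real.log N) ^ A| ≤
          ∑ M ∈ range N3, |∑ n ∈ range M, b n| * |(Real.log M) ^ A| :=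
        Finset.single_le_sum (f := fun M : ℕ => |∑ n ∈ range M, b n| * |(Real.log M) ^ A|)
          (fun M _ => by positivity) (Finset.mem_range.2 hlt)
      rw [abs_of_pos hlA] at h1
      have h2 : |∑ n ∈ range N, b n| * (Real.log N) ^ A ≤ C' := by linarith
      have h3 : C' * 1 ≤ C' * N := mul_le_mul_of_nonneg_left (by linarith) (by linarith)
      linarith
    · obtain ⟨g1, g2, g3⟩ := hN3 N hge
      have hN4 : (4 : ℝ) ≤ N := by exact_mod_cast g2
      set J : ℕ := (N + 1) / 2 with hJ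
      have hJ2 : 2 ≤ J := by omega
      have hJN : J < N := by omega
      have hJ1 : (J : ℝ) ≤ (N + 1) / 2 := by
        have : 2 * J ≤ N + 1 := by omega
        have h' : 2 * (J : ℝ) ≤ N + 1 := by exact_mod_cast this
        linarith
      have hJ3 : (N : ℝ) / 2 ≤ J := by
        have : N ≤ 2 * J := by omega
        have h' : (N : ℝ) ≤ 2 * J := by exact_mod_cast this
        linarith
      have hJpos : (2 : ℝ) ≤ J := by exact_mod_cast hJ2
      have hlJ : Real.log N - Real.log 2 ≤ Real.log J := by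
        rw [← Real.log_div (by linarith) (by norm_num)]
        exact Real.log_le_log (by linarith) hJ3
      have hlJ0 : 0 < Real.log (J : ℝ) := Real.log_pos (by linarith)
      have hpow : (9 / 10) * (Real.log N) ^ A ≤ (Real.log J) ^ A := by
        set x : ℝ := Real.log 2 / Real.log N with hx
        have hx0 : 0 < x := by positivity
        have hA0 : (0 : ℝ) ≤ A := Nat.cast_nonneg A
        have hx1 : 10 * (A + 1) * x ≤ 1 := by
          rw [hx, ← mul_div_assoc, div_le_one hlN]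
          exact g3
        have hx2 : x ≤ 1 := by nlinarith
        have hbern : 1 + (A : ℝ) * (-x) ≤ (1 + (-x)) ^ A := one_add_mul_le_pow (by linarith) A
        have h1 : (9 / 10 : ℝ) ≤ (1 - x) ^ A := by
          have : (1 : ℝ) + (-x) = 1 - x := by ring
          rw [this] at hbern
          nlinarith
        have h2 : (1 - x) * Real.log N = Real.log N - Real.log 2 := by
          rw [hx]; field_simp
        calc (9 / 10) * (Real.log N) ^ A ≤ (1 - x) ^ A * (Real.log N) ^ A :=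
              mul_le_mul_of_nonneg_right h1 hlA.le
          _ = (Real.log N - Real.log 2) ^ A := by rw [← mul_pow, h2]
          _ ≤ (Real.log J) ^ A := by
              apply pow_le_pow_left₀ _ hlJ
              rw [← h2]
              exact mul_nonneg (by linarith) hlN.le
      have hrec := ih J hJN hJ2
      have hX := h N g1
      have hSJ : C' * J / (Real.log J) ^ A ≤ (3 / 4) * (C' * N / (Real.log N) ^ A) := by
        have hlJA : 0 < (Real.log (J : ℝ)) ^ A := by positivity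
        have e1 : C' * J / (Real.log J) ^ A ≤ C' * ((N + 1) / 2) / ((9 / 10) * (Real.log N) ^ A) := by
          gcongr
        refine e1.trans ?_
        rw [div_le_iff₀ (by positivity)]
        have e2 : 3 / 4 * (C' * N / Real.log N ^ A) * (9 / 10 * Real.log N ^ A) = C' * (27 / 40 * N) := by
          field_simp
          ring
        rw [e2]
        apply mul_le_mul_of_nonneg_left _ (by linarith)
        linarith
      have hXN : (N : ℝ) / (Real.log N) ^ A ≤ (1 / 4) * (C' * N / (Real.log N) ^ A) := by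
        have e1 : (1 / 4) * (C' * N / (Real.log N) ^ A) = (C' / 4) * (N / (Real.log N) ^ A) := by ring
        rw [e1]
        have e2 : 0 ≤ (N : ℝ) / (Real.log N) ^ A := by positivity
        nlinarith
      calc |∑ n ∈ range N, b n| = |∑ n ∈ range J, b n + XX b N| := by rw [sum_split b N]
        _ ≤ |∑ n ∈ range J, b n| + |XX b N| := abs_add_le _ _
        _ ≤ C' * J / (Real.log J) ^ A + N / (Real.log N) ^ A := add_le_add hrec hX
        _ ≤ (3 / 4) * (C' * N / (Real.log N) ^ A) + (1 / 4) * (C' * N / (Real.log N) ^ A) :=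
            add_le_add hSJ hXN
        _ = C' * N / (Real.log N) ^ A := by ring

theorem ae_of_meanSquare {Ω : Type*} [MeasurableSpace Ω] (μ : Measure Ω) [IsFiniteMeasure μ] (a : ℕ → Ω → ℝ)
    (ha : ∀ n, Measurable (a n)) (C : ℝ) (k : ℕ)
    (h0 : ∀ n, ∀ᵐ ω ∂μ, |a n ω| ≤ C * (Real.log (n + 2)) ^ k)
    (h2 : ∀ A : ℕ, ∃ C' : ℝ, ∀ᶠ J : ℕ in atTop, ∀ L ≤ J,
      ∫ ω, (∑ n ∈ range L, a (J + n) ω) ^ 2 ∂μ ≤ C' * (J : ℝ) ^ 2 / (Real.log J) ^ A) :
    ∀ᵐ ω ∂μ, ∀ A : ℕ, ∃ C' : ℝ, ∀ N : ℕ, 2 ≤ N → |∑ n ∈ range N, a n ω| ≤ C' * N / (Real.log N) ^ A := by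
  rw [ae_all_iff]
  intro A
  have h0' : ∀ᵐ ω ∂μ, ∀ n : ℕ, |a n ω| ≤ C * (Real.log (n + 2)) ^ k := ae_all_iff.2 h0
  have hmX : ∀ N : ℕ, Measurable (fun ω => XX (fun n => a n ω) N) := by
    intro N
    unfold XX
    exact Finset.measurable_fun_sum _ (fun n _ => ha _)
  obtain ⟨C', hC'⟩ := h2 (3 * A + k + 2 + 2)
  obtain ⟨J0, hJ0⟩ := eventually_atTop.1 hC'
  set N1 : ℕ := 2 * J0 + 4 with hN1
  set F : ℕ → Ω → ℝ := fun N ω => if N1 ≤ N then
    (XX (fun n => a n ω) N) ^ 2 * (Real.log N) ^ (3 * A + k + 2) / (N : ℝ) ^ 3 else 0 with hF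
  have hFm : ∀ N, Measurable (F N) := by
    intro N
    rw [hF]
    by_cases hN : N1 ≤ N
    · simp only [hN, if_true]
      exact (((hmX N).pow_const 2).mul_const _).div_const _
    · simp only [hN, if_false]
      exact measurable_const
  have hF0 : ∀ N ω, 0 ≤ F N ω := by
    intro N ω
    rw [hF]
    by_cases hN : N1 ≤ N
    · simp only [hN, if_true]
      have : 0 ≤ Real.log (N : ℝ) := Real.log_natCast_nonneg N
      positivity
    · simp only [hN, if_false]
      exact le_rfl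
  set D : ℝ := |C'| * 2 ^ (3 * A + k + 4) * 4 with hD
  have hbound : ∀ N, ∫⁻ ω, ENNReal.ofReal (F N ω) ∂μ ≤
      ENNReal.ofReal (D * (1 / ((N : ℝ) * (Real.log ((N : ℝ) + 1)) ^ 2))) := by
    intro N
    by_cases hN : N1 ≤ N
    · have hN4 : (4 : ℝ) ≤ N := by exact_mod_cast (by omega : 4 ≤ N)
      -- integrability
      set BB : ℝ := ∑ n ∈ range (N / 2), C * (Real.log ((((N + 1) / 2 + n : ℕ) : ℝ) + 2)) ^ k with hBB
      have hXb : ∀ᵐ ω ∂μ, ‖(XX (fun n => a n ω) N) ^ 2‖ ≤ BB ^ 2 := by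
        filter_upwards [h0'] with ω hω
        have h1 : |XX (fun n => a n ω) N| ≤ BB := by
          unfold XX
          refine (Finset.abs_sum_le_sum_abs _ _).trans ?_
          exact Finset.sum_le_sum fun n _ => hω _
        rw [Real.norm_eq_abs, abs_pow]
        exact pow_le_pow_left₀ (abs_nonneg _) h1 2
      have hint : Integrable (fun ω => (XX (fun n => a n ω) N) ^ 2) μ :=
        Integrable.of_bound (((hmX N).pow_const 2).aestronglyMeasurable) (BB ^ 2) hXb
      have hFN : F N = fun ω => (XX (fun n => a n ω) N) ^ 2 *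
          ((Real.log N) ^ (3 * A + k + 2) / (N : ℝ) ^ 3) := by
        rw [hF]
        funext ω
        simp only [hN, if_true]
        ring
      have hintF : Integrable (F N) μ := by
        rw [hFN]
        exact hint.mul_const _
      rw [← ofReal_integral_eq_lintegral_ofReal hintF (Filter.Eventually.of_forall (hF0 N))]
      apply ENNReal.ofReal_le_ofReal
      rw [hFN, integral_mul_const]
      have hJle : J0 ≤ (N + 1) / 2 := by omega
      have hI := hJ0 ((N + 1) / 2) hJle (N / 2) (by omega)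
      have hI' : ∫ ω, (XX (fun n => a n ω) N) ^ 2 ∂μ ≤
          C' * (((N + 1) / 2 : ℕ) : ℝ) ^ 2 / (Real.log (((N + 1) / 2 : ℕ) : ℝ)) ^ (3 * A + k + 2 + 2) := hI
      set J : ℕ := (N + 1) / 2 with hJ
      have hJN : (J : ℝ) ≤ N := by exact_mod_cast (by omega : J ≤ N)
      have hJ3 : (N : ℝ) / 2 ≤ J := by
        have : N ≤ 2 * J := by omega
        have h' : (N : ℝ) ≤ 2 * J := by exact_mod_cast this
        linarith
      have hl0 : 0 < Real.log (N : ℝ) := Real.log_pos (by linarith)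
      have hlJ : Real.log N / 2 ≤ Real.log J := by
        have e1 : Real.log (N : ℝ) ≤ 2 * Real.log (N / 2 : ℝ) := by
          have : 2 * Real.log (N / 2 : ℝ) = Real.log ((N / 2 : ℝ) ^ 2) := by
            rw [Real.log_pow]; push_cast; ring
          rw [this]
          apply Real.log_le_log (by linarith)
          nlinarith
        have e2 : Real.log (N / 2 : ℝ) ≤ Real.log J := Real.log_le_log (by linarith) hJ3
        linarith
      have hlog1 : Real.log ((N : ℝ) + 1) ≤ 2 * Real.log N := by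
        have : 2 * Real.log (N : ℝ) = Real.log ((N : ℝ) ^ 2) := by
          rw [Real.log_pow]; push_cast; ring
        rw [this]
        apply Real.log_le_log (by linarith)
        nlinarith
      have hlog0 : 0 < Real.log ((N : ℝ) + 1) := Real.log_pos (by linarith)
      have hJnn : (0 : ℝ) ≤ J := Nat.cast_nonneg J
      have hNpos : (0 : ℝ) < N := by linarith
      have s1 : C' * (J : ℝ) ^ 2 / (Real.log J) ^ (3 * A + k + 2 + 2) ≤
          |C'| * (N : ℝ) ^ 2 / (Real.log N / 2) ^ (3 * A + k + 2 + 2) := by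
        have : 0 < Real.log N / 2 := by linarith
        have hJl : 0 < Real.log (J : ℝ) := by linarith
        calc C' * (J : ℝ) ^ 2 / (Real.log J) ^ (3 * A + k + 2 + 2) ≤
              |C'| * (J : ℝ) ^ 2 / (Real.log J) ^ (3 * A + k + 2 + 2) := by
              gcongr
              exact le_abs_self C'
          _ ≤ |C'| * (N : ℝ) ^ 2 / (Real.log N / 2) ^ (3 * A + k + 2 + 2) := by
              gcongr
      have s2 : (∫ ω, (XX (fun n => a n ω) N) ^ 2 ∂μ) * ((Real.log N) ^ (3 * A + k + 2) / (N : ℝ) ^ 3) ≤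
          |C'| * (N : ℝ) ^ 2 / (Real.log N / 2) ^ (3 * A + k + 2 + 2) *
            ((Real.log N) ^ (3 * A + k + 2) / (N : ℝ) ^ 3) :=
        mul_le_mul_of_nonneg_right (hI'.trans s1) (by positivity)
      refine s2.trans ?_
      have s3 : |C'| * (N : ℝ) ^ 2 / (Real.log N / 2) ^ (3 * A + k + 2 + 2) *
            ((Real.log N) ^ (3 * A + k + 2) / (N : ℝ) ^ 3) =
          |C'| * 2 ^ (3 * A + k + 4) * (1 / ((N : ℝ) * (Real.log N) ^ 2)) := by
        rw [div_pow, pow_add (Real.log (N : ℝ)) (3 * A + k + 2) 2]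
        have e1 : (2 : ℝ) ^ (3 * A + k + 2 + 2) = 2 ^ (3 * A + k + 4) := by congr 1
        rw [e1]
        field_simp
      rw [s3, hD]
      have s4 : 1 / ((N : ℝ) * (Real.log N) ^ 2) ≤ 4 * (1 / ((N : ℝ) * (Real.log ((N : ℝ) + 1)) ^ 2)) := by
        rw [← mul_div_assoc, div_le_div_iff₀ (by positivity) (by positivity)]
        have : (Real.log ((N : ℝ) + 1)) ^ 2 ≤ (2 * Real.log N) ^ 2 := pow_le_pow_left₀ hlog0.le hlog1 2
        nlinarith [mul_le_mul_of_nonneg_left this hNpos.le]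
      calc |C'| * 2 ^ (3 * A + k + 4) * (1 / ((N : ℝ) * (Real.log N) ^ 2)) ≤
            |C'| * 2 ^ (3 * A + k + 4) * (4 * (1 / ((N : ℝ) * (Real.log ((N : ℝ) + 1)) ^ 2))) :=
            mul_le_mul_of_nonneg_left s4 (by positivity)
        _ = |C'| * 2 ^ (3 * A + k + 4) * 4 * (1 / ((N : ℝ) * (Real.log ((N : ℝ) + 1)) ^ 2)) := by ring
    · have : F N = fun _ => 0 := by
        rw [hF]; funext ω; simp only [hN, if_false]
      rw [this]
      simp
  have hD0 : 0 ≤ D := by positivity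
  have htot : ∫⁻ ω, ∑' N, ENNReal.ofReal (F N ω) ∂μ ≠ ⊤ := by
    rw [lintegral_tsum (fun N => ((hFm N).ennreal_ofReal).aemeasurable)]
    refine ne_top_of_le_ne_top ?_ (ENNReal.tsum_le_tsum hbound)
    exact (summ_aux.mul_left D).tsum_ofReal_ne_top
  have hae := ae_lt_top' (Measurable.aemeasurable
    (Measurable.tsum (fun N => (hFm N).ennreal_ofReal))) htot
  filter_upwards [h0', hae] with ω hω hfin
  have hV : ∀ N : ℕ, N1 ≤ N → ∀ K : ℕ,
      ∑ M ∈ Finset.Icc N (N + K), (XX (fun n => a n ω) M) ^ 2 * (Real.log M) ^ (3 * A + k + 2) / (M : ℝ) ^ 3 ≤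
        (∑' N, ENNReal.ofReal (F N ω)).toReal := by
    intro N hN K
    have e1 : ∑ M ∈ Finset.Icc N (N + K), (XX (fun n => a n ω) M) ^ 2 * (Real.log M) ^ (3 * A + k + 2) / (M : ℝ) ^ 3 =
        ∑ M ∈ Finset.Icc N (N + K), F M ω := by
      apply Finset.sum_congr rfl
      intro M hM
      rw [Finset.mem_Icc] at hM
      rw [hF]
      simp only [hN.trans hM.1, if_true]
    rw [e1]
    have e2 : ENNReal.ofReal (∑ M ∈ Finset.Icc N (N + K), F M ω) ≤ ∑' N, ENNReal.ofReal (F N ω) := by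
      rw [ENNReal.ofReal_sum_of_nonneg (fun M _ => hF0 M ω)]
      exact ENNReal.sum_le_tsum _
    exact (ENNReal.ofReal_le_iff_le_toReal hfin.ne).1 e2
  obtain ⟨N2, hN2⟩ := pointwise (fun n => a n ω) C k A hω _ N1 hV
  exact assembly (fun n => a n ω) A N2 hN2

end TS11

end Pool.Agent.helper616_TS
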