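import Pool.Agent.helper616_TS.Defs

/-!
# Project TS (helper616): a bound for the terms
-/

set_option autoImplicit false
set_option maxHeartbeats 4000000

open Finset MeasureTheory Filter Topology

namespace Pool.Agent.helper616_TS

namespace TS13


theorem arr_bdd_log (f : ℕ → ℝ) (hG : Gro f) (b : ℝ) :
    ∃ K : ℝ, 0 ≤ K ∧ ∀ n : ℕ, ∀ u : ℝ, u ≤ b →
      Real.log ((⌊Real.exp u * f n⌋₊ : ℝ) + 2) ≤ K * Real.log (n + 2) := by
  obtain ⟨c, C, hc, hC, hev⟩ := hG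
  obtain ⟨N0, hN0⟩ := Filter.eventually_atTop.mp hev
  set F : ℝ := ∑ m ∈ range (N0 + 1), |f m| with hF
  have hF0 : 0 ≤ F := Finset.sum_nonneg fun _ _ => abs_nonneg _
  have hl2 : 0 < Real.log 2 := Real.log_pos (by norm_num)
  have hlog2 : ∀ n : ℕ, Real.log 2 ≤ Real.log ((n : ℝ) + 2) := fun n =>
    Real.log_le_log (by norm_num) (by have : (0:ℝ) ≤ n := Nat.cast_nonneg n; linarith)
  have hK1 : 0 ≤ Real.log (Real.exp b * F + 2) :=
    Real.log_nonneg (by have := mul_nonneg (Real.exp_pos b).le hF0; linarith)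
  have hl3 : 0 ≤ Real.log 3 := Real.log_nonneg (by norm_num)
  refine ⟨Real.log (Real.exp b * F + 2) / Real.log 2 + ((Real.log 3 + |b|) / Real.log 2 + C), ?_, ?_⟩
  · have h1 : 0 ≤ Real.log (Real.exp b * F + 2) / Real.log 2 := div_nonneg hK1 hl2.le
    have h2 : 0 ≤ (Real.log 3 + |b|) / Real.log 2 := div_nonneg (by positivity) hl2.le
    linarith
  intro n u hu
  have hn2 := hlog2 n
  have hnn : (0 : ℝ) ≤ n := Nat.cast_nonneg n
  have hfl0 : (0 : ℝ) ≤ (⌊Real.exp u * f n⌋₊ : ℝ) := Nat.cast_nonneg _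
  have hA : Real.log (Real.exp b * F + 2) ≤ Real.log (Real.exp b * F + 2) / Real.log 2 * Real.log ((n : ℝ) + 2) := by
    rw [div_mul_eq_mul_div, le_div_iff₀ hl2]
    exact mul_le_mul_of_nonneg_left hn2 hK1
  have hB : Real.log 3 + |b| ≤ (Real.log 3 + |b|) / Real.log 2 * Real.log ((n : ℝ) + 2) := by
    rw [div_mul_eq_mul_div, le_div_iff₀ hl2]
    exact mul_le_mul_of_nonneg_left hn2 (by positivity)
  have hB0 : 0 ≤ Real.log 3 + |b| := by positivity
  have hCn : 0 ≤ C * Real.log ((n : ℝ) + 2) := mul_nonneg hC.le (by linarith)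
  rcases lt_or_ge n (N0 + 1) with h | h
  · have h1 : (⌊Real.exp u * f n⌋₊ : ℝ) ≤ Real.exp b * F := by
      have h2 : Real.exp u * f n ≤ Real.exp b * F := by
        have h3 : f n ≤ F := le_trans (le_abs_self _)
          (Finset.single_le_sum (f := fun m => |f m|) (fun _ _ => abs_nonneg _) (Finset.mem_range.mpr h))
        calc Real.exp u * f n ≤ Real.exp u * F := mul_le_mul_of_nonneg_left h3 (Real.exp_pos u).le
          _ ≤ Real.exp b * F := mul_le_mul_of_nonneg_right (Real.exp_le_exp.mpr hu) hF0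
      have h4 : (⌊Real.exp u * f n⌋₊ : ℝ) ≤ (⌊Real.exp b * F⌋₊ : ℝ) := by
        exact_mod_cast Nat.floor_mono h2
      exact h4.trans (Nat.floor_le (mul_nonneg (Real.exp_pos b).le hF0))
    have h5 : Real.log ((⌊Real.exp u * f n⌋₊ : ℝ) + 2) ≤ Real.log (Real.exp b * F + 2) :=
      Real.log_le_log (by linarith) (by linarith)
    rw [add_mul, add_mul]
    linarith
  · have hn1 : (1 : ℝ) ≤ n := by exact_mod_cast (by omega : 1 ≤ n)
    obtain ⟨hf0, -, hf1, -⟩ := hN0 n (by omega) n le_rfl (by omega)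
    have hf2 : f n ≤ Real.exp (C * Real.log ((n : ℝ) + 2)) := by
      rw [← Real.exp_log hf0]
      apply Real.exp_le_exp.mpr
      refine hf1.trans ?_
      exact mul_le_mul_of_nonneg_left (Real.log_le_log (by linarith) (by linarith)) hC.le
    have h2 : Real.exp u * f n ≤ Real.exp |b| * Real.exp (C * Real.log ((n : ℝ) + 2)) :=
      mul_le_mul (Real.exp_le_exp.mpr (hu.trans (le_abs_self b))) hf2 hf0.le (Real.exp_pos _).le
    rw [← Real.exp_add] at h2
    have h3 : (⌊Real.exp u * f n⌋₊ : ℝ) ≤ Real.exp (|b| + C * Real.log ((n : ℝ) + 2)) :=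
      (Nat.floor_le (mul_nonneg (Real.exp_pos u).le hf0.le)).trans h2
    have h4 : (1 : ℝ) ≤ Real.exp (|b| + C * Real.log ((n : ℝ) + 2)) :=
      Real.one_le_exp (add_nonneg (abs_nonneg b) hCn)
    have h5 : Real.log ((⌊Real.exp u * f n⌋₊ : ℝ) + 2) ≤
        Real.log (3 * Real.exp (|b| + C * Real.log ((n : ℝ) + 2))) :=
      Real.log_le_log (by linarith) (by linarith)
    rw [Real.log_mul (by norm_num) (Real.exp_pos _).ne', Real.log_exp] at h5
    rw [add_mul, add_mul]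
    have h6 : 0 ≤ Real.log (Real.exp b * F + 2) / Real.log 2 * Real.log ((n : ℝ) + 2) :=
      le_trans hK1 hA
    linarith

theorem arr_bdd (w f h : ℕ → ℝ) (hw : LogBdd w) (hG : Gro f) (hb : LogBdd h) (a b : ℝ) :
    ∃ C : ℝ, ∃ k : ℕ, ∀ n : ℕ, ∀ u ∈ Set.Icc a b, |w n * h ⌊Real.exp u * f n⌋₊| ≤ C * (Real.log (n + 2)) ^ k := by
  obtain ⟨C1, k1, h1⟩ := hw
  obtain ⟨C2, k2, h2⟩ := hb
  obtain ⟨K, hK, hlog⟩ := arr_bdd_log f hG b
  refine ⟨|C1| * (|C2| * K ^ k2), k1 + k2, ?_⟩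
  intro n u hu
  have hn : (0 : ℝ) ≤ n := Nat.cast_nonneg n
  have hLn : 0 ≤ Real.log ((n : ℝ) + 2) := Real.log_nonneg (by linarith)
  have hm : (0 : ℝ) ≤ (⌊Real.exp u * f n⌋₊ : ℝ) := Nat.cast_nonneg _
  have hLm : 0 ≤ Real.log ((⌊Real.exp u * f n⌋₊ : ℝ) + 2) := Real.log_nonneg (by linarith)
  have e1 : |w n| ≤ |C1| * (Real.log (n + 2)) ^ k1 :=
    (h1 n).trans (mul_le_mul_of_nonneg_right (le_abs_self _) (pow_nonneg hLn _))
  have e2 : |h ⌊Real.exp u * f n⌋₊| ≤ |C2| * (K * Real.log (n + 2)) ^ k2 :=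
    ((h2 _).trans (mul_le_mul_of_nonneg_right (le_abs_self _) (pow_nonneg hLm _))).trans
      (mul_le_mul_of_nonneg_left (pow_le_pow_left₀ hLm (hlog n u hu.2) _) (abs_nonneg _))
  rw [abs_mul]
  calc |w n| * |h ⌊Real.exp u * f n⌋₊|
      ≤ (|C1| * (Real.log (n + 2)) ^ k1) * (|C2| * (K * Real.log (n + 2)) ^ k2) :=
        mul_le_mul e1 e2 (abs_nonneg _) (mul_nonneg (abs_nonneg _) (pow_nonneg hLn _))
    _ = |C1| * (|C2| * K ^ k2) * (Real.log (n + 2)) ^ (k1 + k2) := by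
        rw [mul_pow, pow_add]; ring

end TS13

end Pool.Agent.helper616_TS
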