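import Pool.Agent.helper616_TS.Defs
import Pool.Agent.helper616_TS.TS11
import Pool.Agent.helper616_TS.TS12
import Pool.Agent.helper616_TS.TS13

/-!
# Project TS (helper616): the sampling theorem
-/

set_option autoImplicit false
set_option maxHeartbeats 4000000

open Finset MeasureTheory Filter Topology

namespace Pool.Agent.helper616_TS

open TS11 (ae_of_meanSquare)
open TS12 (ae_exp)
open TS13 (arr_bdd)

namespace TS14


theorem sampling (hMS : ∀ (w f h : ℕ → ℝ) (_ : LogBdd w) (_ : ExpB w f) (_ : Gro f) (_ : LogBdd h) (_ : MeanZero h)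
    (a b : ℝ) (_ : a ≤ b) (A : ℕ), ∃ C : ℝ, ∀ᶠ J : ℕ in atTop, ∀ L ≤ J,
      ∫ u in Set.Icc a b, (∑ n ∈ range L, w (J + n) * h ⌊Real.exp u * f (J + n)⌋₊) ^ 2 ≤ C * (J : ℝ) ^ 2 / (Real.log J) ^ A)
    (w f h : ℕ → ℝ) (hw : LogBdd w) (hE : ExpB w f) (hG : Gro f) (hb : LogBdd h) (hm : MeanZero h) :
    ∀ᵐ α : ℝ, 0 < α → ∀ A : ℕ, ∃ C : ℝ, ∀ N : ℕ, 2 ≤ N →
      |∑ n ∈ range N, w n * h ⌊α * f n⌋₊| ≤ C * N / (Real.log N) ^ A := by
  refine ae_exp (fun α => ∀ A : ℕ, ∃ C : ℝ, ∀ N : ℕ, 2 ≤ N →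
      |∑ n ∈ range N, w n * h ⌊α * f n⌋₊| ≤ C * N / (Real.log N) ^ A) ?_
  intro a b hab
  obtain ⟨C, k, hC⟩ := arr_bdd w f h hw hG hb a b
  have hmeas : ∀ n, Measurable (fun u : ℝ => w n * h ⌊Real.exp u * f n⌋₊) := by
    intro n
    have h1 : Measurable (fun u : ℝ => Real.exp u * f n) := Real.measurable_exp.mul_const _
    have h2 : Measurable (fun u : ℝ => ⌊Real.exp u * f n⌋₊) := Nat.measurable_floor.comp h1
    have h3 : Measurable (fun u : ℝ => h ⌊Real.exp u * f n⌋₊) := (measurable_from_top (f := h)).comp h2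
    exact h3.const_mul _
  refine ae_of_meanSquare (volume.restrict (Set.Icc a b)) (fun n u => w n * h ⌊Real.exp u * f n⌋₊) hmeas C k ?_ ?_
  · intro n
    filter_upwards [ae_restrict_mem measurableSet_Icc] with u hu
    exact hC n u hu
  · intro A
    exact hMS w f h hw hE hG hb hm a b hab A

end TS14

end Pool.Agent.helper616_TS
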