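import Pool.Agent.helper616_TS.Defs

/-!
# Project TS (helper616): the prime number theorem for the weights
-/

set_option autoImplicit false
set_option maxHeartbeats 4000000

open Finset MeasureTheory Filter Topology

namespace Pool.Agent.helper616_TS

namespace TS16


theorem small_ev (A : ℕ) (K : ℝ) : ∀ᶠ N : ℕ in atTop, K * Real.sqrt N ≤ N / (Real.log N) ^ A := by
  have h1 : (fun x : ℝ => (Real.log x) ^ (A + 1)) =o[atTop] (fun x : ℝ => x ^ ((1 : ℝ) / 2)) := by
    have := isLittleO_log_rpow_rpow_atTop (r := (A + 1 : ℕ)) (s := (1 : ℝ) / 2) (by norm_num)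
    refine this.congr_left (fun x => ?_)
    rw [Real.rpow_natCast]
  have h2 := (h1.comp_tendsto tendsto_natCast_atTop_atTop).bound (show (0 : ℝ) < 1 by norm_num)
  have h3 : ∀ᶠ N : ℕ in atTop, K ≤ Real.log N :=
    (Real.tendsto_log_atTop.comp tendsto_natCast_atTop_atTop).eventually_ge_atTop K
  have h4 : ∀ᶠ N : ℕ in atTop, (1 : ℝ) ≤ Real.log N :=
    (Real.tendsto_log_atTop.comp tendsto_natCast_atTop_atTop).eventually_ge_atTop 1
  filter_upwards [h2, h3, h4] with N a b c
  simp only [Function.comp_apply, one_mul] at a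
  have hl : 0 < Real.log (N : ℝ) := by linarith
  rw [Real.norm_of_nonneg (by positivity), Real.norm_of_nonneg (by positivity), ← Real.sqrt_eq_rpow] at a
  rw [le_div_iff₀ (by positivity)]
  calc K * Real.sqrt N * Real.log N ^ A ≤ Real.log N * Real.sqrt N * Real.log N ^ A := by gcongr
    _ = Real.sqrt N * Real.log N ^ (A + 1) := by ring
    _ ≤ Real.sqrt N * Real.sqrt N := by gcongr
    _ = N := Real.mul_self_sqrt (by positivity)

theorem meanZero_of_ev (h : ℕ → ℝ)
    (H : ∀ A : ℕ, ∃ C : ℝ, ∀ᶠ N : ℕ in atTop, |∑ m ∈ range N, h m| ≤ C * N / (Real.log N) ^ A) :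
    MeanZero h := by
  intro A
  obtain ⟨C, hC⟩ := H A
  obtain ⟨N2, hN2⟩ := eventually_atTop.1 hC
  let g : ℕ → ℝ := fun N => |∑ m ∈ range N, h m| * (Real.log N) ^ A / N
  have hg : ∀ N, 0 ≤ g N := fun N => by
    have : 0 ≤ Real.log (N : ℝ) := Real.log_natCast_nonneg N
    positivity
  refine ⟨|C| + ∑ n ∈ range N2, g n, fun N hN => ?_⟩
  have hN' : (2 : ℝ) ≤ N := by exact_mod_cast hN
  have hl : 0 < Real.log (N : ℝ) := Real.log_pos (by linarith)
  have hN0 : (0 : ℝ) < N := by linarith
  have hs : 0 ≤ ∑ n ∈ range N2, g n := Finset.sum_nonneg fun n _ => hg n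
  by_cases hc : N2 ≤ N
  · refine (hN2 N hc).trans ?_
    have : C ≤ |C| + ∑ n ∈ range N2, g n := by
      have := le_abs_self C
      linarith
    gcongr
  · have : g N ≤ ∑ n ∈ range N2, g n :=
      Finset.single_le_sum (f := g) (fun n _ => hg n) (Finset.mem_range.2 (by omega))
    have h1 : g N ≤ |C| + ∑ n ∈ range N2, g n := by
      have := abs_nonneg C
      linarith
    rw [le_div_iff₀ (by positivity)]
    calc |∑ m ∈ range N, h m| * Real.log N ^ A = g N * N := by simp only [g]; field_simp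
      _ ≤ (|C| + ∑ n ∈ range N2, g n) * N := by gcongr

theorem pnt_th (th : ℕ → ℝ) (hth : ∀ n : ℕ, th n = if n.Prime then Real.log n else 0)
    (h : ∀ U : ℕ, ∃ (C : ℝ) (N1 : ℕ), 0 < C ∧ ∀ y : ℕ, N1 ≤ y → |∑ n ∈ Icc 1 y, ArithmeticFunction.vonMangoldt n - y| ≤ C * (y / Real.log y ^ U) + 2) :
    MeanZero (fun m => th m - 1) ∧ LogBdd (fun m => th m - 1) ∧ LogBdd th := by
  have hlog2 : ∀ n : ℕ, (1 : ℝ) ≤ 2 * Real.log ((n : ℝ) + 2) := by
    intro n
    have h1 : Real.log 2 ≤ Real.log ((n : ℝ) + 2) :=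
      Real.log_le_log (by norm_num) (by have : (0 : ℝ) ≤ n := Nat.cast_nonneg n; linarith)
    have h2 := Real.log_two_gt_d9
    linarith
  have hth' : ∀ n : ℕ, |th n| ≤ Real.log ((n : ℝ) + 2) := by
    intro n
    rw [hth n]
    have hn : (0 : ℝ) ≤ n := Nat.cast_nonneg n
    split_ifs with hp
    · rw [abs_of_nonneg (Real.log_natCast_nonneg n)]
      exact Real.log_le_log (by exact_mod_cast hp.pos) (by linarith)
    · simpa using Real.log_nonneg (by linarith : (1 : ℝ) ≤ (n : ℝ) + 2)
  refine ⟨?_, ⟨3, 1, fun n => ?_⟩, ⟨1, 1, fun n => ?_⟩⟩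
  · apply meanZero_of_ev
    intro A
    obtain ⟨C, N1, hC, hpsi⟩ := h A
    obtain ⟨D, hD⟩ := Chebyshev.psi_sub_theta_le_mul_sqrt
    refine ⟨C * 2 ^ A + 1, ?_⟩
    filter_upwards [small_ev A (|D| + 3), eventually_ge_atTop (N1 + 1), eventually_ge_atTop 4] with N h1 h2 h3
    have hN0 : (0 : ℝ) < N := by exact_mod_cast (by omega : 0 < N)
    -- the sum
    have hsum : ∑ m ∈ range N, (th m - 1) = Chebyshev.theta ((N - 1 : ℕ) : ℝ) - N := by
      rw [Finset.sum_sub_distrib]
      congr 1
      · rw [Chebyshev.theta_eq_sum_Icc, Nat.floor_natCast, Finset.sum_filter]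
        rw [show Finset.Icc 0 (N - 1) = range N from by
          ext x; simp only [Finset.mem_Icc, Finset.mem_range]; omega]
        exact Finset.sum_congr rfl fun n _ => hth n
      · simp
    have hpsi' := hpsi (N - 1) (by omega)
    have hps : ∑ n ∈ Icc 1 (N - 1), ArithmeticFunction.vonMangoldt n = Chebyshev.psi ((N - 1 : ℕ) : ℝ) := by
      rw [Chebyshev.psi, Nat.floor_natCast]
      rfl
    rw [hps] at hpsi'
    rw [hsum]
    set y : ℝ := ((N - 1 : ℕ) : ℝ) with hy
    have hyN : y = N - 1 := by rw [hy]; push_cast [Nat.cast_sub (by omega : 1 ≤ N)]; ring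
    have hDy := hD y
    have h0 := Chebyshev.theta_le_psi y
    have hN4 : (4 : ℝ) ≤ N := by exact_mod_cast h3
    have hsq : Real.sqrt y ≤ Real.sqrt N := Real.sqrt_le_sqrt (by linarith)
    have hsq1 : (1 : ℝ) ≤ Real.sqrt N := by
      rw [show (1 : ℝ) = Real.sqrt 1 by simp]
      exact Real.sqrt_le_sqrt (by linarith)
    have hDs : D * Real.sqrt y ≤ |D| * Real.sqrt N := by
      have := Real.sqrt_nonneg y
      calc D * Real.sqrt y ≤ |D| * Real.sqrt y := by gcongr; exact le_abs_self D
        _ ≤ |D| * Real.sqrt N := by gcongr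
    have hly : 0 < Real.log y := Real.log_pos (by linarith)
    have hlN : 0 < Real.log (N : ℝ) := Real.log_pos (by linarith)
    have hll : Real.log N ≤ 2 * Real.log y := by
      have : Real.log N ≤ Real.log (y ^ 2) := Real.log_le_log hN0 (by nlinarith)
      rwa [Real.log_pow, Nat.cast_ofNat] at this
    have hmain : y / Real.log y ^ A ≤ 2 ^ A * (N / Real.log N ^ A) := by
      rw [← mul_div_assoc, div_le_div_iff₀ (by positivity) (by positivity)]
      have : Real.log N ^ A ≤ 2 ^ A * Real.log y ^ A := by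
        rw [← mul_pow]
        gcongr
      calc y * Real.log N ^ A ≤ N * (2 ^ A * Real.log y ^ A) := by
            have hy0 : 0 ≤ y := by linarith
            gcongr
            linarith
        _ = 2 ^ A * N * Real.log y ^ A := by ring
    have e1 : |Chebyshev.theta y - N| ≤ |Chebyshev.psi y - y| + (Chebyshev.psi y - Chebyshev.theta y) + 1 := by
      rw [abs_le]
      have := neg_abs_le (Chebyshev.psi y - y)
      have := le_abs_self (Chebyshev.psi y - y)
      constructor <;> linarith
    have e2 : (C * 2 ^ A + 1) * (N : ℝ) / Real.log N ^ A = C * (2 ^ A * (N / Real.log N ^ A)) + N / Real.log N ^ A := by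
      ring
    rw [e2]
    have e3 : C * (y / Real.log y ^ A) ≤ C * (2 ^ A * (N / Real.log N ^ A)) := by gcongr
    nlinarith
  · have := hlog2 n
    have h1 := hth' n
    rw [pow_one]
    have : |th n - 1| ≤ |th n| + 1 := by
      have := abs_sub (th n) 1
      simpa using this
    linarith
  · rw [pow_one, one_mul]
    exact hth' n

end TS16

end Pool.Agent.helper616_TS
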