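import Pool.Agent.helper616_TS.Defs

/-!
# Project TS (helper616): the logarithm of a polynomial
-/

set_option autoImplicit false
set_option maxHeartbeats 4000000

open Finset MeasureTheory Filter Topology

namespace Pool.Agent.helper616_TS

namespace TS18


theorem lim_log_poly (P : Polynomial ℝ) (hP : 1 ≤ P.natDegree) (hl : 0 < P.leadingCoeff) (α : ℝ) (hα : 0 < α) :
    Tendsto (fun n : ℕ => Real.log (α * P.eval (n : ℝ)) / Real.log n) atTop (𝓝 P.natDegree) ∧
      (∀ᶠ n : ℕ in atTop, 0 < α * P.eval (n : ℝ)) := by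
  have hr : Tendsto (fun x : ℝ => P.eval x / (P.leadingCoeff * x ^ P.natDegree)) atTop (𝓝 1) := by
    have hE := Polynomial.isEquivalent_atTop_lead P
    rw [Asymptotics.isEquivalent_iff_tendsto_one] at hE
    · exact hE
    · filter_upwards [eventually_gt_atTop 0] with x hx
      have : 0 < P.leadingCoeff * x ^ P.natDegree := by positivity
      exact this.ne'
  have hn : Tendsto (fun n : ℕ => P.eval (n : ℝ) / (P.leadingCoeff * (n : ℝ) ^ P.natDegree)) atTop (𝓝 1) :=
    hr.comp tendsto_natCast_atTop_atTop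
  have hlogn : Tendsto (fun n : ℕ => Real.log (n : ℝ)) atTop atTop :=
    Real.tendsto_log_atTop.comp tendsto_natCast_atTop_atTop
  have hpos : ∀ᶠ n : ℕ in atTop, 0 < P.eval (n : ℝ) / (P.leadingCoeff * (n : ℝ) ^ P.natDegree) :=
    (tendsto_order.1 hn).1 0 one_pos
  have hkey : ∀ n : ℕ, 1 < n → α * P.eval (n : ℝ) =
      α * P.leadingCoeff * (P.eval (n : ℝ) / (P.leadingCoeff * (n : ℝ) ^ P.natDegree)) * (n : ℝ) ^ P.natDegree := by
    intro n h1
    have hn0 : (n : ℝ) ≠ 0 := by
      have : n ≠ 0 := by omega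
      exact_mod_cast this
    have hl' := hl.ne'
    field_simp
  constructor
  · have h1 : Tendsto (fun n : ℕ => Real.log (P.eval (n : ℝ) / (P.leadingCoeff * (n : ℝ) ^ P.natDegree)))
        atTop (𝓝 0) := by
      have := (Real.continuousAt_log one_ne_zero).tendsto.comp hn
      rw [Real.log_one] at this
      exact this
    have h3 : Tendsto (fun n : ℕ => (Real.log (α * P.leadingCoeff) +
        Real.log (P.eval (n : ℝ) / (P.leadingCoeff * (n : ℝ) ^ P.natDegree))) / Real.log n) atTop (𝓝 0) :=
      (tendsto_const_nhds.add h1).div_atTop hlogn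
    have h2 := h3.add_const (P.natDegree : ℝ)
    rw [zero_add] at h2
    refine h2.congr' ?_
    filter_upwards [hpos, eventually_gt_atTop 1] with n hn0 hn1
    have hn' : (0 : ℝ) < n := by
      have : 0 < n := by omega
      exact_mod_cast this
    have hn1' : (1 : ℝ) < n := by exact_mod_cast hn1
    have hlog : 0 < Real.log (n : ℝ) := Real.log_pos hn1'
    rw [hkey n hn1, Real.log_mul (mul_pos (mul_pos hα hl) hn0).ne' (pow_pos hn' _).ne',
      Real.log_mul (mul_pos hα hl).ne' hn0.ne', Real.log_pow]
    field_simp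
  · filter_upwards [hpos, eventually_gt_atTop 1] with n hn0 hn1
    have hn' : (0 : ℝ) < n := by
      have : 0 < n := by omega
      exact_mod_cast this
    rw [hkey n hn1]
    positivity

end TS18

end Pool.Agent.helper616_TS
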