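import Pool.Agent.helper616_TS.Defs

/-!
# Project TS (helper616): growth of the admissible functions
-/

set_option autoImplicit false
set_option maxHeartbeats 4000000

open Finset MeasureTheory Filter Topology

namespace Pool.Agent.helper616_TS

namespace TS2


theorem gro_of_adm (f : ℝ → ℝ) (hf : Adm f) : Gro (fun n => f n) := by
  obtain ⟨φ, h0, hder, hb⟩ := hf
  obtain ⟨c1, C1, hc1, hb1⟩ := hb 1 le_rfl
  obtain ⟨T0, hT0⟩ := Filter.eventually_atTop.mp (h0.and ((hder 0).and hb1))
  obtain ⟨T1, hT1⟩ : ∃ T1 : ℝ, T1 = max T0 1 := ⟨_, rfl⟩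
  have hT1a : T0 ≤ T1 := by rw [hT1]; exact le_max_left _ _
  have hT1b : 1 ≤ T1 := by rw [hT1]; exact le_max_right _ _
  have hbd : ∀ t, T1 ≤ t → c1 / t ≤ φ 1 t ∧ φ 1 t ≤ C1 / t := by
    intro t ht
    have h := (hT0 t (hT1a.trans ht)).2.2
    have htp : 0 < t := by linarith
    have e1 : (-1 : ℝ) ^ (1 + 1) * φ 1 t * t ^ 1 = φ 1 t * t := by ring
    rw [e1] at h
    exact ⟨(div_le_iff₀ htp).mpr h.1, (le_div_iff₀ htp).mpr h.2⟩
  have hC1 : c1 ≤ C1 := by
    have h := (hT0 T1 hT1a).2.2
    exact h.1.trans h.2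
  have hd0 : ∀ t, T1 ≤ t → HasDerivAt (φ 0) (φ 1 t) t := fun t ht => (hT0 t (hT1a.trans ht)).2.1
  have hlog : ∀ t, T1 ≤ t → HasDerivAt Real.log (1 / t) t := fun t ht => by
    have : t ≠ 0 := by intro h; linarith
    simpa using Real.hasDerivAt_log this
  have hlow : ∀ s t, T1 ≤ s → s ≤ t → c1 * (Real.log t - Real.log s) ≤ φ 0 t - φ 0 s := by
    intro s t hs hst
    have hmono : MonotoneOn (fun x => φ 0 x - c1 * Real.log x) (Set.Ici T1) := by
      apply monotoneOn_of_deriv_nonneg (convex_Ici T1)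
      · intro x hx
        exact ((hd0 x hx).sub ((hlog x hx).const_mul c1)).continuousAt.continuousWithinAt
      · intro x hx
        rw [interior_Ici] at hx
        exact ((hd0 x hx.le).sub ((hlog x hx.le).const_mul c1)).differentiableAt.differentiableWithinAt
      · intro x hx
        rw [interior_Ici] at hx
        have hx' : T1 ≤ x := (Set.mem_Ioi.mp hx).le
        have := ((hd0 x hx').sub ((hlog x hx').const_mul c1)).deriv
        have h2 : deriv (fun x => φ 0 x - c1 * Real.log x) x = φ 1 x - c1 * (1 / x) := this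
        rw [h2]
        have h3 := (hbd x hx').1
        have h4 : c1 * (1 / x) = c1 / x := by ring
        linarith
    have := hmono (Set.mem_Ici.mpr hs) (Set.mem_Ici.mpr (hs.trans hst)) hst
    simp only at this
    linarith
  have hupp : ∀ s t, T1 ≤ s → s ≤ t → φ 0 t - φ 0 s ≤ C1 * (Real.log t - Real.log s) := by
    intro s t hs hst
    have hmono : MonotoneOn (fun x => C1 * Real.log x - φ 0 x) (Set.Ici T1) := by
      apply monotoneOn_of_deriv_nonneg (convex_Ici T1)
      · intro x hx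
        exact (((hlog x hx).const_mul C1).sub (hd0 x hx)).continuousAt.continuousWithinAt
      · intro x hx
        rw [interior_Ici] at hx
        exact (((hlog x hx.le).const_mul C1).sub (hd0 x hx.le)).differentiableAt.differentiableWithinAt
      · intro x hx
        rw [interior_Ici] at hx
        have hx' : T1 ≤ x := (Set.mem_Ioi.mp hx).le
        have := (((hlog x hx').const_mul C1).sub (hd0 x hx')).deriv
        have h2 : deriv (fun x => C1 * Real.log x - φ 0 x) x = C1 * (1 / x) - φ 1 x := this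
        rw [h2]
        have h3 := (hbd x hx').2
        have h4 : C1 * (1 / x) = C1 / x := by ring
        linarith
    have := hmono (Set.mem_Ici.mpr hs) (Set.mem_Ici.mpr (hs.trans hst)) hst
    simp only at this
    linarith
  have hC1p : 0 < C1 := lt_of_lt_of_le hc1 hC1
  have hl2 : Real.log 2 ≤ 1 := by
    have := Real.log_two_lt_d9
    linarith
  have hlT : 0 ≤ Real.log T1 := Real.log_nonneg hT1b
  refine ⟨c1 / 2, C1 + 1, by linarith, by linarith, ?_⟩
  have hlim : Tendsto (fun J : ℕ => Real.log (J : ℝ)) atTop atTop :=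
    Real.tendsto_log_atTop.comp tendsto_natCast_atTop_atTop
  have hev1 : ∀ᶠ J : ℕ in atTop, T1 ≤ (J : ℝ) := (tendsto_natCast_atTop_atTop).eventually_ge_atTop T1
  have hev2 := hlim.eventually_ge_atTop ((|φ 0 T1| + c1 * Real.log T1) / (c1 / 2))
  have hev3 := hlim.eventually_ge_atTop (|φ 0 T1| + C1)
  filter_upwards [hev1, hev2, hev3] with J hJ1 hJ2 hJ3
  intro n hn1 hn2
  have hn1r : (J : ℝ) ≤ (n : ℝ) := by exact_mod_cast hn1
  have hn2r : (n : ℝ) ≤ 2 * (J : ℝ) := by exact_mod_cast hn2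
  have hTn : T1 ≤ (n : ℝ) := hJ1.trans hn1r
  have hJp : (0 : ℝ) < J := by linarith
  have hnp : (0 : ℝ) < n := by linarith
  have hfn := (hT0 (n : ℝ) (hT1a.trans hTn)).1
  have hfJ := (hT0 (J : ℝ) (hT1a.trans hJ1)).1
  have hlogJn : Real.log J ≤ Real.log n := Real.log_le_log hJp hn1r
  have hlogn2 : Real.log n ≤ Real.log 2 + Real.log J := by
    rw [← Real.log_mul (by norm_num) hJp.ne']
    exact Real.log_le_log hnp hn2r
  have hJ2' : |φ 0 T1| + c1 * Real.log T1 ≤ c1 / 2 * Real.log J := by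
    have := (div_le_iff₀ (by linarith : (0:ℝ) < c1 / 2)).mp hJ2
    linarith
  have habs1 := neg_abs_le (φ 0 T1)
  have habs2 := le_abs_self (φ 0 T1)
  refine ⟨hfn.1, ?_, ?_, ?_⟩
  · rw [← hfn.2]
    have h := hlow T1 n le_rfl hTn
    have h5 : c1 * Real.log J ≤ c1 * Real.log n := mul_le_mul_of_nonneg_left hlogJn hc1.le
    nlinarith
  · rw [← hfn.2]
    have h := hupp T1 n le_rfl hTn
    have h5 : C1 * Real.log n ≤ C1 * (Real.log 2 + Real.log J) := mul_le_mul_of_nonneg_left hlogn2 hC1p.le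
    have h6 : C1 * Real.log 2 ≤ C1 * 1 := mul_le_mul_of_nonneg_left hl2 hC1p.le
    have h7 : 0 ≤ C1 * Real.log T1 := mul_nonneg hC1p.le hlT
    nlinarith
  · rw [← hfn.2, ← hfJ.2]
    have h := hlow J n hJ1 hn1r
    have h' := hupp J n hJ1 hn1r
    have h5 : 0 ≤ c1 * (Real.log n - Real.log J) := mul_nonneg hc1.le (by linarith)
    have h6 : C1 * (Real.log n - Real.log J) ≤ C1 * 1 := mul_le_mul_of_nonneg_left (by linarith) hC1p.le
    rw [abs_le]
    constructor <;> linarith

end TS2

end Pool.Agent.helper616_TS
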