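import Pool.Agent.helper616_TS.Defs

/-!
# Project TS (helper616): powers are admissible
-/

set_option autoImplicit false
set_option maxHeartbeats 4000000

open Finset MeasureTheory Filter Topology

namespace Pool.Agent.helper616_TS

namespace TS3


theorem adm_rpow (c : ℝ) (hc : 0 < c) : Adm (fun t => t ^ c) := by
  refine ⟨fun m t => if m = 0 then c * Real.log t else
    c * (-1) ^ (m + 1) * ((m - 1).factorial : ℝ) * (t ^ m)⁻¹, ?_, ?_, ?_⟩
  · filter_upwards [eventually_gt_atTop (0 : ℝ)] with t ht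
    refine ⟨Real.rpow_pos_of_pos ht c, ?_⟩
    simp only [if_true]
    rw [Real.log_rpow ht]
  · intro m
    filter_upwards [eventually_gt_atTop (0 : ℝ)] with t ht
    rcases Nat.eq_zero_or_pos m with h | h
    · subst h
      have h1 := (Real.hasDerivAt_log ht.ne').const_mul c
      have e0 : (fun t : ℝ => if 0 = 0 then c * Real.log t else
          c * (-1) ^ (0 + 1) * ((0 - 1).factorial : ℝ) * (t ^ 0)⁻¹) =
          fun x : ℝ => c * Real.log x := by
        funext x
        rw [if_pos rfl]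
      rw [e0]
      refine h1.congr_deriv ?_
      simp
    · obtain ⟨k, rfl⟩ : ∃ k, m = k + 1 := ⟨m - 1, by omega⟩
      have hne : t ^ (k + 1) ≠ 0 := pow_ne_zero _ ht.ne'
      have h1 : HasDerivAt (fun x : ℝ => (x ^ (k + 1))⁻¹)
          (-(((k + 1 : ℕ) : ℝ) * t ^ k) / (t ^ (k + 1)) ^ 2) t := by
        have := (hasDerivAt_pow (k + 1) t).inv hne
        rw [Nat.add_sub_cancel] at this
        exact this
      have h2 := h1.const_mul (c * (-1) ^ (k + 1 + 1) * ((k + 1 - 1).factorial : ℝ))
      have e1 : (fun t : ℝ => if k + 1 = 0 then c * Real.log t else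
          c * (-1) ^ (k + 1 + 1) * ((k + 1 - 1).factorial : ℝ) * (t ^ (k + 1))⁻¹) =
          fun x : ℝ => c * (-1) ^ (k + 1 + 1) * ((k + 1 - 1).factorial : ℝ) * (x ^ (k + 1))⁻¹ := by
        funext x
        rw [if_neg (Nat.succ_ne_zero k)]
      rw [e1]
      refine h2.congr_deriv ?_
      rw [if_neg (by omega : ¬ (k + 1 + 1 = 0))]
      have e2 : k + 1 + 1 - 1 = k + 1 := by omega
      have e3 : k + 1 - 1 = k := by omega
      rw [e2, e3, Nat.factorial_succ]
      push_cast
      field_simp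
      ring
  · intro m hm
    refine ⟨c * ((m - 1).factorial : ℝ), c * ((m - 1).factorial : ℝ), by positivity, ?_⟩
    filter_upwards [eventually_gt_atTop (0 : ℝ)] with t ht
    have hne : t ^ m ≠ 0 := pow_ne_zero _ ht.ne'
    have e1 : (-1 : ℝ) ^ (m + 1) * (if m = 0 then c * Real.log t else
        c * (-1) ^ (m + 1) * ((m - 1).factorial : ℝ) * (t ^ m)⁻¹) * t ^ m =
        c * ((m - 1).factorial : ℝ) := by
      rw [if_neg (by omega : ¬ m = 0)]
      have hs : (-1 : ℝ) ^ (m + 1) * (-1) ^ (m + 1) = 1 := by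
        rw [← mul_pow]
        norm_num
      calc (-1 : ℝ) ^ (m + 1) * (c * (-1) ^ (m + 1) * ((m - 1).factorial : ℝ) * (t ^ m)⁻¹) * t ^ m
          = ((-1 : ℝ) ^ (m + 1) * (-1) ^ (m + 1)) * (c * ((m - 1).factorial : ℝ)) *
            ((t ^ m)⁻¹ * t ^ m) := by ring
        _ = c * ((m - 1).factorial : ℝ) := by
            rw [hs, inv_mul_cancel₀ hne]
            ring
    exact ⟨e1.ge, e1.le⟩

end TS3

end Pool.Agent.helper616_TS
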