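import Pool.Agent.helper616_TS.Defs

/-!
# Project TS (helper616): polynomials are admissible
-/

set_option autoImplicit false
set_option maxHeartbeats 4000000

open Finset MeasureTheory Filter Topology

namespace Pool.Agent.helper616_TS

namespace TS4


open Polynomial in
/-- the remainder polynomials: `(log P)^(m+1) = d (-1)^m m! t^-(m+1) + ap P m / (t P)^(m+1)` -/
noncomputable def ap (P : Polynomial ℝ) : ℕ → Polynomial ℝ
  | 0 => X * derivative P - C (P.natDegree : ℝ) * P
  | (m + 1) => P * (X * derivative (ap P m)) - C ((m : ℝ) + 1) * (P * ap P m)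
      - C ((m : ℝ) + 1) * (ap P m * (X * derivative P))

theorem coeff_X_mul_derivative (p : Polynomial ℝ) (n : ℕ) :
    (Polynomial.X * Polynomial.derivative p).coeff n = n * p.coeff n := by
  cases n with
  | zero => simp
  | succ k =>
    rw [Polynomial.coeff_X_mul, Polynomial.coeff_derivative]
    push_cast
    ring

theorem degree_X_mul_derivative (p : Polynomial ℝ) :
    (Polynomial.X * Polynomial.derivative p).degree ≤ p.degree := by
  rw [Polynomial.degree_le_iff_coeff_zero]
  intro m hm
  rw [coeff_X_mul_derivative, Polynomial.coeff_eq_zero_of_degree_lt hm, mul_zero]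

theorem degree_mul_lt_aux (p q : Polynomial ℝ) (a b : ℕ) (hp : p.degree ≤ (a : WithBot ℕ))
    (hq : q.degree < (b : WithBot ℕ)) : (p * q).degree < ((a + b : ℕ) : WithBot ℕ) := by
  rw [Polynomial.degree_mul]
  rcases eq_or_ne p 0 with rfl | hp0
  · simp only [Polynomial.degree_zero, WithBot.bot_add]
    exact WithBot.bot_lt_coe _
  rcases eq_or_ne q 0 with rfl | hq0
  · simp only [Polynomial.degree_zero, WithBot.add_bot]
    exact WithBot.bot_lt_coe _
  rw [Polynomial.degree_eq_natDegree hp0] at hp ⊢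
  rw [Polynomial.degree_eq_natDegree hq0] at hq ⊢
  have h1 : p.natDegree ≤ a := by exact_mod_cast hp
  have h2 : q.natDegree < b := by exact_mod_cast hq
  have h3 : p.natDegree + q.natDegree < a + b := by omega
  exact_mod_cast h3

theorem degree_ap (P : Polynomial ℝ) (m : ℕ) :
    (ap P m).degree < (((m + 1) * P.natDegree : ℕ) : WithBot ℕ) := by
  induction m with
  | zero =>
    rw [Polynomial.degree_lt_iff_coeff_zero]
    intro n hn
    simp only [zero_add, one_mul] at hn
    simp only [ap, Polynomial.coeff_sub, coeff_X_mul_derivative, Polynomial.coeff_C_mul]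
    rcases eq_or_lt_of_le hn with h | h
    · rw [h]; ring
    · rw [Polynomial.coeff_eq_zero_of_natDegree_lt h]; ring
  | succ m ih =>
    have hP : P.degree ≤ (P.natDegree : WithBot ℕ) := Polynomial.degree_le_natDegree
    have e1 : (m + 1 + 1) * P.natDegree = P.natDegree + (m + 1) * P.natDegree := by ring
    have h1 : (P * (Polynomial.X * Polynomial.derivative (ap P m))).degree <
        (((m + 1 + 1) * P.natDegree : ℕ) : WithBot ℕ) := by
      rw [e1]
      exact degree_mul_lt_aux _ _ _ _ hP (lt_of_le_of_lt (degree_X_mul_derivative _) ih)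
    have h2 : (P * ap P m).degree < (((m + 1 + 1) * P.natDegree : ℕ) : WithBot ℕ) := by
      rw [e1]
      exact degree_mul_lt_aux _ _ _ _ hP ih
    have h3 : (ap P m * (Polynomial.X * Polynomial.derivative P)).degree <
        (((m + 1 + 1) * P.natDegree : ℕ) : WithBot ℕ) := by
      rw [e1, mul_comm (ap P m)]
      exact degree_mul_lt_aux _ _ _ _ ((degree_X_mul_derivative _).trans hP) ih
    have h2' : (Polynomial.C ((m : ℝ) + 1) * (P * ap P m)).degree <
        (((m + 1 + 1) * P.natDegree : ℕ) : WithBot ℕ) :=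
      by rw [Polynomial.degree_C_mul (by positivity)]; exact h2
    have h3' : (Polynomial.C ((m : ℝ) + 1) * (ap P m * (Polynomial.X * Polynomial.derivative P))).degree <
        (((m + 1 + 1) * P.natDegree : ℕ) : WithBot ℕ) :=
      by rw [Polynomial.degree_C_mul (by positivity)]; exact h3
    simp only [ap]
    refine lt_of_le_of_lt (Polynomial.degree_sub_le _ _) (max_lt ?_ h3')
    exact lt_of_le_of_lt (Polynomial.degree_sub_le _ _) (max_lt h1 h2')

/-- the derivatives of `log P` -/
noncomputable def phi (P : Polynomial ℝ) : ℕ → ℝ → ℝ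
  | 0 => fun t => Real.log (P.eval t)
  | (m + 1) => fun t => (P.natDegree : ℝ) * (-1) ^ m * (Nat.factorial m : ℝ) * (t ^ (m + 1))⁻¹ +
      (ap P m).eval t / (t * P.eval t) ^ (m + 1)

theorem hasDerivAt_phi (P : Polynomial ℝ) (m : ℕ) (t : ℝ) (ht : 0 < t) (hPt : 0 < P.eval t) :
    HasDerivAt (phi P m) (phi P (m + 1) t) t := by
  have hd : HasDerivAt (fun t => P.eval t) ((Polynomial.derivative P).eval t) t := P.hasDerivAt t
  have ht' : t ≠ 0 := ht.ne'
  have hP' : P.eval t ≠ 0 := hPt.ne'
  cases m with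
  | zero =>
    have h := hd.log hP'
    refine h.congr_deriv ?_
    simp only [phi, ap, Polynomial.eval_sub, Polynomial.eval_mul, Polynomial.eval_X, Polynomial.eval_C]
    simp only [pow_zero, Nat.factorial_zero, Nat.cast_one, zero_add, pow_one, mul_one]
    field_simp
    ring
  | succ m =>
    have hA : HasDerivAt (fun t => (ap P m).eval t) ((Polynomial.derivative (ap P m)).eval t) t :=
      (ap P m).hasDerivAt t
    have hpow : HasDerivAt (fun t : ℝ => t ^ (m + 1)) (((m + 1 : ℕ) : ℝ) * t ^ m) t := by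
      simpa using hasDerivAt_pow (m + 1) t
    have hinv := (hpow.inv (pow_ne_zero _ ht')).const_mul ((P.natDegree : ℝ) * (-1) ^ m * (Nat.factorial m : ℝ))
    have hden := (((hasDerivAt_id t).mul hd).pow (m + 1))
    have hq := hA.div hden (pow_ne_zero _ (mul_ne_zero ht' hP'))
    have h := hinv.add hq
    refine HasDerivAt.congr_deriv (f := phi P (m + 1)) (h.congr_of_eventuallyEq ?_) ?_
    · exact Filter.Eventually.of_forall (fun x => rfl)
    · simp only [phi, ap, Polynomial.eval_sub, Polynomial.eval_mul, Polynomial.eval_X, Polynomial.eval_C,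
        Pi.mul_apply, id, Pi.pow_apply, Nat.add_sub_cancel, Nat.factorial_succ, Nat.cast_mul, Nat.cast_add,
        Nat.cast_one]
      field_simp
      ring

theorem adm_poly (P : Polynomial ℝ) (hP : 1 ≤ P.natDegree) (hl : 0 < P.leadingCoeff) : Adm (fun t => P.eval t) := by
  have hPdeg : 0 < P.degree := by
    rw [← Polynomial.natDegree_pos_iff_degree_pos]; omega
  have htop : Tendsto (fun t => P.eval t) atTop atTop :=
    Polynomial.tendsto_atTop_of_leadingCoeff_nonneg P hPdeg hl.le
  have hpos : ∀ᶠ t in atTop, 0 < P.eval t := htop.eventually_gt_atTop 0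
  refine ⟨phi P, ?_, ?_, ?_⟩
  · filter_upwards [hpos] with t ht
    exact ⟨ht, rfl⟩
  · intro m
    filter_upwards [hpos, eventually_gt_atTop (0 : ℝ)] with t ht ht0
    exact hasDerivAt_phi P m t ht0 ht
  · intro m hm
    obtain ⟨k, rfl⟩ : ∃ k, m = k + 1 := ⟨m - 1, by omega⟩
    have hP0 : P ≠ 0 := by
      rintro rfl
      simp at hP
    have hlim : Tendsto (fun t => (ap P k).eval t / (P ^ (k + 1)).eval t) atTop (𝓝 0) := by
      apply Polynomial.div_tendsto_atTop_zero_of_degree_lt
      rw [Polynomial.degree_pow, Polynomial.degree_eq_natDegree hP0]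
      have := degree_ap P k
      rw [nsmul_eq_mul]
      exact_mod_cast this
    have hc : (0 : ℝ) < (P.natDegree : ℝ) * (Nat.factorial k : ℝ) := by
      have h1 : (0 : ℝ) < (P.natDegree : ℝ) := by exact_mod_cast hP
      have h2 : (0 : ℝ) < (Nat.factorial k : ℝ) := by exact_mod_cast Nat.factorial_pos k
      positivity
    have hlim2 : Tendsto (fun t => (-1 : ℝ) ^ (k + 1 + 1) * phi P (k + 1) t * t ^ (k + 1)) atTop
        (𝓝 ((P.natDegree : ℝ) * (Nat.factorial k : ℝ))) := by
      have h1 := (hlim.const_mul ((-1 : ℝ) ^ k)).const_add ((P.natDegree : ℝ) * (Nat.factorial k : ℝ))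
      rw [mul_zero, add_zero] at h1
      refine h1.congr' ?_
      filter_upwards [hpos, eventually_gt_atTop (0 : ℝ)] with t ht ht0
      have ht' : t ≠ 0 := ht0.ne'
      have hP' : P.eval t ≠ 0 := ht.ne'
      have hs : ((-1 : ℝ) ^ k) * ((-1 : ℝ) ^ k) = 1 := by
        rw [← mul_pow]; norm_num
      simp only [phi, Polynomial.eval_pow]
      rw [mul_pow, pow_succ (-1 : ℝ) (k + 1), pow_succ (-1 : ℝ) k]
      have e1 : (-1 : ℝ) ^ k * -1 * -1 = (-1 : ℝ) ^ k := by ring
      rw [e1]
      have e2 : (-1 : ℝ) ^ k * ((P.natDegree : ℝ) * (-1) ^ k * (Nat.factorial k : ℝ) * (t ^ (k + 1))⁻¹ +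
          (ap P k).eval t / (t ^ (k + 1) * P.eval t ^ (k + 1))) * t ^ (k + 1) =
          ((-1 : ℝ) ^ k * (-1 : ℝ) ^ k) * ((P.natDegree : ℝ) * (Nat.factorial k : ℝ)) * ((t ^ (k + 1))⁻¹ * t ^ (k + 1)) +
          (-1 : ℝ) ^ k * ((ap P k).eval t / P.eval t ^ (k + 1)) * ((t ^ (k + 1))⁻¹ * t ^ (k + 1)) := by
        rw [div_eq_mul_inv, div_eq_mul_inv, mul_inv]
        ring
      rw [e2, hs, inv_mul_cancel₀ (pow_ne_zero _ ht')]
      ring
    refine ⟨(P.natDegree : ℝ) * (Nat.factorial k : ℝ) / 2, 2 * ((P.natDegree : ℝ) * (Nat.factorial k : ℝ)),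
      by positivity, ?_⟩
    have ha := hlim2.eventually (lt_mem_nhds (show (P.natDegree : ℝ) * (Nat.factorial k : ℝ) / 2 <
      (P.natDegree : ℝ) * (Nat.factorial k : ℝ) by linarith))
    have hb := hlim2.eventually (gt_mem_nhds (show (P.natDegree : ℝ) * (Nat.factorial k : ℝ) <
      2 * ((P.natDegree : ℝ) * (Nat.factorial k : ℝ)) by linarith))
    filter_upwards [ha, hb] with t h1 h2
    exact ⟨h1.le, h2.le⟩

end TS4

end Pool.Agent.helper616_TS
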