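import Pool.Agent.helper616_TS.Dep
import Pool.Agent.helper616_TS.TS1
import Pool.Agent.helper616_TS.TS2
import Pool.Agent.helper616_TS.TS3
import Pool.Agent.helper616_TS.TS4
import Pool.Agent.helper616_TS.TS10
import Pool.Agent.helper616_TS.TS14
import Pool.Agent.helper616_TS.TS15
import Pool.Agent.helper616_TS.TS16
import Pool.Agent.helper616_TS.TS18

/-!
# Project TS (helper616): the sampling theorem along almost all multiples of a polynomial, and the primes
-/

set_option autoImplicit false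

open Finset MeasureTheory Filter Topology

namespace Pool.Agent.helper616_TS

/-- the sampling theorem -/
theorem sampling (w f h : ℕ → ℝ) (hw : LogBdd w) (hE : ExpB w f) (hG : Gro f) (hb : LogBdd h) (hm : MeanZero h) :
    ∀ᵐ α : ℝ, 0 < α → ∀ A : ℕ, ∃ C : ℝ, ∀ N : ℕ, 2 ≤ N →
      |∑ n ∈ range N, w n * h ⌊α * f n⌋₊| ≤ C * N / (Real.log N) ^ A :=
  TS14.sampling (fun w f h hw hE hG hb hm a b hab A => TS10.meanSquare t_Pl w f h hw hE hG hb hm a b hab A)
    w f h hw hE hG hb hm

theorem logBdd_one : LogBdd (fun _ => 1) := ⟨1, 0, fun n => by simp⟩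

/-- the sampling theorem for an admissible function -/
theorem sampling_adm (f : ℝ → ℝ) (hf : Adm f) (h : ℕ → ℝ) (hb : LogBdd h) (hm : MeanZero h) :
    ∀ᵐ α : ℝ, 0 < α → ∀ A : ℕ, ∃ C : ℝ, ∀ N : ℕ, 2 ≤ N →
      |∑ n ∈ range N, h ⌊α * f n⌋₊| ≤ C * N / (Real.log N) ^ A := by
  filter_upwards [sampling (fun _ => 1) (fun n => f n) h logBdd_one (TS1.expB_of_adm t_VDC f hf)
    (TS2.gro_of_adm f hf) hb hm] with α hα h0 A
  obtain ⟨C, hC⟩ := hα h0 A
  exact ⟨C, fun N hN => by simpa using hC N hN⟩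

end Pool.Agent.helper616_TS
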