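import Pool.Agent.helper616_TS.Defs

/-!
# Project TS (helper616): primes in progressions
-/

set_option autoImplicit false
set_option maxHeartbeats 4000000

open Finset MeasureTheory Filter Topology

namespace Pool.Agent.helper616_TS

namespace TS19


theorem pnt_ap_ev (F G : ℕ → ℝ) (hG : ∀ N, 2 ≤ N → 0 < G N) (C0 : ℝ)
    (h : ∀ᶠ N : ℕ in atTop, |F N| ≤ C0 * G N) : ∃ C : ℝ, ∀ N, 2 ≤ N → |F N| ≤ C * G N := by
  obtain ⟨N1, h1⟩ := eventually_atTop.1 h
  refine ⟨|C0| + ∑ k ∈ range N1, |F k| / |G k|, fun N hN => ?_⟩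
  have hG0 := hG N hN
  have hs : 0 ≤ ∑ k ∈ range N1, |F k| / |G k| := sum_nonneg fun k _ => by positivity
  rcases lt_or_ge N N1 with hlt | hge
  · have h2 : |F N| / |G N| ≤ ∑ k ∈ range N1, |F k| / |G k| :=
      single_le_sum (f := fun k => |F k| / |G k|) (fun k _ => by positivity) (mem_range.2 hlt)
    rw [abs_of_pos hG0] at h2
    have h3 : |F N| = |F N| / G N * G N := by field_simp
    rw [h3]
    refine mul_le_mul_of_nonneg_right ?_ hG0.le
    have := abs_nonneg C0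
    linarith
  · refine (h1 N hge).trans (mul_le_mul_of_nonneg_right ?_ hG0.le)
    have := le_abs_self C0
    linarith

theorem pnt_ap_th (th : ℕ → ℝ) (hth : ∀ n : ℕ, th n = if n.Prime then Real.log n else 0) (n : ℕ) :
    0 ≤ ArithmeticFunction.vonMangoldt n - th n ∧
      ArithmeticFunction.vonMangoldt n - th n = if ¬ n.Prime then ArithmeticFunction.vonMangoldt n else 0 := by
  rw [hth]
  by_cases hp : n.Prime
  · simp [hp, ArithmeticFunction.vonMangoldt_apply_prime]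
  · simp [hp]

theorem pnt_ap_psi (th : ℕ → ℝ) (hth : ∀ n : ℕ, th n = if n.Prime then Real.log n else 0)
    (q b y : ℕ) (hy : 1 ≤ y) :
    0 ≤ ∑ n ∈ (Icc 1 y).filter (fun n => n ≡ b [MOD q]), ArithmeticFunction.vonMangoldt n -
        ∑ n ∈ (Icc 1 y).filter (fun n => n ≡ b [MOD q]), th n ∧
    ∑ n ∈ (Icc 1 y).filter (fun n => n ≡ b [MOD q]), ArithmeticFunction.vonMangoldt n -
        ∑ n ∈ (Icc 1 y).filter (fun n => n ≡ b [MOD q]), th n ≤ 2 * Real.sqrt y * Real.log y := by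
  rw [← sum_sub_distrib]
  refine ⟨sum_nonneg fun n _ => (pnt_ap_th th hth n).1, ?_⟩
  have h1 := Chebyshev.psi_sub_theta_le (x := (y : ℝ)) (by exact_mod_cast hy)
  rw [Chebyshev.psi_sub_theta_eq_sum_not_prime, Nat.floor_natCast, sum_filter] at h1
  refine le_trans ?_ h1
  have h2 : Icc 1 y = Ioc 0 y := by
    ext n; simp only [mem_Icc, mem_Ioc]; omega
  rw [h2]
  refine (sum_le_sum_of_subset_of_nonneg (filter_subset _ _)
    (fun n _ _ => (pnt_ap_th th hth n).1)).trans (le_of_eq ?_)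
  exact sum_congr rfl fun n _ => (pnt_ap_th th hth n).2

theorem pnt_ap_sum (th : ℕ → ℝ) (hth : ∀ n : ℕ, th n = if n.Prime then Real.log n else 0)
    (q b y : ℕ) (c : ℝ) :
    ∑ m ∈ range (y + 1), ((if m ≡ b [MOD q] then th m else 0) - c) =
      ∑ n ∈ (Icc 1 y).filter (fun n => n ≡ b [MOD q]), th n - (y + 1) * c := by
  have h0 : th 0 = 0 := by rw [hth]; simp [Nat.not_prime_zero]
  rw [sum_sub_distrib, sum_const, card_range, nsmul_eq_mul]
  push_cast
  congr 1
  have h1 : range (y + 1) = insert 0 (Icc 1 y) := by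
    ext n; simp only [mem_range, mem_insert, mem_Icc]; omega
  rw [h1, sum_insert (by simp), h0, ite_self, zero_add, sum_filter]

theorem pnt_ap_sq {a b : ℝ} (h : a ^ 2 ≤ b ^ 2) (hb : 0 ≤ b) : a ≤ b :=
  (le_abs_self a).trans (abs_le_of_sq_le_sq h hb)

theorem pnt_ap_num (A : ℕ) : ∀ᶠ N : ℕ in atTop, (3 + 2 * Real.sqrt N * Real.log N) * Real.log N ^ A ≤ N := by
  have h1 : (fun x : ℝ => Real.log x ^ (2 * (A + 1))) =o[atTop] id := Real.isLittleO_pow_log_id_atTop
  have h2 : ∀ᶠ x : ℝ in atTop, ‖Real.log x ^ (2 * (A + 1))‖ ≤ (1 / 25) * ‖id x‖ := h1.def (by norm_num)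
  have h3 := (tendsto_natCast_atTop_atTop (R := ℝ)).eventually h2
  filter_upwards [h3, eventually_ge_atTop 3] with N hN h3N
  have hN3 : (3 : ℝ) ≤ N := by exact_mod_cast h3N
  have hL1 : 1 ≤ Real.log (N : ℝ) := by
    rw [Real.le_log_iff_exp_le (by linarith)]
    linarith [Real.exp_one_lt_d9]
  have hL0 : 0 ≤ Real.log (N : ℝ) := by linarith
  rw [Real.norm_of_nonneg (by positivity), id, Real.norm_of_nonneg (by linarith)] at hN
  set s := Real.sqrt (N : ℝ) with hs
  have hs2 : s * s = N := Real.mul_self_sqrt (by linarith)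
  have hs1 : 1 ≤ s := by rw [hs, Real.one_le_sqrt]; linarith
  have h4 : Real.log (N : ℝ) ^ (A + 1) ≤ s / 5 := by
    refine pnt_ap_sq ?_ (by positivity)
    have h5 : (Real.log (N : ℝ) ^ (A + 1)) ^ 2 = Real.log N ^ (2 * (A + 1)) := by rw [← pow_mul, mul_comm]
    rw [h5]
    nlinarith
  have h6 : (3 + 2 * s * Real.log N) ≤ 5 * (s * Real.log N) := by nlinarith
  have h7 : 0 ≤ Real.log (N : ℝ) ^ A := by positivity
  calc (3 + 2 * s * Real.log N) * Real.log N ^ A ≤ 5 * (s * Real.log N) * Real.log N ^ A :=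
        mul_le_mul_of_nonneg_right h6 h7
    _ = 5 * s * Real.log N ^ (A + 1) := by rw [pow_succ]; ring
    _ ≤ 5 * s * (s / 5) := by gcongr
    _ = N := by rw [← hs2]; ring

theorem pnt_ap (th : ℕ → ℝ) (hth : ∀ n : ℕ, th n = if n.Prime then Real.log n else 0)
    (h : ∀ U : ℕ, ∃ (C : ℝ) (N1 : ℕ), 0 < C ∧ ∀ y : ℕ, N1 ≤ y → |∑ n ∈ Icc 1 y, ArithmeticFunction.vonMangoldt n - y| ≤ C * (y / Real.log y ^ U) + 2)
    (hSW : ∀ U K : ℕ, ∃ y0 : ℕ, ∀ y : ℕ, y0 ≤ y → ∀ q : ℕ, 1 ≤ q → (q : ℝ) ≤ Real.log y ^ K → ∀ c : ℕ, c.Coprime q →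
      |∑ n ∈ (Icc 1 y).filter (fun n => n ≡ c [MOD q]), ArithmeticFunction.vonMangoldt n -
        (∑ n ∈ Icc 1 y, ArithmeticFunction.vonMangoldt n) / (Nat.totient q : ℝ)| ≤ y / Real.log y ^ U)
    (q b : ℕ) (hq : 1 ≤ q) (hb : b.Coprime q) :
    MeanZero (fun m => (if m ≡ b [MOD q] then th m else 0) - 1 / (Nat.totient q : ℝ)) ∧
      LogBdd (fun m => (if m ≡ b [MOD q] then th m else 0) - 1 / (Nat.totient q : ℝ)) := by
  have hphi : 1 ≤ Nat.totient q := Nat.totient_pos.2 hq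
  have hphr : (1 : ℝ) ≤ (Nat.totient q : ℝ) := by exact_mod_cast hphi
  have hph1 : 1 / (Nat.totient q : ℝ) ≤ 1 := by
    rw [div_le_one (by linarith)]; exact hphr
  have hph0 : 0 ≤ 1 / (Nat.totient q : ℝ) := by positivity
  refine ⟨?_, 3, 1, ?_⟩
  · intro A
    obtain ⟨C1, N1, hC1, h1⟩ := h A
    obtain ⟨y0, h2⟩ := hSW A 1
    have key := pnt_ap_ev (fun N => ∑ m ∈ range N, ((if m ≡ b [MOD q] then th m else 0) - 1 / (Nat.totient q : ℝ)))
      (fun N => (N : ℝ) / (Real.log N) ^ A) (fun N hN => by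
        have hN2 : (1 : ℝ) < N := by exact_mod_cast (by omega : 1 < N)
        have := Real.log_pos hN2
        have : (0 : ℝ) < N := by linarith
        positivity) ((1 + C1) * 2 ^ A + 1) ?_
    · obtain ⟨C, hC⟩ := key
      exact ⟨C, fun N hN => (hC N hN).trans (le_of_eq (by ring))⟩
    · have hlog : ∀ᶠ N : ℕ in atTop, (q : ℝ) ≤ Real.log ((N - 1 : ℕ) : ℝ) := by
        have t1 : Tendsto (fun N : ℕ => Real.log ((N - 1 : ℕ) : ℝ)) atTop atTop :=
          Real.tendsto_log_atTop.comp (tendsto_natCast_atTop_atTop.comp (tendsto_sub_atTop_nat 1))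
        exact t1.eventually_ge_atTop _
      filter_upwards [hlog, pnt_ap_num A, eventually_ge_atTop (N1 + 1), eventually_ge_atTop (y0 + 1),
        eventually_ge_atTop 4] with N hlogN hnum hN1 hy0 hN4
      obtain ⟨y, rfl⟩ : ∃ y, N = y + 1 := ⟨N - 1, by omega⟩
      simp only [Nat.add_sub_cancel] at hlogN
      have hy3 : 3 ≤ y := by omega
      have hyr : (3 : ℝ) ≤ y := by exact_mod_cast hy3
      have hLy1 : 1 ≤ Real.log (y : ℝ) := by
        rw [Real.le_log_iff_exp_le (by linarith)]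
        linarith [Real.exp_one_lt_d9]
      have hLN : Real.log (((y + 1 : ℕ) : ℝ)) ≤ 2 * Real.log y := by
        have : 2 * Real.log (y : ℝ) = Real.log ((y : ℝ) ^ 2) := by rw [Real.log_pow]; push_cast; ring
        rw [this]
        apply Real.log_le_log (by positivity)
        push_cast
        nlinarith
      have hLN2 : Real.log (y : ℝ) ≤ Real.log (((y + 1 : ℕ) : ℝ)) :=
        Real.log_le_log (by linarith) (by push_cast; linarith)
      rw [pnt_ap_sum th hth]
      have e1 := h1 y (by omega)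
      have e2 := h2 y (by omega) q hq (by rw [pow_one]; exact hlogN) b hb
      obtain ⟨e3, e4⟩ := pnt_ap_psi th hth q b y (by omega)
      set SL := ∑ n ∈ (Icc 1 y).filter (fun n => n ≡ b [MOD q]), ArithmeticFunction.vonMangoldt n
      set ST := ∑ n ∈ (Icc 1 y).filter (fun n => n ≡ b [MOD q]), th n
      set SA := ∑ n ∈ Icc 1 y, ArithmeticFunction.vonMangoldt n
      set φ : ℝ := (Nat.totient q : ℝ)
      set LN := Real.log (((y + 1 : ℕ) : ℝ)) with hLNdef
      have hsplit : ST - ((y : ℝ) + 1) * (1 / φ) =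
          (SL - SA / φ) + (SA - y) * (1 / φ) - 1 / φ - (SL - ST) := by ring
      have b1 : |(SA - y) * (1 / φ)| ≤ C1 * (y / Real.log y ^ A) + 2 := by
        rw [abs_mul, abs_of_nonneg hph0]
        calc |SA - y| * (1 / φ) ≤ |SA - y| * 1 := mul_le_mul_of_nonneg_left hph1 (abs_nonneg _)
          _ ≤ _ := by rw [mul_one]; exact e1
      have b2 : (y : ℝ) / Real.log y ^ A ≤ 2 ^ A * (((y + 1 : ℕ) : ℝ) / LN ^ A) := by
        have hLN0 : 0 < LN := by linarith
        rw [← mul_div_assoc, div_le_div_iff₀ (by positivity) (by positivity)]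
        have c1 : LN ^ A ≤ (2 * Real.log y) ^ A := pow_le_pow_left₀ hLN0.le hLN A
        rw [mul_pow] at c1
        have c2 : (y : ℝ) ≤ ((y + 1 : ℕ) : ℝ) := by push_cast; linarith
        calc (y : ℝ) * LN ^ A ≤ ((y + 1 : ℕ) : ℝ) * (2 ^ A * Real.log y ^ A) := by gcongr
          _ = _ := by ring
      have b3 : 3 + 2 * Real.sqrt y * Real.log y ≤ ((y + 1 : ℕ) : ℝ) / LN ^ A := by
        have hLN0 : 0 < LN := by linarith
        rw [le_div_iff₀ (by positivity)]
        refine le_trans (mul_le_mul_of_nonneg_right ?_ (by positivity)) hnum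
        have c3 : Real.sqrt y ≤ Real.sqrt (((y + 1 : ℕ) : ℝ)) := Real.sqrt_le_sqrt (by push_cast; linarith)
        have c4 : 0 ≤ Real.log (y : ℝ) := by linarith
        have c5 : Real.sqrt y * Real.log y ≤ Real.sqrt (((y + 1 : ℕ) : ℝ)) * LN :=
          mul_le_mul c3 hLN2 c4 (Real.sqrt_nonneg _)
        linarith
      rw [hsplit, abs_le]
      obtain ⟨d1, d2⟩ := abs_le.1 e2
      obtain ⟨d3, d4⟩ := abs_le.1 b1
      have b4 : (1 + C1) * ((y : ℝ) / Real.log y ^ A) ≤ (1 + C1) * (2 ^ A * (((y + 1 : ℕ) : ℝ) / LN ^ A)) :=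
        mul_le_mul_of_nonneg_left b2 (by linarith)
      have b5 : ((1 + C1) * 2 ^ A + 1) * (((y + 1 : ℕ) : ℝ) / LN ^ A) =
          (1 + C1) * (2 ^ A * (((y + 1 : ℕ) : ℝ) / LN ^ A)) + ((y + 1 : ℕ) : ℝ) / LN ^ A := by ring
      rw [b5]
      constructor <;> linarith
  · intro n
    have hl2 : (0.6 : ℝ) ≤ Real.log 2 := by linarith [Real.log_two_gt_d9]
    have hn0 : (0 : ℝ) ≤ n := Nat.cast_nonneg n
    have hln : Real.log 2 ≤ Real.log ((n : ℝ) + 2) := Real.log_le_log (by norm_num) (by linarith)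
    have hth0 : 0 ≤ th n ∧ th n ≤ Real.log ((n : ℝ) + 2) := by
      rw [hth]
      split_ifs with hp
      · have h1 : (1 : ℝ) ≤ n := by exact_mod_cast hp.one_lt.le
        exact ⟨Real.log_nonneg h1, Real.log_le_log (by linarith) (by linarith)⟩
      · exact ⟨le_rfl, by linarith⟩
    have h5 : 0 ≤ (if n ≡ b [MOD q] then th n else 0) ∧
        (if n ≡ b [MOD q] then th n else 0) ≤ Real.log ((n : ℝ) + 2) := by
      split_ifs
      · exact hth0
      · exact ⟨le_rfl, by linarith⟩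
    simp only [pow_one]
    rw [abs_le]
    constructor <;> linarith [h5.1, h5.2]

end TS19

end Pool.Agent.helper616_TS
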