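import Pool.Agent.helper616_TS.Defs

/-!
# Project TS (helper616): from weighted sums to numbers of primes in a set
-/

set_option autoImplicit false
set_option maxHeartbeats 4000000

open Finset MeasureTheory Filter Topology

namespace Pool.Agent.helper616_TS

namespace TS20


lemma cs_logfloor (x : ℕ → ℝ) (d : ℝ) (hd : 0 < d)
    (hx : Tendsto (fun n : ℕ => Real.log (x n) / Real.log n) atTop (𝓝 d))
    (hx0 : ∀ᶠ n : ℕ in atTop, 0 < x n) :
    Tendsto (fun n : ℕ => Real.log (⌊x n⌋₊ : ℝ) / Real.log n) atTop (𝓝 d) := by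
  have hlog : Tendsto (fun n : ℕ => Real.log (n:ℝ)) atTop atTop :=
    Real.tendsto_log_atTop.comp tendsto_natCast_atTop_atTop
  have hlx : Tendsto (fun n : ℕ => Real.log (x n)) atTop atTop := by
    have h1 := hx.pos_mul_atTop hd hlog
    refine h1.congr' ?_
    filter_upwards [eventually_ge_atTop 2] with n hn
    have : 0 < Real.log (n:ℝ) := Real.log_pos (by exact_mod_cast hn)
    field_simp
  have hxt : Tendsto x atTop atTop := by
    have h2 := Real.tendsto_exp_atTop.comp hlx
    refine h2.congr' ?_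
    filter_upwards [hx0] with n hn
    simp [Real.exp_log hn]
  have hlow : Tendsto (fun n : ℕ => Real.log (x n) / Real.log n - Real.log 2 / Real.log n) atTop (𝓝 d) := by
    have h3 : Tendsto (fun n : ℕ => Real.log 2 / Real.log (n:ℝ)) atTop (𝓝 0) := hlog.const_div_atTop _
    simpa using hx.sub h3
  refine tendsto_of_tendsto_of_tendsto_of_le_of_le' hlow hx ?_ ?_
  · filter_upwards [hxt.eventually_ge_atTop 2, eventually_ge_atTop 2] with n h1 h2
    have hl : 0 < Real.log (n:ℝ) := Real.log_pos (by exact_mod_cast h2)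
    rw [← sub_div]
    apply div_le_div_of_nonneg_right _ hl.le
    have : x n / 2 ≤ ⌊x n⌋₊ := by
      have := Nat.lt_floor_add_one (x n)
      linarith
    rw [← Real.log_div (by linarith) (by norm_num)]
    exact Real.log_le_log (by linarith) this
  · filter_upwards [hxt.eventually_ge_atTop 2, eventually_ge_atTop 2] with n h1 h2
    have hl : 0 < Real.log (n:ℝ) := Real.log_pos (by exact_mod_cast h2)
    apply div_le_div_of_nonneg_right _ hl.le
    have h3 : (1:ℝ) ≤ ⌊x n⌋₊ := by
      have : 1 ≤ ⌊x n⌋₊ := by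
        apply Nat.le_floor
        push_cast
        linarith
      exact_mod_cast this
    exact Real.log_le_log (by linarith) (Nat.floor_le (by linarith))

/-- lower bound for the weighted sum -/
lemma cs_low (w : ℕ → ℝ) (hw0 : ∀ n, 0 ≤ w n) (P : ℕ → Prop) [DecidablePred P] (c : ℝ) (hc : 0 ≤ c) (n0 : ℕ)
    (h : ∀ n ≥ n0, w n ≤ c * Real.log n) (N : ℕ) :
    ∑ n ∈ (range N).filter P, w n ≤ ∑ n ∈ range n0, w n + c * Real.log N * ((range N).filter P).card := by
  have hN : 0 ≤ Real.log (N:ℝ) := Real.log_natCast_nonneg N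
  calc ∑ n ∈ (range N).filter P, w n
      ≤ ∑ n ∈ (range N).filter P, ((if n < n0 then w n else 0) + c * Real.log N) := by
        apply Finset.sum_le_sum
        intro n hn
        have hn' : n < N := by simpa using (Finset.mem_filter.1 hn).1
        split_ifs with h1
        · have := mul_nonneg hc hN
          linarith
        · have h2 := h n (by omega)
          rcases Nat.eq_zero_or_pos n with h0 | h0
          · subst h0
            simp at h2
            have := mul_nonneg hc hN
            linarith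
          · have h3 : Real.log (n:ℝ) ≤ Real.log N := Real.log_le_log (by exact_mod_cast h0) (by exact_mod_cast hn'.le)
            have := mul_le_mul_of_nonneg_left h3 hc
            linarith
    _ = ∑ n ∈ (range N).filter P, (if n < n0 then w n else 0) + c * Real.log N * ((range N).filter P).card := by
        rw [Finset.sum_add_distrib, Finset.sum_const, nsmul_eq_mul]
        ring
    _ ≤ _ := by
        gcongr
        rw [← Finset.sum_filter]
        apply Finset.sum_le_sum_of_subset_of_nonneg
        · intro n hn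
          simp only [Finset.mem_filter, Finset.mem_range] at hn ⊢
          exact hn.2
        · intro n _ _
          exact hw0 n

/-- upper bound for the count -/
lemma cs_up (w : ℕ → ℝ) (hw0 : ∀ n, 0 ≤ w n) (P : ℕ → Prop) [DecidablePred P] (c : ℝ) (hc : 0 ≤ c)
    (N K : ℕ) (h : ∀ n ≥ K, c ≤ w n) :
    c * ((range N).filter P).card ≤ ∑ n ∈ (range N).filter P, w n + c * K := by
  calc c * ((range N).filter P).card = ∑ n ∈ (range N).filter P, c := by
        rw [Finset.sum_const, nsmul_eq_mul]
        ring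
    _ ≤ ∑ n ∈ (range N).filter P, (w n + (if n < K then c else 0)) := by
        apply Finset.sum_le_sum
        intro n hn
        split_ifs with h1
        · linarith [hw0 n]
        · linarith [h n (by omega)]
    _ = ∑ n ∈ (range N).filter P, w n + ∑ n ∈ (range N).filter P, (if n < K then c else 0) := by
        rw [Finset.sum_add_distrib]
    _ ≤ ∑ n ∈ (range N).filter P, w n + ∑ n ∈ range K, c := by
        gcongr
        rw [← Finset.sum_filter]
        apply Finset.sum_le_sum_of_subset_of_nonneg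
        · intro n hn
          simp only [Finset.mem_filter, Finset.mem_range] at hn ⊢
          exact hn.2
        · intro n _ _
          exact hc
    _ = _ := by
        rw [Finset.sum_const, nsmul_eq_mul, Finset.card_range]
        ring

lemma cs_small (ε : ℝ) (h0 : 0 < ε) :
    Tendsto (fun N : ℕ => Real.log N * ((N:ℝ) ^ (1 - ε) + 1) / N) atTop (𝓝 0) := by
  have h1 : Tendsto (fun x : ℝ => Real.log x / x ^ ε) atTop (𝓝 0) :=
    (isLittleO_log_rpow_atTop h0).tendsto_div_nhds_zero
  have h2 : Tendsto (fun x : ℝ => Real.log x / x ^ (1:ℝ)) atTop (𝓝 0) :=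
    (isLittleO_log_rpow_atTop one_pos).tendsto_div_nhds_zero
  have h3 := (h1.add h2).comp (tendsto_natCast_atTop_atTop (R := ℝ))
  simp only [add_zero] at h3
  refine h3.congr' ?_
  filter_upwards [eventually_ge_atTop 1] with N hN
  have hN' : (0:ℝ) < N := by exact_mod_cast hN
  simp only [Function.comp, Real.rpow_one]
  have h4 : (N:ℝ) ^ (1 - ε) = N / (N:ℝ) ^ ε := by
    rw [Real.rpow_sub hN', Real.rpow_one]
  rw [h4]
  have h5 : 0 < (N:ℝ) ^ ε := Real.rpow_pos_of_pos hN' _
  field_simp

lemma cs_main (w : ℕ → ℝ) (hw0 : ∀ n, 0 ≤ w n) (P : ℕ → Prop) [DecidablePred P] (d ρ : ℝ) (hd : 0 < d)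
    (hw1 : Tendsto (fun n : ℕ => w n / Real.log n) atTop (𝓝 d))
    (hs : Tendsto (fun N : ℕ => (∑ n ∈ (range N).filter P, w n) / N) atTop (𝓝 ρ)) :
    Tendsto (fun N : ℕ => (((range N).filter P).card : ℝ) / (N / (d * Real.log N))) atTop (𝓝 ρ) := by
  have hlog : Tendsto (fun n : ℕ => Real.log (n:ℝ)) atTop atTop :=
    Real.tendsto_log_atTop.comp tendsto_natCast_atTop_atTop
  rw [tendsto_order]
  constructor
  · intro a ha
    -- lower bound
    obtain ⟨ε, hε0, hε⟩ : ∃ ε > 0, a * (d + ε) < ρ * d := by
      have h1 : Tendsto (fun ε : ℝ => a * (d + ε)) (𝓝[>] 0) (𝓝 (a * (d + 0))) := by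
        apply Tendsto.mono_left _ nhdsWithin_le_nhds
        exact (continuous_const.mul (continuous_const.add continuous_id)).tendsto 0
      have h2 : a * (d + 0) < ρ * d := by
        rw [add_zero]
        exact mul_lt_mul_of_pos_right ha hd
      obtain ⟨ε, h3, h4⟩ := ((h1.eventually_lt_const h2).and self_mem_nhdsWithin).exists
      exact ⟨ε, h4, h3⟩
    have hev : ∀ᶠ n : ℕ in atTop, w n ≤ (d + ε) * Real.log n := by
      have := hw1.eventually_lt_const (show d < d + ε by linarith)
      filter_upwards [this, eventually_ge_atTop 2] with n hn h2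
      have hl : 0 < Real.log (n:ℝ) := Real.log_pos (by exact_mod_cast h2)
      rw [div_lt_iff₀ hl] at hn
      exact hn.le
    obtain ⟨n0, hn0⟩ := eventually_atTop.1 hev
    have hlim : Tendsto (fun N : ℕ => ((∑ n ∈ (range N).filter P, w n) / N - (∑ n ∈ range n0, w n) / N) * d)
        atTop (𝓝 ((ρ - 0) * d)) := by
      apply Tendsto.mul_const
      apply Tendsto.sub hs
      exact tendsto_natCast_atTop_atTop.const_div_atTop _
    rw [sub_zero] at hlim
    filter_upwards [hlim.eventually_const_lt hε, eventually_ge_atTop 2] with N h1 h2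
    have hl : 0 < Real.log (N:ℝ) := Real.log_pos (by exact_mod_cast h2)
    have hN : (0:ℝ) < N := by
      have : 0 < N := by omega
      exact_mod_cast this
    have h3 := cs_low w hw0 P (d + ε) (by linarith) n0 hn0 N
    have h4 : ((∑ n ∈ (range N).filter P, w n) / N - (∑ n ∈ range n0, w n) / N) * d ≤
        (((range N).filter P).card : ℝ) / (N / (d * Real.log N)) * (d + ε) := by
      have : ((∑ n ∈ (range N).filter P, w n) / N - (∑ n ∈ range n0, w n) / N) * d =
        ((∑ n ∈ (range N).filter P, w n) - (∑ n ∈ range n0, w n)) * (d / N) := by ring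
      rw [this]
      have : (((range N).filter P).card : ℝ) / (N / (d * Real.log N)) * (d + ε) =
        ((d + ε) * Real.log N * ((range N).filter P).card) * (d / N) := by
        field_simp
      rw [this]
      apply mul_le_mul_of_nonneg_right _ (by positivity)
      linarith
    have h5 : a * (d + ε) < (((range N).filter P).card : ℝ) / (N / (d * Real.log N)) * (d + ε) := by linarith
    exact lt_of_mul_lt_mul_right h5 (by linarith)
  · intro b hb
    obtain ⟨ε, hε0, hε1, hεd, hε⟩ : ∃ ε > 0, ε < 1 ∧ ε < d ∧ ρ * d < b * ((d - ε) * (1 - ε)) := by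
      have h1 : Tendsto (fun ε : ℝ => b * ((d - ε) * (1 - ε))) (𝓝[>] 0) (𝓝 (b * ((d - 0) * (1 - 0)))) := by
        apply Tendsto.mono_left _ nhdsWithin_le_nhds
        exact (continuous_const.mul ((continuous_const.sub continuous_id).mul (continuous_const.sub continuous_id))).tendsto 0
      have h2 : ρ * d < b * ((d - 0) * (1 - 0)) := by
        rw [sub_zero, sub_zero, mul_one]
        exact mul_lt_mul_of_pos_right hb hd
      have h5 : ∀ᶠ ε : ℝ in 𝓝[>] 0, ε < 1 := by
        apply Filter.Eventually.filter_mono nhdsWithin_le_nhds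
        exact eventually_lt_nhds one_pos
      have h6 : ∀ᶠ ε : ℝ in 𝓝[>] 0, ε < d := by
        apply Filter.Eventually.filter_mono nhdsWithin_le_nhds
        exact eventually_lt_nhds hd
      obtain ⟨ε, ⟨⟨h3, h4⟩, h7⟩, h8⟩ := (((h1.eventually_const_lt h2).and self_mem_nhdsWithin).and h5 |>.and h6).exists
      exact ⟨ε, h4, h7, h8, h3⟩
    set c : ℝ := (d - ε) * (1 - ε) with hc
    have hcpos : 0 < c := mul_pos (by linarith) (by linarith)
    have hev : ∀ᶠ n : ℕ in atTop, (d - ε) * Real.log n ≤ w n := by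
      have := hw1.eventually_const_lt (show d - ε < d by linarith)
      filter_upwards [this, eventually_ge_atTop 2] with n hn h2
      have hl : 0 < Real.log (n:ℝ) := Real.log_pos (by exact_mod_cast h2)
      rw [lt_div_iff₀ hl] at hn
      exact hn.le
    obtain ⟨n0, hn0⟩ := eventually_atTop.1 hev
    have hlim : Tendsto (fun N : ℕ => (∑ n ∈ (range N).filter P, w n) / N * d +
        (c * d) * (Real.log N * ((N:ℝ) ^ (1 - ε) + 1) / N)) atTop (𝓝 (ρ * d + (c * d) * 0)) := by
      exact (hs.mul_const d).add ((cs_small ε hε0).const_mul _)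
    rw [mul_zero, add_zero] at hlim
    have hpow : Tendsto (fun N : ℕ => (N:ℝ) ^ (1 - ε)) atTop atTop :=
      (tendsto_rpow_atTop (by linarith)).comp tendsto_natCast_atTop_atTop
    filter_upwards [hlim.eventually_lt_const hε, eventually_ge_atTop 2, hpow.eventually_ge_atTop (n0 + 1 : ℝ)] with N h1 h2 h9
    have hl : 0 < Real.log (N:ℝ) := Real.log_pos (by exact_mod_cast h2)
    have hN : (0:ℝ) < N := by
      have : 0 < N := by omega
      exact_mod_cast this
    have h3 := cs_up w hw0 P (c * Real.log N) (by positivity) N ⌈(N:ℝ) ^ (1 - ε)⌉₊ (by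
      intro n hn
      have h10 : (N:ℝ) ^ (1 - ε) ≤ n := (Nat.le_ceil _).trans (by exact_mod_cast hn)
      have h11 : n0 ≤ n := by
        have : (n0:ℝ) ≤ n := by linarith
        exact_mod_cast this
      have h12 := hn0 n h11
      have h13 : (1 - ε) * Real.log N ≤ Real.log n := by
        rw [← Real.log_rpow hN]
        exact Real.log_le_log (Real.rpow_pos_of_pos hN _) h10
      have := mul_le_mul_of_nonneg_left h13 (show 0 ≤ d - ε by linarith)
      rw [hc]
      linarith)
    have hK : (⌈(N:ℝ) ^ (1 - ε)⌉₊ : ℝ) ≤ (N:ℝ) ^ (1 - ε) + 1 :=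
      (Nat.ceil_lt_add_one (Real.rpow_nonneg hN.le _)).le
    have h4 : (((range N).filter P).card : ℝ) / (N / (d * Real.log N)) * c ≤
        (∑ n ∈ (range N).filter P, w n) / N * d + (c * d) * (Real.log N * ((N:ℝ) ^ (1 - ε) + 1) / N) := by
      have : (((range N).filter P).card : ℝ) / (N / (d * Real.log N)) * c =
        (c * Real.log N * ((range N).filter P).card) * (d / N) := by
        field_simp
      rw [this]
      have : (∑ n ∈ (range N).filter P, w n) / N * d + (c * d) * (Real.log N * ((N:ℝ) ^ (1 - ε) + 1) / N) =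
        (∑ n ∈ (range N).filter P, w n + c * Real.log N * ((N:ℝ) ^ (1 - ε) + 1)) * (d / N) := by ring
      rw [this]
      apply mul_le_mul_of_nonneg_right _ (by positivity)
      have := mul_le_mul_of_nonneg_left hK (show 0 ≤ c * Real.log N by positivity)
      linarith
    have h5 : (((range N).filter P).card : ℝ) / (N / (d * Real.log N)) * c < b * c := by linarith
    exact lt_of_mul_lt_mul_right h5 hcpos.le

theorem count_set (th : ℕ → ℝ) (hth : ∀ n : ℕ, th n = if n.Prime then Real.log n else 0) (S : ℕ → Prop) [DecidablePred S]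
    (x : ℕ → ℝ) (d ρ : ℝ) (hd : 0 < d) (hx : Tendsto (fun n : ℕ => Real.log (x n) / Real.log n) atTop (𝓝 d))
    (hx0 : ∀ᶠ n : ℕ in atTop, 0 < x n)
    (hs : Tendsto (fun N : ℕ => (∑ n ∈ range N, if S ⌊x n⌋₊ then th ⌊x n⌋₊ else 0) / N) atTop (𝓝 ρ)) :
    Tendsto (fun N : ℕ => (((range N).filter (fun n => (⌊x n⌋₊).Prime ∧ S ⌊x n⌋₊)).card : ℝ) / (N / (d * Real.log N))) atTop (𝓝 ρ) := by
  have hw := cs_logfloor x d hd hx hx0
  have hlog : Tendsto (fun n : ℕ => Real.log (n:ℝ)) atTop atTop :=
    Real.tendsto_log_atTop.comp tendsto_natCast_atTop_atTop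
  obtain ⟨w, hwd⟩ : ∃ w : ℕ → ℝ, w = fun n => Real.log (⌊x n⌋₊ : ℝ) := ⟨_, rfl⟩
  have hw0 : ∀ n, 0 ≤ w n := fun n => by rw [hwd]; exact Real.log_natCast_nonneg _
  have hw1 : Tendsto (fun n : ℕ => w n / Real.log n) atTop (𝓝 d) := by rw [hwd]; exact hw
  have hW : ∀ N, (∑ n ∈ range N, if S ⌊x n⌋₊ then th ⌊x n⌋₊ else 0) =
      ∑ n ∈ (range N).filter (fun n => (⌊x n⌋₊).Prime ∧ S ⌊x n⌋₊), w n := by
    intro N
    rw [Finset.sum_filter]
    apply Finset.sum_congr rfl
    intro n _
    rw [hth, hwd]
    by_cases h1 : S ⌊x n⌋₊ <;> by_cases h2 : (⌊x n⌋₊).Prime <;> simp [h1, h2]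
  simp_rw [hW] at hs
  exact cs_main w hw0 (fun n => (⌊x n⌋₊).Prime ∧ S ⌊x n⌋₊) d ρ hd hw1 hs

end TS20

end Pool.Agent.helper616_TS
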