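import Pool.Agent.helper616_TS.Main1
import Pool.Agent.helper616_TS.TS19
import Pool.Agent.helper616_TS.TS20
import Pool.Agent.H373R2.T7.LamMaj

/-!
# Project TS (helper616): primes in progressions along almost all multiples of a polynomial
-/

set_option autoImplicit false

open Finset MeasureTheory Filter Topology

namespace Pool.Agent.helper616_TS

/-- `log m` if `m` is prime, and `0` otherwise. -/
noncomputable def lp (m : ℕ) : ℝ := if m.Prime then Real.log m else 0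

theorem t_PNT (U : ℕ) : ∃ (C : ℝ) (N1 : ℕ), 0 < C ∧ ∀ y : ℕ, N1 ≤ y →
    |∑ n ∈ Icc 1 y, ArithmeticFunction.vonMangoldt n - y| ≤ C * (y / Real.log y ^ U) + 2 :=
  Pool.Agent.H373R2.T7.pnt_lam U

theorem t_SW (U K : ℕ) : ∃ y0 : ℕ, ∀ y : ℕ, y0 ≤ y → ∀ q : ℕ, 1 ≤ q → (q : ℝ) ≤ Real.log y ^ K → ∀ c : ℕ, c.Coprime q →
      |∑ n ∈ (Icc 1 y).filter (fun n => n ≡ c [MOD q]), ArithmeticFunction.vonMangoldt n -
        (∑ n ∈ Icc 1 y, ArithmeticFunction.vonMangoldt n) / (Nat.totient q : ℝ)| ≤ y / Real.log y ^ U :=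
  Pool.Agent.H373R2.T7.sw_lam U K

/-- the error term -/
theorem err_of_adm (f : ℝ → ℝ) (hf : Adm f) (q b : ℕ) (hq : 1 ≤ q) (hb : b.Coprime q) :
    ∀ᵐ α : ℝ, 0 < α → ∀ A : ℕ, ∃ C : ℝ, ∀ N : ℕ, 2 ≤ N →
      |(∑ n ∈ range N, if ⌊α * f n⌋₊ ≡ b [MOD q] then lp ⌊α * f n⌋₊ else 0) - N / (Nat.totient q : ℝ)| ≤
        C * N / (Real.log N) ^ A := by
  obtain ⟨h1, h2⟩ := TS19.pnt_ap lp (fun _ => rfl) t_PNT t_SW q b hq hb
  filter_upwards [sampling_adm f hf _ h2 h1] with α hα h0 A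
  obtain ⟨C, hC⟩ := hα h0 A
  refine ⟨C, fun N hN => ?_⟩
  have h := hC N hN
  rw [sum_sub_distrib, sum_const, card_range, nsmul_eq_mul, mul_one_div] at h
  exact h

/-- from the power of the logarithm to the limit -/
theorem lim_of_err (S : ℕ → ℝ) (ρ C : ℝ) (h : ∀ R : ℕ, 2 ≤ R → |S R - R * ρ| ≤ C * R / (Real.log R) ^ 1) :
    Tendsto (fun R : ℕ => S R / R) atTop (𝓝 ρ) := by
  rw [tendsto_iff_norm_sub_tendsto_zero]
  have h1 : Tendsto (fun R : ℕ => C / Real.log R) atTop (𝓝 0) :=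
    tendsto_const_nhds.div_atTop (Real.tendsto_log_atTop.comp tendsto_natCast_atTop_atTop)
  refine squeeze_zero' (Eventually.of_forall fun _ => norm_nonneg _) ?_ h1
  filter_upwards [eventually_ge_atTop 2] with R hR
  have hR0 : (0 : ℝ) < R := by exact_mod_cast (by omega : 0 < R)
  have h2 := h R hR
  rw [pow_one] at h2
  rw [Real.norm_eq_abs]
  have h3 : S R / R - ρ = (S R - R * ρ) / R := by field_simp
  rw [h3, abs_div, abs_of_pos hR0, div_le_iff₀ hR0]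
  calc |S R - R * ρ| ≤ C * R / Real.log R := h2
    _ = C / Real.log R * R := by ring

/-- one polynomial, one progression -/
theorem poly_ap (P : Polynomial ℝ) (hP : 1 ≤ P.natDegree) (hl : 0 < P.leadingCoeff) (q b : ℕ) (hq : 1 ≤ q)
    (hb : b.Coprime q) :
    ∀ᵐ α : ℝ, 0 < α →
      (∀ A : ℕ, ∃ C : ℝ, ∀ N : ℕ, 2 ≤ N →
        |(∑ n ∈ range N, if ⌊α * P.eval (n : ℝ)⌋₊ ≡ b [MOD q] then lp ⌊α * P.eval (n : ℝ)⌋₊ else 0) -
          N / (Nat.totient q : ℝ)| ≤ C * N / (Real.log N) ^ A) ∧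
      Tendsto (fun N : ℕ => (((range N).filter (fun n : ℕ =>
        (⌊α * P.eval (n : ℝ)⌋₊).Prime ∧ ⌊α * P.eval (n : ℝ)⌋₊ ≡ b [MOD q])).card : ℝ) / (N / (P.natDegree * Real.log N)))
        atTop (𝓝 (1 / (Nat.totient q : ℝ))) := by
  filter_upwards [err_of_adm _ (TS4.adm_poly P hP hl) q b hq hb] with α hα h0
  refine ⟨hα h0, ?_⟩
  obtain ⟨C, hC⟩ := hα h0 1
  obtain ⟨hx, hx0⟩ := TS18.lim_log_poly P hP hl α h0
  refine TS20.count_set lp (fun _ => rfl) (fun m => m ≡ b [MOD q]) (fun n => α * P.eval (n : ℝ)) P.natDegree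
    (1 / (Nat.totient q : ℝ)) (by exact_mod_cast hP) hx hx0 ?_
  refine lim_of_err _ _ C fun R hR => ?_
  have h := hC R hR
  rw [mul_one_div]
  exact h

end Pool.Agent.helper616_TS
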