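import Pool.Agent.helper616_TS.Defs

/-!
# Project TS (helper616): exponential sums over primes
-/

set_option autoImplicit false
set_option maxHeartbeats 4000000

open Finset MeasureTheory Filter Topology

namespace Pool.Agent.helper616_TS

namespace TS17


lemma th_vm (th : ℕ → ℝ) (hth : ∀ n : ℕ, th n = if n.Prime then Real.log n else 0) (n : ℕ) :
    ArithmeticFunction.vonMangoldt n - th n = if ¬ n.Prime then ArithmeticFunction.vonMangoldt n else 0 := by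
  rw [hth n]
  by_cases h : n.Prime
  · simp [h, ArithmeticFunction.vonMangoldt_apply_prime h]
  · simp [h]

lemma diff_bound (th : ℕ → ℝ) (hth : ∀ n : ℕ, th n = if n.Prime then Real.log n else 0)
    (z : ℕ → ℂ) (hz : ∀ n, ‖z n‖ = 1) (J L : ℕ) (hJ : 1 ≤ J) (hL : L ≤ J) :
    ‖∑ n ∈ range L, ((ArithmeticFunction.vonMangoldt (J + n) : ℂ) - (th (J + n) : ℂ)) * z (J + n)‖
      ≤ Chebyshev.psi ((2 * J : ℕ) : ℝ) - Chebyshev.theta ((2 * J : ℕ) : ℝ) := by
  have hnn : ∀ n : ℕ, (0 : ℝ) ≤ (if ¬ n.Prime then ArithmeticFunction.vonMangoldt n else 0) := by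
    intro n
    by_cases h : n.Prime
    · simp [h]
    · simp only [h, not_false_eq_true, if_true]
      exact ArithmeticFunction.vonMangoldt_nonneg
  rw [Chebyshev.psi_sub_theta_eq_sum_not_prime, Nat.floor_natCast, Finset.sum_filter]
  calc ‖∑ n ∈ range L, ((ArithmeticFunction.vonMangoldt (J + n) : ℂ) - (th (J + n) : ℂ)) * z (J + n)‖
      ≤ ∑ n ∈ range L, ‖((ArithmeticFunction.vonMangoldt (J + n) : ℂ) - (th (J + n) : ℂ)) * z (J + n)‖ :=
        norm_sum_le _ _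
    _ = ∑ n ∈ range L, (if ¬ (J + n).Prime then ArithmeticFunction.vonMangoldt (J + n) else 0) := by
        refine Finset.sum_congr rfl fun n _ => ?_
        rw [norm_mul, hz, mul_one, ← Complex.ofReal_sub, th_vm th hth, Complex.norm_real, Real.norm_eq_abs]
        exact abs_of_nonneg (hnn _)
    _ = ∑ n ∈ Finset.Ico J (J + L), (if ¬ n.Prime then ArithmeticFunction.vonMangoldt n else 0) := by
        rw [Finset.sum_Ico_eq_sum_range]
        simp
    _ ≤ ∑ n ∈ Finset.Ioc 0 (2 * J), (if ¬ n.Prime then ArithmeticFunction.vonMangoldt n else 0) := by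
        refine Finset.sum_le_sum_of_subset_of_nonneg ?_ ?_
        · intro n hn
          simp only [Finset.mem_Ico, Finset.mem_Ioc] at hn ⊢
          omega
        · intro n _ _
          exact hnn n

lemma sum_split (F : ℕ → ℂ) (J L : ℕ) (hJ : 1 ≤ J) :
    ∑ n ∈ range L, F (J + n) = ∑ n ∈ Icc 1 (J + L - 1), F n - ∑ n ∈ Icc 1 (J - 1), F n := by
  have h1 : Icc 1 (J + L - 1) = Finset.Ico 1 (J + L) := by
    ext n; simp only [Finset.mem_Ico, Finset.mem_Icc]; omega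
  have h2 : Icc 1 (J - 1) = Finset.Ico 1 J := by
    ext n; simp only [Finset.mem_Ico, Finset.mem_Icc]; omega
  rw [h1, h2, ← Finset.sum_Ico_consecutive F hJ (Nat.le_add_right J L), add_sub_cancel_left,
    Finset.sum_Ico_eq_sum_range]
  simp

lemma log_pow_sqrt (A : ℕ) (D : ℝ) (hD : 0 < D) :
    ∀ᶠ J : ℕ in atTop, Real.log (J : ℝ) ^ A * D ≤ √(J : ℝ) := by
  have h1 : (fun x : ℝ => Real.log x ^ (A : ℝ)) =o[atTop] fun x => x ^ (1 / 2 : ℝ) :=
    isLittleO_log_rpow_rpow_atTop A (by norm_num)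
  have h2 := (h1.bound (c := 1 / D) (by positivity))
  have h3 := (tendsto_natCast_atTop_atTop (R := ℝ)).eventually h2
  filter_upwards [h3, eventually_ge_atTop 1] with J hJ hJ1
  have hJ0 : (1 : ℝ) ≤ J := by exact_mod_cast hJ1
  have hl : 0 ≤ Real.log (J : ℝ) := Real.log_nonneg hJ0
  rw [Real.rpow_natCast, Real.norm_eq_abs, Real.norm_eq_abs, abs_of_nonneg (pow_nonneg hl A),
    abs_of_nonneg (by positivity), ← Real.sqrt_eq_rpow] at hJ
  calc Real.log (J : ℝ) ^ A * D ≤ (1 / D * √(J : ℝ)) * D := by gcongr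
    _ = √(J : ℝ) := by field_simp

theorem expB_th (th : ℕ → ℝ) (hth : ∀ n : ℕ, th n = if n.Prime then Real.log n else 0) (c : ℝ) (hc : 0 < c)
    (hP : ∀ A K : ℕ, ∃ (K₂ : ℕ) (L₀ : ℝ), 2 ≤ L₀ ∧ ∀ L : ℝ, L₀ ≤ L → ∀ t : ℝ, L ^ K₂ ≤ |t| → |t| ≤ Real.exp (A * L) →
      ∀ N : ℕ, Real.exp (L / (A + 1)) ≤ N → (N : ℝ) ≤ Real.exp L →
      ‖∑ n ∈ Icc 1 N, (ArithmeticFunction.vonMangoldt n : ℂ) * Complex.exp (((t * Real.log n : ℝ) : ℂ) * Complex.I)‖ ≤ N / L ^ K) :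
    ExpB th (fun n => (n : ℝ) ^ c) := by
  intro M A
  obtain ⟨K₂, L₀, hL₀, hS⟩ := hP (M + 1) A
  obtain ⟨C₁, hC₁⟩ := Chebyshev.psi_sub_theta_le_mul_sqrt
  -- make the constant positive
  set C₀ : ℝ := max C₁ 1 with hC₀def
  have hC₀pos : 0 < C₀ := lt_of_lt_of_le one_pos (le_max_right _ _)
  have hC₀ : ∀ x : ℝ, Chebyshev.psi x - Chebyshev.theta x ≤ C₀ * √x := fun x =>
    (hC₁ x).trans (mul_le_mul_of_nonneg_right (le_max_left _ _) (Real.sqrt_nonneg _))
  refine ⟨K₂ + 1, 5, ?_⟩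
  -- eventual conditions
  have htJ : Tendsto (fun J : ℕ => (J : ℝ)) atTop atTop := tendsto_natCast_atTop_atTop
  have hlogJ : Tendsto (fun J : ℕ => Real.log (J : ℝ)) atTop atTop := Real.tendsto_log_atTop.comp htJ
  have e1 : ∀ᶠ J : ℕ in atTop, 4 ≤ J := eventually_ge_atTop 4
  have e2 : ∀ᶠ J : ℕ in atTop, 2 * Real.pi * c ≤ (J : ℝ) := htJ.eventually_ge_atTop _
  have e3 : ∀ᶠ J : ℕ in atTop, L₀ ≤ Real.log (J : ℝ) := hlogJ.eventually_ge_atTop _
  have e4 : ∀ᶠ J : ℕ in atTop, 2 ^ K₂ / (2 * Real.pi * c) ≤ Real.log (J : ℝ) := hlogJ.eventually_ge_atTop _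
  have e5 := log_pow_sqrt A (C₀ * √2) (by positivity)
  filter_upwards [e1, e2, e3, e4, e5] with J h1 h2 h3 h4 h5 L hL ξ hξ1 hξ2
  have hJR : (4 : ℝ) ≤ J := by exact_mod_cast h1
  have hJ0 : (0 : ℝ) < J := by linarith
  have hlogpos : 0 < Real.log (J : ℝ) := by linarith
  have hpc : 0 < 2 * Real.pi * c := by positivity
  set ℓ : ℝ := Real.log (2 * J) with hℓ
  have hexpℓ : Real.exp ℓ = 2 * J := Real.exp_log (by positivity)
  have hℓ1 : Real.log (J : ℝ) ≤ ℓ := Real.log_le_log hJ0 (by linarith)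
  have hℓ2 : ℓ ≤ 2 * Real.log (J : ℝ) := by
    rw [hℓ, Real.log_mul (by norm_num) hJ0.ne']
    have : Real.log 2 ≤ Real.log (J : ℝ) := Real.log_le_log (by norm_num) (by linarith)
    linarith
  have hℓ0 : 0 < ℓ := by linarith
  set t : ℝ := 2 * Real.pi * c * ξ with ht
  have htabs : |t| = 2 * Real.pi * c * |ξ| := by rw [ht, abs_mul, abs_of_pos hpc]
  have ht1 : ℓ ^ K₂ ≤ |t| := by
    rw [htabs]
    calc ℓ ^ K₂ ≤ (2 * Real.log (J : ℝ)) ^ K₂ := by gcongr
      _ = 2 ^ K₂ * Real.log (J : ℝ) ^ K₂ := by rw [mul_pow]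
      _ ≤ (2 * Real.pi * c * Real.log (J : ℝ)) * Real.log (J : ℝ) ^ K₂ := by
          gcongr
          rw [div_le_iff₀ hpc] at h4
          linarith
      _ = 2 * Real.pi * c * Real.log (J : ℝ) ^ (K₂ + 1) := by ring
      _ ≤ 2 * Real.pi * c * |ξ| := by gcongr
  have ht2 : |t| ≤ Real.exp (((M + 1 : ℕ) : ℝ) * ℓ) := by
    rw [htabs, Real.exp_nat_mul, hexpℓ]
    calc 2 * Real.pi * c * |ξ| ≤ J * (J : ℝ) ^ M := by gcongr
      _ = (J : ℝ) ^ (M + 1) := by ring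
      _ ≤ (2 * J : ℝ) ^ (M + 1) := by gcongr; linarith
  have hSN : ∀ N : ℕ, J - 1 ≤ N → N ≤ 2 * J →
      ‖∑ n ∈ Icc 1 N, (ArithmeticFunction.vonMangoldt n : ℂ) * Complex.exp (((t * Real.log n : ℝ) : ℂ) * Complex.I)‖
        ≤ 2 * (J / Real.log J ^ A) := by
    intro N hN1 hN2
    have hN1' : (J : ℝ) - 1 ≤ N := by
      have : J ≤ N + 1 := by omega
      have : (J : ℝ) ≤ N + 1 := by exact_mod_cast this
      linarith
    have hN2' : (N : ℝ) ≤ 2 * J := by exact_mod_cast hN2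
    have hA : Real.exp (ℓ / (((M + 1 : ℕ) : ℝ) + 1)) ≤ N := by
      have hb : ℓ / (((M + 1 : ℕ) : ℝ) + 1) ≤ ℓ / 2 := by
        apply div_le_div_of_nonneg_left hℓ0.le (by norm_num)
        push_cast
        have : (0 : ℝ) ≤ M := Nat.cast_nonneg M
        linarith
      have hc' : Real.exp (ℓ / 2) ≤ J - 1 := by
        have hsq : Real.exp (ℓ / 2) ^ 2 = 2 * J := by
          rw [← Real.exp_nat_mul, ← hexpℓ]
          congr 1
          push_cast
          ring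
        have : Real.exp (ℓ / 2) ^ 2 ≤ ((J : ℝ) - 1) ^ 2 := by
          rw [hsq]; nlinarith
        exact le_of_sq_le_sq this (by linarith)
      calc Real.exp (ℓ / (((M + 1 : ℕ) : ℝ) + 1)) ≤ Real.exp (ℓ / 2) := Real.exp_le_exp.mpr hb
        _ ≤ J - 1 := hc'
        _ ≤ N := hN1'
    have hB : (N : ℝ) ≤ Real.exp ℓ := by rw [hexpℓ]; exact hN2'
    refine (hS ℓ (h3.trans hℓ1) t ht1 ht2 N hA hB).trans ?_
    calc (N : ℝ) / ℓ ^ A ≤ (2 * J) / Real.log J ^ A := by gcongr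
      _ = 2 * (J / Real.log J ^ A) := by ring
  -- the weighted sum
  have hkey : ∑ n ∈ range L, (th (J + n) : ℂ) * e (ξ * Real.log (((J + n : ℕ) : ℝ) ^ c))
      = (∑ n ∈ Icc 1 (J + L - 1), (ArithmeticFunction.vonMangoldt n : ℂ) * Complex.exp (((t * Real.log n : ℝ) : ℂ) * Complex.I)
        - ∑ n ∈ Icc 1 (J - 1), (ArithmeticFunction.vonMangoldt n : ℂ) * Complex.exp (((t * Real.log n : ℝ) : ℂ) * Complex.I))
        - ∑ n ∈ range L, ((ArithmeticFunction.vonMangoldt (J + n) : ℂ) - (th (J + n) : ℂ)) *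
            (fun m : ℕ => Complex.exp (((t * Real.log m : ℝ) : ℂ) * Complex.I)) (J + n) := by
    rw [← sum_split (fun n : ℕ => (ArithmeticFunction.vonMangoldt n : ℂ) * Complex.exp (((t * Real.log n : ℝ) : ℂ) * Complex.I)) J L (by omega),
      ← Finset.sum_sub_distrib]
    refine Finset.sum_congr rfl fun n _ => ?_
    have hpos : (0 : ℝ) < ((J + n : ℕ) : ℝ) := by
      have : 0 < J + n := by omega
      exact_mod_cast this
    have : e (ξ * Real.log (((J + n : ℕ) : ℝ) ^ c)) = Complex.exp (((t * Real.log ((J + n : ℕ) : ℝ) : ℝ) : ℂ) * Complex.I) := by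
      unfold e
      rw [Real.log_rpow hpos]
      congr 3
      rw [ht]; ring
    rw [this]
    ring
  show ‖∑ n ∈ range L, (th (J + n) : ℂ) * e (ξ * Real.log (((J + n : ℕ) : ℝ) ^ c))‖ ≤ 5 * J / Real.log J ^ A
  rw [hkey]
  have hd := diff_bound th hth (fun m : ℕ => Complex.exp (((t * Real.log m : ℝ) : ℂ) * Complex.I))
    (fun n => Complex.norm_exp_ofReal_mul_I _) J L (by omega) hL
  have hd2 : Chebyshev.psi ((2 * J : ℕ) : ℝ) - Chebyshev.theta ((2 * J : ℕ) : ℝ) ≤ J / Real.log J ^ A := by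
    refine (hC₀ _).trans ?_
    rw [le_div_iff₀ (by positivity)]
    push_cast
    rw [Real.sqrt_mul (by norm_num)]
    calc C₀ * (√2 * √(J : ℝ)) * Real.log J ^ A = (Real.log J ^ A * (C₀ * √2)) * √(J : ℝ) := by ring
      _ ≤ √(J : ℝ) * √(J : ℝ) := by gcongr
      _ = J := Real.mul_self_sqrt hJ0.le
  have hN1 := hSN (J + L - 1) (by omega) (by omega)
  have hN2 := hSN (J - 1) le_rfl (by omega)
  refine (norm_sub_le _ _).trans ?_
  refine (add_le_add ((norm_sub_le _ _).trans (add_le_add hN1 hN2)) (hd.trans hd2)).trans ?_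
  apply le_of_eq
  ring

end TS17

end Pool.Agent.helper616_TS
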