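import Pool.Agent.helper616_TS.Defs

/-!
# Project TS (helper616): telescoping
-/

set_option autoImplicit false
set_option maxHeartbeats 4000000

open Finset MeasureTheory Filter Topology

namespace Pool.Agent.helper616_TS

namespace TU10


theorem telescope_id (k : ℕ) (x : Fin k → ℝ) : ∏ j, x j - 1 =
    ∑ m : Fin k, ∏ j, (if j < m then x j else if j = m then x j - 1 else 1) := by
  induction k with
  | zero => simp
  | succ k ih =>
    rw [Fin.prod_univ_castSucc, Fin.sum_univ_castSucc]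
    have h1 : ∀ m : Fin k, ∏ j, (if j < m.castSucc then x j else
        if j = m.castSucc then x j - 1 else 1) =
        ∏ j, (if j < m then x j.castSucc else if j = m then x j.castSucc - 1 else 1) := by
      intro m
      rw [Fin.prod_univ_castSucc]
      have h2 : (if Fin.last k < m.castSucc then x (Fin.last k) else
          if Fin.last k = m.castSucc then x (Fin.last k) - 1 else 1) = (1 : ℝ) := by
        rw [if_neg (not_lt.2 (Fin.castSucc_lt_last m).le), if_neg (Fin.castSucc_lt_last m).ne']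
      rw [h2, mul_one]
      refine Finset.prod_congr rfl fun j _ => ?_
      simp only [Fin.castSucc_lt_castSucc_iff, Fin.castSucc_inj]
    have h3 : ∏ j, (if j < Fin.last k then x j else if j = Fin.last k then x j - 1 else 1) =
        (∏ j : Fin k, x j.castSucc) * (x (Fin.last k) - 1) := by
      rw [Fin.prod_univ_castSucc]
      congr 1
      · refine Finset.prod_congr rfl fun j _ => ?_
        rw [if_pos (Fin.castSucc_lt_last j)]
      · rw [if_neg (lt_irrefl _), if_pos rfl]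
    rw [Finset.sum_congr rfl fun m _ => h1 m, h3, ← ih fun j => x j.castSucc]
    ring

theorem logBdd_one : LogBdd (fun _ => 1) := ⟨1, 0, fun n => by simp⟩

theorem logBdd_sub_one {g : ℕ → ℝ} (h : LogBdd g) : LogBdd (fun n => g n - 1) := by
  obtain ⟨C, k, hC⟩ := h
  have hl2 : 0 < Real.log 2 := Real.log_pos (by norm_num)
  refine ⟨C + 1 / (Real.log 2) ^ k, k, fun n => ?_⟩
  have h1 : Real.log 2 ≤ Real.log (n + 2) :=
    Real.log_le_log (by norm_num) (by linarith [(Nat.cast_nonneg n : (0 : ℝ) ≤ n)])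
  have h2 : (Real.log 2) ^ k ≤ (Real.log (n + 2)) ^ k := pow_le_pow_left₀ hl2.le h1 k
  have h3 : 1 ≤ 1 / (Real.log 2) ^ k * (Real.log (n + 2)) ^ k := by
    rw [one_div, ← div_eq_inv_mul, le_div_iff₀ (by positivity), one_mul]
    exact h2
  have h4 := hC n
  have h5 := abs_sub (g n) 1
  rw [abs_one] at h5
  rw [add_mul]
  linarith

theorem telescope (hSK : ∀ (k : ℕ) (w : ℕ → ℝ) (_ : LogBdd w) (_ : ExpB w (fun n => (n : ℝ))) (c : Fin k → ℝ) (_ : ∀ j, 0 < c j)
    (h : Fin k → ℕ → ℝ) (_ : ∀ j, LogBdd (h j)) (i₀ : Fin k) (_ : MeanZero (h i₀)) (_ : TwistSmall (h i₀)),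
    ∀ᵐ α : Fin k → ℝ, (∀ j, 0 < α j) → ∀ A : ℕ, ∃ C : ℝ, ∀ N : ℕ, 2 ≤ N →
      |∑ n ∈ range N, w n * ∏ j, h j ⌊α j * (n : ℝ) ^ (c j)⌋₊| ≤ C * N / (Real.log N) ^ A)
    (k : ℕ) (w : ℕ → ℝ) (hw : LogBdd w) (hE : ExpB w (fun n => (n : ℝ))) (c : Fin k → ℝ) (hc : ∀ j, 0 < c j)
    (g : Fin k → ℕ → ℝ) (hb : ∀ j, LogBdd (g j)) (hm : ∀ j, MeanZero (fun m => g j m - 1))
    (ht : ∀ j, TwistSmall (fun m => g j m - 1)) (hw1 : MeanZero (fun n => w n - 1)) :
    ∀ᵐ α : Fin k → ℝ, (∀ j, 0 < α j) → ∀ A : ℕ, ∃ C : ℝ, ∀ N : ℕ, 2 ≤ N →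
      |(∑ n ∈ range N, w n * ∏ j, g j ⌊α j * (n : ℝ) ^ (c j)⌋₊) - N| ≤ C * N / (Real.log N) ^ A := by
  classical
  let H : Fin k → Fin k → ℕ → ℝ := fun m j y =>
    if j < m then g j y else if j = m then g j y - 1 else 1
  have hHb : ∀ m j, LogBdd (H m j) := by
    intro m j
    by_cases h1 : j < m
    · have : H m j = g j := by
        funext y
        simp only [H]
        rw [if_pos h1]
      rw [this]
      exact hb j
    · by_cases h2 : j = m
      · have : H m j = fun y => g j y - 1 := by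
          funext y
          simp only [H]
          rw [if_neg h1, if_pos h2]
        rw [this]
        exact logBdd_sub_one (hb j)
      · have : H m j = fun _ => 1 := by
          funext y
          simp only [H]
          rw [if_neg h1, if_neg h2]
        rw [this]
        exact logBdd_one
  have hHm : ∀ m, H m m = fun y => g m y - 1 := by
    intro m
    funext y
    simp only [H]
    rw [if_neg (lt_irrefl _)]
    simp
  have hall : ∀ᵐ α : Fin k → ℝ, ∀ m : Fin k, (∀ j, 0 < α j) → ∀ A : ℕ, ∃ C : ℝ, ∀ N : ℕ, 2 ≤ N →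
      |∑ n ∈ range N, w n * ∏ j, H m j ⌊α j * (n : ℝ) ^ (c j)⌋₊| ≤ C * N / (Real.log N) ^ A := by
    rw [ae_all_iff]
    intro m
    exact hSK k w hw hE c hc (H m) (hHb m) m (by rw [hHm]; exact hm m) (by rw [hHm]; exact ht m)
  filter_upwards [hall] with α hα hpos A
  obtain ⟨C0, hC0⟩ := hw1 A
  have hex : ∀ m : Fin k, ∃ C : ℝ, ∀ N : ℕ, 2 ≤ N →
      |∑ n ∈ range N, w n * ∏ j, H m j ⌊α j * (n : ℝ) ^ (c j)⌋₊| ≤ C * N / (Real.log N) ^ A :=
    fun m => hα m hpos A
  choose C hC using hex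
  refine ⟨C0 + ∑ m, C m, fun N hN => ?_⟩
  have hid : (∑ n ∈ range N, w n * ∏ j, g j ⌊α j * (n : ℝ) ^ (c j)⌋₊) - N =
      (∑ n ∈ range N, (w n - 1)) +
        ∑ m, ∑ n ∈ range N, w n * ∏ j, H m j ⌊α j * (n : ℝ) ^ (c j)⌋₊ := by
    rw [Finset.sum_comm]
    have h1 : (N : ℝ) = ∑ n ∈ range N, (1 : ℝ) := by simp
    rw [h1, ← Finset.sum_sub_distrib, ← Finset.sum_add_distrib]
    refine Finset.sum_congr rfl fun n _ => ?_
    rw [← Finset.mul_sum]
    have h2 := telescope_id k (fun j => g j ⌊α j * (n : ℝ) ^ (c j)⌋₊)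
    simp only [H]
    rw [← h2]
    ring
  rw [hid]
  refine (abs_add_le _ _).trans ?_
  have h3 : |∑ m, ∑ n ∈ range N, w n * ∏ j, H m j ⌊α j * (n : ℝ) ^ (c j)⌋₊| ≤
      ∑ m, C m * N / (Real.log N) ^ A :=
    (Finset.abs_sum_le_sum_abs _ _).trans (Finset.sum_le_sum fun m _ => hC m N hN)
  have h4 : ∑ m, C m * N / (Real.log N) ^ A = (∑ m, C m) * N / (Real.log N) ^ A := by
    rw [Finset.sum_mul, Finset.sum_div]
  have h5 : (C0 + ∑ m, C m) * N / (Real.log N) ^ A =
      C0 * N / (Real.log N) ^ A + (∑ m, C m) * N / (Real.log N) ^ A := by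
    ring
  rw [h5, ← h4]
  exact add_le_add (hC0 N hN) h3

end TU10

end Pool.Agent.helper616_TS
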