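import Pool.Agent.helper616_TS.Defs

/-!
# Project TS (helper616): sums of `m ^ (i t)`
-/

set_option autoImplicit false
set_option maxHeartbeats 4000000

open Finset MeasureTheory Filter Topology

namespace Pool.Agent.helper616_TS

namespace TU11


theorem twist_one (hV : ExpB (fun _ => 1) (fun n => (n : ℝ))) (M A : ℕ) : ∃ T : ℕ, ∃ C : ℝ, ∀ᶠ N : ℕ in atTop, ∀ t : ℝ,
    (Real.log N) ^ T ≤ |t| → |t| ≤ (N : ℝ) ^ M →
    ‖∑ m ∈ range N, Complex.exp (((t * Real.log m : ℝ) : ℂ) * Complex.I)‖ ≤ C * N / (Real.log N) ^ A := by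
  obtain ⟨T0, C0, h0⟩ := hV (2 * M) A
  refine ⟨T0 + 1, |C0| * 2 ^ A + 1, ?_⟩
  rw [eventually_atTop] at h0
  obtain ⟨J0, h0⟩ := h0
  have hcast : Tendsto (fun N : ℕ => (N : ℝ)) atTop atTop := tendsto_natCast_atTop_atTop
  have e1 : ∀ᶠ N : ℕ in atTop, (J0 : ℝ) ≤ √(N : ℝ) :=
    (Real.tendsto_sqrt_atTop.comp hcast).eventually (eventually_ge_atTop _)
  have e2 : ∀ᶠ N : ℕ in atTop, 2 * Real.pi ≤ Real.log (N : ℝ) :=
    (Real.tendsto_log_atTop.comp hcast).eventually (eventually_ge_atTop _)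
  have e3 : ∀ᶠ N : ℕ in atTop, (Real.log (N : ℝ)) ^ (2 * A) ≤ (1 / 25) * N := by
    have h1 := (Real.isLittleO_pow_log_id_atTop (n := 2 * A)).def (c := 1 / 25) (by norm_num)
    have h2 := hcast.eventually h1
    filter_upwards [h2] with N hN
    simp only [id, Real.norm_eq_abs] at hN
    have h3 : |(N : ℝ)| = N := abs_of_nonneg (Nat.cast_nonneg N)
    rw [h3] at hN
    exact (le_abs_self _).trans hN
  have e4 : ∀ᶠ N : ℕ in atTop, 1 ≤ N := eventually_ge_atTop 1
  filter_upwards [e1, e2, e3, e4] with N h1 h2 h3 h4 t ht1 ht2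
  have hN1 : (1 : ℝ) ≤ N := by exact_mod_cast h4
  have hN0 : (0 : ℝ) < N := by linarith
  have hpi := Real.pi_gt_three
  have hlog : (0 : ℝ) < Real.log N := by linarith
  have hs : (0 : ℝ) < √(N : ℝ) := Real.sqrt_pos.2 hN0
  have hs1 : (1 : ℝ) ≤ √(N : ℝ) := by
    rw [Real.one_le_sqrt]
    exact hN1
  have hss : √(N : ℝ) * √(N : ℝ) = N := Real.mul_self_sqrt hN0.le
  have hlA : (0 : ℝ) < (Real.log N) ^ A := pow_pos hlog A
  set S : ℕ → ℂ := fun n => ∑ m ∈ range n, Complex.exp (((t * Real.log m : ℝ) : ℂ) * Complex.I)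
    with hS
  have hterm : ∀ m : ℕ, ‖Complex.exp (((t * Real.log m : ℝ) : ℂ) * Complex.I)‖ = 1 := fun m =>
    Complex.norm_exp_ofReal_mul_I _
  have hS1 : ∀ n, ‖S n‖ ≤ n := by
    intro n
    calc ‖S n‖ ≤ ∑ m ∈ range n, ‖Complex.exp (((t * Real.log m : ℝ) : ℂ) * Complex.I)‖ :=
          norm_sum_le _ _
      _ = n := by
          rw [Finset.sum_congr rfl (fun m _ => hterm m)]
          simp
  have hblock : ∀ J : ℕ, J ≤ N → √(N : ℝ) ≤ J →
      ‖∑ n ∈ range J, Complex.exp (((t * Real.log ((J + n : ℕ) : ℝ) : ℝ) : ℂ) * Complex.I)‖ ≤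
        |C0| * 2 ^ A / (Real.log N) ^ A * J := by
    intro J hJN hJ
    have hJ0 : (0 : ℝ) < J := by linarith
    have hJJ : J0 ≤ J := by exact_mod_cast h1.trans hJ
    have hJNr : (J : ℝ) ≤ N := by exact_mod_cast hJN
    have hlJ : Real.log J ≤ Real.log N := Real.log_le_log hJ0 hJNr
    have hlJ2 : Real.log N / 2 ≤ Real.log J := by
      rw [← Real.log_sqrt hN0.le]
      exact Real.log_le_log hs hJ
    have hlJ0 : 0 < Real.log J := by linarith
    have htt : (0 : ℝ) ≤ |t| := abs_nonneg t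
    have habs : |t / (2 * Real.pi)| = |t| / (2 * Real.pi) := by
      rw [abs_div, abs_of_pos (by positivity : (0 : ℝ) < 2 * Real.pi)]
    have hc1 : (Real.log J) ^ T0 ≤ |t / (2 * Real.pi)| := by
      rw [habs, le_div_iff₀ (by positivity)]
      calc (Real.log J) ^ T0 * (2 * Real.pi) ≤ (Real.log N) ^ T0 * Real.log N := by
            apply mul_le_mul _ h2 (by positivity) (by positivity)
            exact pow_le_pow_left₀ hlJ0.le hlJ T0
        _ = (Real.log N) ^ (T0 + 1) := by rw [pow_succ]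
        _ ≤ |t| := ht1
    have hc2 : |t / (2 * Real.pi)| ≤ (J : ℝ) ^ (2 * M) := by
      rw [habs]
      calc |t| / (2 * Real.pi) ≤ |t| := div_le_self htt (by linarith)
        _ ≤ (N : ℝ) ^ M := ht2
        _ ≤ ((J : ℝ) ^ 2) ^ M := by
            apply pow_le_pow_left₀ hN0.le
            rw [← hss, sq]
            exact mul_self_le_mul_self hs.le hJ
        _ = (J : ℝ) ^ (2 * M) := by rw [← pow_mul]
    have hh := h0 J hJJ J le_rfl (t / (2 * Real.pi)) hc1 hc2
    have hsum : ∑ n ∈ range J, Complex.exp (((t * Real.log ((J + n : ℕ) : ℝ) : ℝ) : ℂ) * Complex.I)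
        = ∑ n ∈ range J, (((fun _ => 1 : ℕ → ℝ) (J + n) : ℝ) : ℂ) *
          e (t / (2 * Real.pi) * Real.log ((fun n : ℕ => (n : ℝ)) (J + n))) := by
      apply Finset.sum_congr rfl
      intro n _
      simp only [Complex.ofReal_one, one_mul]
      unfold e
      congr 3
      field_simp
    rw [hsum]
    refine hh.trans ?_
    have hlJA : (0 : ℝ) < (Real.log J) ^ A := pow_pos hlJ0 A
    have h5 : C0 * J / (Real.log J) ^ A ≤ |C0| * J / (Real.log J) ^ A := by
      apply div_le_div_of_nonneg_right _ hlJA.le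
      exact mul_le_mul_of_nonneg_right (le_abs_self _) hJ0.le
    refine h5.trans ?_
    have h6 : (Real.log N) ^ A ≤ 2 ^ A * (Real.log J) ^ A := by
      rw [← mul_pow]
      apply pow_le_pow_left₀ hlog.le
      linarith
    have h7 : |C0| * 2 ^ A / (Real.log N) ^ A * J = (|C0| * J) * 2 ^ A / (Real.log N) ^ A := by ring
    rw [h7, div_le_div_iff₀ hlJA hlA]
    have h8 : 0 ≤ |C0| * (J : ℝ) := mul_nonneg (abs_nonneg _) hJ0.le
    calc |C0| * J * (Real.log N) ^ A ≤ |C0| * J * (2 ^ A * (Real.log J) ^ A) :=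
          mul_le_mul_of_nonneg_left h6 h8
      _ = |C0| * J * 2 ^ A * (Real.log J) ^ A := by ring
  set B : ℝ := |C0| * 2 ^ A / (Real.log N) ^ A with hB
  have hB0 : 0 ≤ B := by
    rw [hB]
    exact div_nonneg (mul_nonneg (abs_nonneg _) (by positivity)) hlA.le
  have hd0 : 0 ≤ 1 / √(N : ℝ) := by positivity
  have key : ∀ n : ℕ, n ≤ N → ‖S n‖ ≤ 2 * √(N : ℝ) + 2 + (B + 1 / √(N : ℝ)) * n := by
    intro n
    induction n using Nat.strong_induction_on with
    | _ n ih =>
      intro hn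
      have hn0 : (0 : ℝ) ≤ n := Nat.cast_nonneg n
      by_cases hc : √(N : ℝ) ≤ ((n / 2 : ℕ) : ℝ)
      · have hpos : 0 < n / 2 := by
          have : (0 : ℝ) < ((n / 2 : ℕ) : ℝ) := by linarith
          exact_mod_cast this
        have hlt : n / 2 < n := by omega
        have hb := hblock (n / 2) (by omega) hc
        have hi := ih (n / 2) hlt (by omega)
        set J := n / 2 with hJdef
        have hcase : n = J + J ∨ n = J + J + 1 := by omega
        have hdbl : S (J + J) = S J + ∑ n ∈ range J,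
            Complex.exp (((t * Real.log ((J + n : ℕ) : ℝ) : ℝ) : ℂ) * Complex.I) := by
          simp only [hS]
          rw [Finset.sum_range_add]
        have hn2 : ‖S n‖ ≤ ‖S (J + J)‖ + 1 := by
          rcases hcase with h | h
          · rw [h]
            linarith
          · rw [h]
            have : S (J + J + 1) = S (J + J) +
                Complex.exp (((t * Real.log ((J + J : ℕ) : ℝ) : ℝ) : ℂ) * Complex.I) := by
              simp only [hS]
              rw [Finset.sum_range_succ]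
            rw [this]
            refine (norm_add_le _ _).trans ?_
            rw [hterm]
        have hn3 : ‖S (J + J)‖ ≤ ‖S J‖ + B * J := by
          rw [hdbl]
          refine (norm_add_le _ _).trans ?_
          linarith
        have hJn : (J : ℝ) + J ≤ n := by
          have : J + J ≤ n := by omega
          exact_mod_cast this
        have h1J : 1 ≤ 1 / √(N : ℝ) * J := by
          rw [one_div, ← div_eq_inv_mul, one_le_div hs]
          exact hc
        calc ‖S n‖ ≤ ‖S J‖ + B * J + 1 := by linarith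
          _ ≤ 2 * √(N : ℝ) + 2 + (B + 1 / √(N : ℝ)) * J + B * J + 1 / √(N : ℝ) * J := by linarith
          _ = 2 * √(N : ℝ) + 2 + (B + 1 / √(N : ℝ)) * (J + J) := by ring
          _ ≤ 2 * √(N : ℝ) + 2 + (B + 1 / √(N : ℝ)) * n := by
              have := mul_le_mul_of_nonneg_left hJn (add_nonneg hB0 hd0)
              linarith
      · push Not at hc
        have h9 : (n : ℝ) ≤ 2 * ((n / 2 : ℕ) : ℝ) + 1 := by
          have : n ≤ 2 * (n / 2) + 1 := by omega
          exact_mod_cast this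
        have h10 := hS1 n
        have h11 : 0 ≤ (B + 1 / √(N : ℝ)) * n := mul_nonneg (add_nonneg hB0 hd0) hn0
        linarith
  have hfin := key N le_rfl
  have hrew : S N = ∑ m ∈ range N, Complex.exp (((t * Real.log m : ℝ) : ℂ) * Complex.I) := rfl
  rw [← hrew]
  refine hfin.trans ?_
  have h12 : 1 / √(N : ℝ) * N = √(N : ℝ) := by
    rw [one_div, ← div_eq_inv_mul]
    rw [div_eq_iff hs.ne']
    exact hss.symm
  have h13 : (Real.log N) ^ A ≤ (1 / 5) * √(N : ℝ) := by
    apply (pow_le_pow_iff_left₀ (by positivity) (by positivity) (two_ne_zero)).1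
    have : ((1 / 5) * √(N : ℝ)) ^ 2 = (1 / 25) * N := by
      rw [mul_pow, Real.sq_sqrt hN0.le]
      norm_num
    rw [this, ← pow_mul, mul_comm A 2]
    exact h3
  have h14 : 5 * √(N : ℝ) ≤ N / (Real.log N) ^ A := by
    rw [le_div_iff₀ hlA]
    calc 5 * √(N : ℝ) * (Real.log N) ^ A ≤ 5 * √(N : ℝ) * ((1 / 5) * √(N : ℝ)) :=
          mul_le_mul_of_nonneg_left h13 (by positivity)
      _ = √(N : ℝ) * √(N : ℝ) := by ring
      _ = N := hss
  have h15 : (|C0| * 2 ^ A + 1) * N / (Real.log N) ^ A = B * N + N / (Real.log N) ^ A := by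
    rw [hB]
    ring
  rw [h15]
  have h16 : (B + 1 / √(N : ℝ)) * N = B * N + √(N : ℝ) := by
    rw [add_mul, h12]
  rw [h16]
  linarith

end TU11

end Pool.Agent.helper616_TS
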