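import Pool.Agent.helper616_TS.Defs

/-!
# Project TS (helper616): twisted sums over primes
-/

set_option autoImplicit false
set_option maxHeartbeats 4000000

open Finset MeasureTheory Filter Topology

namespace Pool.Agent.helper616_TS

namespace TU12


theorem tst_close (th : ℕ → ℝ) (hth : ∀ n : ℕ, th n = if n.Prime then Real.log n else 0) (N : ℕ) (hN : 1 ≤ N) :
    ∑ m ∈ Icc 1 N, |ArithmeticFunction.vonMangoldt m - th m| ≤ 2 * Real.sqrt N * Real.log N := by
  have h := Chebyshev.psi_sub_theta_le (x := N) (by exact_mod_cast hN)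
  refine le_trans (le_of_eq ?_) h
  rw [Chebyshev.psi, Chebyshev.theta, Finset.sum_filter, ← Finset.sum_sub_distrib, Nat.floor_natCast]
  have h1 : Icc 1 N = Ioc 0 N := by ext; simp; omega
  rw [h1]
  refine Finset.sum_congr rfl fun n hn => ?_
  rw [hth]
  split_ifs with h
  · rw [ArithmeticFunction.vonMangoldt_apply_prime h]; simp
  · rw [sub_zero, abs_of_nonneg ArithmeticFunction.vonMangoldt_nonneg]

theorem tst_range (f : ℕ → ℂ) (h0 : f 0 = 0) (N : ℕ) :
    ∑ m ∈ range N, f m = ∑ m ∈ Icc 1 N, f m - f N := by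
  have h1 := Finset.sum_range_succ f N
  have h2 : ∑ m ∈ range (N + 1), f m = ∑ m ∈ Icc 1 N, f m := by
    rw [Finset.range_eq_Ico, Finset.sum_eq_sum_Ico_succ_bot (Nat.succ_pos N), h0, zero_add]
    rfl
  rw [← h2, h1]; ring

theorem twistSmall_th (th : ℕ → ℝ) (hth : ∀ n : ℕ, th n = if n.Prime then Real.log n else 0)
    (hV : ∀ M A : ℕ, ∃ T : ℕ, ∃ C : ℝ, ∀ᶠ N : ℕ in atTop, ∀ t : ℝ, (Real.log N) ^ T ≤ |t| → |t| ≤ (N : ℝ) ^ M →
      ‖∑ m ∈ range N, Complex.exp (((t * Real.log m : ℝ) : ℂ) * Complex.I)‖ ≤ C * N / (Real.log N) ^ A)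
    (hP : ∀ A K : ℕ, ∃ (K₂ : ℕ) (L₀ : ℝ), 2 ≤ L₀ ∧ ∀ L : ℝ, L₀ ≤ L → ∀ t : ℝ, L ^ K₂ ≤ |t| → |t| ≤ Real.exp (A * L) →
      ∀ N : ℕ, Real.exp (L / (A + 1)) ≤ N → (N : ℝ) ≤ Real.exp L →
      ‖∑ n ∈ Icc 1 N, (ArithmeticFunction.vonMangoldt n : ℂ) * Complex.exp (((t * Real.log n : ℝ) : ℂ) * Complex.I)‖ ≤ N / L ^ K) :
    TwistSmall (fun m => th m - 1) := by
  intro M A
  obtain ⟨T1, C1, hT1⟩ := hV M A
  obtain ⟨K2, L0, hL0, hK2⟩ := hP M A
  refine ⟨max T1 K2, C1 + 2, ?_⟩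
  have hlit : ∀ᶠ N : ℕ in atTop, 3 * (Real.log N) ^ (A + 1) ≤ Real.sqrt N := by
    have h := (isLittleO_log_rpow_rpow_atTop ((A + 1 : ℕ) : ℝ) (show (0:ℝ) < 1/2 by norm_num)).bound
      (show (0:ℝ) < 1/3 by norm_num)
    have h' := tendsto_natCast_atTop_atTop (R := ℝ) |>.eventually h
    filter_upwards [h', Filter.eventually_ge_atTop 3] with N hN hN3
    rw [Real.rpow_natCast, ← Real.sqrt_eq_rpow, Real.norm_eq_abs, Real.norm_eq_abs,
      abs_of_nonneg (Real.sqrt_nonneg _)] at hN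
    have := le_abs_self (Real.log (N:ℝ) ^ (A + 1))
    linarith
  have hlog : ∀ᶠ N : ℕ in atTop, L0 ≤ Real.log N :=
    (Real.tendsto_log_atTop.comp tendsto_natCast_atTop_atTop).eventually (Filter.eventually_ge_atTop L0)
  filter_upwards [hT1, hlit, hlog, Filter.eventually_ge_atTop 3] with N hN1 hNl hNL hN3 t ht1 ht2
  have hLpos : 1 ≤ Real.log N := by linarith
  have hNpos : (0:ℝ) < N := by
    have : 0 < N := by omega
    exact_mod_cast this
  have hN1' : (1:ℝ) ≤ N := by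
    have : 1 ≤ N := by omega
    exact_mod_cast this
  have hexp : Real.exp (Real.log N) = N := Real.exp_log hNpos
  have ht1a : Real.log N ^ T1 ≤ |t| := le_trans (pow_le_pow_right₀ hLpos (le_max_left _ _)) ht1
  have ht1b : Real.log N ^ K2 ≤ |t| := le_trans (pow_le_pow_right₀ hLpos (le_max_right _ _)) ht1
  have hA := hN1 t ht1a ht2
  have hB := hK2 (Real.log N) hNL t ht1b (by
      rw [Real.exp_nat_mul, hexp]; exact ht2) N (by
      conv_rhs => rw [← hexp]
      apply Real.exp_le_exp.mpr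
      apply div_le_self (by linarith)
      have : (0:ℝ) ≤ M := Nat.cast_nonneg M
      linarith) (le_of_eq hexp.symm)
  set E : ℕ → ℂ := fun m => Complex.exp (((t * Real.log m : ℝ) : ℂ) * Complex.I) with hE
  have hEn : ∀ m, ‖E m‖ = 1 := fun m => Complex.norm_exp_ofReal_mul_I _
  have hth0 : th 0 = 0 := by rw [hth]; simp
  have hsplit : ∑ m ∈ range N, ((th m - 1 : ℝ) : ℂ) * E m
      = ∑ m ∈ range N, (th m : ℂ) * E m - ∑ m ∈ range N, E m := by
    rw [← Finset.sum_sub_distrib]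
    refine Finset.sum_congr rfl fun m _ => ?_
    push_cast; ring
  have hthr : ∑ m ∈ range N, (th m : ℂ) * E m = ∑ m ∈ Icc 1 N, (th m : ℂ) * E m - (th N : ℂ) * E N :=
    tst_range (fun m => (th m : ℂ) * E m) (by simp [hth0]) N
  have hthN : ‖(th N : ℂ) * E N‖ ≤ Real.log N := by
    rw [norm_mul, hEn, mul_one, Complex.norm_real, Real.norm_eq_abs, hth]
    split_ifs with h
    · rw [abs_of_nonneg (by linarith)]
    · simp; linarith
  have hdiff : ∑ m ∈ Icc 1 N, (th m : ℂ) * E m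
      = ∑ n ∈ Icc 1 N, (ArithmeticFunction.vonMangoldt n : ℂ) * E n
        - ∑ m ∈ Icc 1 N, ((ArithmeticFunction.vonMangoldt m - th m : ℝ) : ℂ) * E m := by
    rw [← Finset.sum_sub_distrib]
    refine Finset.sum_congr rfl fun m _ => ?_
    push_cast; ring
  have hdn : ‖∑ m ∈ Icc 1 N, ((ArithmeticFunction.vonMangoldt m - th m : ℝ) : ℂ) * E m‖
      ≤ 2 * Real.sqrt N * Real.log N := by
    refine le_trans (norm_sum_le _ _) (le_trans (le_of_eq ?_) (tst_close th hth N (by omega)))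
    refine Finset.sum_congr rfl fun m _ => ?_
    rw [norm_mul, hEn, mul_one, Complex.norm_real, Real.norm_eq_abs]
  have hsq : Real.sqrt N * Real.sqrt N = N := Real.mul_self_sqrt hNpos.le
  have hsq1 : 1 ≤ Real.sqrt N := by
    rw [Real.one_le_sqrt]; exact hN1'
  have hLA : 0 < Real.log N ^ A := by positivity
  have hsmall : 2 * Real.sqrt N * Real.log N + Real.log N ≤ N / Real.log N ^ A := by
    rw [le_div_iff₀ hLA]
    calc (2 * Real.sqrt N * Real.log N + Real.log N) * Real.log N ^ A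
        ≤ (3 * Real.sqrt N * Real.log N) * Real.log N ^ A := by
          apply mul_le_mul_of_nonneg_right _ hLA.le
          nlinarith
      _ = Real.sqrt N * (3 * Real.log N ^ (A + 1)) := by ring
      _ ≤ Real.sqrt N * Real.sqrt N := mul_le_mul_of_nonneg_left hNl (Real.sqrt_nonneg _)
      _ = N := hsq
  show ‖∑ m ∈ range N, ((th m - 1 : ℝ) : ℂ) * E m‖ ≤ _
  rw [hsplit, hthr, hdiff]
  have h1 := norm_sub_le (∑ n ∈ Icc 1 N, (ArithmeticFunction.vonMangoldt n : ℂ) * E n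
        - ∑ m ∈ Icc 1 N, ((ArithmeticFunction.vonMangoldt m - th m : ℝ) : ℂ) * E m - (th N : ℂ) * E N)
        (∑ m ∈ range N, E m)
  have h2 := norm_sub_le (∑ n ∈ Icc 1 N, (ArithmeticFunction.vonMangoldt n : ℂ) * E n
        - ∑ m ∈ Icc 1 N, ((ArithmeticFunction.vonMangoldt m - th m : ℝ) : ℂ) * E m) ((th N : ℂ) * E N)
  have h3 := norm_sub_le (∑ n ∈ Icc 1 N, (ArithmeticFunction.vonMangoldt n : ℂ) * E n)
        (∑ m ∈ Icc 1 N, ((ArithmeticFunction.vonMangoldt m - th m : ℝ) : ℂ) * E m)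
  have h4 : (C1 + 2) * N / Real.log N ^ A = C1 * N / Real.log N ^ A + N / Real.log N ^ A + N / Real.log N ^ A := by
    ring
  rw [h4]
  linarith

end TU12

end Pool.Agent.helper616_TS
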