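import Pool.Agent.helper616_TS.Defs

/-!
# Project TS (helper616): middle frequencies
-/

set_option autoImplicit false
set_option maxHeartbeats 4000000

open Finset MeasureTheory Filter Topology

namespace Pool.Agent.helper616_TS

namespace TU1


noncomputable def pmE (τ v : ℝ) : ℂ := Complex.exp (((τ * v : ℝ) : ℂ) * Complex.I)

lemma pmE_norm (τ v : ℝ) : ‖pmE τ v‖ = 1 := Complex.norm_exp_ofReal_mul_I _

lemma pmE_add (τ v w : ℝ) : pmE τ (v + w) = pmE τ v * pmE τ w := by
  unfold pmE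
  rw [← Complex.exp_add]
  congr 1
  push_cast
  ring

lemma pmE_cont (τ : ℝ) : Continuous (pmE τ) := by
  unfold pmE
  fun_prop

noncomputable def pmOm (τ : ℝ) (m : ℕ) : ℂ :=
  ∫ w in (0 : ℝ)..(Real.log ((m : ℝ) + 1) - Real.log m), pmE τ w

lemma pm_delta_nonneg (m : ℕ) (hm : 1 ≤ m) : 0 ≤ Real.log ((m : ℝ) + 1) - Real.log m := by
  have h0 : (0 : ℝ) < m := by exact_mod_cast hm
  have := Real.log_le_log h0 (by linarith : (m : ℝ) ≤ m + 1)
  linarith

lemma pm_delta_le (m : ℕ) (hm : 1 ≤ m) : Real.log ((m : ℝ) + 1) - Real.log m ≤ 1 / m := by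
  have h0 : (0 : ℝ) < m := by exact_mod_cast hm
  rw [← Real.log_div (by positivity) h0.ne']
  refine (Real.log_le_sub_one_of_pos (by positivity)).trans ?_
  rw [add_div, div_self h0.ne']
  linarith

lemma pmOm_norm (τ : ℝ) (m : ℕ) (hm : 1 ≤ m) : ‖pmOm τ m‖ ≤ 1 / m := by
  have h1 := intervalIntegral.norm_integral_le_of_norm_le_const (a := 0)
    (b := Real.log ((m : ℝ) + 1) - Real.log m) (C := 1) (f := pmE τ)
    (fun x _ => (pmE_norm τ x).le)
  rw [sub_zero, abs_of_nonneg (pm_delta_nonneg m hm), one_mul] at h1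
  exact h1.trans (pm_delta_le m hm)

lemma pmOm_diff (τ : ℝ) (m : ℕ) (hm : 1 ≤ m) :
    ‖pmOm τ (m + 1) - pmOm τ m‖ ≤ 1 / (m * (m + 1)) := by
  have h0 : (0 : ℝ) < m := by exact_mod_cast hm
  unfold pmOm
  rw [intervalIntegral.integral_interval_sub_left ((pmE_cont τ).intervalIntegrable _ _)
    ((pmE_cont τ).intervalIntegrable _ _)]
  refine (intervalIntegral.norm_integral_le_of_norm_le_const (C := 1)
    (fun x _ => (pmE_norm τ x).le)).trans ?_
  rw [one_mul]
  push_cast
  have e1 : Real.log ((m : ℝ) + 1 + 1) - Real.log ((m : ℝ) + 1) -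
      (Real.log ((m : ℝ) + 1) - Real.log m) = - Real.log (((m : ℝ) + 1) ^ 2 / (m * (m + 1 + 1))) := by
    rw [Real.log_div (by positivity) (by positivity), Real.log_pow, Real.log_mul h0.ne' (by positivity)]
    push_cast
    ring
  rw [e1, abs_neg]
  have e2 : ((m : ℝ) + 1) ^ 2 / (m * (m + 1 + 1)) = 1 + 1 / (m * (m + 1 + 1)) := by
    field_simp
    ring
  rw [e2, abs_of_nonneg (Real.log_nonneg (by
    have : 0 ≤ 1 / ((m : ℝ) * (m + 1 + 1)) := by positivity
    linarith))]
  refine (Real.log_le_sub_one_of_pos (by positivity)).trans ?_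
  rw [add_sub_cancel_left]
  apply one_div_le_one_div_of_le (by positivity)
  nlinarith

lemma pm_abel (S om : ℕ → ℂ) (p q : ℕ) (hpq : p ≤ q) :
    ∑ m ∈ Ico p q, (S (m + 1) - S m) * om m =
      S q * om q - S p * om p - ∑ m ∈ Ico p q, S (m + 1) * (om (m + 1) - om m) := by
  induction q, hpq using Nat.le_induction with
  | base => simp
  | succ n hn ih =>
    rw [Finset.sum_Ico_succ_top hn, Finset.sum_Ico_succ_top hn, ih]
    ring

lemma pm_harm (p q : ℕ) (hp : 2 ≤ p) (hpq : p ≤ q) :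
    ∑ m ∈ Ico p q, 1 / (m : ℝ) ≤ Real.log ((q : ℝ) - 1) - Real.log ((p : ℝ) - 1) := by
  induction q, hpq using Nat.le_induction with
  | base => simp
  | succ n hn ih =>
    rw [Finset.sum_Ico_succ_top hn]
    have hn2 : (2 : ℝ) ≤ n := by exact_mod_cast hp.trans hn
    have h1 : 1 / (n : ℝ) ≤ Real.log n - Real.log ((n : ℝ) - 1) := by
      rw [← Real.log_div (by positivity) (by linarith)]
      have h2 : (0 : ℝ) < n / ((n : ℝ) - 1) := div_pos (by linarith) (by linarith)
      refine le_trans (le_of_eq ?_) (Real.one_sub_inv_le_log_of_pos h2)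
      rw [inv_div]
      field_simp
      ring
    have e : ((n + 1 : ℕ) : ℝ) - 1 = n := by push_cast; ring
    rw [e]
    linarith

lemma pm_step (h : ℕ → ℝ) (τ : ℝ) (m : ℕ) (hm : 1 ≤ m) :
    ∫ v in (Real.log m)..(Real.log ((m : ℝ) + 1)), pmE τ v * (h ⌊Real.exp v⌋₊ : ℂ) =
      ((h m : ℂ) * pmE τ (Real.log m)) * pmOm τ m := by
  have h0 : (0 : ℝ) < m := by exact_mod_cast hm
  have hle : Real.log m ≤ Real.log ((m : ℝ) + 1) := by
    have := pm_delta_nonneg m hm
    linarith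
  have e1 : ∫ v in (Real.log m)..(Real.log ((m : ℝ) + 1)), pmE τ v * (h ⌊Real.exp v⌋₊ : ℂ) =
      ∫ v in (Real.log m)..(Real.log ((m : ℝ) + 1)), pmE τ v * (h m : ℂ) := by
    rw [intervalIntegral.integral_of_le hle, intervalIntegral.integral_of_le hle,
      MeasureTheory.integral_Ioc_eq_integral_Ioo, MeasureTheory.integral_Ioc_eq_integral_Ioo]
    refine MeasureTheory.setIntegral_congr_fun measurableSet_Ioo fun v hv => ?_
    have h1 : (m : ℝ) ≤ Real.exp v := by
      rw [← Real.exp_log h0]; exact Real.exp_le_exp.2 hv.1.le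
    have h2 : Real.exp v < (m : ℝ) + 1 := by
      rw [← Real.exp_log (by positivity : (0 : ℝ) < (m : ℝ) + 1)]; exact Real.exp_lt_exp.2 hv.2
    have h3 : ⌊Real.exp v⌋₊ = m := (Nat.floor_eq_iff (Real.exp_pos v).le).2 ⟨h1, h2⟩
    change pmE τ v * (h ⌊Real.exp v⌋₊ : ℂ) = pmE τ v * (h m : ℂ)
    rw [h3]
  rw [e1, intervalIntegral.integral_mul_const]
  have e2 : ∫ v in (Real.log m)..(Real.log ((m : ℝ) + 1)), pmE τ v =
      ∫ w in (0 : ℝ)..(Real.log ((m : ℝ) + 1) - Real.log m), pmE τ (w + Real.log m) := by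
    rw [intervalIntegral.integral_comp_add_right (fun v => pmE τ v) (Real.log m)]
    congr 1 <;> ring
  rw [e2]
  simp_rw [pmE_add]
  rw [intervalIntegral.integral_mul_const]
  unfold pmOm
  ring

open FourierTransform in
theorem psi_mid (h : ℕ → ℝ) (v0 v1 K Q : ℝ) (hv0 : 1 ≤ v0) (hv : v0 ≤ v1) (hK : 0 ≤ K) (hQ : 0 ≤ Q) (ξ : ℝ)
    (hb : ∀ m : ℕ, (m : ℝ) ≤ Real.exp v1 → |h m| ≤ K)
    (hs : ∀ N : ℕ, Real.exp v0 - 1 ≤ N → (N : ℝ) ≤ Real.exp v1 + 1 →
      ‖∑ m ∈ range N, (h m : ℂ) * Complex.exp (((-(2 * Real.pi * ξ) * Real.log m : ℝ) : ℂ) * Complex.I)‖ ≤ Q * N) :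
    ‖𝓕 (Psi h v0 v1) ξ‖ ≤ 10 * Q * (1 + v1 - v0) + 10 * K * Real.exp (-v0) := by
  set τ : ℝ := -(2 * Real.pi * ξ) with hτ
  set ψ : ℝ → ℂ := fun v => pmE τ v * (h ⌊Real.exp v⌋₊ : ℂ) with hψ
  have hF : 𝓕 (Psi h v0 v1) ξ = ∫ v in v0..v1, ψ v := by
    rw [Real.fourier_real_eq_integral_exp_smul, intervalIntegral.integral_of_le hv,
      ← integral_indicator measurableSet_Ioc]
    refine integral_congr_ae (ae_of_all _ fun v => ?_)
    change Complex.exp (((-2 * Real.pi * v * ξ : ℝ) : ℂ) * Complex.I) • Psi h v0 v1 v = _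
    unfold Psi
    by_cases hvm : v ∈ Set.Ioc v0 v1
    · rw [Set.indicator_of_mem hvm, Set.indicator_of_mem hvm, smul_eq_mul]
      change _ = pmE τ v * (h ⌊Real.exp v⌋₊ : ℂ)
      unfold pmE
      rw [hτ]
      congr 4
      ring
    · rw [Set.indicator_of_notMem hvm, Set.indicator_of_notMem hvm, smul_zero]
  have hψm : Measurable ψ := by
    refine (pmE_cont τ).measurable.mul ?_
    have h1 : Measurable fun v : ℝ => ⌊Real.exp v⌋₊ := Nat.measurable_floor.comp Real.measurable_exp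
    exact (measurable_from_top (f := fun n : ℕ => ((h n : ℝ) : ℂ))).comp h1
  have hψb : ∀ v, v ≤ v1 → ‖ψ v‖ ≤ K := by
    intro v hv'
    change ‖pmE τ v * (h ⌊Real.exp v⌋₊ : ℂ)‖ ≤ K
    rw [norm_mul, pmE_norm, one_mul, Complex.norm_real, Real.norm_eq_abs]
    refine hb _ ((Nat.floor_le (Real.exp_pos v).le).trans (Real.exp_le_exp.2 hv'))
  have hint : ∀ x y : ℝ, x ≤ v1 → y ≤ v1 → IntervalIntegrable ψ volume x y := by
    intro x y hx hy
    rw [intervalIntegrable_iff]
    refine Measure.integrableOn_of_bounded (M := K) ?_ hψm.aestronglyMeasurable ?_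
    · rw [Set.uIoc, Real.volume_Ioc]; exact ENNReal.ofReal_ne_top
    · refine (ae_restrict_iff' measurableSet_uIoc).2 (ae_of_all _ fun v hv' => hψb v ?_)
      exact hv'.2.trans (max_le hx hy)
  have hbd : ∀ x y : ℝ, x ≤ y → y ≤ v1 → ‖∫ v in x..y, ψ v‖ ≤ K * (y - x) := by
    intro x y hxy hy
    have := intervalIntegral.norm_integral_le_of_norm_le_const (a := x) (b := y) (C := K) (f := ψ)
      (fun v hv' => hψb v (hv'.2.trans (max_le (hxy.trans hy) hy)))
    rwa [abs_of_nonneg (by linarith)] at this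
  rw [hF]
  set a : ℕ := ⌊Real.exp v0⌋₊ with ha
  set b : ℕ := ⌊Real.exp v1⌋₊ with hbb
  have hexp2 : (2 : ℝ) ≤ Real.exp v0 := by
    have h1 := Real.add_one_le_exp v0
    linarith
  have ha2 : 2 ≤ a := Nat.le_floor (by exact_mod_cast hexp2)
  have haR : (2 : ℝ) ≤ a := by exact_mod_cast ha2
  have ha1 : (a : ℝ) ≤ Real.exp v0 := Nat.floor_le (Real.exp_pos _).le
  have ha3 : Real.exp v0 < (a : ℝ) + 1 := Nat.lt_floor_add_one _
  have hb1 : (b : ℝ) ≤ Real.exp v1 := Nat.floor_le (Real.exp_pos _).le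
  have hb3 : Real.exp v1 < (b : ℝ) + 1 := Nat.lt_floor_add_one _
  have hab : a ≤ b := Nat.floor_mono (Real.exp_le_exp.2 hv)
  have habR : (a : ℝ) ≤ b := by exact_mod_cast hab
  have hla : Real.log a ≤ v0 := by
    rw [← Real.log_exp v0]; exact Real.log_le_log (by linarith) ha1
  have hla1 : v0 < Real.log ((a : ℝ) + 1) := by
    rw [← Real.log_exp v0]; exact Real.log_lt_log (Real.exp_pos _) ha3
  have hlb : Real.log b ≤ v1 := by
    rw [← Real.log_exp v1]; exact Real.log_le_log (by linarith) hb1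
  have hlb1 : v1 < Real.log ((b : ℝ) + 1) := by
    rw [← Real.log_exp v1]; exact Real.log_lt_log (Real.exp_pos _) hb3
  have hda := pm_delta_le a (by omega)
  have hdb := pm_delta_le b (by omega)
  have hba : 1 / (b : ℝ) ≤ 1 / a := one_div_le_one_div_of_le (by linarith) habR
  have hae : 1 / (a : ℝ) ≤ 2 * Real.exp (-v0) := by
    rw [Real.exp_neg, ← div_eq_mul_inv, div_le_div_iff₀ (by linarith) (Real.exp_pos _)]
    linarith
  have he0 : 0 < Real.exp (-v0) := Real.exp_pos _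
  have hlin : 0 ≤ Q * (1 + v1 - v0) := mul_nonneg hQ (by linarith)
  rcases hab.eq_or_lt with hEq | hlt
  · -- one step only
    have h1 : v1 - v0 ≤ 1 / a := by rw [← hEq] at hlb1; linarith
    have h2 := hbd v0 v1 hv le_rfl
    have h3 : K * (v1 - v0) ≤ K * (2 * Real.exp (-v0)) :=
      mul_le_mul_of_nonneg_left (h1.trans hae) hK
    have h4 : 0 ≤ K * Real.exp (-v0) := mul_nonneg hK he0.le
    linarith
  · have hab1 : a + 1 ≤ b := hlt
    have hab1R : (a : ℝ) + 1 ≤ b := by exact_mod_cast hab1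
    have hlab : Real.log ((a : ℝ) + 1) ≤ Real.log b := Real.log_le_log (by linarith) hab1R
    have hsplit : ∫ v in v0..v1, ψ v = (∫ v in v0..(Real.log ((a : ℝ) + 1)), ψ v) +
        (∫ v in (Real.log ((a : ℝ) + 1))..(Real.log b), ψ v) + ∫ v in (Real.log b)..v1, ψ v := by
      rw [intervalIntegral.integral_add_adjacent_intervals (hint _ _ hv (hlab.trans hlb))
        (hint _ _ (hlab.trans hlb) hlb), intervalIntegral.integral_add_adjacent_intervals
        (hint _ _ hv hlb) (hint _ _ hlb le_rfl)]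
    set s : ℕ → ℂ := fun m => (h m : ℂ) * pmE τ (Real.log m) with hsdef
    set S : ℕ → ℂ := fun N => ∑ m ∈ range N, s m with hSdef
    have hS : ∀ N : ℕ, a + 1 ≤ N → N ≤ b → ‖S N‖ ≤ Q * N := by
      intro N h1 h2
      have h1R : (a : ℝ) + 1 ≤ N := by exact_mod_cast h1
      have h2R : (N : ℝ) ≤ b := by exact_mod_cast h2
      exact hs N (by linarith) (by linarith)
    have hmid : ∫ v in (Real.log ((a : ℝ) + 1))..(Real.log b), ψ v =
        ∑ m ∈ Ico (a + 1) b, (S (m + 1) - S m) * pmOm τ m := by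
      have h1 := intervalIntegral.sum_integral_adjacent_intervals_Ico (f := ψ) (μ := volume)
        (a := fun k : ℕ => Real.log k) (m := a + 1) (n := b) hab1 (by
          intro k hk
          have hk2 : ((k + 1 : ℕ) : ℝ) ≤ b := by exact_mod_cast hk.2
          have hk0 : (0 : ℝ) < k := by
            have : 0 < k := lt_of_lt_of_le (Nat.succ_pos a) hk.1
            exact_mod_cast this
          have h3 : Real.log ((k + 1 : ℕ) : ℝ) ≤ v1 :=
            (Real.log_le_log (by push_cast; linarith) hk2).trans hlb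
          have h4 : Real.log (k : ℝ) ≤ v1 :=
            (Real.log_le_log hk0 (by push_cast at hk2; linarith)).trans hlb
          exact hint _ _ h4 h3)
      push_cast at h1
      rw [← h1]
      refine Finset.sum_congr rfl fun m hm => ?_
      have hm1 : 1 ≤ m := (Nat.succ_le_succ (Nat.zero_le a)).trans (Finset.mem_Ico.1 hm).1
      rw [hSdef]
      simp only [Finset.sum_range_succ, add_sub_cancel_left]
      exact pm_step h τ m hm1
    rw [hsplit, hmid, pm_abel S (pmOm τ) (a + 1) b hab1]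
    have hS1 : ‖S b * pmOm τ b‖ ≤ Q := by
      rw [norm_mul]
      calc ‖S b‖ * ‖pmOm τ b‖ ≤ (Q * b) * (1 / b) :=
            mul_le_mul (hS b hab1 le_rfl) (pmOm_norm τ b (by omega)) (norm_nonneg _)
              (by positivity)
        _ = Q := by
            have : (b : ℝ) ≠ 0 := by linarith
            field_simp
    have hS2 : ‖S (a + 1) * pmOm τ (a + 1)‖ ≤ Q := by
      rw [norm_mul]
      calc ‖S (a + 1)‖ * ‖pmOm τ (a + 1)‖ ≤ (Q * ((a + 1 : ℕ) : ℝ)) * (1 / ((a + 1 : ℕ) : ℝ)) :=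
            mul_le_mul (hS (a + 1) le_rfl hab1) (pmOm_norm τ (a + 1) (by omega)) (norm_nonneg _)
              (by positivity)
        _ = Q := by
            have : ((a + 1 : ℕ) : ℝ) ≠ 0 := by positivity
            field_simp
    have hS3 : ‖∑ m ∈ Ico (a + 1) b, S (m + 1) * (pmOm τ (m + 1) - pmOm τ m)‖ ≤
        Q * (v1 - v0 + 1 / 2) := by
      refine (norm_sum_le _ _).trans ?_
      have h5 : ∀ m ∈ Ico (a + 1) b, ‖S (m + 1) * (pmOm τ (m + 1) - pmOm τ m)‖ ≤ Q * (1 / m) := by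
        intro m hm
        rw [Finset.mem_Ico] at hm
        have hm1 : 1 ≤ m := by omega
        have hm0 : (0 : ℝ) < m := by exact_mod_cast hm1
        rw [norm_mul]
        calc ‖S (m + 1)‖ * ‖pmOm τ (m + 1) - pmOm τ m‖ ≤
            (Q * ((m + 1 : ℕ) : ℝ)) * (1 / (m * (m + 1))) :=
              mul_le_mul (hS (m + 1) (by omega) (by omega)) (pmOm_diff τ m hm1) (norm_nonneg _)
                (by positivity)
          _ = Q * (1 / m) := by
              push_cast
              field_simp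
      refine (Finset.sum_le_sum h5).trans ?_
      rw [← Finset.mul_sum]
      refine mul_le_mul_of_nonneg_left ?_ hQ
      refine (pm_harm (a + 1) b (by omega) hab1).trans ?_
      have e6 : ((a + 1 : ℕ) : ℝ) - 1 = a := by push_cast; ring
      rw [e6]
      have h7 : Real.log ((b : ℝ) - 1) ≤ Real.log b := Real.log_le_log (by linarith) (by linarith)
      have h8 : 1 / (a : ℝ) ≤ 1 / 2 := one_div_le_one_div_of_le (by norm_num) haR
      linarith
    have hB1 : ‖∫ v in v0..(Real.log ((a : ℝ) + 1)), ψ v‖ ≤ K * (2 * Real.exp (-v0)) := by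
      refine (hbd _ _ hla1.le (hlab.trans hlb)).trans (mul_le_mul_of_nonneg_left ?_ hK)
      linarith
    have hB2 : ‖∫ v in (Real.log b)..v1, ψ v‖ ≤ K * (2 * Real.exp (-v0)) := by
      refine (hbd _ _ hlb le_rfl).trans (mul_le_mul_of_nonneg_left ?_ hK)
      linarith
    have hKe : 0 ≤ K * Real.exp (-v0) := mul_nonneg hK he0.le
    refine (norm_add₃_le).trans ?_
    have hM : ‖S b * pmOm τ b - S (a + 1) * pmOm τ (a + 1) -
        ∑ m ∈ Ico (a + 1) b, S (m + 1) * (pmOm τ (m + 1) - pmOm τ m)‖ ≤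
        Q + Q + Q * (v1 - v0 + 1 / 2) :=
      (norm_sub_le _ _).trans (add_le_add ((norm_sub_le _ _).trans (add_le_add hS1 hS2)) hS3)
    have hQv : 0 ≤ Q * (v1 - v0) := mul_nonneg hQ (by linarith)
    nlinarith

end TU1

end Pool.Agent.helper616_TS
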