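import Pool.Agent.helper616_TS.Defs
import Pool.Agent.helper616_TS.TS7
import Pool.Agent.helper616_TS.TS8
import Pool.Agent.helper616_TS.TS9
import Pool.Agent.helper616_TS.TU1

/-!
# Project TS (helper616): a uniform bound for the Fourier transform
-/

set_option autoImplicit false
set_option maxHeartbeats 4000000

open Finset MeasureTheory Filter Topology

namespace Pool.Agent.helper616_TS

open TS7 (psi_high)
open TS8 (psi_low)
open TS9 (log_mean)
open TU1 (psi_mid)

namespace TU2


open FourierTransform in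
theorem psi_sup (h : ℕ → ℝ) (hb : LogBdd h) (hm : MeanZero h) (ht : TwistSmall h) (c C₀ R : ℝ) (hc : 0 < c) (A : ℕ) :
    ∃ C : ℝ, ∀ᶠ J : ℕ in atTop, ∀ v0 v1 : ℝ, c * Real.log J ≤ v0 → v0 ≤ v1 → v1 ≤ v0 + R → v1 ≤ C₀ * Real.log J →
      ∀ ξ : ℝ, ‖𝓕 (Psi h v0 v1) ξ‖ ≤ C / (Real.log J) ^ A := by
  obtain ⟨Ch, k, hCh⟩ := id hb
  obtain ⟨D, hD⟩ := exists_nat_ge (max C₀ 1)
  have hDC : C₀ ≤ D := le_trans (le_max_left _ _) hD
  have hD1 : (1 : ℝ) ≤ D := le_trans (le_max_right _ _) hD
  obtain ⟨M, hM⟩ := exists_nat_ge (((D : ℝ) + 2) / (c / 2))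
  obtain ⟨T, Ct, hT⟩ := ht M A
  obtain ⟨Cm, hCm⟩ := log_mean h hb hm (A + (T + 1)) R
  obtain ⟨N1, hN1⟩ := eventually_atTop.1 hT
  set E : ℝ := |Ch| * ((D : ℝ) + 1) ^ k with hE
  have hE0 : 0 ≤ E := by positivity
  have hx : ∀ᶠ x : ℝ in atTop, 1 ≤ x ∧ 2 ≤ c * x ∧ x ^ (k + A) ≤ Real.exp x ∧
      x ^ (k + A) ≤ Real.exp (c * x) ∧ ((D : ℝ) + 1) ^ T ≤ x ∧ (N1 : ℝ) ≤ Real.exp (c / 2 * x) ∧
      7 ≤ Real.exp x := by
    have e1 : ∀ᶠ x : ℝ in atTop, 2 ≤ c * x :=
      (tendsto_id.const_mul_atTop hc).eventually_ge_atTop 2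
    have e2 : ∀ b : ℝ, 0 < b → ∀ᶠ x : ℝ in atTop, x ^ (k + A) ≤ Real.exp (b * x) := by
      intro b hb
      have h1 := (isLittleO_pow_exp_pos_mul_atTop (k := k + A) hb).bound (c := 1) one_pos
      filter_upwards [h1] with x hx
      rw [Real.norm_eq_abs, Real.norm_eq_abs, one_mul, abs_of_pos (Real.exp_pos _)] at hx
      exact le_trans (le_abs_self _) hx
    have e3 : ∀ᶠ x : ℝ in atTop, (N1 : ℝ) ≤ Real.exp (c / 2 * x) :=
      (Real.tendsto_exp_atTop.comp (tendsto_id.const_mul_atTop (by positivity : 0 < c / 2))).eventually_ge_atTop _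
    have e4 : ∀ᶠ x : ℝ in atTop, 7 ≤ Real.exp x := Real.tendsto_exp_atTop.eventually_ge_atTop _
    filter_upwards [eventually_ge_atTop 1, e1, e2 1 one_pos, e2 c hc,
      eventually_ge_atTop (((D : ℝ) + 1) ^ T), e3, e4] with x a1 a2 a3 a4 a5 a6 a7
    rw [one_mul] at a3
    exact ⟨a1, a2, a3, a4, a5, a6, a7⟩
  have hlog : Tendsto (fun J : ℕ => Real.log (J : ℝ)) atTop atTop :=
    Real.tendsto_log_atTop.comp tendsto_natCast_atTop_atTop
  refine ⟨3 * E + (10 * (|Ct| / (c / 2) ^ A) * (1 + |R|) + 10 * E)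
    + |Cm| / c ^ (A + (T + 1)) * (1 + 2 * Real.pi * |R|), ?_⟩
  have hpi := Real.pi_pos
  filter_upwards [hlog.eventually hx] with J hJ
  intro v0 v1 h0 h01 h1R h1C ξ
  set x : ℝ := Real.log (J : ℝ) with hxdef
  obtain ⟨x1, x2, x3, x4, x5, x6, x7⟩ := hJ
  have x0 : 0 < x := by linarith
  have hxA : 0 < x ^ A := by positivity
  have hR : |v1 - v0| ≤ |R| := by
    rw [abs_of_nonneg (by linarith)]
    exact le_trans (by linarith) (le_abs_self R)
  have hR' : v1 - v0 ≤ |R| := le_trans (le_abs_self _) hR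
  have hv0 : 1 ≤ v0 := by linarith
  have hv1 : v1 ≤ D * x := le_trans h1C (mul_le_mul_of_nonneg_right hDC x0.le)
  have hev1 : Real.exp v1 ≤ Real.exp (D * x) := Real.exp_le_exp.2 hv1
  have hDx1 : 1 ≤ Real.exp (D * x) := Real.one_le_exp (by positivity)
  have hsplit : Real.exp (((D : ℝ) + 1) * x) = Real.exp (D * x) * Real.exp x := by
    rw [← Real.exp_add]
    ring_nf
  have hbig : Real.exp (D * x) + 2 ≤ Real.exp (((D : ℝ) + 1) * x) := by
    rw [hsplit]
    nlinarith
  -- the bound for `h`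
  have hK : ∀ m : ℕ, (m : ℝ) ≤ Real.exp v1 → |h m| ≤ E * x ^ k := by
    intro m hm1
    have h1 : Real.log ((m : ℝ) + 2) ≤ ((D : ℝ) + 1) * x := by
      rw [Real.log_le_iff_le_exp (by positivity)]
      linarith
    have h2 : 0 ≤ Real.log ((m : ℝ) + 2) := Real.log_nonneg (by linarith [(Nat.cast_nonneg m : (0 : ℝ) ≤ m)])
    calc |h m| ≤ Ch * Real.log ((m : ℝ) + 2) ^ k := hCh m
      _ ≤ |Ch| * (((D : ℝ) + 1) * x) ^ k := by
          refine mul_le_mul (le_abs_self _) (pow_le_pow_left₀ h2 h1 k) (by positivity) (abs_nonneg _)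
      _ = E * x ^ k := by rw [hE, mul_pow]; ring
  have hK0 : 0 ≤ E * x ^ k := by positivity
  have hKA : E * x ^ k * x ^ A = E * x ^ (k + A) := by rw [pow_add]; ring
  have t1 : 0 ≤ 3 * E := by positivity
  have t2 : 0 ≤ 10 * (|Ct| / (c / 2) ^ A) * (1 + |R|) + 10 * E := by positivity
  have t3 : 0 ≤ |Cm| / c ^ (A + (T + 1)) * (1 + 2 * Real.pi * |R|) := by positivity
  by_cases c1 : Real.exp (((D : ℝ) + 1) * x) ≤ |ξ|
  · -- high
    have hξ : 0 < |ξ| := lt_of_lt_of_le (Real.exp_pos _) c1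
    have hh := psi_high h v0 v1 (E * x ^ k) h01 hK0 hK ξ (abs_pos.1 hξ)
    refine hh.trans ?_
    have : E * x ^ k * (Real.exp v1 + 2) / |ξ| ≤ 3 * E / x ^ A := by
      rw [div_le_div_iff₀ hξ hxA]
      calc E * x ^ k * (Real.exp v1 + 2) * x ^ A = (E * x ^ (k + A)) * (Real.exp v1 + 2) := by
            rw [← hKA]; ring
        _ ≤ (E * Real.exp x) * (3 * Real.exp (D * x)) := by
            refine mul_le_mul (mul_le_mul_of_nonneg_left x3 hE0) (by linarith) (by positivity) (by positivity)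
        _ = 3 * E * Real.exp (((D : ℝ) + 1) * x) := by rw [hsplit]; ring
        _ ≤ 3 * E * |ξ| := mul_le_mul_of_nonneg_left c1 t1
    refine this.trans (div_le_div_of_nonneg_right (by linarith) hxA.le)
  · push Not at c1
    by_cases c2 : x ^ (T + 1) ≤ |ξ|
    · -- middle
      set Q : ℝ := |Ct| / (c / 2 * x) ^ A with hQ
      have hQ0 : 0 ≤ Q := by positivity
      have hhalf : Real.exp (c / 2 * x) + 1 ≤ Real.exp v0 := by
        have h1 : Real.exp (c * x) ≤ Real.exp v0 := Real.exp_le_exp.2 h0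
        have h2 : Real.exp (c * x) = Real.exp (c / 2 * x) * Real.exp (c / 2 * x) := by
          rw [← Real.exp_add]; ring_nf
        have h3 : 2 ≤ Real.exp (c / 2 * x) := by
          have := Real.add_one_le_exp (c / 2 * x)
          linarith
        nlinarith
      have hs : ∀ N : ℕ, Real.exp v0 - 1 ≤ N → (N : ℝ) ≤ Real.exp v1 + 1 →
          ‖∑ m ∈ range N, (h m : ℂ) * Complex.exp (((-(2 * Real.pi * ξ) * Real.log m : ℝ) : ℂ) * Complex.I)‖
            ≤ Q * N := by
        intro N hNl hNu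
        have hNy : Real.exp (c / 2 * x) ≤ N := by linarith
        have hNN : N1 ≤ N := by
          have : (N1 : ℝ) ≤ N := le_trans x6 hNy
          exact_mod_cast this
        have hNpos : (0 : ℝ) < N := lt_of_lt_of_le (Real.exp_pos _) hNy
        have hlow : c / 2 * x ≤ Real.log N := by
          rw [Real.le_log_iff_exp_le hNpos]
          exact hNy
        have hup : Real.log N ≤ ((D : ℝ) + 1) * x := by
          rw [Real.log_le_iff_le_exp hNpos]
          linarith
        have hlog0 : 0 ≤ Real.log N := le_trans (by positivity) hlow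
        have ht1 : |(-(2 * Real.pi * ξ))| = 2 * Real.pi * |ξ| := by
          rw [abs_neg, abs_mul, abs_of_pos (by positivity : 0 < 2 * Real.pi)]
        have q1 : (Real.log N) ^ T ≤ |(-(2 * Real.pi * ξ))| := by
          rw [ht1]
          have h3 : (3 : ℝ) < Real.pi := Real.pi_gt_three
          calc (Real.log N) ^ T ≤ (((D : ℝ) + 1) * x) ^ T := pow_le_pow_left₀ hlog0 hup T
            _ = ((D : ℝ) + 1) ^ T * x ^ T := mul_pow _ _ _
            _ ≤ x * x ^ T := mul_le_mul_of_nonneg_right x5 (by positivity)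
            _ = x ^ (T + 1) := by rw [pow_succ]; ring
            _ ≤ |ξ| := c2
            _ ≤ 2 * Real.pi * |ξ| := by nlinarith [abs_nonneg ξ]
        have q2 : |(-(2 * Real.pi * ξ))| ≤ (N : ℝ) ^ M := by
          rw [ht1]
          have h4 : Real.pi < 3.15 := Real.pi_lt_d2
          have hM' : (D : ℝ) + 2 ≤ M * (c / 2) := by
            rw [div_le_iff₀ (by positivity)] at hM
            exact hM
          calc 2 * Real.pi * |ξ| ≤ 7 * Real.exp (((D : ℝ) + 1) * x) := by
                refine mul_le_mul (by linarith) c1.le (abs_nonneg _) (by norm_num)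
            _ ≤ Real.exp x * Real.exp (((D : ℝ) + 1) * x) :=
                mul_le_mul_of_nonneg_right x7 (Real.exp_pos _).le
            _ = Real.exp (((D : ℝ) + 2) * x) := by rw [← Real.exp_add]; ring_nf
            _ ≤ Real.exp (M * (c / 2 * x)) := by
                refine Real.exp_le_exp.2 ?_
                nlinarith
            _ = Real.exp (c / 2 * x) ^ M := by rw [Real.exp_nat_mul]
            _ ≤ (N : ℝ) ^ M := pow_le_pow_left₀ (Real.exp_pos _).le hNy M
        have q3 := hN1 N hNN _ q1 q2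
        refine q3.trans ?_
        have hp : 0 < (c / 2 * x) ^ A := by positivity
        have hle : (c / 2 * x) ^ A ≤ (Real.log N) ^ A := pow_le_pow_left₀ (by positivity) hlow A
        calc Ct * N / (Real.log N) ^ A ≤ |Ct| * N / (Real.log N) ^ A := by
              refine div_le_div_of_nonneg_right ?_ (by positivity)
              exact mul_le_mul_of_nonneg_right (le_abs_self _) hNpos.le
          _ ≤ |Ct| * N / (c / 2 * x) ^ A := div_le_div_of_nonneg_left (by positivity) hp hle
          _ = Q * N := by rw [hQ]; ring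
      have hh := psi_mid h v0 v1 (E * x ^ k) Q hv0 h01 hK0 hQ0 ξ hK hs
      refine hh.trans ?_
      have s1 : 10 * Q * (1 + v1 - v0) ≤ (10 * (|Ct| / (c / 2) ^ A) * (1 + |R|)) / x ^ A := by
        have : Q = (|Ct| / (c / 2) ^ A) / x ^ A := by
          rw [hQ, mul_pow, div_div]
        calc 10 * Q * (1 + v1 - v0) ≤ 10 * Q * (1 + |R|) := by
              refine mul_le_mul_of_nonneg_left (by linarith) (by positivity)
          _ = (10 * (|Ct| / (c / 2) ^ A) * (1 + |R|)) / x ^ A := by rw [this]; ring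
      have s2 : 10 * (E * x ^ k) * Real.exp (-v0) ≤ (10 * E) / x ^ A := by
        rw [le_div_iff₀ hxA]
        have h1 : Real.exp (-v0) ≤ Real.exp (-(c * x)) := Real.exp_le_exp.2 (by linarith)
        calc 10 * (E * x ^ k) * Real.exp (-v0) * x ^ A = 10 * (E * x ^ (k + A)) * Real.exp (-v0) := by
              rw [← hKA]; ring
          _ ≤ 10 * (E * Real.exp (c * x)) * Real.exp (-(c * x)) := by
              refine mul_le_mul ?_ h1 (Real.exp_pos _).le (by positivity)
              exact mul_le_mul_of_nonneg_left (mul_le_mul_of_nonneg_left x4 hE0) (by norm_num)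
          _ = 10 * E := by
              rw [Real.exp_neg]
              field_simp
      calc 10 * Q * (1 + v1 - v0) + 10 * (E * x ^ k) * Real.exp (-v0)
          ≤ (10 * (|Ct| / (c / 2) ^ A) * (1 + |R|)) / x ^ A + (10 * E) / x ^ A := add_le_add s1 s2
        _ = (10 * (|Ct| / (c / 2) ^ A) * (1 + |R|) + 10 * E) / x ^ A := by rw [add_div]
        _ ≤ _ := div_le_div_of_nonneg_right (by linarith) hxA.le
    · -- low
      push Not at c2
      have hB : 0 < (c * x) ^ (A + (T + 1)) := by positivity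
      have hlow : ∀ v, v0 ≤ v → v ≤ v1 → |∫ w in v0..v, h ⌊Real.exp w⌋₊| ≤
          |Cm| / (c * x) ^ (A + (T + 1)) := by
        intro v hv hv'
        refine (hCm v0 v hv0 hv (by linarith)).trans ?_
        calc Cm / v0 ^ (A + (T + 1)) ≤ |Cm| / v0 ^ (A + (T + 1)) :=
              div_le_div_of_nonneg_right (le_abs_self _) (by positivity)
          _ ≤ |Cm| / (c * x) ^ (A + (T + 1)) :=
              div_le_div_of_nonneg_left (abs_nonneg _) hB (pow_le_pow_left₀ (by positivity) h0 _)
      have hh := psi_low h v0 v1 (|Cm| / (c * x) ^ (A + (T + 1))) h01 (by positivity) hlow ξ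
      refine hh.trans ?_
      have s1 : 1 + 2 * Real.pi * |ξ| * (v1 - v0) ≤ x ^ (T + 1) * (1 + 2 * Real.pi * |R|) := by
        have hx1 : 1 ≤ x ^ (T + 1) := one_le_pow₀ x1
        have h2 : 2 * Real.pi * |ξ| * (v1 - v0) ≤ 2 * Real.pi * x ^ (T + 1) * |R| := by
          refine mul_le_mul ?_ hR' (by linarith) (by positivity)
          exact mul_le_mul_of_nonneg_left c2.le (by positivity)
        nlinarith
      calc |Cm| / (c * x) ^ (A + (T + 1)) * (1 + 2 * Real.pi * |ξ| * (v1 - v0))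
          ≤ |Cm| / (c * x) ^ (A + (T + 1)) * (x ^ (T + 1) * (1 + 2 * Real.pi * |R|)) :=
            mul_le_mul_of_nonneg_left s1 (by positivity)
        _ = (|Cm| / c ^ (A + (T + 1)) * (1 + 2 * Real.pi * |R|)) / x ^ A := by
            rw [mul_pow, pow_add x A (T + 1)]
            have : x ^ (T + 1) ≠ 0 := by positivity
            field_simp
        _ ≤ _ := div_le_div_of_nonneg_right (by linarith) hxA.le

end TU2

end Pool.Agent.helper616_TS
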