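import Pool.Agent.helper616_TS.Defs

/-!
# Project TS (helper616): Plancherel in several variables
-/

set_option autoImplicit false
set_option maxHeartbeats 4000000

open Finset MeasureTheory Filter Topology

namespace Pool.Agent.helper616_TS

namespace TU3


lemma e_add (x y : ℝ) : e (x + y) = e x * e y := by
  unfold e
  rw [← Complex.exp_add]
  congr 1
  push_cast
  ring

lemma e_zero : e 0 = 1 := by
  unfold e
  simp

lemma e_cont : Continuous e := by
  unfold e
  fun_prop

open FourierTransform in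
lemma fourier_cont (g : ℝ → ℂ) (hg : Integrable g) : Continuous (𝓕 g) := by
  have h := VectorFourier.fourierIntegral_continuous (μ := (volume : Measure ℝ))
    (L := innerₗ ℝ) (e := Real.fourierChar) (f := g) Real.continuous_fourierChar
    (by exact continuous_inner) hg
  exact h

open FourierTransform in
lemma fourier_sum (g : ℝ → ℂ) (hg : Integrable g) (L : ℕ) (w : ℕ → ℂ) (ℓ : ℕ → ℝ) (ξ : ℝ) :
    𝓕 (fun u => ∑ n ∈ range L, w n * g (u + ℓ n)) ξ
      = 𝓕 g ξ * ∑ n ∈ range L, w n * e (ξ * ℓ n) := by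
  rw [Real.fourier_real_eq_integral_exp_smul]
  have h1 : ∀ v : ℝ, Complex.exp (↑(-2 * Real.pi * v * ξ) * Complex.I) •
      ∑ n ∈ range L, w n * g (v + ℓ n) = ∑ n ∈ range L, w n *
        (e (ξ * ℓ n) * (Complex.exp (↑(-2 * Real.pi * (v + ℓ n) * ξ) * Complex.I) • g (v + ℓ n))) := by
    intro v
    rw [smul_eq_mul, Finset.mul_sum]
    refine Finset.sum_congr rfl fun n _ => ?_
    have : Complex.exp (↑(-2 * Real.pi * v * ξ) * Complex.I)
        = e (ξ * ℓ n) * Complex.exp (↑(-2 * Real.pi * (v + ℓ n) * ξ) * Complex.I) := by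
      unfold e
      rw [← Complex.exp_add]
      congr 1
      push_cast
      ring
    rw [this, smul_eq_mul]
    ring
  simp_rw [h1]
  have hint : Integrable (fun v : ℝ => Complex.exp (↑(-2 * Real.pi * v * ξ) * Complex.I) • g v) := by
    refine hg.bdd_mul (c := 1) ?_ ?_
    · exact (by fun_prop : Continuous fun v : ℝ => Complex.exp (↑(-2 * Real.pi * v * ξ) * Complex.I)).aestronglyMeasurable
    · refine Filter.Eventually.of_forall fun v => ?_
      rw [Complex.norm_exp_ofReal_mul_I]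
  rw [integral_finsetSum]
  · rw [Finset.mul_sum]
    refine Finset.sum_congr rfl fun n _ => ?_
    rw [integral_const_mul, integral_const_mul,
      integral_add_right_eq_self (fun v : ℝ => Complex.exp (↑(-2 * Real.pi * v * ξ) * Complex.I) • g v) (ℓ n),
      ← Real.fourier_real_eq_integral_exp_smul]
    ring
  · intro n _
    refine Integrable.const_mul (Integrable.const_mul ?_ _) _
    exact hint.comp_add_right (ℓ n)

open FourierTransform in
lemma plancherel_one (hPl : ∀ (g : ℝ → ℂ), Integrable g → MemLp g 2 →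
      ∫⁻ ξ : ℝ, ‖𝓕 g ξ‖ₑ ^ 2 = ∫⁻ z : ℝ, ‖g z‖ₑ ^ 2)
    (g : ℝ → ℂ) (hg : Integrable g) (hg2 : MemLp g 2)
    (L : ℕ) (w : ℕ → ℂ) (ℓ : ℕ → ℝ) :
    ∫⁻ u : ℝ, ‖∑ n ∈ range L, w n * g (u + ℓ n)‖ₑ ^ 2 =
      ∫⁻ ξ : ℝ, ‖𝓕 g ξ‖ₑ ^ 2 * ‖∑ n ∈ range L, w n * e (ξ * ℓ n)‖ₑ ^ 2 := by
  rw [← hPl (fun u => ∑ n ∈ range L, w n * g (u + ℓ n))]
  · refine lintegral_congr fun ξ => ?_
    rw [fourier_sum g hg, enorm_mul, mul_pow]
  · refine integrable_finsetSum _ fun n _ => ?_
    exact (hg.comp_add_right (ℓ n)).const_mul _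
  · refine memLp_finsetSum _ fun n _ => ?_
    refine MemLp.const_mul ?_ _
    exact hg2.comp_measurePreserving (measurePreserving_add_right volume (ℓ n))

open FourierTransform in
theorem plancherel_k (hPl : ∀ (g : ℝ → ℂ), Integrable g → MemLp g 2 →
      ∫⁻ ξ : ℝ, ‖𝓕 g ξ‖ₑ ^ 2 = ∫⁻ z : ℝ, ‖g z‖ₑ ^ 2)
    (k : ℕ) (g : Fin k → ℝ → ℂ) (hg : ∀ j, Integrable (g j)) (hg2 : ∀ j, MemLp (g j) 2) (hgm : ∀ j, Measurable (g j))
    (L : ℕ) (w : ℕ → ℂ) (ℓ : Fin k → ℕ → ℝ) :
    ∫⁻ u : Fin k → ℝ, ‖∑ n ∈ range L, w n * ∏ j, g j (u j + ℓ j n)‖ₑ ^ 2 =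
      ∫⁻ ξ : Fin k → ℝ, (∏ j, ‖𝓕 (g j) (ξ j)‖ₑ ^ 2) * ‖∑ n ∈ range L, w n * e (∑ j, ξ j * ℓ j n)‖ₑ ^ 2 := by
  induction k generalizing w with
  | zero =>
    simp [e_zero]
  | succ k ih =>
    have hem : Measurable e := e_cont.measurable
    have hFm : ∀ j, Measurable (𝓕 (g j)) := fun j => (fourier_cont (g j) (hg j)).measurable
    have hsplit : ∀ F : (Fin (k + 1) → ℝ) → ENNReal, Measurable F →
        ∫⁻ u : Fin (k + 1) → ℝ, F u = ∫⁻ v : Fin k → ℝ, ∫⁻ x : ℝ, F (Fin.cons x v) := by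
      intro F hF
      have hmp := (volume_preserving_piFinSuccAbove (fun _ : Fin (k + 1) => ℝ) 0).symm
      rw [← hmp.lintegral_comp hF]
      have hm : Measurable (fun p : ℝ × (Fin k → ℝ) =>
          F ((MeasurableEquiv.piFinSuccAbove (fun _ : Fin (k + 1) => ℝ) 0).symm p)) :=
        hF.comp (MeasurableEquiv.measurable _)
      have h2 := lintegral_prod_symm' (μ := (volume : Measure ℝ)) (ν := (volume : Measure (Fin k → ℝ))) _ hm
      rw [show (volume : Measure (ℝ × (Fin k → ℝ))) = (volume : Measure ℝ).prod volume from rfl]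
      refine h2.trans ?_
      refine lintegral_congr fun v => lintegral_congr fun x => ?_
      congr 1
      simp [MeasurableEquiv.piFinSuccAbove, Fin.insertNthEquiv]
    have mA : Measurable (fun u : Fin (k + 1) → ℝ => ‖∑ n ∈ range L, w n * ∏ j, g j (u j + ℓ j n)‖ₑ ^ 2) := by
      refine Measurable.pow_const (Measurable.enorm ?_) _
      refine Finset.measurable_sum _ fun n _ => ?_
      refine Measurable.const_mul ?_ _
      refine Finset.measurable_prod _ fun j _ => ?_
      exact (hgm j).comp (by fun_prop)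
    have mB : Measurable (fun ξ : Fin (k + 1) → ℝ => (∏ j, ‖𝓕 (g j) (ξ j)‖ₑ ^ 2) *
        ‖∑ n ∈ range L, w n * e (∑ j, ξ j * ℓ j n)‖ₑ ^ 2) := by
      refine Measurable.mul ?_ ?_
      · refine Finset.measurable_prod _ fun j _ => ?_
        exact Measurable.pow_const (Measurable.enorm ((hFm j).comp (by fun_prop))) _
      · refine Measurable.pow_const (Measurable.enorm ?_) _
        refine Finset.measurable_sum _ fun n _ => ?_
        refine Measurable.const_mul ?_ _
        exact hem.comp (by fun_prop)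
    rw [hsplit _ mA, hsplit _ mB]
    have step1 : ∀ v : Fin k → ℝ,
        ∫⁻ x : ℝ, ‖∑ n ∈ range L, w n * ∏ j, g j ((Fin.cons x v : Fin (k + 1) → ℝ) j + ℓ j n)‖ₑ ^ 2
        = ∫⁻ ξ : ℝ, ‖𝓕 (g 0) ξ‖ₑ ^ 2 * ‖∑ n ∈ range L, (w n * e (ξ * ℓ 0 n)) *
            ∏ j : Fin k, g j.succ (v j + ℓ j.succ n)‖ₑ ^ 2 := by
      intro v
      have h := plancherel_one hPl (g 0) (hg 0) (hg2 0) L
        (fun n => w n * ∏ j : Fin k, g j.succ (v j + ℓ j.succ n)) (ℓ 0)
      refine Eq.trans ?_ (h.trans ?_)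
      · refine lintegral_congr fun x => ?_
        congr 2
        refine Finset.sum_congr rfl fun n _ => ?_
        rw [Fin.prod_univ_succ]
        simp only [Fin.cons_zero, Fin.cons_succ]
        ring
      · refine lintegral_congr fun ξ => ?_
        congr 3
        refine Finset.sum_congr rfl fun n _ => ?_
        ring
    simp_rw [step1]
    rw [lintegral_lintegral_swap]
    · have step2 : ∀ ξ : ℝ, ∫⁻ v : Fin k → ℝ, ‖𝓕 (g 0) ξ‖ₑ ^ 2 * ‖∑ n ∈ range L, (w n * e (ξ * ℓ 0 n)) *
            ∏ j : Fin k, g j.succ (v j + ℓ j.succ n)‖ₑ ^ 2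
          = ∫⁻ η : Fin k → ℝ, ‖𝓕 (g 0) ξ‖ₑ ^ 2 * ((∏ j : Fin k, ‖𝓕 (g j.succ) (η j)‖ₑ ^ 2) *
            ‖∑ n ∈ range L, (w n * e (ξ * ℓ 0 n)) * e (∑ j, η j * ℓ j.succ n)‖ₑ ^ 2) := by
        intro ξ
        rw [lintegral_const_mul, lintegral_const_mul]
        · rw [ih (fun j => g j.succ) (fun j => hg j.succ) (fun j => hg2 j.succ) (fun j => hgm j.succ)
            (fun n => w n * e (ξ * ℓ 0 n)) (fun j => ℓ j.succ)]
        · refine Measurable.mul ?_ ?_
          · refine Finset.measurable_prod _ fun j _ => ?_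
            exact Measurable.pow_const (Measurable.enorm ((hFm j.succ).comp (by fun_prop))) _
          · refine Measurable.pow_const (Measurable.enorm ?_) _
            refine Finset.measurable_sum _ fun n _ => ?_
            refine Measurable.const_mul ?_ _
            exact hem.comp (by fun_prop)
        · refine Measurable.pow_const (Measurable.enorm ?_) _
          refine Finset.measurable_sum _ fun n _ => ?_
          refine Measurable.const_mul ?_ _
          refine Finset.measurable_prod _ fun j _ => ?_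
          exact (hgm j.succ).comp (by fun_prop)
      simp_rw [step2]
      rw [lintegral_lintegral_swap]
      · refine lintegral_congr fun v => lintegral_congr fun x => ?_
        rw [Fin.prod_univ_succ]
        simp only [Fin.cons_zero, Fin.cons_succ]
        rw [mul_assoc]
        have e1 : ∑ n ∈ range L, w n * e (∑ j, (Fin.cons x v : Fin (k + 1) → ℝ) j * ℓ j n)
            = ∑ n ∈ range L, w n * e (x * ℓ 0 n) * e (∑ j, v j * ℓ j.succ n) := by
          refine Finset.sum_congr rfl fun n _ => ?_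
          rw [Fin.sum_univ_succ, e_add]
          simp only [Fin.cons_zero, Fin.cons_succ]
          ring
        rw [e1]
      · refine Measurable.aemeasurable ?_
        show Measurable (fun p : ℝ × (Fin k → ℝ) => ‖𝓕 (g 0) p.1‖ₑ ^ 2 *
          ((∏ j : Fin k, ‖𝓕 (g j.succ) (p.2 j)‖ₑ ^ 2) *
            ‖∑ n ∈ range L, (w n * e (p.1 * ℓ 0 n)) * e (∑ j, p.2 j * ℓ j.succ n)‖ₑ ^ 2))
        have m1 : Measurable (fun p : ℝ × (Fin k → ℝ) => ‖𝓕 (g 0) p.1‖ₑ ^ 2) :=
          Measurable.pow_const (Measurable.enorm ((hFm 0).comp measurable_fst)) _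
        have m2 : Measurable (fun p : ℝ × (Fin k → ℝ) => ∏ j : Fin k, ‖𝓕 (g j.succ) (p.2 j)‖ₑ ^ 2) := by
          refine Finset.measurable_prod _ fun j _ => ?_
          exact Measurable.pow_const (Measurable.enorm ((hFm j.succ).comp (by fun_prop))) _
        have m3 : ∀ n, Measurable (fun p : ℝ × (Fin k → ℝ) => e (p.1 * ℓ 0 n)) := fun n =>
          hem.comp (by fun_prop)
        have m4 : ∀ n, Measurable (fun p : ℝ × (Fin k → ℝ) => e (∑ j, p.2 j * ℓ j.succ n)) := fun n =>
          hem.comp (by fun_prop)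
        have m5 : Measurable (fun p : ℝ × (Fin k → ℝ) =>
            ‖∑ n ∈ range L, (w n * e (p.1 * ℓ 0 n)) * e (∑ j, p.2 j * ℓ j.succ n)‖ₑ ^ 2) := by
          refine Measurable.pow_const (Measurable.enorm ?_) _
          refine Finset.measurable_sum _ fun n _ => ?_
          exact Measurable.mul (Measurable.const_mul (m3 n) _) (m4 n)
        exact m1.mul (m2.mul m5)
    · refine Measurable.aemeasurable ?_
      show Measurable (fun p : (Fin k → ℝ) × ℝ => ‖𝓕 (g 0) p.2‖ₑ ^ 2 *
        ‖∑ n ∈ range L, w n * e (p.2 * ℓ 0 n) * ∏ j : Fin k, g j.succ (p.1 j + ℓ j.succ n)‖ₑ ^ 2)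
      have m1 : Measurable (fun p : (Fin k → ℝ) × ℝ => ‖𝓕 (g 0) p.2‖ₑ ^ 2) :=
        Measurable.pow_const (Measurable.enorm ((hFm 0).comp measurable_snd)) _
      have m3 : ∀ n, Measurable (fun p : (Fin k → ℝ) × ℝ => e (p.2 * ℓ 0 n)) := fun n =>
        hem.comp (by fun_prop)
      have m4 : ∀ n, Measurable (fun p : (Fin k → ℝ) × ℝ => ∏ j : Fin k, g j.succ (p.1 j + ℓ j.succ n)) := by
        intro n
        refine Finset.measurable_prod _ fun j _ => ?_
        exact (hgm j.succ).comp (by fun_prop)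
      have m5 : Measurable (fun p : (Fin k → ℝ) × ℝ =>
          ‖∑ n ∈ range L, w n * e (p.2 * ℓ 0 n) * ∏ j : Fin k, g j.succ (p.1 j + ℓ j.succ n)‖ₑ ^ 2) := by
        refine Measurable.pow_const (Measurable.enorm ?_) _
        refine Finset.measurable_sum _ fun n _ => ?_
        exact Measurable.mul (Measurable.const_mul (m3 n) _) (m4 n)
      exact m1.mul m5

end TU3

end Pool.Agent.helper616_TS
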