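import Pool.Agent.helper616_TS.Defs
import Pool.Agent.helper616_TS.TU5

/-!
# Project TS (helper616): frequencies near a hyperplane
-/

set_option autoImplicit false

open Finset MeasureTheory Filter Topology

namespace Pool.Agent.helper616_TS

namespace TU4

/-- the case of `m + 1` variables -/
theorem slab_aux (m : ℕ) (F : Fin (m + 1) → ℝ → ENNReal) (hF : ∀ j, Measurable (F j)) (I : Fin (m + 1) → ENNReal)
    (hI : ∀ j, ∫⁻ x : ℝ, F j x ≤ I j) (c : Fin (m + 1) → ℝ) (i₀ : Fin (m + 1)) (hc : 0 < c i₀) (S : ENNReal) (hS : ∀ x, F i₀ x ≤ S)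
    (X : ℝ) (hX : 0 ≤ X) :
    ∫⁻ ξ in {ξ : Fin (m + 1) → ℝ | |∑ j, c j * ξ j| ≤ X}, ∏ j, F j (ξ j) ≤
      S * ENNReal.ofReal (2 * X / c i₀) * ∏ j ∈ univ.erase i₀, I j := by
  have hmeas : MeasurableSet {ξ : Fin (m + 1) → ℝ | |∑ j, c j * ξ j| ≤ X} := by
    apply measurableSet_le
    · fun_prop
    · fun_prop
  rw [← lintegral_indicator hmeas]
  set G : (Fin (m + 1) → ℝ) → ENNReal := {ξ : Fin (m + 1) → ℝ | |∑ j, c j * ξ j| ≤ X}.indicator (fun ξ => ∏ j, F j (ξ j)) with hG
  have hGm : Measurable G := by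
    refine Measurable.indicator ?_ hmeas
    exact Finset.measurable_prod _ fun j _ => (hF j).comp (measurable_pi_apply j)
  have hmp := (volume_preserving_piFinSuccAbove (fun _ : Fin (m + 1) => ℝ) i₀).symm
  rw [← hmp.lintegral_comp hGm]
  have h1 : ∀ p : ℝ × (Fin m → ℝ), G ((MeasurableEquiv.piFinSuccAbove (fun _ : Fin (m + 1) => ℝ) i₀).symm p) ≤
      ({x : ℝ | |c i₀ * x + ∑ j, c (i₀.succAbove j) * p.2 j| ≤ X}.indicator (fun _ => S) p.1) *
        ∏ j, F (i₀.succAbove j) (p.2 j) := by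
    intro p
    have e1 : ((MeasurableEquiv.piFinSuccAbove (fun _ : Fin (m + 1) => ℝ) i₀).symm p) = i₀.insertNth p.1 p.2 := rfl
    rw [e1]
    have hs : ∑ j, c j * (i₀.insertNth p.1 p.2 : Fin (m + 1) → ℝ) j =
        c i₀ * p.1 + ∑ j, c (i₀.succAbove j) * p.2 j := by
      rw [Fin.sum_univ_succAbove _ i₀]
      simp
    have hp : ∏ j, F j ((i₀.insertNth p.1 p.2 : Fin (m + 1) → ℝ) j) =
        F i₀ p.1 * ∏ j, F (i₀.succAbove j) (p.2 j) := by
      rw [Fin.prod_univ_succAbove _ i₀]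
      simp
    rw [hG]
    by_cases h : |c i₀ * p.1 + ∑ j, c (i₀.succAbove j) * p.2 j| ≤ X
    · rw [Set.indicator_of_mem, Set.indicator_of_mem, hp]
      · exact mul_le_mul_left (hS p.1) _
      · exact h
      · rw [Set.mem_ofPred_eq, hs]; exact h
    · rw [Set.indicator_of_notMem]
      · exact bot_le
      · rw [Set.mem_ofPred_eq, hs]; exact h
  have hvol : ∀ t : ℝ, volume {x : ℝ | |c i₀ * x + t| ≤ X} ≤ ENNReal.ofReal (2 * X / c i₀) := by
    intro t
    have hsub : {x : ℝ | |c i₀ * x + t| ≤ X} ⊆ Set.Icc ((-X - t) / c i₀) ((X - t) / c i₀) := by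
      intro x hx
      rw [Set.mem_ofPred_eq, abs_le] at hx
      constructor
      · rw [div_le_iff₀ hc]; linarith [hx.1]
      · rw [le_div_iff₀ hc]; linarith [hx.2]
    refine (measure_mono hsub).trans ?_
    rw [Real.volume_Icc]
    apply le_of_eq
    congr 1
    ring
  have hms : MeasurableSet {p : ℝ × (Fin m → ℝ) | |c i₀ * p.1 + ∑ j, c (i₀.succAbove j) * p.2 j| ≤ X} := by
    apply measurableSet_le
    · fun_prop
    · fun_prop
  have hm2 : Measurable (fun p : ℝ × (Fin m → ℝ) =>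
      ({x : ℝ | |c i₀ * x + ∑ j, c (i₀.succAbove j) * p.2 j| ≤ X}.indicator (fun _ => S) p.1) *
        ∏ j, F (i₀.succAbove j) (p.2 j)) := by
    refine Measurable.mul ?_ ?_
    · have : (fun p : ℝ × (Fin m → ℝ) => {x : ℝ | |c i₀ * x + ∑ j, c (i₀.succAbove j) * p.2 j| ≤ X}.indicator (fun _ => S) p.1) =
          {p : ℝ × (Fin m → ℝ) | |c i₀ * p.1 + ∑ j, c (i₀.succAbove j) * p.2 j| ≤ X}.indicator (fun _ => S) := by
        funext p
        simp only [Set.indicator_apply, Set.mem_ofPred_eq]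
      rw [this]
      exact measurable_const.indicator hms
    · exact Finset.measurable_prod _ fun j _ => (hF _).comp ((measurable_pi_apply j).comp measurable_snd)
  calc ∫⁻ p, G ((MeasurableEquiv.piFinSuccAbove (fun _ : Fin (m + 1) => ℝ) i₀).symm p)
      ≤ ∫⁻ p : ℝ × (Fin m → ℝ), ({x : ℝ | |c i₀ * x + ∑ j, c (i₀.succAbove j) * p.2 j| ≤ X}.indicator (fun _ => S) p.1) *
        ∏ j, F (i₀.succAbove j) (p.2 j) := lintegral_mono h1
    _ = ∫⁻ y : Fin m → ℝ, ∫⁻ x : ℝ, ({x : ℝ | |c i₀ * x + ∑ j, c (i₀.succAbove j) * y j| ≤ X}.indicator (fun _ => S) x) *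
        ∏ j, F (i₀.succAbove j) (y j) := by
        rw [Measure.volume_eq_prod, lintegral_prod_symm' _ hm2]
    _ ≤ ∫⁻ y : Fin m → ℝ, S * ENNReal.ofReal (2 * X / c i₀) * ∏ j, F (i₀.succAbove j) (y j) := by
        refine lintegral_mono fun y => ?_
        have hme : MeasurableSet {x : ℝ | |c i₀ * x + ∑ j, c (i₀.succAbove j) * y j| ≤ X} := by
          apply measurableSet_le
          · fun_prop
          · fun_prop
        have h3 : Measurable (fun x : ℝ => {x : ℝ | |c i₀ * x + ∑ j, c (i₀.succAbove j) * y j| ≤ X}.indicator (fun _ => S) x) :=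
          measurable_const.indicator hme
        rw [lintegral_mul_const _ h3]
        refine mul_le_mul_left ?_ _
        rw [lintegral_indicator hme, lintegral_const, Measure.restrict_apply_univ]
        exact mul_le_mul_right (hvol _) _
    _ = S * ENNReal.ofReal (2 * X / c i₀) * ∏ j, ∫⁻ x : ℝ, F (i₀.succAbove j) x := by
        rw [lintegral_const_mul]
        · congr 1
          exact TU5.lint_prod m (fun j => F (i₀.succAbove j)) (fun j => hF (i₀.succAbove j))
        · exact Finset.measurable_prod _ fun j _ => (hF _).comp (measurable_pi_apply j)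
    _ ≤ S * ENNReal.ofReal (2 * X / c i₀) * ∏ j, I (i₀.succAbove j) := by
        refine mul_le_mul_right ?_ _
        exact Finset.prod_le_prod' fun j _ => hI _
    _ = S * ENNReal.ofReal (2 * X / c i₀) * ∏ j ∈ univ.erase i₀, I j := by
        congr 1
        symm
        rw [show univ.erase i₀ = univ.map i₀.succAboveEmb by
          ext j
          simp only [mem_erase, mem_univ, and_true, Finset.mem_map, true_and]
          constructor
          · intro h
            obtain ⟨z, hz⟩ := Fin.exists_succAbove_eq h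
            exact ⟨z, hz⟩
          · rintro ⟨z, hz⟩
            rw [← hz]
            exact Fin.succAbove_ne i₀ z]
        rw [prod_map]
        rfl

open FourierTransform in
theorem slab (k : ℕ) (F : Fin k → ℝ → ENNReal) (hF : ∀ j, Measurable (F j)) (I : Fin k → ENNReal)
    (hI : ∀ j, ∫⁻ x : ℝ, F j x ≤ I j) (c : Fin k → ℝ) (i₀ : Fin k) (hc : 0 < c i₀) (S : ENNReal) (hS : ∀ x, F i₀ x ≤ S)
    (X : ℝ) (hX : 0 ≤ X) :
    ∫⁻ ξ in {ξ : Fin k → ℝ | |∑ j, c j * ξ j| ≤ X}, ∏ j, F j (ξ j) ≤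
      S * ENNReal.ofReal (2 * X / c i₀) * ∏ j ∈ univ.erase i₀, I j := by
  cases k with
  | zero => exact i₀.elim0
  | succ m => exact slab_aux m F hF I hI c i₀ hc S hS X hX

end TU4

end Pool.Agent.helper616_TS
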