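import Pool.Agent.helper616_TS.Defs
import Pool.Agent.helper616_TS.TS6
import Pool.Agent.helper616_TS.TS7
import Pool.Agent.helper616_TS.TU2
import Pool.Agent.helper616_TS.TU3
import Pool.Agent.helper616_TS.TU4
import Pool.Agent.helper616_TS.TU5

/-!
# Project TS (helper616): the mean square over several dilations
-/

set_option autoImplicit false
set_option maxHeartbeats 4000000

open Finset MeasureTheory Filter Topology

namespace Pool.Agent.helper616_TS

open TS6 (psi_props)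
open TS7 (psi_high)
open TU2 (psi_sup)
open TU3 (plancherel_k)
open TU4 (slab)
open TU5 (tail)

namespace TU6


theorem lintegral_prod_fin (n : ℕ) (F : Fin n → ℝ → ENNReal) (hF : ∀ j, Measurable (F j)) :
    ∫⁻ x : Fin n → ℝ, ∏ i, F i (x i) = ∏ i, ∫⁻ x, F i x := by
  induction n with
  | zero =>
    have h0 : (volume : Measure (Fin 0 → ℝ)) Set.univ = 1 := by
      rw [volume_pi]; exact Measure.pi_empty_univ _
    simp [h0]
  | succ n ih =>
    calc ∫⁻ x : Fin (n + 1) → ℝ, ∏ i, F i (x i)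
        = ∫⁻ x : ℝ × (Fin n → ℝ), F 0 x.1 * ∏ i : Fin n, F (Fin.succ i) (x.2 i)
            ∂((volume : Measure ℝ).prod (volume : Measure (Fin n → ℝ))) := by
          have h1 := (measurePreserving_piFinSuccAbove (fun _ : Fin (n + 1) => (volume : Measure ℝ)) 0).symm
          have h2 := h1.lintegral_comp_emb (MeasurableEquiv.measurableEmbedding _)
            (fun x : Fin (n + 1) → ℝ => ∏ i, F i (x i))
          change ∫⁻ x : Fin (n + 1) → ℝ, ∏ i, F i (x i) ∂(Measure.pi fun _ => volume) = _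
          rw [← h2]
          apply lintegral_congr
          intro x
          simp only [MeasurableEquiv.piFinSuccAbove_symm_apply, Fin.insertNthEquiv,
            Fin.prod_univ_succ, Fin.insertNth_zero, Equiv.coe_fn_mk, Fin.cons_succ,
            Fin.zero_succAbove, Fin.cons_zero]
          rfl
      _ = (∫⁻ x, F 0 x) * ∏ i : Fin n, ∫⁻ x, F (Fin.succ i) x := by
          rw [← ih (fun i => F i.succ) (fun i => hF _)]
          rw [← lintegral_prod_mul]
          · exact (hF 0).aemeasurable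
          · exact (Finset.measurable_prod _ (fun i _ => (hF _).comp (measurable_pi_apply i))).aemeasurable
      _ = ∏ i, ∫⁻ x, F i x := by rw [Fin.prod_univ_succ]

theorem psi_measurable (h : ℕ → ℝ) (v0 v1 : ℝ) : Measurable (Psi h v0 v1) := by
  unfold Psi
  apply Measurable.indicator _ measurableSet_Ioc
  have h1 : Measurable (fun n : ℕ => (h n : ℂ)) := measurable_of_countable _
  exact h1.comp (Nat.measurable_floor.comp Real.measurable_exp)

open FourierTransform in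
theorem fourier_meas (g : ℝ → ℂ) (hg : Integrable g) : Measurable (fun ξ => ‖𝓕 g ξ‖ₑ ^ 2) := by
  have h1 : Continuous (𝓕 g) := by
    have := VectorFourier.fourierIntegral_continuous (V := ℝ) (W := ℝ) (μ := volume) (e := Real.fourierChar)
      (L := innerₗ ℝ) Real.continuous_fourierChar (by
        have : Continuous fun p : ℝ × ℝ => inner ℝ p.1 p.2 := continuous_inner
        exact this) hg
    exact this
  exact (h1.measurable.enorm.pow_const 2)

theorem one_le_log (J : ℕ) (hJ : 3 ≤ J) : 1 ≤ Real.log J := by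
  have h1 : (Real.exp 1) ≤ (J : ℝ) := by
    have h2 : Real.exp 1 < 2.7182818286 := Real.exp_one_lt_d9
    have h3 : (3 : ℝ) ≤ J := by exact_mod_cast hJ
    linarith
  have := Real.log_le_log (Real.exp_pos 1) h1
  rwa [Real.log_exp] at this

theorem wbound (w : ℕ → ℝ) (hw : LogBdd w) :
    ∃ W0 : ℝ, 0 ≤ W0 ∧ ∃ q : ℕ, ∀ J : ℕ, 3 ≤ J → ∀ n ≤ J, |w (J + n)| ≤ W0 * (Real.log J) ^ q := by
  obtain ⟨C, k, hC⟩ := hw
  refine ⟨|C| * 2 ^ k, by positivity, k, ?_⟩
  intro J hJ n hn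
  have hl := one_le_log J hJ
  have h1 := hC (J + n)
  have hJ3 : (3 : ℝ) ≤ J := by exact_mod_cast hJ
  have hnJ : (n : ℝ) ≤ J := by exact_mod_cast hn
  have hn0 : (0 : ℝ) ≤ n := Nat.cast_nonneg n
  have h2 : Real.log (((J + n : ℕ) : ℝ) + 2) ≤ 2 * Real.log J := by
    have h3 : Real.log (((J + n : ℕ) : ℝ) + 2) ≤ Real.log ((J : ℝ) ^ 2) := by
      apply Real.log_le_log (by push_cast; linarith)
      push_cast
      nlinarith
    rw [Real.log_pow] at h3
    exact_mod_cast h3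
  have h0 : 0 ≤ Real.log (((J + n : ℕ) : ℝ) + 2) := Real.log_nonneg (by push_cast; linarith)
  calc |w (J + n)| ≤ C * Real.log (((J + n : ℕ) : ℝ) + 2) ^ k := h1
    _ ≤ |C| * Real.log (((J + n : ℕ) : ℝ) + 2) ^ k :=
      mul_le_mul_of_nonneg_right (le_abs_self C) (pow_nonneg h0 k)
    _ ≤ |C| * (2 * Real.log J) ^ k :=
      mul_le_mul_of_nonneg_left (pow_le_pow_left₀ h0 h2 k) (abs_nonneg C)
    _ = |C| * 2 ^ k * Real.log J ^ k := by rw [mul_pow]; ring

theorem hbound (k : ℕ) (h : Fin k → ℕ → ℝ) (hb : ∀ j, LogBdd (h j)) (c b : Fin k → ℝ)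
    (hc : ∀ j, 0 < c j) :
    ∃ K0 : ℝ, 0 ≤ K0 ∧ ∃ q : ℕ, ∀ J : ℕ, 3 ≤ J → ∀ j, ∀ m : ℕ,
      (m : ℝ) ≤ Real.exp (b j + c j * (Real.log J + Real.log 2) + 1) →
        |h j m| ≤ K0 * (Real.log J) ^ q := by
  choose C kk hC using hb
  set D : Fin k → ℝ := fun j => |b j| + 2 * c j + 4 with hD
  have hD1 : ∀ j, 1 ≤ D j := by
    intro j
    have := abs_nonneg (b j)
    have := hc j
    simp only [hD]; linarith
  refine ⟨∑ j, |C j| * (D j) ^ (kk j), ?_, ∑ j, kk j, ?_⟩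
  · exact Finset.sum_nonneg (fun j _ => mul_nonneg (abs_nonneg _) (pow_nonneg (by linarith [hD1 j]) _))
  intro J hJ j m hm
  have hl := one_le_log J hJ
  have hl2 : Real.log 2 ≤ 1 := by linarith [Real.log_two_lt_d9]
  have hl20 : 0 < Real.log 2 := Real.log_pos (by norm_num)
  set v : ℝ := b j + c j * (Real.log J + Real.log 2) + 1 with hv
  have hm0 : (0 : ℝ) ≤ m := Nat.cast_nonneg m
  -- log (m+2) ≤ D log J
  have h2 : Real.log ((m : ℝ) + 2) ≤ D j * Real.log J := by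
    have hmax : (m : ℝ) + 2 ≤ 3 * Real.exp (max v 0) := by
      have h3 : Real.exp v ≤ Real.exp (max v 0) := Real.exp_le_exp.2 (le_max_left _ _)
      have h4 : 1 ≤ Real.exp (max v 0) := Real.one_le_exp (le_max_right _ _)
      linarith
    have h5 : Real.log ((m : ℝ) + 2) ≤ Real.log 3 + max v 0 := by
      have := Real.log_le_log (by linarith) hmax
      rwa [Real.log_mul (by norm_num) (Real.exp_pos _).ne', Real.log_exp] at this
    have h6 : Real.log 3 ≤ 2 := by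
      have : Real.log 3 ≤ 3 - 1 := Real.log_le_sub_one_of_pos (by norm_num)
      linarith
    have h7 : max v 0 ≤ |b j| + c j * (Real.log J + 1) + 1 := by
      apply max_le
      · rw [hv]
        have := le_abs_self (b j)
        have h8 : c j * (Real.log J + Real.log 2) ≤ c j * (Real.log J + 1) :=
          mul_le_mul_of_nonneg_left (by linarith) (hc j).le
        linarith
      · have := abs_nonneg (b j)
        have : 0 ≤ c j * (Real.log J + 1) := mul_nonneg (hc j).le (by linarith)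
        linarith
    have h9 : |b j| + c j * (Real.log J + 1) + 1 + 2 ≤ D j * Real.log J := by
      simp only [hD]
      have hb0 := abs_nonneg (b j)
      have hcj := hc j
      nlinarith
    linarith
  have h0 : 0 ≤ Real.log ((m : ℝ) + 2) := Real.log_nonneg (by linarith)
  calc |h j m| ≤ C j * Real.log ((m : ℝ) + 2) ^ (kk j) := hC j m
    _ ≤ |C j| * Real.log ((m : ℝ) + 2) ^ (kk j) :=
      mul_le_mul_of_nonneg_right (le_abs_self _) (pow_nonneg h0 _)
    _ ≤ |C j| * (D j * Real.log J) ^ (kk j) :=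
      mul_le_mul_of_nonneg_left (pow_le_pow_left₀ h0 h2 _) (abs_nonneg _)
    _ = |C j| * D j ^ (kk j) * Real.log J ^ (kk j) := by rw [mul_pow]; ring
    _ ≤ |C j| * D j ^ (kk j) * Real.log J ^ (∑ j, kk j) := by
      apply mul_le_mul_of_nonneg_left _ (mul_nonneg (abs_nonneg _) (pow_nonneg (by linarith [hD1 j]) _))
      exact pow_le_pow_right₀ hl (Finset.single_le_sum (f := kk) (fun i _ => Nat.zero_le _) (Finset.mem_univ j))
    _ ≤ (∑ j, |C j| * (D j) ^ (kk j)) * Real.log J ^ (∑ j, kk j) := by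
      apply mul_le_mul_of_nonneg_right _ (pow_nonneg (by linarith) _)
      exact Finset.single_le_sum (f := fun j => |C j| * (D j) ^ (kk j))
        (fun i _ => mul_nonneg (abs_nonneg _) (pow_nonneg (by linarith [hD1 i]) _)) (Finset.mem_univ j)

theorem int_le_of_lint {α : Type*} [MeasurableSpace α] (μ : Measure α) (f : α → ℝ) (hf : ∀ x, 0 ≤ f x)
    (C : ℝ) (hC : 0 ≤ C) (h : ∫⁻ x, ENNReal.ofReal (f x) ∂μ ≤ ENNReal.ofReal C) :
    ∫ x, f x ∂μ ≤ C := by
  by_cases hi : Integrable f μ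
  · rw [integral_eq_lintegral_of_nonneg_ae (Filter.Eventually.of_forall hf) hi.aestronglyMeasurable]
    exact ENNReal.toReal_le_of_le_ofReal hC h
  · rw [integral_undef hi]; exact hC

theorem inv_sq_tail (Y : ℝ) (hY : 0 < Y) (Q : ℝ) :
    ∫⁻ x in {x : ℝ | Y < |x|}, ENNReal.ofReal (Q ^ 2 / x ^ 2) ≤ ENNReal.ofReal (2 * (Q ^ 2 / Y)) := by
  have hpos : ∫⁻ x in Set.Ioi Y, ENNReal.ofReal (Q ^ 2 / x ^ 2) = ENNReal.ofReal (Q ^ 2 / Y) := by
    have hint : IntegrableOn (fun x : ℝ => x ^ (-2 : ℝ)) (Set.Ioi Y) :=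
      integrableOn_Ioi_rpow_of_lt (by norm_num) hY
    have hval : ∫ x in Set.Ioi Y, x ^ (-2 : ℝ) = 1 / Y := by
      rw [integral_Ioi_rpow_of_lt (by norm_num) hY]
      norm_num
      rw [Real.rpow_neg_one]
    have h1 : ∫⁻ x in Set.Ioi Y, ENNReal.ofReal (x ^ (-2 : ℝ)) = ENNReal.ofReal (1 / Y) := by
      rw [← hval, ofReal_integral_eq_lintegral_ofReal hint]
      filter_upwards [ae_restrict_mem measurableSet_Ioi] with x hx
      exact Real.rpow_nonneg (le_of_lt (lt_trans hY hx)) _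
    calc ∫⁻ x in Set.Ioi Y, ENNReal.ofReal (Q ^ 2 / x ^ 2)
        = ∫⁻ x in Set.Ioi Y, ENNReal.ofReal (Q ^ 2) * ENNReal.ofReal (x ^ (-2 : ℝ)) := by
          apply setLIntegral_congr_fun measurableSet_Ioi
          intro x hx
          have hx0 : 0 < x := lt_trans hY hx
          show ENNReal.ofReal (Q ^ 2 / x ^ 2) = ENNReal.ofReal (Q ^ 2) * ENNReal.ofReal (x ^ (-2 : ℝ))
          rw [← ENNReal.ofReal_mul (by positivity)]
          congr 1
          rw [Real.rpow_neg hx0.le, Real.rpow_two, div_eq_mul_inv]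
      _ = ENNReal.ofReal (Q ^ 2) * ∫⁻ x in Set.Ioi Y, ENNReal.ofReal (x ^ (-2 : ℝ)) := by
          rw [lintegral_const_mul]
          exact ENNReal.measurable_ofReal.comp (by fun_prop)
      _ = ENNReal.ofReal (Q ^ 2 / Y) := by
          rw [h1, ← ENNReal.ofReal_mul (by positivity)]
          congr 1
          ring
  have hneg : ∫⁻ x in Set.Iio (-Y), ENNReal.ofReal (Q ^ 2 / x ^ 2) = ENNReal.ofReal (Q ^ 2 / Y) := by
    rw [← hpos]
    have hmp := Measure.measurePreserving_neg (volume : Measure ℝ)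
    have := hmp.setLIntegral_comp_preimage_emb (MeasurableEquiv.neg ℝ).measurableEmbedding
      (fun x => ENNReal.ofReal (Q ^ 2 / x ^ 2)) (Set.Ioi Y)
    rw [← this]
    have hpre : (Neg.neg ⁻¹' Set.Ioi Y : Set ℝ) = Set.Iio (-Y) := by
      ext x; simp
    rw [hpre]
    simp
  have hset : {x : ℝ | Y < |x|} ⊆ Set.Ioi Y ∪ Set.Iio (-Y) := by
    intro x hx
    replace hx : Y < |x| := hx
    rcases lt_abs.1 hx with h | h
    · left; exact h
    · right; simp only [Set.mem_Iio]; linarith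
  calc ∫⁻ x in {x : ℝ | Y < |x|}, ENNReal.ofReal (Q ^ 2 / x ^ 2)
      ≤ ∫⁻ x in Set.Ioi Y ∪ Set.Iio (-Y), ENNReal.ofReal (Q ^ 2 / x ^ 2) := lintegral_mono_set hset
    _ ≤ (∫⁻ x in Set.Ioi Y, ENNReal.ofReal (Q ^ 2 / x ^ 2)) +
          ∫⁻ x in Set.Iio (-Y), ENNReal.ofReal (Q ^ 2 / x ^ 2) := lintegral_union_le _ _ _
    _ = ENNReal.ofReal (2 * (Q ^ 2 / Y)) := by
        rw [hpos, hneg, ← ENNReal.ofReal_add (by positivity) (by positivity)]
        congr 1; ring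

theorem pow_log_le (J : ℕ) (hJ : 3 ≤ J) (N : ℕ) : Real.log J ^ N ≤ (N.factorial : ℝ) * J := by
  have hl := one_le_log J hJ
  have hJ0 : (0 : ℝ) < J := by exact_mod_cast (by omega : 0 < J)
  have h1 := Real.pow_div_factorial_le_exp (Real.log J) (by linarith) N
  rw [Real.exp_log hJ0, div_le_iff₀ (by positivity)] at h1
  linarith

set_option maxHeartbeats 4000000 in
open FourierTransform in
theorem meanSquareK (hPl : ∀ (g : ℝ → ℂ), Integrable g → MemLp g 2 →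
      ∫⁻ ξ : ℝ, ‖𝓕 g ξ‖ₑ ^ 2 = ∫⁻ z : ℝ, ‖g z‖ₑ ^ 2)
    (k : ℕ) (w : ℕ → ℝ) (hw : LogBdd w) (hE : ExpB w (fun n => (n : ℝ))) (c : Fin k → ℝ) (hc : ∀ j, 0 < c j)
    (h : Fin k → ℕ → ℝ) (hb : ∀ j, LogBdd (h j)) (i₀ : Fin k) (hm : MeanZero (h i₀)) (ht : TwistSmall (h i₀))
    (a b : Fin k → ℝ) (hab : ∀ j, a j ≤ b j) (A : ℕ) :
    ∃ C : ℝ, ∀ᶠ J : ℕ in atTop, ∀ L ≤ J,
      ∫ u in Set.Icc a b, (∑ n ∈ range L, w (J + n) * ∏ j, h j ⌊Real.exp (u j) * ((J + n : ℕ) : ℝ) ^ (c j)⌋₊) ^ 2 ≤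
        C * (J : ℝ) ^ 2 / (Real.log J) ^ A := by
  classical
  obtain ⟨W0, hW0, qw, hW⟩ := wbound w hw
  obtain ⟨K0, hK0, qh, hH⟩ := hbound k h hb c b hc
  set q : ℕ := qw + qh with hq
  have hl2 : 0 < Real.log 2 := Real.log_pos (by norm_num)
  have hl21 : Real.log 2 ≤ 1 := by linarith [Real.log_two_lt_d9]
  obtain ⟨D0, hD0⟩ : ∃ D0 : ℕ, ∀ j, |b j| + 2 * c j + 2 ≤ D0 := by
    obtain ⟨D0, h0⟩ := exists_nat_ge (∑ j, (|b j| + 2 * c j + 2))
    refine ⟨D0, fun j => le_trans ?_ h0⟩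
    exact Finset.single_le_sum (f := fun j => |b j| + 2 * c j + 2)
      (fun i _ => by have := abs_nonneg (b i); have := hc i; show 0 ≤ |b i| + 2 * c i + 2; linarith)
      (Finset.mem_univ j)
  set D : ℕ := D0 + 1 with hD
  set M : ℕ := 2 * D + 2 with hM
  set ρ : ℝ := ∑ j, (b j - a j + c j * Real.log 2 + 2) with hρ
  have hρj0 : ∀ j, 0 ≤ b j - a j + c j * Real.log 2 + 2 := by
    intro j
    have h1 := hab j
    have h2 := mul_pos (hc j) hl2
    linarith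
  have hρ0 : 0 ≤ ρ := Finset.sum_nonneg (fun j _ => hρj0 j)
  have hρj : ∀ j, b j - a j + c j * Real.log 2 + 2 ≤ ρ := fun j =>
    Finset.single_le_sum (f := fun j => b j - a j + c j * Real.log 2 + 2) (fun i _ => hρj0 i)
      (Finset.mem_univ j)
  set P : ℝ := K0 ^ 2 * ρ + 1 with hP
  have hP1 : 1 ≤ P := by have : 0 ≤ K0 ^ 2 * ρ := by positivity
                         linarith
  set A' : ℕ := A + 2 * q * k with hA'
  obtain ⟨T, CE, hCE⟩ := hE M A'
  set B' : ℕ := A + 2 * q + T + 2 * q * k with hB'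
  obtain ⟨Cs, hCs⟩ := psi_sup (h i₀) (hb i₀) hm ht (c i₀ / 2) (|b i₀| + 2 * c i₀ + 2)
    (b i₀ - a i₀ + c i₀ * Real.log 2 + 2) (by have := hc i₀; positivity) B'
  set N3 : ℕ := 4 * q + 2 * q * k + A with hN3
  set C1 : ℝ := W0 ^ 2 * Cs ^ 2 * (2 / c i₀) * P ^ k with hC1
  set C2 : ℝ := CE ^ 2 * P ^ k with hC2
  set C3 : ℝ := W0 ^ 2 * (k * (2 * K0 ^ 2)) * P ^ k * (N3.factorial : ℝ) with hC3
  refine ⟨C1 + C2 + C3, ?_⟩
  have hlogtop : Tendsto (fun J : ℕ => Real.log (J : ℝ)) atTop atTop :=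
    Real.tendsto_log_atTop.comp tendsto_natCast_atTop_atTop
  have hev1 : ∀ᶠ J : ℕ in atTop, (1 - a i₀) / (c i₀ / 2) ≤ Real.log (J : ℝ) :=
    hlogtop.eventually_ge_atTop _
  have hev2 : ∀ᶠ J : ℕ in atTop, (∑ j, c j) ≤ (J : ℝ) :=
    tendsto_natCast_atTop_atTop.eventually_ge_atTop _
  filter_upwards [hCE, hCs, hev1, hev2, eventually_ge_atTop 3] with J hJE hJs hJa hJc hJ3
  intro L hL
  set y : ℝ := Real.log (J : ℝ) with hy
  have hy1 : 1 ≤ y := one_le_log J hJ3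
  have hy0 : 0 < y := by linarith
  have hJ0 : (0 : ℝ) < J := by exact_mod_cast (by omega : 0 < J)
  have hJ3' : (3 : ℝ) ≤ J := by exact_mod_cast hJ3
  set v0 : Fin k → ℝ := fun j => a j + c j * y - 1 with hv0
  set v1 : Fin k → ℝ := fun j => b j + c j * (y + Real.log 2) + 1 with hv1
  have hv10 : ∀ j, v1 j - v0 j = b j - a j + c j * Real.log 2 + 2 := by
    intro j; simp only [hv0, hv1]; ring
  have hvle : ∀ j, v0 j ≤ v1 j := by
    intro j; have := hρj0 j; have := hv10 j; linarith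
  set g : Fin k → ℝ → ℂ := fun j => Psi (h j) (v0 j) (v1 j) with hg
  set ℓ : Fin k → ℕ → ℝ := fun j n => c j * Real.log ((J + n : ℕ) : ℝ) with hℓ
  set w' : ℕ → ℂ := fun n => (w (J + n) : ℂ) with hw'
  set K : ℝ := K0 * y ^ qh with hK
  have hKn : 0 ≤ K := mul_nonneg hK0 (pow_nonneg hy0.le _)
  have hHJ : ∀ j, ∀ m : ℕ, (m : ℝ) ≤ Real.exp (v1 j) → |h j m| ≤ K := by
    intro j m hmj
    exact hH J hJ3 j m hmj
  have hpp := fun j => psi_props (h j) (v0 j) (v1 j) K (hvle j) hKn (hHJ j)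
  -- left side
  set S : (Fin k → ℝ) → ℝ := fun u =>
    ∑ n ∈ range L, w (J + n) * ∏ j, h j ⌊Real.exp (u j) * ((J + n : ℕ) : ℝ) ^ (c j)⌋₊ with hS
  have hleft : ∀ u ∈ Set.Icc a b, ENNReal.ofReal (S u ^ 2) =
      ‖∑ n ∈ range L, w' n * ∏ j, g j (u j + ℓ j n)‖ₑ ^ 2 := by
    intro u hu
    have h1 : ∑ n ∈ range L, w' n * ∏ j, g j (u j + ℓ j n) = ((S u : ℝ) : ℂ) := by
      simp only [hS]
      push_cast
      apply Finset.sum_congr rfl
      intro n hn
      have hnL : n < L := Finset.mem_range.1 hn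
      have hnJ : n ≤ J := by omega
      congr 1
      apply Finset.prod_congr rfl
      intro j _
      have hJn0 : (0 : ℝ) < ((J + n : ℕ) : ℝ) := by exact_mod_cast (by omega : 0 < J + n)
      have hlow : y ≤ Real.log ((J + n : ℕ) : ℝ) := by
        apply Real.log_le_log hJ0
        exact_mod_cast (by omega : J ≤ J + n)
      have hupp : Real.log ((J + n : ℕ) : ℝ) ≤ y + Real.log 2 := by
        rw [hy, ← Real.log_mul hJ0.ne' (by norm_num)]
        apply Real.log_le_log hJn0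
        have : ((J + n : ℕ) : ℝ) ≤ ((J * 2 : ℕ) : ℝ) := by exact_mod_cast (by omega : J + n ≤ J * 2)
        push_cast at this ⊢
        exact this
      have hmem : u j + ℓ j n ∈ Set.Ioc (v0 j) (v1 j) := by
        have hu1 := hu.1 j
        have hu2 := hu.2 j
        have h3 : c j * y ≤ c j * Real.log ((J + n : ℕ) : ℝ) := mul_le_mul_of_nonneg_left hlow (hc j).le
        have h4 : c j * Real.log ((J + n : ℕ) : ℝ) ≤ c j * (y + Real.log 2) :=
          mul_le_mul_of_nonneg_left hupp (hc j).le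
        constructor
        · simp only [hv0, hℓ]; linarith
        · simp only [hv1, hℓ]; linarith
      simp only [hg, Psi]
      rw [Set.indicator_of_mem hmem]
      congr 3
      have hJn0' : (0 : ℝ) < (J : ℝ) + n := by exact_mod_cast hJn0
      rw [Real.exp_add, Real.rpow_def_of_pos hJn0']
      congr 1
      simp only [hℓ]
      push_cast
      rw [mul_comm]
    rw [h1]
    have h2 : ‖((S u : ℝ) : ℂ)‖ₑ = ENNReal.ofReal |S u| := by
      rw [← ofReal_norm, Complex.norm_real, Real.norm_eq_abs]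
    rw [h2, ← ENNReal.ofReal_pow (abs_nonneg _), sq_abs]
  -- Plancherel
  have hPk := plancherel_k hPl k g (fun j => (hpp j).1) (fun j => (hpp j).2.1)
    (fun j => psi_measurable _ _ _) L w' ℓ
  set F : Fin k → ℝ → ENNReal := fun j x => ‖𝓕 (g j) x‖ₑ ^ 2 with hF
  have hFm : ∀ j, Measurable (F j) := fun j => fourier_meas (g j) (hpp j).1
  set H : ℝ := P * y ^ (2 * q) with hHdef
  have hH1 : 1 ≤ H := by
    have : 1 ≤ y ^ (2 * q) := one_le_pow₀ hy1
    calc (1 : ℝ) = 1 * 1 := by ring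
      _ ≤ P * y ^ (2 * q) := mul_le_mul hP1 this (by norm_num) (by linarith)
  have hI : ∀ j, ∫⁻ x : ℝ, F j x ≤ ENNReal.ofReal H := by
    intro j
    simp only [hF]
    rw [hPl (g j) (hpp j).1 (hpp j).2.1]
    refine le_trans (hpp j).2.2 (ENNReal.ofReal_le_ofReal ?_)
    rw [hv10 j, hK, hHdef, hP]
    have h1 : (K0 * y ^ qh) ^ 2 * (b j - a j + c j * Real.log 2 + 2) ≤ (K0 * y ^ qh) ^ 2 * ρ :=
      mul_le_mul_of_nonneg_left (hρj j) (sq_nonneg _)
    have h2 : y ^ (2 * qh) ≤ y ^ (2 * q) := pow_le_pow_right₀ hy1 (by omega)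
    calc (K0 * y ^ qh) ^ 2 * (b j - a j + c j * Real.log 2 + 2) ≤ (K0 * y ^ qh) ^ 2 * ρ := h1
      _ = K0 ^ 2 * ρ * y ^ (2 * qh) := by rw [mul_pow, ← pow_mul, mul_comm qh 2]; ring
      _ ≤ K0 ^ 2 * ρ * y ^ (2 * q) := mul_le_mul_of_nonneg_left h2 (by positivity)
      _ ≤ (K0 ^ 2 * ρ + 1) * y ^ (2 * q) := by
        have : 0 ≤ y ^ (2 * q) := by positivity
        nlinarith
  set s : (Fin k → ℝ) → ℝ := fun ξ => ∑ j, c j * ξ j with hs
  have hsm : Measurable s := by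
    simp only [hs]
    exact Finset.measurable_sum _ (fun j _ => (measurable_pi_apply j).const_mul _)
  set B : ℝ → ℂ := fun t => ∑ n ∈ range L, w' n * e (t * Real.log ((J + n : ℕ) : ℝ)) with hB
  have hRHS : ∀ ξ : Fin k → ℝ, (∏ j, ‖𝓕 (g j) (ξ j)‖ₑ ^ 2) *
      ‖∑ n ∈ range L, w' n * e (∑ j, ξ j * ℓ j n)‖ₑ ^ 2 = (∏ j, F j (ξ j)) * ‖B (s ξ)‖ₑ ^ 2 := by
    intro ξ
    have : ∀ n, ∑ j, ξ j * ℓ j n = s ξ * Real.log ((J + n : ℕ) : ℝ) := by
      intro n
      simp only [hs, hℓ]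
      rw [Finset.sum_mul]
      apply Finset.sum_congr rfl
      intro j _
      ring
    simp only [hB, hF]
    simp_rw [this]
  -- trivial bound
  set W : ℝ := W0 * y ^ q with hWdef
  have hW0' : 0 ≤ W := by positivity
  have hBtriv : ∀ t, ‖B t‖ₑ ^ 2 ≤ ENNReal.ofReal ((J * W) ^ 2) := by
    intro t
    have h1 : ‖B t‖ ≤ J * W := by
      simp only [hB]
      calc ‖∑ n ∈ range L, w' n * e (t * Real.log ((J + n : ℕ) : ℝ))‖
          ≤ ∑ n ∈ range L, ‖w' n * e (t * Real.log ((J + n : ℕ) : ℝ))‖ := norm_sum_le _ _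
        _ ≤ ∑ n ∈ range L, W := by
          apply Finset.sum_le_sum
          intro n hn
          have hnL : n < L := Finset.mem_range.1 hn
          rw [norm_mul]
          have he : ‖e (t * Real.log ((J + n : ℕ) : ℝ))‖ = 1 := by
            simp only [e]
            rw [Complex.norm_exp_ofReal_mul_I]
          rw [he, mul_one]
          simp only [hw']
          rw [Complex.norm_real, Real.norm_eq_abs]
          refine le_trans (hW J hJ3 n (by omega)) ?_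
          rw [hWdef]
          exact mul_le_mul_of_nonneg_left (pow_le_pow_right₀ hy1 (by omega)) hW0
        _ = L * W := by rw [Finset.sum_const, Finset.card_range, nsmul_eq_mul]
        _ ≤ J * W := mul_le_mul_of_nonneg_right (by exact_mod_cast hL) hW0'
    rw [← ofReal_norm, ← ENNReal.ofReal_pow (norm_nonneg _)]
    exact ENNReal.ofReal_le_ofReal (pow_le_pow_left₀ (norm_nonneg _) h1 2)
  -- products of I
  have hprodI : ∀ i : Fin k, ∏ j ∈ univ.erase i, ENNReal.ofReal H ≤ ENNReal.ofReal (H ^ k) := by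
    intro i
    rw [Finset.prod_const, ← ENNReal.ofReal_pow (by linarith)]
    apply ENNReal.ofReal_le_ofReal
    apply pow_le_pow_right₀ hH1
    rw [Finset.card_erase_of_mem (Finset.mem_univ i), Finset.card_univ, Fintype.card_fin]
    exact Nat.sub_le _ _
  have hcy : ∀ j, v1 j ≤ (|b j| + 2 * c j + 2) * y := by
    intro j
    have h1 := le_abs_self (b j)
    have h2 := abs_nonneg (b j)
    have h3 := hc j
    simp only [hv1]
    nlinarith [mul_le_mul_of_nonneg_left hl21 h3.le, mul_nonneg h2 (by linarith : 0 ≤ y - 1),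
      mul_nonneg h3.le (by linarith : 0 ≤ y - 1)]
  have hSb : ∀ x, F i₀ x ≤ ENNReal.ofReal ((Cs / y ^ B') ^ 2) := by
    intro x
    have h1 : ‖𝓕 (Psi (h i₀) (v0 i₀) (v1 i₀)) x‖ ≤ Cs / y ^ B' := by
      apply hJs (v0 i₀) (v1 i₀) _ (hvle i₀) _ (hcy i₀) x
      · have h2 : (1 - a i₀) ≤ y * (c i₀ / 2) := by
          rw [div_le_iff₀ (by have := hc i₀; positivity)] at hJa
          exact hJa
        simp only [hv0]
        nlinarith
      · have := hv10 i₀
        linarith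
    simp only [hF]
    rw [← ofReal_norm, ← ENNReal.ofReal_pow (norm_nonneg _)]
    exact ENNReal.ofReal_le_ofReal (pow_le_pow_left₀ (norm_nonneg _) h1 2)
  -- regions
  set R1 : Set (Fin k → ℝ) := {ξ | |∑ j, c j * ξ j| ≤ y ^ T} with hR1
  set R2 : Set (Fin k → ℝ) := {ξ | y ^ T ≤ |s ξ| ∧ |s ξ| ≤ (J : ℝ) ^ M} with hR2
  set R3 : Set (Fin k → ℝ) := {ξ | (J : ℝ) ^ M < |s ξ|} with hR3
  have hsam : Measurable (fun ξ => |s ξ|) := hsm.abs
  have hR1m : MeasurableSet R1 := measurableSet_le hsam measurable_const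
  have hR2m : MeasurableSet R2 :=
    (measurableSet_le measurable_const hsam).inter (measurableSet_le hsam measurable_const)
  have hR3m : MeasurableSet R3 := measurableSet_lt measurable_const hsam
  set G : (Fin k → ℝ) → ENNReal := fun ξ => (∏ j, F j (ξ j)) * ‖B (s ξ)‖ₑ ^ 2 with hG
  have hcover : ∫⁻ ξ, G ξ ≤ (∫⁻ ξ in R1, G ξ) + ((∫⁻ ξ in R2, G ξ) + ∫⁻ ξ in R3, G ξ) := by
    have h1 : (Set.univ : Set (Fin k → ℝ)) ⊆ R1 ∪ (R2 ∪ R3) := by
      intro ξ _
      by_cases h2 : |s ξ| ≤ y ^ T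
      · left; exact h2
      · right
        by_cases h3 : |s ξ| ≤ (J : ℝ) ^ M
        · left; exact ⟨(not_le.1 h2).le, h3⟩
        · right; exact not_le.1 h3
    calc ∫⁻ ξ, G ξ = ∫⁻ ξ in Set.univ, G ξ := by rw [Measure.restrict_univ]
      _ ≤ ∫⁻ ξ in R1 ∪ (R2 ∪ R3), G ξ := lintegral_mono_set h1
      _ ≤ (∫⁻ ξ in R1, G ξ) + ∫⁻ ξ in R2 ∪ R3, G ξ := lintegral_union_le _ _ _
      _ ≤ _ := by gcongr; exact lintegral_union_le _ _ _
  have hyA : 0 < y ^ A := by positivity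
  have hP0 : 0 < P := by linarith
  -- region 1
  have hreg1 : ∫⁻ ξ in R1, G ξ ≤ ENNReal.ofReal (C1 * (J : ℝ) ^ 2 / y ^ A) := by
    have h1 : ∫⁻ ξ in R1, G ξ ≤ ∫⁻ ξ in R1, (∏ j, F j (ξ j)) * ENNReal.ofReal ((J * W) ^ 2) := by
      apply lintegral_mono
      intro ξ
      simp only [hG]
      exact mul_le_mul_right (hBtriv (s ξ)) _
    rw [lintegral_mul_const' _ _ ENNReal.ofReal_ne_top] at h1
    have h2 := slab k F hFm (fun _ => ENNReal.ofReal H) hI c i₀ (hc i₀) _ hSb (y ^ T) (by positivity)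
    have h3 : ∫⁻ ξ in R1, ∏ j, F j (ξ j) ≤ ENNReal.ofReal ((Cs / y ^ B') ^ 2) *
        ENNReal.ofReal (2 * y ^ T / c i₀) * ENNReal.ofReal (H ^ k) := by
      refine le_trans h2 ?_
      exact mul_le_mul_right (hprodI i₀) _
    have h4 : ∫⁻ ξ in R1, G ξ ≤ ENNReal.ofReal ((Cs / y ^ B') ^ 2) *
        ENNReal.ofReal (2 * y ^ T / c i₀) * ENNReal.ofReal (H ^ k) * ENNReal.ofReal ((J * W) ^ 2) :=
      le_trans h1 (mul_le_mul_left h3 _)
    have hci := hc i₀
    rw [← ENNReal.ofReal_mul (by positivity), ← ENNReal.ofReal_mul (by positivity),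
      ← ENNReal.ofReal_mul (by positivity)] at h4
    refine le_trans h4 (ENNReal.ofReal_le_ofReal ?_)
    have h5 : y ^ T * y ^ (2 * q * k) * y ^ (2 * q) * y ^ A = y ^ B' := by
      rw [← pow_add, ← pow_add, ← pow_add, hB']
      congr 1
      ring
    have hyB : 0 < y ^ B' := by positivity
    have hyB1 : 1 ≤ y ^ B' := one_le_pow₀ hy1
    rw [le_div_iff₀ hyA, hHdef, hWdef, mul_pow P, ← pow_mul y]
    have h6 : (Cs / y ^ B') ^ 2 * (2 * y ^ T / c i₀) * (P ^ k * y ^ (2 * q * k)) * (J * (W0 * y ^ q)) ^ 2 * y ^ A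
        = W0 ^ 2 * Cs ^ 2 * (2 / c i₀) * P ^ k * J ^ 2 * ((y ^ T * y ^ (2 * q * k) * y ^ (2 * q) * y ^ A) / (y ^ B') ^ 2) := by
      have : y ^ (2 * q) = (y ^ q) ^ 2 := by rw [← pow_mul]; congr 1; ring
      rw [this]
      field_simp
    rw [h6, h5, hC1]
    have h7 : y ^ B' / (y ^ B') ^ 2 ≤ 1 := by
      rw [div_le_one (by positivity)]
      nlinarith
    have h8 : 0 ≤ W0 ^ 2 * Cs ^ 2 * (2 / c i₀) * P ^ k * (J : ℝ) ^ 2 := by positivity
    calc W0 ^ 2 * Cs ^ 2 * (2 / c i₀) * P ^ k * (J : ℝ) ^ 2 * (y ^ B' / (y ^ B') ^ 2)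
        ≤ W0 ^ 2 * Cs ^ 2 * (2 / c i₀) * P ^ k * (J : ℝ) ^ 2 * 1 := mul_le_mul_of_nonneg_left h7 h8
      _ = W0 ^ 2 * Cs ^ 2 * (2 / c i₀) * P ^ k * (J : ℝ) ^ 2 := by ring
  -- region 2
  have hreg2 : ∫⁻ ξ in R2, G ξ ≤ ENNReal.ofReal (C2 * (J : ℝ) ^ 2 / y ^ A) := by
    have h1 : ∫⁻ ξ in R2, G ξ ≤ ∫⁻ ξ in R2, (∏ j, F j (ξ j)) * ENNReal.ofReal ((CE * J / y ^ A') ^ 2) := by
      apply setLIntegral_mono' hR2m
      intro ξ hξ
      simp only [hG]
      apply mul_le_mul_right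
      have h2 := hJE L hL (s ξ) hξ.1 hξ.2
      rw [← ofReal_norm, ← ENNReal.ofReal_pow (norm_nonneg _)]
      apply ENNReal.ofReal_le_ofReal
      apply pow_le_pow_left₀ (norm_nonneg _)
      exact h2
    rw [lintegral_mul_const' _ _ ENNReal.ofReal_ne_top] at h1
    have h3 : ∫⁻ ξ in R2, ∏ j, F j (ξ j) ≤ ENNReal.ofReal (H ^ k) := by
      calc ∫⁻ ξ in R2, ∏ j, F j (ξ j) ≤ ∫⁻ ξ : Fin k → ℝ, ∏ j, F j (ξ j) := setLIntegral_le_lintegral _ _
        _ = ∏ j, ∫⁻ x, F j x := lintegral_prod_fin k F hFm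
        _ ≤ ∏ j : Fin k, ENNReal.ofReal H := Finset.prod_le_prod' (fun j _ => hI j)
        _ = ENNReal.ofReal (H ^ k) := by
          rw [Finset.prod_const, Finset.card_univ, Fintype.card_fin, ENNReal.ofReal_pow (by linarith)]
    have h4 : ∫⁻ ξ in R2, G ξ ≤ ENNReal.ofReal (H ^ k) * ENNReal.ofReal ((CE * J / y ^ A') ^ 2) :=
      le_trans h1 (mul_le_mul_left h3 _)
    rw [← ENNReal.ofReal_mul (by positivity)] at h4
    refine le_trans h4 (ENNReal.ofReal_le_ofReal ?_)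
    have h5 : y ^ (2 * q * k) * y ^ A = y ^ A' := by
      rw [← pow_add, hA']
      congr 1
      ring
    have hyB : 0 < y ^ A' := by positivity
    have hyB1 : 1 ≤ y ^ A' := one_le_pow₀ hy1
    rw [le_div_iff₀ hyA, hHdef, mul_pow P, ← pow_mul y]
    have h6 : P ^ k * y ^ (2 * q * k) * (CE * J / y ^ A') ^ 2 * y ^ A
        = CE ^ 2 * P ^ k * J ^ 2 * ((y ^ (2 * q * k) * y ^ A) / (y ^ A') ^ 2) := by
      field_simp
    rw [h6, h5, hC2]
    have h7 : y ^ A' / (y ^ A') ^ 2 ≤ 1 := by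
      rw [div_le_one (by positivity)]
      nlinarith
    have h8 : 0 ≤ CE ^ 2 * P ^ k * (J : ℝ) ^ 2 := by positivity
    calc CE ^ 2 * P ^ k * (J : ℝ) ^ 2 * (y ^ A' / (y ^ A') ^ 2)
        ≤ CE ^ 2 * P ^ k * (J : ℝ) ^ 2 * 1 := mul_le_mul_of_nonneg_left h7 h8
      _ = CE ^ 2 * P ^ k * (J : ℝ) ^ 2 := by ring
  -- region 3
  have hJ1 : (1 : ℝ) ≤ J := by linarith
  have hexp : ∀ j, Real.exp (v1 j) + 2 ≤ (J : ℝ) ^ D := by
    intro j
    have h1 : v1 j ≤ D0 * y := by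
      refine le_trans (hcy j) ?_
      exact mul_le_mul_of_nonneg_right (hD0 j) hy0.le
    have h2 : Real.exp (v1 j) ≤ (J : ℝ) ^ D0 := by
      calc Real.exp (v1 j) ≤ Real.exp (D0 * y) := Real.exp_le_exp.2 h1
        _ = (J : ℝ) ^ D0 := by rw [Real.exp_nat_mul, hy, Real.exp_log hJ0]
    have h3 : (1 : ℝ) ≤ (J : ℝ) ^ D0 := one_le_pow₀ hJ1
    rw [hD, pow_succ]
    nlinarith
  set Y : ℝ := (J : ℝ) ^ (2 * D + 1) with hY
  have hY0 : 0 < Y := by positivity
  set T0 : ℝ := 2 * ((K * (J : ℝ) ^ D) ^ 2 / Y) with hT0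
  have hT0' : 0 ≤ T0 := by positivity
  have hTb : ∀ j, ∫⁻ x in {x : ℝ | Y < |x|}, F j x ≤ ENNReal.ofReal T0 := by
    intro j
    have h1 : ∫⁻ x in {x : ℝ | Y < |x|}, F j x ≤
        ∫⁻ x in {x : ℝ | Y < |x|}, ENNReal.ofReal ((K * (J : ℝ) ^ D) ^ 2 / x ^ 2) := by
      apply setLIntegral_mono' (measurableSet_lt measurable_const continuous_abs.measurable)
      intro x hx
      have hx' : Y < |x| := hx
      have hx0 : 0 < |x| := lt_trans hY0 hx'
      have hxne : x ≠ 0 := abs_pos.1 hx0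
      have h2 := psi_high (h j) (v0 j) (v1 j) K (hvle j) hKn (hHJ j) x hxne
      have h3 : ‖𝓕 (Psi (h j) (v0 j) (v1 j)) x‖ ≤ K * (J : ℝ) ^ D / |x| := by
        refine le_trans h2 ?_
        apply div_le_div_of_nonneg_right _ hx0.le
        exact mul_le_mul_of_nonneg_left (hexp j) hKn
      simp only [hF, hg]
      rw [← ofReal_norm, ← ENNReal.ofReal_pow (norm_nonneg _)]
      apply ENNReal.ofReal_le_ofReal
      calc ‖𝓕 (Psi (h j) (v0 j) (v1 j)) x‖ ^ 2 ≤ (K * (J : ℝ) ^ D / |x|) ^ 2 :=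
            pow_le_pow_left₀ (norm_nonneg _) h3 2
        _ = (K * (J : ℝ) ^ D) ^ 2 / x ^ 2 := by rw [div_pow, sq_abs]
    exact le_trans h1 (inv_sq_tail Y hY0 _)
  have hreg3 : ∫⁻ ξ in R3, G ξ ≤ ENNReal.ofReal (C3 * (J : ℝ) ^ 2 / y ^ A) := by
    have h1 : ∫⁻ ξ in R3, G ξ ≤ ∫⁻ ξ in R3, (∏ j, F j (ξ j)) * ENNReal.ofReal ((J * W) ^ 2) := by
      apply lintegral_mono
      intro ξ
      simp only [hG]
      exact mul_le_mul_right (hBtriv (s ξ)) _
    rw [lintegral_mul_const' _ _ ENNReal.ofReal_ne_top] at h1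
    have h2 := tail k F hFm (fun _ => ENNReal.ofReal H) hI c hc Y _ hTb
    have hsub : R3 ⊆ {ξ : Fin k → ℝ | Y * ∑ j, c j < |∑ j, c j * ξ j|} := by
      intro ξ hξ
      have hξ' : (J : ℝ) ^ M < |s ξ| := hξ
      show Y * ∑ j, c j < |s ξ|
      refine lt_of_le_of_lt ?_ hξ'
      have : (J : ℝ) ^ M = Y * J := by rw [hY, hM]; ring
      rw [this]
      exact mul_le_mul_of_nonneg_left hJc hY0.le
    have h3 : ∫⁻ ξ in R3, ∏ j, F j (ξ j) ≤ ENNReal.ofReal (k * (T0 * H ^ k)) := by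
      calc ∫⁻ ξ in R3, ∏ j, F j (ξ j) ≤ _ := lintegral_mono_set hsub
        _ ≤ ∑ i : Fin k, ENNReal.ofReal T0 * ∏ j ∈ univ.erase i, ENNReal.ofReal H := h2
        _ ≤ ∑ i : Fin k, ENNReal.ofReal T0 * ENNReal.ofReal (H ^ k) := by
          apply Finset.sum_le_sum
          intro i _
          exact mul_le_mul_right (hprodI i) _
        _ = ENNReal.ofReal (k * (T0 * H ^ k)) := by
          rw [Finset.sum_const, Finset.card_univ, Fintype.card_fin, nsmul_eq_mul,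
            ← ENNReal.ofReal_mul hT0', ENNReal.ofReal_mul (Nat.cast_nonneg k), ENNReal.ofReal_natCast]
    have h4 : ∫⁻ ξ in R3, G ξ ≤ ENNReal.ofReal (k * (T0 * H ^ k)) * ENNReal.ofReal ((J * W) ^ 2) :=
      le_trans h1 (mul_le_mul_left h3 _)
    rw [← ENNReal.ofReal_mul (by positivity)] at h4
    refine le_trans h4 (ENNReal.ofReal_le_ofReal ?_)
    have hpl := pow_log_le J hJ3 N3
    have hT0'' : T0 = 2 * K0 ^ 2 * y ^ (2 * qh) / J := by
      rw [hT0, hK, hY]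
      have e1 : ((K0 * y ^ qh) * (J : ℝ) ^ D) ^ 2 = K0 ^ 2 * y ^ (2 * qh) * (J : ℝ) ^ (2 * D) := by
        rw [mul_pow, mul_pow, ← pow_mul, ← pow_mul, mul_comm qh 2, mul_comm D 2]
      rw [e1, pow_succ (J : ℝ) (2 * D)]
      have hJD : (J : ℝ) ^ (2 * D) ≠ 0 := (pow_pos hJ0 _).ne'
      have hJne : (J : ℝ) ≠ 0 := hJ0.ne'
      generalize (J : ℝ) ^ (2 * D) = Z at hJD ⊢
      generalize y ^ (2 * qh) = Z2
      field_simp
    rw [le_div_iff₀ hyA, hT0'', hHdef, hWdef, mul_pow P, ← pow_mul y]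
    have h6 : (k : ℝ) * (2 * K0 ^ 2 * y ^ (2 * qh) / J * (P ^ k * y ^ (2 * q * k))) * (J * (W0 * y ^ q)) ^ 2 * y ^ A
        = W0 ^ 2 * (k * (2 * K0 ^ 2)) * P ^ k * J * (y ^ (2 * qh) * y ^ (2 * q * k) * y ^ (2 * q) * y ^ A) := by
      have : y ^ (2 * q) = (y ^ q) ^ 2 := by rw [← pow_mul]; congr 1; ring
      rw [this]
      field_simp
    have h5 : y ^ (2 * qh) * y ^ (2 * q * k) * y ^ (2 * q) * y ^ A ≤ (N3.factorial : ℝ) * J := by
      refine le_trans ?_ hpl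
      rw [← pow_add, ← pow_add, ← pow_add, ← hy]
      apply pow_le_pow_right₀ hy1
      omega
    rw [h6, hC3]
    have h8 : 0 ≤ W0 ^ 2 * (k * (2 * K0 ^ 2)) * P ^ k * (J : ℝ) := by positivity
    calc W0 ^ 2 * (k * (2 * K0 ^ 2)) * P ^ k * (J : ℝ) * (y ^ (2 * qh) * y ^ (2 * q * k) * y ^ (2 * q) * y ^ A)
        ≤ W0 ^ 2 * (k * (2 * K0 ^ 2)) * P ^ k * (J : ℝ) * ((N3.factorial : ℝ) * J) :=
          mul_le_mul_of_nonneg_left h5 h8
      _ = W0 ^ 2 * (k * (2 * K0 ^ 2)) * P ^ k * (N3.factorial : ℝ) * (J : ℝ) ^ 2 := by ring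
  -- finish
  have hC1' : 0 ≤ C1 := by have := hc i₀; positivity
  have hC2' : 0 ≤ C2 := by positivity
  have hC3' : 0 ≤ C3 := by positivity
  have htotal : ∫⁻ ξ, G ξ ≤ ENNReal.ofReal ((C1 + C2 + C3) * (J : ℝ) ^ 2 / y ^ A) := by
    calc ∫⁻ ξ, G ξ ≤ _ := hcover
      _ ≤ ENNReal.ofReal (C1 * (J : ℝ) ^ 2 / y ^ A) +
          (ENNReal.ofReal (C2 * (J : ℝ) ^ 2 / y ^ A) + ENNReal.ofReal (C3 * (J : ℝ) ^ 2 / y ^ A)) :=
        add_le_add hreg1 (add_le_add hreg2 hreg3)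
      _ = ENNReal.ofReal ((C1 + C2 + C3) * (J : ℝ) ^ 2 / y ^ A) := by
        rw [← ENNReal.ofReal_add (by positivity) (by positivity),
          ← ENNReal.ofReal_add (by positivity) (by positivity)]
        congr 1
        ring
  show ∫ u in Set.Icc a b, S u ^ 2 ≤ (C1 + C2 + C3) * (J : ℝ) ^ 2 / y ^ A
  apply int_le_of_lint _ _ (fun u => sq_nonneg _) _ (by positivity)
  calc ∫⁻ u in Set.Icc a b, ENNReal.ofReal (S u ^ 2)
      = ∫⁻ u in Set.Icc a b, ‖∑ n ∈ range L, w' n * ∏ j, g j (u j + ℓ j n)‖ₑ ^ 2 :=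
        setLIntegral_congr_fun measurableSet_Icc hleft
    _ ≤ ∫⁻ u : Fin k → ℝ, ‖∑ n ∈ range L, w' n * ∏ j, g j (u j + ℓ j n)‖ₑ ^ 2 :=
        setLIntegral_le_lintegral _ _
    _ = ∫⁻ ξ, G ξ := by
        rw [hPk]
        apply lintegral_congr
        intro ξ
        exact hRHS ξ
    _ ≤ _ := htotal

end TU6

end Pool.Agent.helper616_TS
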