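import Pool.Agent.helper616_TS.Defs

/-!
# Project TS (helper616): null sets under the exponential in several variables
-/

set_option autoImplicit false
set_option maxHeartbeats 4000000

open Finset MeasureTheory Filter Topology

namespace Pool.Agent.helper616_TS

namespace TU7


theorem ae_exp_pi (k : ℕ) (P : (Fin k → ℝ) → Prop)
    (h : ∀ a b : Fin k → ℝ, (∀ j, a j ≤ b j) → ∀ᵐ u ∂(volume.restrict (Set.Icc a b)), P (fun j => Real.exp (u j))) :
    ∀ᵐ α : Fin k → ℝ, (∀ j, 0 < α j) → P α := by
  have h1 : ∀ᵐ u : Fin k → ℝ, ∀ n : ℕ,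
      u ∈ Set.Icc (fun _ : Fin k => -(n : ℝ)) (fun _ => (n : ℝ)) → P (fun j => Real.exp (u j)) := by
    rw [ae_all_iff]
    intro n
    have h2 := h (fun _ => -(n : ℝ)) (fun _ => (n : ℝ)) (fun _ => by
      have : (0 : ℝ) ≤ n := Nat.cast_nonneg n
      linarith)
    rwa [ae_restrict_iff' measurableSet_Icc] at h2
  have h3 : ∀ᵐ u : Fin k → ℝ, P (fun j => Real.exp (u j)) := by
    filter_upwards [h1] with u hu
    obtain ⟨n, hn⟩ := exists_nat_ge ‖u‖
    refine hu n ⟨fun j => ?_, fun j => ?_⟩
    · have h4 := norm_le_pi_norm u j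
      rw [Real.norm_eq_abs] at h4
      have h5 := neg_abs_le (u j)
      change -(n : ℝ) ≤ u j
      linarith
    · have h4 := norm_le_pi_norm u j
      rw [Real.norm_eq_abs] at h4
      have h5 := le_abs_self (u j)
      change u j ≤ (n : ℝ)
      linarith
  have hd : Differentiable ℝ (fun (u : Fin k → ℝ) (j : Fin k) => Real.exp (u j)) := by
    rw [differentiable_pi]
    intro j
    exact Real.differentiable_exp.comp (differentiable_apply j)
  have h6 : (volume : Measure (Fin k → ℝ))
      ((fun (u : Fin k → ℝ) (j : Fin k) => Real.exp (u j)) ''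
        {u | ¬ P (fun j => Real.exp (u j))}) = 0 :=
    addHaar_image_eq_zero_of_differentiableOn_of_addHaar_eq_zero volume hd.differentiableOn
      (ae_iff.1 h3)
  rw [ae_iff]
  refine measure_mono_null ?_ h6
  intro α hα
  have hα' : ¬ ((∀ j, 0 < α j) → P α) := hα
  push Not at hα'
  obtain ⟨hpos, hP⟩ := hα'
  have e1 : (fun j => Real.exp (Real.log (α j))) = α := by
    funext j
    exact Real.exp_log (hpos j)
  refine ⟨fun j => Real.log (α j), ?_, e1⟩
  change ¬ P (fun j => Real.exp (Real.log (α j)))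
  rw [e1]
  exact hP

end TU7

end Pool.Agent.helper616_TS
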