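import Pool.Agent.helper616_TS.Defs

/-!
# Project TS (helper616): a bound for the terms
-/

set_option autoImplicit false
set_option maxHeartbeats 4000000

open Finset MeasureTheory Filter Topology

namespace Pool.Agent.helper616_TS

namespace TU8


theorem arr_one {c : ℝ} (hc : 0 < c) {h : ℕ → ℝ} (hb : LogBdd h) (b : ℝ) :
    ∃ C : ℝ, ∃ q : ℕ, 0 ≤ C ∧ ∀ n : ℕ, ∀ t : ℝ, t ≤ b →
      |h ⌊Real.exp t * (n : ℝ) ^ c⌋₊| ≤ C * (Real.log (n + 2)) ^ q := by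
  obtain ⟨C0, k, h0⟩ := hb
  have hl2 : 0 < Real.log 2 := Real.log_pos (by norm_num)
  set D : ℝ := Real.log (Real.exp b + 2) / Real.log 2 + c with hD
  have hE : 0 ≤ Real.log (Real.exp b + 2) := Real.log_nonneg (by have := Real.exp_pos b; linarith)
  have hD0 : 0 ≤ D := by positivity
  refine ⟨|C0| * D ^ k, k, by positivity, ?_⟩
  intro n t ht
  have hn : (0 : ℝ) ≤ n := Nat.cast_nonneg n
  have hn2 : Real.log 2 ≤ Real.log ((n : ℝ) + 2) := Real.log_le_log (by norm_num) (by linarith)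
  have hl : 0 ≤ Real.log ((n : ℝ) + 2) := hl2.le.trans hn2
  set m := ⌊Real.exp t * (n : ℝ) ^ c⌋₊ with hm
  have hm1 : (m : ℝ) ≤ Real.exp t * (n : ℝ) ^ c := Nat.floor_le (by positivity)
  have hm2 : (m : ℝ) ≤ Real.exp b * ((n : ℝ) + 2) ^ c := by
    refine hm1.trans (mul_le_mul (Real.exp_le_exp.mpr ht) (Real.rpow_le_rpow hn (by linarith) hc.le) (by positivity) (by positivity))
  have hone : (1 : ℝ) ≤ ((n : ℝ) + 2) ^ c := Real.one_le_rpow (by linarith) hc.le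
  have hm3 : (m : ℝ) + 2 ≤ (Real.exp b + 2) * ((n : ℝ) + 2) ^ c := by nlinarith
  have hmn : (0 : ℝ) ≤ m := Nat.cast_nonneg m
  have hlog : Real.log ((m : ℝ) + 2) ≤ D * Real.log ((n : ℝ) + 2) := by
    have h1 : Real.log ((m : ℝ) + 2) ≤ Real.log ((Real.exp b + 2) * ((n : ℝ) + 2) ^ c) :=
      Real.log_le_log (by linarith) hm3
    rw [Real.log_mul (by positivity) (by positivity), Real.log_rpow (by linarith)] at h1
    have h2 : Real.log (Real.exp b + 2) ≤ Real.log (Real.exp b + 2) / Real.log 2 * Real.log ((n : ℝ) + 2) := by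
      rw [div_mul_eq_mul_div, le_div_iff₀ hl2]
      exact mul_le_mul_of_nonneg_left hn2 hE
    rw [hD, add_mul]
    linarith
  have hlm : 0 ≤ Real.log ((m : ℝ) + 2) := Real.log_nonneg (by linarith)
  calc |h m| ≤ C0 * (Real.log ((m : ℝ) + 2)) ^ k := h0 m
    _ ≤ |C0| * (Real.log ((m : ℝ) + 2)) ^ k := mul_le_mul_of_nonneg_right (le_abs_self _) (pow_nonneg hlm _)
    _ ≤ |C0| * (D * Real.log ((n : ℝ) + 2)) ^ k := mul_le_mul_of_nonneg_left (pow_le_pow_left₀ hlm hlog _) (abs_nonneg _)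
    _ = |C0| * D ^ k * (Real.log ((n : ℝ) + 2)) ^ k := by rw [mul_pow]; ring

theorem arr_bddK (k : ℕ) (w : ℕ → ℝ) (hw : LogBdd w) (c : Fin k → ℝ) (hc : ∀ j, 0 < c j) (h : Fin k → ℕ → ℝ)
    (hb : ∀ j, LogBdd (h j)) (a b : Fin k → ℝ) :
    ∃ C : ℝ, ∃ q : ℕ, ∀ n : ℕ, ∀ u ∈ Set.Icc a b,
      |w n * ∏ j, h j ⌊Real.exp (u j) * (n : ℝ) ^ (c j)⌋₊| ≤ C * (Real.log (n + 2)) ^ q := by
  classical
  obtain ⟨Cw, kw, hw⟩ := hw
  choose C q hC0 hC using fun j => arr_one (hc j) (hb j) (b j)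
  refine ⟨|Cw| * ∏ j, C j, kw + ∑ j, q j, ?_⟩
  intro n u hu
  rw [abs_mul, Finset.abs_prod, pow_add]
  have hl : 0 ≤ Real.log ((n : ℝ) + 2) := Real.log_nonneg (by have := Nat.cast_nonneg (α := ℝ) n; linarith)
  have h1 : |w n| ≤ |Cw| * (Real.log ((n : ℝ) + 2)) ^ kw :=
    (hw n).trans (mul_le_mul_of_nonneg_right (le_abs_self _) (pow_nonneg hl _))
  have h2 : ∏ j, |h j ⌊Real.exp (u j) * (n : ℝ) ^ (c j)⌋₊| ≤ ∏ j, (C j * (Real.log ((n : ℝ) + 2)) ^ (q j)) :=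
    Finset.prod_le_prod (fun j _ => abs_nonneg _) (fun j _ => hC j n (u j) (hu.2 j))
  rw [Finset.prod_mul_distrib, Finset.prod_pow_eq_pow_sum] at h2
  calc |w n| * ∏ j, |h j ⌊Real.exp (u j) * (n : ℝ) ^ (c j)⌋₊|
      ≤ (|Cw| * (Real.log ((n : ℝ) + 2)) ^ kw) * ((∏ j, C j) * (Real.log ((n : ℝ) + 2)) ^ (∑ j, q j)) :=
        mul_le_mul h1 h2 (Finset.prod_nonneg fun j _ => abs_nonneg _)
          (mul_nonneg (abs_nonneg _) (pow_nonneg hl _))
    _ = _ := by ring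

end TU8

end Pool.Agent.helper616_TS
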