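import Pool.Agent.helper616_TS.Defs
import Pool.Agent.helper616_TS.TS11
import Pool.Agent.helper616_TS.TU7
import Pool.Agent.helper616_TS.TU8

/-!
# Project TS (helper616): the sampling theorem in several variables
-/

set_option autoImplicit false
set_option maxHeartbeats 4000000

open Finset MeasureTheory Filter Topology

namespace Pool.Agent.helper616_TS

open TS11 (ae_of_meanSquare)
open TU7 (ae_exp_pi)
open TU8 (arr_bddK)

namespace TU9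


theorem samplingK (hMS : ∀ (k : ℕ) (w : ℕ → ℝ) (_ : LogBdd w) (_ : ExpB w (fun n => (n : ℝ))) (c : Fin k → ℝ) (_ : ∀ j, 0 < c j)
    (h : Fin k → ℕ → ℝ) (_ : ∀ j, LogBdd (h j)) (i₀ : Fin k) (_ : MeanZero (h i₀)) (_ : TwistSmall (h i₀))
    (a b : Fin k → ℝ) (_ : ∀ j, a j ≤ b j) (A : ℕ),
    ∃ C : ℝ, ∀ᶠ J : ℕ in atTop, ∀ L ≤ J,
      ∫ u in Set.Icc a b, (∑ n ∈ range L, w (J + n) * ∏ j, h j ⌊Real.exp (u j) * ((J + n : ℕ) : ℝ) ^ (c j)⌋₊) ^ 2 ≤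
        C * (J : ℝ) ^ 2 / (Real.log J) ^ A)
    (k : ℕ) (w : ℕ → ℝ) (hw : LogBdd w) (hE : ExpB w (fun n => (n : ℝ))) (c : Fin k → ℝ) (hc : ∀ j, 0 < c j)
    (h : Fin k → ℕ → ℝ) (hb : ∀ j, LogBdd (h j)) (i₀ : Fin k) (hm : MeanZero (h i₀)) (ht : TwistSmall (h i₀)) :
    ∀ᵐ α : Fin k → ℝ, (∀ j, 0 < α j) → ∀ A : ℕ, ∃ C : ℝ, ∀ N : ℕ, 2 ≤ N →
      |∑ n ∈ range N, w n * ∏ j, h j ⌊α j * (n : ℝ) ^ (c j)⌋₊| ≤ C * N / (Real.log N) ^ A := by
  have hP := ae_exp_pi k (fun α : Fin k → ℝ => ∀ A : ℕ, ∃ C : ℝ, ∀ N : ℕ, 2 ≤ N →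
      |∑ n ∈ range N, w n * ∏ j, h j ⌊α j * (n : ℝ) ^ (c j)⌋₊| ≤ C * N / (Real.log N) ^ A) ?_
  · exact hP
  intro a b hab
  obtain ⟨C, q, hCq⟩ := arr_bddK k w hw c hc h hb a b
  haveI : IsFiniteMeasure (volume.restrict (Set.Icc a b) : Measure (Fin k → ℝ)) :=
    ⟨by rw [Measure.restrict_apply_univ]; exact isCompact_Icc.measure_lt_top⟩
  refine ae_of_meanSquare (volume.restrict (Set.Icc a b))
    (fun n u => w n * ∏ j, h j ⌊Real.exp (u j) * (n : ℝ) ^ (c j)⌋₊) ?_ C q ?_ ?_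
  · intro n
    refine Measurable.const_mul ?_ _
    refine Finset.measurable_prod _ (fun j _ => ?_)
    refine (measurable_from_nat (f := h j)).comp ?_
    refine Nat.measurable_floor.comp ?_
    exact (Real.measurable_exp.comp (measurable_pi_apply j)).mul_const _
  · intro n
    exact (ae_restrict_mem measurableSet_Icc).mono (fun u hu => hCq n u hu)
  · intro A
    exact hMS k w hw hE c hc h hb i₀ hm ht a b hab A

end TU9

end Pool.Agent.helper616_TS
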