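import Pool.Agent.helper616_TS.Main2
import Pool.Agent.helper616_TS.TU6
import Pool.Agent.helper616_TS.TU9
import Pool.Agent.helper616_TS.TU10
import Pool.Agent.helper616_TS.TU11
import Pool.Agent.helper616_TS.TU12
import Pool.Agent.helper616_TS.TS17
import Pool.Agent.helper616_RP.Dep

/-!
# Project TS (helper616): simultaneous primes along almost all multiples, also at prime arguments
-/

set_option autoImplicit false

open Finset MeasureTheory Filter Topology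

namespace Pool.Agent.helper616_TS

/-- the sampling theorem in several variables -/
theorem samplingK (k : ℕ) (w : ℕ → ℝ) (hw : LogBdd w) (hE : ExpB w (fun n => (n : ℝ))) (c : Fin k → ℝ) (hc : ∀ j, 0 < c j)
    (h : Fin k → ℕ → ℝ) (hb : ∀ j, LogBdd (h j)) (i₀ : Fin k) (hm : MeanZero (h i₀)) (ht : TwistSmall (h i₀)) :
    ∀ᵐ α : Fin k → ℝ, (∀ j, 0 < α j) → ∀ A : ℕ, ∃ C : ℝ, ∀ N : ℕ, 2 ≤ N →
      |∑ n ∈ range N, w n * ∏ j, h j ⌊α j * (n : ℝ) ^ (c j)⌋₊| ≤ C * N / (Real.log N) ^ A :=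
  TU9.samplingK (fun k w hw hE c hc h hb i₀ hm ht a b hab A =>
    TU6.meanSquareK t_Pl k w hw hE c hc h hb i₀ hm ht a b hab A) k w hw hE c hc h hb i₀ hm ht

theorem telescope (k : ℕ) (w : ℕ → ℝ) (hw : LogBdd w) (hE : ExpB w (fun n => (n : ℝ))) (c : Fin k → ℝ) (hc : ∀ j, 0 < c j)
    (g : Fin k → ℕ → ℝ) (hb : ∀ j, LogBdd (g j)) (hm : ∀ j, MeanZero (fun m => g j m - 1))
    (ht : ∀ j, TwistSmall (fun m => g j m - 1)) (hw1 : MeanZero (fun n => w n - 1)) :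
    ∀ᵐ α : Fin k → ℝ, (∀ j, 0 < α j) → ∀ A : ℕ, ∃ C : ℝ, ∀ N : ℕ, 2 ≤ N →
      |(∑ n ∈ range N, w n * ∏ j, g j ⌊α j * (n : ℝ) ^ (c j)⌋₊) - N| ≤ C * N / (Real.log N) ^ A :=
  TU10.telescope samplingK k w hw hE c hc g hb hm ht hw1

theorem tw_eq (t : ℝ) (n : ℕ) : helper24_UT.tw t n = Complex.exp (((-t * Real.log n : ℝ) : ℂ) * Complex.I) := rfl

/-- the exponential sums over the primes -/
theorem t_P (A K : ℕ) : ∃ (K₂ : ℕ) (L₀ : ℝ), 2 ≤ L₀ ∧ ∀ L : ℝ, L₀ ≤ L → ∀ t : ℝ, L ^ K₂ ≤ |t| → |t| ≤ Real.exp (A * L) →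
      ∀ N : ℕ, Real.exp (L / (A + 1)) ≤ N → (N : ℝ) ≤ Real.exp L →
      ‖∑ n ∈ Icc 1 N, (ArithmeticFunction.vonMangoldt n : ℂ) * Complex.exp (((t * Real.log n : ℝ) : ℂ) * Complex.I)‖ ≤ N / L ^ K := by
  obtain ⟨K₂, L₀, h2, h⟩ := (helper24_UT.Pap.main helper616_RP.t_P1 helper616_RP.t_M1).1 A 1 K
  refine ⟨K₂, L₀, h2, fun L hL t ht1 ht2 N hN1 hN2 => ?_⟩
  have h3 := h L hL 1 0 le_rfl (by rw [pow_one, Nat.cast_one]; linarith) (by simp) (-t)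
    (by rwa [abs_neg]) (by rwa [abs_neg]) N hN1 hN2
  refine le_trans (le_of_eq ?_) h3
  congr 1
  refine sum_congr ?_ fun n _ => ?_
  · ext n
    simp [Nat.mod_one]
  · rw [tw_eq, neg_neg]

theorem expB_one : ExpB (fun _ => 1) (fun n => (n : ℝ)) := by
  have h := TS1.expB_of_adm t_VDC _ (TS3.adm_rpow 1 one_pos)
  simpa only [Real.rpow_one] using h

theorem expB_lp : ExpB lp (fun n => (n : ℝ)) := by
  have h := TS17.expB_th lp (fun _ => rfl) 1 one_pos t_P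
  simpa only [Real.rpow_one] using h

theorem twist_lp : TwistSmall (fun m => lp m - 1) :=
  TU12.twistSmall_th lp (fun _ => rfl) (fun M A => TU11.twist_one expB_one M A) t_P

theorem lp_props : MeanZero (fun m => lp m - 1) ∧ LogBdd (fun m => lp m - 1) ∧ LogBdd lp :=
  TS16.pnt_th lp (fun _ => rfl) t_PNT

/-- all arguments -/
theorem multi (k : ℕ) (c : Fin k → ℝ) (hc : ∀ j, 0 < c j) :
    ∀ᵐ α : Fin k → ℝ, (∀ j, 0 < α j) → ∀ A : ℕ, ∃ C : ℝ, ∀ N : ℕ, 2 ≤ N →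
      |(∑ n ∈ range N, ∏ j, lp ⌊α j * (n : ℝ) ^ (c j)⌋₊) - N| ≤ C * N / (Real.log N) ^ A := by
  have h0 : MeanZero (fun n => (1 : ℝ) - 1) := fun A => ⟨0, fun N hN => by simp⟩
  filter_upwards [telescope k (fun _ => 1) logBdd_one expB_one c hc (fun _ => lp) (fun _ => lp_props.2.2)
    (fun _ => lp_props.1) (fun _ => twist_lp) h0] with α hα hpos A
  obtain ⟨C, hC⟩ := hα hpos A
  exact ⟨C, fun N hN => by simpa only [one_mul] using hC N hN⟩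

/-- prime arguments -/
theorem multi_prime (k : ℕ) (c : Fin k → ℝ) (hc : ∀ j, 0 < c j) :
    ∀ᵐ α : Fin k → ℝ, (∀ j, 0 < α j) → ∀ A : ℕ, ∃ C : ℝ, ∀ N : ℕ, 2 ≤ N →
      |(∑ n ∈ range N, lp n * ∏ j, lp ⌊α j * (n : ℝ) ^ (c j)⌋₊) - N| ≤ C * N / (Real.log N) ^ A :=
  telescope k lp lp_props.2.2 expB_lp c hc (fun _ => lp) (fun _ => lp_props.2.2)
    (fun _ => lp_props.1) (fun _ => twist_lp) lp_props.1

end Pool.Agent.helper616_TS
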