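import Pool.Agent.helper616_TS.Main3

/-!
# Project TS (helper616): the numbers of simultaneous primes
-/

set_option autoImplicit false

open Finset MeasureTheory Filter Topology

namespace Pool.Agent.helper616_TS

theorem lim_pow (α c : ℝ) (hα : 0 < α) (hc : 0 < c) :
    Tendsto (fun n : ℕ => Real.log (α * (n : ℝ) ^ c) / Real.log n) atTop (𝓝 c) := by
  have h1 : Tendsto (fun n : ℕ => Real.log α / Real.log n + c) atTop (𝓝 (0 + c)) :=
    (tendsto_const_nhds.div_atTop (Real.tendsto_log_atTop.comp tendsto_natCast_atTop_atTop)).add_const c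
  rw [zero_add] at h1
  refine h1.congr' ?_
  filter_upwards [eventually_ge_atTop 2] with n hn
  have hn0 : (0 : ℝ) < n := by exact_mod_cast (by omega : 0 < n)
  have hn1 : (1 : ℝ) < n := by exact_mod_cast (by omega : 1 < n)
  have hl : Real.log n ≠ 0 := (Real.log_pos hn1).ne'
  rw [Real.log_mul hα.ne' (Real.rpow_pos_of_pos hn0 c).ne', Real.log_rpow hn0]
  field_simp

theorem pos_pow (α c : ℝ) (hα : 0 < α) : ∀ᶠ n : ℕ in atTop, 0 < α * (n : ℝ) ^ c := by
  filter_upwards [eventually_ge_atTop 1] with n hn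
  have hn0 : (0 : ℝ) < n := by exact_mod_cast hn
  positivity

/-- all arguments -/
theorem multi_count (k : ℕ) (c : Fin k → ℝ) (hc : ∀ j, 0 < c j) (α : Fin k → ℝ) (hα : ∀ j, 0 < α j) (C : ℝ)
    (h : ∀ N : ℕ, 2 ≤ N → |(∑ n ∈ range N, ∏ j, lp ⌊α j * (n : ℝ) ^ (c j)⌋₊) - N| ≤ C * N / (Real.log N) ^ 1) :
    Tendsto (fun N : ℕ => (((range N).filter (fun n : ℕ => ∀ j, (⌊α j * (n : ℝ) ^ (c j)⌋₊).Prime)).card : ℝ) /
      (N / ((∏ j, c j) * (Real.log N) ^ k))) atTop (𝓝 1) := by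
  refine TS15.count_gen lp (fun _ => rfl) k (fun j n => α j * (n : ℝ) ^ (c j)) c hc
    (fun j => lim_pow (α j) (c j) (hα j) (hc j)) (fun j => pos_pow (α j) (c j) (hα j)) ?_
  refine lim_of_err _ 1 C fun R hR => ?_
  rw [mul_one]
  exact h R hR

/-- prime arguments -/
theorem multi_count_prime (k : ℕ) (c : Fin k → ℝ) (hc : ∀ j, 0 < c j) (α : Fin k → ℝ) (hα : ∀ j, 0 < α j) (C : ℝ)
    (h : ∀ N : ℕ, 2 ≤ N → |(∑ n ∈ range N, lp n * ∏ j, lp ⌊α j * (n : ℝ) ^ (c j)⌋₊) - N| ≤ C * N / (Real.log N) ^ 1) :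
    Tendsto (fun N : ℕ => (((range N).filter (fun n : ℕ => n.Prime ∧ ∀ j, (⌊α j * (n : ℝ) ^ (c j)⌋₊).Prime)).card : ℝ) /
      (N / ((∏ j, c j) * (Real.log N) ^ (k + 1)))) atTop (𝓝 1) := by
  have h1 := TS15.count_gen lp (fun _ => rfl) (k + 1)
    (Fin.cons (fun n : ℕ => (n : ℝ)) (fun j n => α j * (n : ℝ) ^ (c j)) : Fin (k + 1) → ℕ → ℝ)
    (Fin.cons 1 c : Fin (k + 1) → ℝ) ?_ ?_ ?_ ?_
  · simp only [Fin.forall_fin_succ, Fin.cons_zero, Fin.cons_succ, Nat.floor_natCast, Fin.prod_univ_succ, one_mul] at h1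
    exact h1
  · intro j
    refine Fin.cases ?_ (fun j => ?_) j
    · simp
    · simpa using hc j
  · intro j
    refine Fin.cases ?_ (fun j => ?_) j
    · have := lim_pow 1 1 one_pos one_pos
      simpa only [one_mul, Real.rpow_one, Fin.cons_zero] using this
    · simpa only [Fin.cons_succ] using lim_pow (α j) (c j) (hα j) (hc j)
  · intro j
    refine Fin.cases ?_ (fun j => ?_) j
    · simp only [Fin.cons_zero]
      filter_upwards [eventually_ge_atTop 1] with n hn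
      exact_mod_cast hn
    · simpa only [Fin.cons_succ] using pos_pow (α j) (c j) (hα j)
  · refine lim_of_err _ 1 C fun R hR => ?_
    rw [mul_one]
    simpa only [Fin.prod_univ_succ, Fin.cons_zero, Fin.cons_succ, Nat.floor_natCast] using h R hR

end Pool.Agent.helper616_TS
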